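import Mathlib.LinearAlgebra.Matrix.Trace
import Mathlib.LinearAlgebra.Matrix.ToLin
import Mathlib.LinearAlgebra.Alternating.Basic
import Mathlib.Analysis.Complex.Basic
import Mathlib.FieldTheory.Finiteness

/-!
# Monodromy groups of abelian varieties: the basic definitions

Everything is stated in terms of matrices. `E` is the centre of the endomorphism algebra of an
abelian variety, `R` its action on the Tate module `V` and `Φ` the Frobenius element of a place of
good reduction; both are given by rational matrices in a suitable basis. `g` is the Lie algebra of the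
`ℓ`-adic monodromy group and `ψ` the Weil pairing, with coefficients in an algebraic closure of
`ℚ_ℓ`, which is identified with `ℂ`. A subspace of `V` which has a stable complement is given by a
projection `P` which commutes with `g`.
-/

set_option autoImplicit false

namespace Pool.Agent.FQV.Stmt

variable {ι : Type} [Fintype ι] [DecidableEq ι] {E : Type} [CommRing E]

/-- The complex matrix with the entries of the rational matrix `Q`. -/
def cm (Q : Matrix ι ι ℚ) : Matrix ι ι ℂ := Q.map ((↑) : ℚ → ℂ)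

/-- The Lie algebra of the Zariski closure of the group generated by `Φ`: the matrices `x` which
are scalars `d μ` on the eigenspaces of `Φ`, such that `∑ k μ * d μ = 0` whenever `∏ μ ^ k μ = 1`. -/
def tor (Φ : Matrix ι ι ℚ) : Set (Matrix ι ι ℂ) :=
  {x | ∃ d : ℂ → ℂ, (∀ (μ : ℂ) (v : ι → ℂ), (cm Φ).mulVec v = μ • v → x.mulVec v = d μ • v) ∧
    ∀ (s : Finset ℂ) (k : ℂ → ℤ), (∀ μ ∈ s, ∃ v : ι → ℂ, v ≠ 0 ∧ (cm Φ).mulVec v = μ • v) →
      ∏ μ ∈ s, μ ^ k μ = 1 → ∑ μ ∈ s, (k μ : ℂ) * d μ = 0}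

/-- `P` is a projection which commutes with `g` and whose image is irreducible (if the
representation is semisimple): there is no smaller projection which commutes with `g`, except `0`. -/
structure Irr (g : Submodule ℂ (Matrix ι ι ℂ)) (P : Matrix ι ι ℂ) : Prop where
  idem : P * P = P
  ne : P ≠ 0
  comm : ∀ x ∈ g, x * P = P * x
  min : ∀ Q : Matrix ι ι ℂ, Q * Q = Q → P * Q = Q → Q * P = Q → (∀ x ∈ g, x * Q = Q * x) →
    Q = 0 ∨ Q = P

/-- The image of `P` is contained in the eigenspace of `E` for the homomorphism `σ`. -/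
def On (R : E →+* Matrix ι ι ℚ) (σ : E →+* ℂ) (P : Matrix ι ι ℂ) : Prop :=
  ∀ a, cm (R a) * P = σ a • P

/-- There is a nondegenerate form `B` on the image of `P`, extended by zero to the kernel of `P`,
such that the elements of `g` have the same multipliers for `B` as for `ψ`; it is alternating if
`s = -1`, symmetric if `s = 1`. -/
def HasForm (g : Submodule ℂ (Matrix ι ι ℂ)) (ψ P : Matrix ι ι ℂ) (s : ℂ) : Prop :=
  ∃ B C : Matrix ι ι ℂ, B.transpose = s • B ∧ P.transpose * B * P = B ∧ C * B = P ∧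
    ∀ x ∈ g, ∀ κ : ℂ, x.transpose * ψ + ψ * x = κ • ψ → x.transpose * B + B * x = κ • B

/-- `σ` is real. -/
def Rl (σ : E →+* ℂ) : Prop := ∀ a, starRingEnd ℂ (σ a) = σ a

/-- The Lie algebra `g` of the monodromy group with the Weil pairing `ψ`: `g` is a reductive Lie
algebra of similitudes of the nondegenerate alternating form `ψ` which contains the scalars (`lie`
to `ss`; `ss`: every stable subspace, the image of `P`, is the image of a projection `Q` commuting
with `g`); the commutant of `g` has the centre `E` (`comm`, `center`, and `iso`: all irreducible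
subspaces of an eigenspace of `E` are isomorphic); the adjoint of `a` is `c a`; for real `σ` the
irreducible subspaces are symplectic if `sp σ`, else orthogonal; the Lie algebra of the Frobenius
torus is contained in `g` and is its own centraliser in `g`. -/
structure Mono (R : E →+* Matrix ι ι ℚ) (c : E → E) (Φ : Matrix ι ι ℚ) (sp : (E →+* ℂ) → Prop)
    (g : Submodule ℂ (Matrix ι ι ℂ)) (ψ : Matrix ι ι ℂ) : Prop where
  lie : ∀ x ∈ g, ∀ y ∈ g, x * y - y * x ∈ g
  one : (1 : Matrix ι ι ℂ) ∈ g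
  sim : ∀ x ∈ g, ∃ κ : ℂ, x.transpose * ψ + ψ * x = κ • ψ
  alt : ψ.transpose = -ψ
  unit : IsUnit ψ
  nd : ∀ x ∈ g, (∀ y ∈ g, (x * y).trace = 0) → x = 0
  ss : ∀ P : Matrix ι ι ℂ, P * P = P → (∀ x ∈ g, P * x * P = x * P) →
    ∃ Q : Matrix ι ι ℂ, P * Q = Q ∧ Q * P = P ∧ ∀ x ∈ g, x * Q = Q * x
  comm : ∀ a, ∀ x ∈ g, x * cm (R a) = cm (R a) * x
  center : ∀ Z : Matrix ι ι ℂ, (∀ x ∈ g, x * Z = Z * x) → ∀ a, Z * cm (R a) = cm (R a) * Z
  iso : ∀ (σ : E →+* ℂ) (P Q : Matrix ι ι ℂ), On R σ P → On R σ Q → Irr g P → Irr g Q →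
    ∃ Z : Matrix ι ι ℂ, (∀ x ∈ g, x * Z = Z * x) ∧ Q * Z * P ≠ 0
  ros : ∀ a, (cm (R a)).transpose * ψ = ψ * cm (R (c a))
  type : ∀ (σ : E →+* ℂ) (P : Matrix ι ι ℂ), Rl σ → On R σ P → Irr g P →
    (sp σ → HasForm g ψ P (-1)) ∧ (¬ sp σ → HasForm g ψ P 1)
  le : ∀ x ∈ tor Φ, x ∈ g
  cent : ∀ x ∈ g, (∀ y ∈ tor Φ, x * y = y * x) → x ∈ tor Φ

/-- `y` is conjugate to `x` under the group generated by the exponentials of the nilpotent elements
of `g`. -/
def Conj (g : Submodule ℂ (Matrix ι ι ℂ)) (x y : Matrix ι ι ℂ) : Prop :=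
  ∃ u ∈ Subgroup.closure {u : (Matrix ι ι ℂ)ˣ | ∃ N ∈ g, ∃ k : ℕ, N ^ k = 0 ∧
      (u : Matrix ι ι ℂ) = ∑ i ∈ Finset.range k, ((i.factorial : ℕ) : ℂ)⁻¹ • N ^ i},
    y = (u : Matrix ι ι ℂ) * x * ((u⁻¹ : (Matrix ι ι ℂ)ˣ) : Matrix ι ι ℂ)

/-- The idempotent `e` in the Lie algebra of the Frobenius torus is conjugate to the idempotent of
the decomposition of Hodge and Tate, `τ` is an automorphism over `ℚ_ℓ`: `τ(e)` is conjugate to
`e`; and `r σ` is the rank of `e` on the irreducible subspaces of the eigenspace for `σ`, that is the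
multiplicity of `σ` in the Lie algebra of the abelian variety (up to the Schur index). -/
structure Coch (R : E →+* Matrix ι ι ℚ) (Φ : Matrix ι ι ℚ) (r : (E →+* ℂ) → ℕ)
    (g : Submodule ℂ (Matrix ι ι ℂ)) (ψ : Matrix ι ι ℂ) (τ : ℂ ≃+* ℂ) (e : Matrix ι ι ℂ) :
    Prop where
  mem : e ∈ tor Φ
  idem : e * e = e
  mult : e.transpose * ψ + ψ * e = ψ
  conj : Conj g e (e.map τ)
  rk : ∀ (σ : E →+* ℂ) (P : Matrix ι ι ℂ), On R σ P → Irr g P → (e * P).trace = r σ

/-- The Lie algebra of the Frobenius torus is contained in the span of all `γ(e')`, where `e'` in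
the Lie algebra of the torus is conjugate to `e` and `γ` is an automorphism of `ℂ`. -/
def Spans (Φ : Matrix ι ι ℚ) (g : Submodule ℂ (Matrix ι ι ℂ)) (e : Matrix ι ι ℂ) : Prop :=
  ∀ x ∈ tor Φ, x ∈ Submodule.span ℂ {y | ∃ e' ∈ tor Φ, Conj g e e' ∧ ∃ γ : ℂ ≃+* ℂ, y = e'.map γ}

/-- The homomorphism `γ ∘ σ`. -/
def cp (γ : ℂ ≃+* ℂ) (σ : E →+* ℂ) : E →+* ℂ := (γ : ℂ →+* ℂ).comp σ

/-- The homomorphisms `σ` and `σ'` have the same kernel: they are embeddings of the same factor of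
`E`. -/
def SK (σ σ' : E →+* ℂ) : Prop := ∀ a, σ' a = 0 ↔ σ a = 0

/-- There is no twist: if `n σ' = n σ` and, for all `γ`, `r (γ σ')` and `r (γ σ)` are equal or one of
them is `0` and the other one `n σ`, then they are equal for all `γ`; if `n σ = 2` this is required
only if `σ'` is not the complex conjugate of `σ`. -/
def NoTwist (n r : (E →+* ℂ) → ℕ) (σ : E →+* ℂ) : Prop :=
  ∀ σ' : E →+* ℂ, n σ ≠ 2 ∨ σ' ≠ cp starRingAut σ → n σ' = n σ →
    (∀ γ : ℂ ≃+* ℂ, r (cp γ σ') = r (cp γ σ) ∨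
      (r (cp γ σ) = 0 ∧ r (cp γ σ') = n σ) ∨ (r (cp γ σ) = n σ ∧ r (cp γ σ') = 0)) →
    ∀ γ : ℂ ≃+* ℂ, r (cp γ σ') = r (cp γ σ)

/-- For one of the embeddings `σ'` of the factor of `E` to which `σ` belongs: `0 < r σ' < n σ`,
`2 r σ' ≠ n σ` and `(n σ, r σ')` is not of the form `(N choose k, (N - 1) choose (k - 1))`,
`2 ≤ k ≤ N - 2`; or `2 r σ' = n σ`, which is not `2 ^ m` with `m` even, `m ≥ 4`. -/
def CondU (n r : (E →+* ℂ) → ℕ) (σ : E →+* ℂ) : Prop :=
  (∃ σ', SK σ σ' ∧ 0 < r σ' ∧ r σ' < n σ ∧ 2 * r σ' ≠ n σ ∧ ∀ N k : ℕ, 2 ≤ k → k + 2 ≤ N →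
    n σ = N.choose k → r σ' ≠ (N - 1).choose (k - 1)) ∨
  ((∃ σ', SK σ σ' ∧ 2 * r σ' = n σ) ∧ ∀ m : ℕ, 4 ≤ m → Even m → n σ ≠ 2 ^ m)

/-- The conditions on the multiplier and the traces of an element `N` of the Mumford–Tate algebra:
they are those of a linear combination of the conjugates of the idempotent of Hodge and Tate. -/
def TrC (R : E →+* Matrix ι ι ℚ) (r : (E →+* ℂ) → ℕ) (g : Submodule ℂ (Matrix ι ι ℂ))
    (ψ N : Matrix ι ι ℂ) (a : (ℂ ≃+* ℂ) →₀ ℂ) : Prop :=
  N.transpose * ψ + ψ * N = (a.sum fun _ z => z) • ψ ∧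
    ∀ (σ : E →+* ℂ) (P : Matrix ι ι ℂ), On R σ P → Irr g P →
      (N * P).trace = a.sum fun γ z => z * (r (cp γ σ) : ℂ)

end Pool.Agent.FQV.Stmt
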