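import Pool.Agent.FQV.CardCl

/-!
# The sum of a function which touches only one class of roots (PACKAGE FV5, pure)

`bij_classes`: this is in the proof of `card_classes` in `CardCl.lean` (`hinj`, `hsurj`), copy it.

`sum_classes`: (1) `f` is constant on the classes for `P j`: let `f = a + b` with `a ∈ span ℚ {h | P j h}` and `b` orthogonal to all `h` with `P j h` (`exists_proj`
in `Pool/Agent/FQA/Mixed.lean`, as in `CardCl.lean`). For `i ≠ j` and `P i h`: `f ⬝ h = 0` (`ho`) and `a ⬝ h = 0` (`h3`), so `b ⬝ h = 0`. So `b ∈ LQ L` is orthogonal to all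
roots (`h2`) and constant (the argument for `hc` in the proof of `card_classes`: `move_LQ (Rf_move H)`, `hL.tr`). And `a` has the same values at two
points of the same class for `P j` (induction on the span).

(2) So `f ω = φ (Quotient.mk (cls (P j)) ω)` for a function `φ` on `Quotient (cls (P j))` with values in `{0, 1}` (`Quotient.lift`). By the bijection
`F : Ω ≃ ∏ i, Quotient (cls (P i))` (`Equiv.ofBijective`) `∑ ω, f ω = ∑ q, φ (q j)`, and the number of the `q` with `q j = x` is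
`∏ i ∈ univ.erase j, card (Quotient (cls (P i)))` for every `x` (for example `Equiv.piSplitAt j _ : (∀ i, β i) ≃ β j × ∀ i : {i // i ≠ j}, β i` and `Fintype.card_pi`; or
`Finset.prod_univ_sum`/`Fintype.piFinset`). So `∑ ω, f ω = (∏ i ∈ univ.erase j, ..) * ∑ x, φ x` and `∑ x, φ x = card {x | φ x = 1}`. (All the quotients are finite,
`Quotient.finite`/`Fintype.ofFinite`.) -/

set_option autoImplicit false
set_option linter.unusedSectionVars false

namespace Pool.Agent.FQV

open Pool.Agent.PrimePow.CC (Rf Rt Lat)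
open Pool.Agent.FQA

theorem bij_classes {Ω : Type*} [Fintype Ω] [Nonempty Ω] {L : AddSubgroup (Ω → ℚ)} (hL : Lat L)
    {k : Type*} [Fintype k] (P : k → (Ω → ℚ) → Prop) (h1 : ∀ i h, P i h → Rt L h)
    (h2 : ∀ h, Rt L h → ∃ i, P i h) (h3 : ∀ i j h h', i ≠ j → P i h → P j h' → h ⬝ᵥ h' = 0) :
    Function.Bijective fun (ω : Ω) (i : k) => (Quotient.mk (cls (P i)) ω) := by
  classical
  -- two sets of roots: the family `j` and the other ones
  have hDec : ∀ j, Dec L (P j) (fun h => ∃ i, i ≠ j ∧ P i h) := by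
    intro j
    refine ⟨h1 j, ?_, ?_, ?_⟩
    · rintro h ⟨i, -, hi⟩
      exact h1 i h hi
    · rintro h h' hh ⟨i, hij, hi⟩
      exact h3 j i h h' (Ne.symm hij) hh hi
    · intro X hX hX2
      refine hL.tr X hX fun h π H ω hω => hX2 h π ?_ H ω hω
      obtain ⟨i, hi⟩ := h2 h ⟨π, H⟩
      by_cases hij : i = j
      · subst hij
        exact Or.inl hi
      · exact Or.inr ⟨i, hij, hi⟩
  -- the map to the classes
  let F : Ω → ∀ i, Quotient (cls (P i)) := fun ω i => Quotient.mk (cls (P i)) ω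
  have hinj : Function.Injective F := by
    intro ω ω' hω
    have hcl : ∀ i h, P i h → h ω = h ω' := fun i => Quotient.exact (congrFun hω i)
    refine hL.sep ω ω' fun f hf => ?_
    obtain ⟨f1, f1S, f1p⟩ := exists_proj (Submodule.span ℚ {h | Rt L h}) f
    have hf1 : f1 ω = f1 ω' := by
      clear f1p
      induction f1S using Submodule.span_induction with
      | mem h hh =>
        obtain ⟨i, hi⟩ := h2 h hh
        exact hcl i h hi
      | zero => rfl
      | add a b _ _ ha hb => rw [Pi.add_apply, Pi.add_apply, ha, hb]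
      | smul c a _ ha => rw [Pi.smul_apply, Pi.smul_apply, ha]
    have hle : Submodule.span ℚ {h | Rt L h} ≤ LQ L := by
      rw [Submodule.span_le]
      intro h hh
      exact mem_LQ (Pool.Agent.NumRank.Rt_mem hh)
    have hf2 : f - f1 ∈ LQ L := (LQ L).sub_mem (mem_LQ hf) (hle f1S)
    have hX := hL.tr {x | (f - f1) x = (f - f1) ω} ⟨ω, rfl⟩ (fun h π H x hx => by
      rw [Set.mem_ofPred_eq] at hx ⊢
      have h4 : Pool.Agent.NumRank.cf (f - f1) h = 0 := by
        rw [Pool.Agent.NumRank.cf_eq_zero H.dot_self_pos.ne']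
        exact f1p h (Submodule.subset_span ⟨π, H⟩)
      rw [move_LQ (Rf_move H) hf2, h4, zero_mul, sub_zero, hx])
    have hc : (f - f1) ω' = (f - f1) ω := by
      have h4 : ω' ∈ {x | (f - f1) x = (f - f1) ω} := hX ▸ Set.mem_univ ω'
      exact h4
    rw [Pi.sub_apply, Pi.sub_apply, hf1] at hc
    linarith
  have hsurj : Function.Surjective F := by
    have key : ∀ (s : Finset k) (ω : k → Ω), ∃ ω'', ∀ i ∈ s, ∀ h, P i h → h ω'' = h (ω i) := by
      intro s ω
      induction s using Finset.induction_on with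
      | empty => exact ⟨Classical.arbitrary Ω, fun i hi => absurd hi (Finset.notMem_empty i)⟩
      | insert j s hj ih =>
        obtain ⟨ω₁, hω₁⟩ := ih
        obtain ⟨ω₂, e1, e2⟩ := (hDec j).mix (ω j) ω₁
        refine ⟨ω₂, fun i hi h hh => ?_⟩
        rcases Finset.mem_insert.1 hi with rfl | hi
        · exact e1 h (Submodule.subset_span hh)
        · have hij : i ≠ j := fun h4 => hj (h4 ▸ hi)
          rw [e2 h (mem_LQ (Pool.Agent.NumRank.Rt_mem (h1 i h hh)))
            (fun h' hh' => h3 j i h' h (Ne.symm hij) hh' hh)]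
          exact hω₁ i hi h hh
    intro q
    obtain ⟨ω'', h4⟩ := key Finset.univ (fun i => (q i).out)
    refine ⟨ω'', funext fun i => ?_⟩
    have h5 : Quotient.mk (cls (P i)) (q i).out = q i := Quotient.out_eq (q i)
    rw [← h5]
    exact Quotient.sound (h4 i (Finset.mem_univ i))
  exact ⟨hinj, hsurj⟩

private theorem const_cls {Ω : Type*} [Fintype Ω] [Nonempty Ω] {L : AddSubgroup (Ω → ℚ)}
    (hL : Lat L) {k : Type*} [Fintype k] (P : k → (Ω → ℚ) → Prop)
    (h1 : ∀ i h, P i h → Rt L h) (h2 : ∀ h, Rt L h → ∃ i, P i h)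
    (h3 : ∀ i j h h', i ≠ j → P i h → P j h' → h ⬝ᵥ h' = 0) (j : k) {f : Ω → ℚ} (hf : f ∈ L)
    (ho : ∀ i h, i ≠ j → P i h → f ⬝ᵥ h = 0) {ω ω' : Ω} (hcl : ∀ h, P j h → h ω = h ω') :
    f ω = f ω' := by
  obtain ⟨f1, f1S, f1p⟩ := exists_proj (Submodule.span ℚ {h | P j h}) f
  have hf1 : f1 ω = f1 ω' := by
    clear f1p
    induction f1S using Submodule.span_induction with
    | mem h hh => exact hcl h hh
    | zero => rfl
    | add a b _ _ ha hb => rw [Pi.add_apply, Pi.add_apply, ha, hb]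
    | smul c a _ ha => rw [Pi.smul_apply, Pi.smul_apply, ha]
  have hort : ∀ i h, i ≠ j → P i h → h ⬝ᵥ f1 = 0 := by
    intro i h hij hh
    clear f1p hf1
    induction f1S using Submodule.span_induction with
    | mem g hg => exact h3 i j h g hij hh hg
    | zero => exact dotProduct_zero h
    | add a b _ _ ha hb => rw [dotProduct_add, ha, hb, add_zero]
    | smul c a _ ha => rw [dotProduct_smul, ha, smul_zero]
  have hle : Submodule.span ℚ {h | P j h} ≤ LQ L := by
    rw [Submodule.span_le]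
    intro h hh
    exact mem_LQ (Pool.Agent.NumRank.Rt_mem (h1 j h hh))
  have hf2 : f - f1 ∈ LQ L := (LQ L).sub_mem (mem_LQ hf) (hle f1S)
  have hX := hL.tr {x | (f - f1) x = (f - f1) ω} ⟨ω, rfl⟩ (fun h π H x hx => by
    rw [Set.mem_ofPred_eq] at hx ⊢
    have h4 : Pool.Agent.NumRank.cf (f - f1) h = 0 := by
      rw [Pool.Agent.NumRank.cf_eq_zero H.dot_self_pos.ne']
      obtain ⟨i, hi⟩ := h2 h ⟨π, H⟩
      by_cases hij : i = j
      · subst hij
        exact f1p h (Submodule.subset_span hi)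
      · rw [dotProduct_sub, hort i h hij hi, dotProduct_comm, ho i h hij hi, sub_zero]
    rw [move_LQ (Rf_move H) hf2, h4, zero_mul, sub_zero, hx])
  have hc : (f - f1) ω' = (f - f1) ω := by
    have h4 : ω' ∈ {x | (f - f1) x = (f - f1) ω} := hX ▸ Set.mem_univ ω'
    exact h4
  rw [Pi.sub_apply, Pi.sub_apply, hf1] at hc
  linarith

private theorem sum_pi_one {k : Type*} [Fintype k] [DecidableEq k] {β : k → Type*}
    [∀ i, Fintype (β i)] (j : k) (φ : β j → ℚ) :
    ∑ q : ∀ i, β i, φ (q j) = (((∏ i ∈ Finset.univ.erase j, Nat.card (β i)) : ℕ) : ℚ) *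
      ∑ x, φ x := by
  classical
  have e1 : ∑ q : ∀ i, β i, φ (q j) =
      ∑ y : β j × (∀ i : {i // i ≠ j}, β i), φ y.1 := by
    rw [← Equiv.sum_comp (Equiv.piSplitAt j β)]
    rfl
  have e2 : ∏ i ∈ Finset.univ.erase j, Nat.card (β i) =
      Fintype.card (∀ i : {i // i ≠ j}, β i) := by
    rw [Fintype.card_pi, Finset.prod_subtype (Finset.univ.erase j) (p := fun i => i ≠ j)
      (fun x => by simp) (fun i => Nat.card (β i))]
    exact Finset.prod_congr rfl fun i _ => Nat.card_eq_fintype_card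
  rw [e1, e2, Fintype.sum_prod_type, Finset.mul_sum]
  refine Finset.sum_congr rfl fun x _ => ?_
  change ∑ _y : (∀ i : {i // i ≠ j}, β i), φ x = _
  rw [Finset.sum_const, Finset.card_univ, nsmul_eq_mul]

theorem sum_classes {Ω : Type*} [Fintype Ω] [Nonempty Ω] {L : AddSubgroup (Ω → ℚ)} (hL : Lat L)
    {k : Type*} [Fintype k] [DecidableEq k] (P : k → (Ω → ℚ) → Prop)
    (h1 : ∀ i h, P i h → Rt L h) (h2 : ∀ h, Rt L h → ∃ i, P i h)
    (h3 : ∀ i j h h', i ≠ j → P i h → P j h' → h ⬝ᵥ h' = 0) (j : k) {f : Ω → ℚ} (hf : f ∈ L)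
    (h01 : ∀ ω, f ω = 0 ∨ f ω = 1) (ho : ∀ i h, i ≠ j → P i h → f ⬝ᵥ h = 0) :
    ∃ s : ℕ, ∑ ω, f ω =
      (((∏ i ∈ Finset.univ.erase j, Nat.card (Quotient (cls (P i)))) * s : ℕ) : ℚ) := by
  classical
  have : ∀ i, Fintype (Quotient (cls (P i))) := fun i => Fintype.ofFinite _
  let φ : Quotient (cls (P j)) → ℚ := Quotient.lift f fun ω ω' hω =>
    const_cls hL P h1 h2 h3 j hf ho hω
  have hφ : ∀ x, φ x = 0 ∨ φ x = 1 := fun x => Quotient.inductionOn x h01
  refine ⟨(Finset.univ.filter fun x => φ x = 1).card, ?_⟩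
  have e1 : ∑ ω, f ω = ∑ q : ∀ i, Quotient (cls (P i)), φ (q j) := by
    rw [← Equiv.sum_comp (Equiv.ofBijective _ (bij_classes hL P h1 h2 h3))]
    rfl
  have e2 : ∑ x, φ x = (((Finset.univ.filter fun x => φ x = 1).card : ℕ) : ℚ) := by
    rw [Finset.card_filter, Nat.cast_sum]
    refine Finset.sum_congr rfl fun x _ => ?_
    rcases hφ x with h | h
    · rw [h, if_neg zero_ne_one, Nat.cast_zero]
    · rw [h, if_pos rfl, Nat.cast_one]
  rw [e1, sum_pi_one (β := fun i => Quotient (cls (P i))) j φ, e2, Nat.cast_mul]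

end Pool.Agent.FQV
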