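import Pool.Agent.FQV.TransK
import Pool.Agent.FQA.TouchF

/-!
# Roots without zeros

`no_fl`: if all roots for the embeddings with the same kernel as the real embedding `σ` are
connected, if the coroots of all root vectors are without zeros as soon as there is a root without
zeros, and if the number of the eigenvalues is larger than two, then there is no root without
zeros. The proof is the proof of `all_cn` with the pairs `{F, -F}` of roots without zeros instead of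
the connected components. This is applied for symplectic `W` of dimension eight (`ar_fl_sp`) and
orthogonal `W` of dimension four (`ar_fl_so`).
-/

set_option autoImplicit false
set_option linter.unusedSectionVars false

namespace Pool.Agent.FQV

open Module
open Pool.Agent.CoprimeSig (ratM)
open Pool.Agent.FQA (TD Cn Fl Cube exists_cube conn_of_cn AR)
open Pool.Agent.PrimePow.CC (Rf Rt Lat)
open Pool.Agent.FQ (expG fixG)

variable {ι : Type} [Fintype ι] [DecidableEq ι] {E : Type} [CommRing E]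
  {R : E →+* Matrix ι ι ℚ} {Φ : Matrix ι ι ℚ} {c : E → E} {r : (E →+* ℂ) → ℕ} {σ : E →+* ℂ}
  {g : Submodule ℂ (Matrix ι ι ℂ)} {ψ : Matrix ι ι ℂ} {F F' G : ℂ → ℚ}

/-- `F` is a root without zeros for `σ`. -/
structure Flr (R : E →+* Matrix ι ι ℚ) (Φ : Matrix ι ι ℚ) (σ : E →+* ℂ) (F : ℂ → ℚ) : Prop where
  rts : Rts R Φ σ F
  fl : Fl (Ls R Φ σ) (rs R Φ σ F)

theorem rs_neg : rs R Φ σ (-F) = -rs R Φ σ F := by
  funext μ
  rw [Pi.neg_apply, rs_apply, rs_apply, Pi.neg_apply]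

theorem Flr.neg (h : Flr R Φ σ F) : Flr R Φ σ (-F) := by
  have h1 : Fl (Ls R Φ σ) (rs R Φ σ (-F)) := by
    rw [rs_neg]
    exact h.fl.neg
  exact ⟨⟨fun μ hμ => by rw [Pi.neg_apply, h.rts.supp μ hμ, neg_zero], h1.rt⟩, h1⟩

theorem Flr.mv (hΦ : ⨆ μ, Module.End.eigenspace (Matrix.toLin' (ratM Φ)) μ = ⊤)
    (γ : ℂ ≃+* ℂ) (h : Flr R Φ σ F) : Flr R Φ (cp γ σ) (mv γ F) := by
  have h1 := h.rts.mv hΦ γ
  refine ⟨h1, h1.rt, fun ω => ?_⟩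
  have h2 := congrFun (rs_mv (R := R) (Φ := Φ) (σ := σ) (γ := γ) (F := F))
    ((omE R Φ γ σ).symm ω)
  rw [Function.comp_apply, Equiv.apply_symm_apply] at h2
  rw [h2]
  exact h.fl.val _

private theorem mv_neg (γ : ℂ ≃+* ℂ) (F : ℂ → ℚ) : mv γ (-F) = -mv γ F := rfl

private theorem mv_mv_symm (γ : ℂ ≃+* ℂ) (F : ℂ → ℚ) : mv γ (mv γ.symm F) = F := by
  funext μ
  simp [mv]

private theorem cp_symm_cp (γ : ℂ ≃+* ℂ) (σ : E →+* ℂ) : cp γ.symm (cp γ σ) = σ := by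
  ext a
  simp [cp_apply]

/-- `c` is a pair `{F, -F}` of roots without zeros. -/
def IsFc (R : E →+* Matrix ι ι ℚ) (Φ : Matrix ι ι ℚ) (σ : E →+* ℂ) (c : Set (ℂ → ℚ)) : Prop :=
  ∃ F, Flr R Φ σ F ∧ c = {F, -F}

theorem isFc_mv (hΦ : ⨆ μ, Module.End.eigenspace (Matrix.toLin' (ratM Φ)) μ = ⊤)
    (γ : ℂ ≃+* ℂ) {c : Set (ℂ → ℚ)} (h : IsFc R Φ σ c) : IsFc R Φ (cp γ σ) (mv γ '' c) := by
  obtain ⟨F, h1, rfl⟩ := h
  exact ⟨mv γ F, h1.mv hΦ γ, by rw [Set.image_pair, mv_neg]⟩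

theorem finite_fc (R : E →+* Matrix ι ι ℚ) (Φ : Matrix ι ι ℚ) (σ : E →+* ℂ) :
    {c | IsFc R Φ σ c}.Finite := by
  refine ((finite_rts R Φ σ).image fun F => ({F, -F} : Set (ℂ → ℚ))).subset ?_
  rintro c ⟨F, hF, rfl⟩
  exact ⟨F, hF.rts, rfl⟩

/-- The roots without zeros to which `G` is not orthogonal. -/
def fch (R : E →+* Matrix ι ι ℚ) (Φ : Matrix ι ι ℚ) (σ : E →+* ℂ) (G : ℂ → ℚ) : Set (ℂ → ℚ) :=
  {F | Flr R Φ σ F ∧ rs R Φ σ G ⬝ᵥ rs R Φ σ F ≠ 0}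

theorem fch_mv (hΦ : ⨆ μ, Module.End.eigenspace (Matrix.toLin' (ratM Φ)) μ = ⊤)
    (γ : ℂ ≃+* ℂ) (G : ℂ → ℚ) :
    fch R Φ (cp γ σ) (mv γ G) = mv γ '' fch R Φ σ G := by
  ext F
  constructor
  · rintro ⟨h1, h2⟩
    have h3 := h1.mv hΦ γ.symm
    rw [cp_symm_cp] at h3
    refine ⟨mv γ.symm F, ⟨h3, ?_⟩, mv_mv_symm γ F⟩
    rw [← dot_mv γ, mv_mv_symm]
    exact h2
  · rintro ⟨F, ⟨h1, h2⟩, rfl⟩
    refine ⟨h1.mv hΦ γ, ?_⟩
    rw [dot_mv]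
    exact h2

/-- Two elements of a pair. -/
private theorem fc_eq {F F' : ℂ → ℚ} (h : F' = F ∨ F' = -F) :
    ({F', -F'} : Set (ℂ → ℚ)) = {F, -F} := by
  rcases h with rfl | rfl
  · rfl
  · rw [neg_neg, Set.pair_comm]

private theorem flr_ext (h : Flr R Φ σ F) (h' : Flr R Φ σ F')
    (he : rs R Φ σ F' = rs R Φ σ F ∨ rs R Φ σ F' = -rs R Φ σ F) : F' = F ∨ F' = -F := by
  rcases he with he | he
  · exact Or.inl (rts_ext h'.rts h.rts he)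
  · exact Or.inr (rts_ext h'.rts h.neg.rts (by rw [he, rs_neg]))

/-- An element of a pair determines the pair. -/
theorem fc_of_mem {c : Set (ℂ → ℚ)} (hc : IsFc R Φ σ c) (hF : F ∈ c) :
    Flr R Φ σ F ∧ c = {F, -F} := by
  obtain ⟨F', h1, rfl⟩ := hc
  rcases hF with rfl | rfl
  · exact ⟨h1, rfl⟩
  · exact ⟨h1.neg, by rw [neg_neg, Set.pair_comm]⟩

private theorem ev_Ls [Algebra ℚ E] [Module.Finite ℚ E] [IsReduced E] {e : Matrix ι ι ℂ}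
    (he : e ∈ tor Φ) (hee : e * e = e) : rs R Φ σ (ev Φ e) ∈ Ls R Φ σ :=
  mem_Ls.2 ⟨fun ω => by
    rw [rs_apply]
    rcases ev_or Φ e ω with h | h
    · exact ⟨0, by rw [h, Int.cast_zero]⟩
    · exact ⟨1, by rw [h, Int.cast_one]⟩, e, he, vals_ev he hee⟩

/-- The roots without zeros touched by an idempotent are a pair. -/
theorem fch_isFc [Algebra ℚ E] [Module.Finite ℚ E] [IsReduced E] (M : Mono R c Φ g ψ)
    (H : IsFrob R Φ) (hI : Idem Φ) {e : Matrix ι ι ℂ} (he : e ∈ tor Φ) (hee : e * e = e)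
    (hns : Ns R Φ e σ)
    (hcn : ∀ h h', Rt (Ls R Φ σ) h → Rt (Ls R Φ σ) h' → Cn (Ls R Φ σ) h h')
    (hfl : ∃ k, Fl (Ls R Φ σ) k) : IsFc R Φ σ (fch R Φ σ (ev Φ e)) := by
  have hL := lat M H hI σ
  obtain ⟨S, C⟩ := exists_cube hL (conn_of_cn hcn) hfl
  have hf : rs R Φ σ (ev Φ e) ∈ Ls R Φ σ := ev_Ls he hee
  have hval : ∀ ω, rs R Φ σ (ev Φ e) ω = 0 ∨ rs R Φ σ (ev Φ e) ω = 1 := fun ω => by
    rw [rs_apply]
    exact ev_or Φ e ω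
  obtain ⟨k, hk, hk2⟩ : ∃ k, Fl (Ls R Φ σ) k ∧ ∀ ω, rs R Φ σ (ev Φ e) ω = (1 + k ω) / 2 := by
    rcases C.idem hf hval with h1 | h1
    · exfalso
      obtain ⟨μ, hμ, ν, hν, h2, h3⟩ := hns
      have h4 := h1 ⟨μ, hμ⟩ ⟨ν, hν⟩
      rw [rs_apply, rs_apply, h2, h3] at h4
      norm_num at h4
    · exact h1
  obtain ⟨F, hF, rfl⟩ := exists_rts hk.rt
  have h0 : rs R Φ σ (ev Φ e) ⬝ᵥ rs R Φ σ F ≠ 0 := by
    have h1 : rs R Φ σ (ev Φ e) ⬝ᵥ rs R Φ σ F = (rs R Φ σ F ⬝ᵥ rs R Φ σ F) / 2 := by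
      have h2 : ∑ ω, rs R Φ σ F ω = 0 := Pool.Agent.NumRank.Rt_sum hk.rt
      simp only [dotProduct, hk2]
      rw [Finset.sum_div, ← sub_eq_zero, ← Finset.sum_sub_distrib]
      have h3 : ∀ ω, (1 + rs R Φ σ F ω) / 2 * rs R Φ σ F ω -
          rs R Φ σ F ω * rs R Φ σ F ω / 2 = rs R Φ σ F ω * (1 / 2) := fun ω => by ring
      simp only [h3]
      rw [← Finset.sum_mul, h2, zero_mul]
    rw [h1]
    exact div_ne_zero (Pool.Agent.NumRank.Rt_sq_ne hk.rt) two_ne_zero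
  refine ⟨F, ⟨hF, hk⟩, ?_⟩
  ext F'
  constructor
  · rintro ⟨h1, h2⟩
    have h3 := hk.one_of hL h1.fl hf hval (by rwa [dotProduct_comm])
      (by rwa [dotProduct_comm])
    exact flr_ext ⟨hF, hk⟩ h1 h3
  · rintro (rfl | rfl)
    · exact ⟨⟨hF, hk⟩, h0⟩
    · refine ⟨Flr.neg ⟨hF, hk⟩, ?_⟩
      rw [rs_neg, dotProduct_neg]
      exact neg_ne_zero.2 h0

/-- The coroots of the root vectors are without zeros. -/
def AllFl (R : E →+* Matrix ι ι ℚ) (Φ : Matrix ι ι ℚ) (g : Submodule ℂ (Matrix ι ι ℂ))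
    (σ : E →+* ℂ) : Prop :=
  ∀ (W : Submodule ℂ (ι → ℂ)) (p : (ι → ℂ) →ₗ[ℂ] W) (v : Basis (Om R Φ σ) ℂ W),
    Frame R Φ g σ W p v → ∀ h, AR (res p g) (res p (tor Φ)) (res p g) v h → Fl (Ls R Φ σ) h

/-- Conjugate idempotents touch the same roots without zeros. -/
theorem fch_conj [Algebra ℚ E] [Module.Finite ℚ E] [IsReduced E] (M : Mono R c Φ g ψ)
    (H : IsFrob R Φ) (hI : Idem Φ) {e e' : Matrix ι ι ℂ} (he : e ∈ tor Φ) (hee : e * e = e)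
    (hns : Ns R Φ e σ) (he' : e' ∈ tor Φ) (hns' : Ns R Φ e' σ) {u : (Matrix ι ι ℂ)ˣ}
    (hu : u ∈ expG ℂ g)
    (hue : e' = (u : Matrix ι ι ℂ) * e * ((u⁻¹ : (Matrix ι ι ℂ)ˣ) : Matrix ι ι ℂ))
    (hcn : ∀ h h', Rt (Ls R Φ σ) h → Rt (Ls R Φ σ) h' → Cn (Ls R Φ σ) h h')
    (hfl : ∃ k, Fl (Ls R Φ σ) k) (hall : AllFl R Φ g σ) :
    fch R Φ σ (ev Φ e) = fch R Φ σ (ev Φ e') := by
  have hee' : e' * e' = e' := conj_idem hee hue
  obtain ⟨F₁, h1, e1⟩ := fch_isFc M H hI he hee hns hcn hfl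
  obtain ⟨F₂, h2, e2⟩ := fch_isFc M H hI he' hee' hns' hcn hfl
  obtain ⟨W, p, v, F⟩ := exists_frame M H hI σ
  have hnt := F.nontrivial
  have T := td M H hI F.irr F.prj
  obtain ⟨a1, a2, a3⟩ := rm_val F M he hee
  obtain ⟨b1, b2, b3⟩ := rm_val F M he' hee'
  obtain ⟨u', hu', hconj⟩ := exp_res F.prj F.irr.1 hu
  have h5 := hconj e (M.le he)
  rw [← hue] at h5
  have m1 : F₁ ∈ fch R Φ σ (ev Φ e) := by
    rw [e1]
    exact Or.inl rfl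
  have m2 : F₂ ∈ fch R Φ σ (ev Φ e') := by
    rw [e2]
    exact Or.inl rfl
  have h6 := T.fl_touch v (F.hv M) (fun h hh => by
      rw [F.lv M]
      exact hall W p v F h hh) a1 a2 b1 b2 hu' h5 a3 b3
    (by rw [F.lv M]; exact h1.fl) (by rw [dotProduct_comm]; exact m1.2)
    (by rw [F.lv M]; exact h2.fl) (by rw [dotProduct_comm]; exact m2.2)
  rw [e1, e2]
  exact (fc_eq (flr_ext h1 h2 h6)).symm

theorem coch_fch [Algebra ℚ E] [Module.Finite ℚ E] [IsReduced E] (M : Mono R c Φ g ψ)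
    (H : IsFrob R Φ) (hI : Idem Φ) {τ : ℂ ≃+* ℂ} {e : Matrix ι ι ℂ} (C : Coch R Φ r g ψ τ e)
    {σ : E →+* ℂ} (hns : Ns R Φ e (cp τ σ))
    (hcn : ∀ h h', Rt (Ls R Φ (cp τ σ)) h → Rt (Ls R Φ (cp τ σ)) h' →
      Cn (Ls R Φ (cp τ σ)) h h')
    (hfl : ∃ k, Fl (Ls R Φ (cp τ σ)) k) (hall : AllFl R Φ g (cp τ σ)) :
    mv τ '' fch R Φ σ (ev Φ e) = fch R Φ (cp τ σ) (ev Φ e) := by
  rw [← fch_mv H.diag]
  have h1 : mv τ (ev Φ e) = ev Φ (e.map τ) := funext fun μ => (ev_map Φ e τ μ).symm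
  rw [h1]
  obtain ⟨u, hu, hue⟩ := C.conj
  have hm := map_mem_tor C.mem τ H.diag
  exact (fch_conj M H hI C.mem C.idem hns hm (ns_conj M H hI C.mem C.idem hns hm hu hue) hu
    hue hcn hfl hall).symm

/-- Every pair is a conjugate of the pair touched by the idempotent. -/
theorem fc_orbit [Algebra ℚ E] [Module.Finite ℚ E] [IsReduced E] (M : Mono R c Φ g ψ)
    (H : IsFrob R Φ) (hI : Idem Φ) {e : Matrix ι ι ℂ} (he : e ∈ tor Φ) (hee : e * e = e)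
    {σ : E →+* ℂ} (hns : ∀ σ' : E →+* ℂ, SK σ σ' → Ns R Φ e σ')
    (hcn : ∀ σ' : E →+* ℂ, SK σ σ' → ∀ h h', Rt (Ls R Φ σ') h → Rt (Ls R Φ σ') h' →
      Cn (Ls R Φ σ') h h')
    (hfl : ∀ σ' : E →+* ℂ, SK σ σ' → ∃ k, Fl (Ls R Φ σ') k)
    (hall : ∀ σ' : E →+* ℂ, SK σ σ' → AllFl R Φ g σ')
    (hspan : tor Φ ≤ Submodule.span ℂ (orbit Φ g e)) {c : Set (ℂ → ℚ)}
    (hc : IsFc R Φ σ c) : ∃ (γ : ℂ ≃+* ℂ) (σ' : E →+* ℂ),
      σ = cp γ σ' ∧ c = mv γ '' fch R Φ σ' (ev Φ e) := by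
  obtain ⟨F, hF, rfl⟩ := hc
  obtain ⟨π, hπ⟩ := hF.rts.rt
  obtain ⟨-, y, hy, hvy⟩ := mem_Ls.1 hπ.mem
  obtain ⟨L, hL⟩ := exists_functional R Φ σ (rs R Φ σ F)
  have hLy : L y ≠ 0 := by
    rw [hL y _ hvy]
    intro h0
    have h1 : (rs R Φ σ F ⬝ᵥ rs R Φ σ F : ℚ) = 0 := by exact_mod_cast h0
    exact hπ.ne (dotProduct_self_eq_zero.1 h1)
  obtain ⟨z, hz, hLz⟩ : ∃ z ∈ orbit Φ g e, L z ≠ 0 := by
    by_contra hcon
    push Not at hcon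
    have h1 : tor Φ ≤ LinearMap.ker L := hspan.trans (Submodule.span_le.2 fun z hz => hcon z hz)
    exact hLy (h1 hy)
  obtain ⟨e', he', ⟨u, hu, hue⟩, γ, rfl⟩ := hz
  have hee' : e' * e' = e' := conj_idem hee hue
  have hσ : σ = cp γ (cp γ.symm σ) := by
    ext a
    simp [cp_apply]
  have hsk : SK σ (cp γ.symm σ) := fun a => by
    rw [cp_apply]
    exact map_eq_zero_iff γ.symm γ.symm.injective
  have hsk' : SK σ σ := fun a => Iff.rfl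
  have hns1 : Ns R Φ e (cp γ.symm σ) := hns _ hsk
  have hns' : Ns R Φ e' (cp γ.symm σ) := ns_conj M H hI he hee hns1 he' hu hue
  have hns2 : Ns R Φ (e'.map γ) σ := by
    have h1 := ns_map hns' γ
    rwa [← hσ] at h1
  have hz1 : e'.map γ ∈ tor Φ := map_mem_tor he' γ H.diag
  have hz2 : e'.map γ * e'.map γ = e'.map γ := by
    have h1 := Matrix.map_mul (L := e') (M := e') (f := (γ : ℂ →+* ℂ))
    rw [hee'] at h1
    exact h1.symm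
  have hne : rs R Φ σ (ev Φ (e'.map γ)) ⬝ᵥ rs R Φ σ F ≠ 0 := by
    intro h0
    apply hLz
    rw [hL _ _ (vals_ev hz1 hz2), h0, Rat.cast_zero]
  have hmem : F ∈ fch R Φ σ (ev Φ (e'.map γ)) := ⟨hF, hne⟩
  have hfc := fch_isFc M H hI hz1 hz2 hns2 (hcn σ hsk') (hfl σ hsk')
  refine ⟨γ, cp γ.symm σ, hσ, ?_⟩
  rw [← (fc_of_mem hfc hmem).2, fch_conj M H hI he hee hns1 he' hns' hu hue (hcn _ hsk)
    (hfl _ hsk) (hall _ hsk), ← fch_mv H.diag, ← hσ]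
  congr 1
  exact funext fun μ => ev_map Φ e' γ μ

/-- The number of the pairs. -/
theorem card_fc [Algebra ℚ E] [Module.Finite ℚ E] [IsReduced E] (M : Mono R c Φ g ψ)
    (H : IsFrob R Φ) (hI : Idem Φ)
    (hcn : ∀ h h', Rt (Ls R Φ σ) h → Rt (Ls R Φ σ) h' → Cn (Ls R Φ σ) h h')
    (hfl : ∃ k, Fl (Ls R Φ σ) k) :
    Fintype.card (Om R Φ σ) = 2 ^ Nat.card {c : Set (ℂ → ℚ) // IsFc R Φ σ c} := by
  classical
  have hL := lat M H hI σ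
  obtain ⟨S, C⟩ := exists_cube hL (conn_of_cn hcn) hfl
  rw [C.card]
  congr 1
  have h1 : ∀ k : S, ∃ F, Rts R Φ σ F ∧ rs R Φ σ F = k := fun k => exists_rts (C.fl k k.2).rt
  choose f hf hfk using h1
  have hfl' : ∀ k : S, Flr R Φ σ (f k) := fun k => ⟨hf k, by rw [hfk]; exact C.fl k k.2⟩
  have hb : Function.Bijective (fun k : S =>
      (⟨{f k, -f k}, f k, hfl' k, rfl⟩ : {c : Set (ℂ → ℚ) // IsFc R Φ σ c})) := by
    constructor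
    · intro k k' h
      have h2 : ({f k, -f k} : Set (ℂ → ℚ)) = {f k', -f k'} := congrArg Subtype.val h
      have h3 : f k ∈ ({f k', -f k'} : Set (ℂ → ℚ)) := by
        rw [← h2]
        exact Or.inl rfl
      apply Subtype.ext
      by_contra hne
      have h4 := C.orth k' k'.2 k k.2 hne
      rcases h3 with h3 | h3
      · exact hne (by rw [← hfk k, h3, hfk])
      · have h3' : f k = -f k' := h3
        rw [← hfk k, h3', rs_neg, hfk, neg_dotProduct, neg_eq_zero] at h4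
        exact Pool.Agent.NumRank.Rt_sq_ne (C.fl k' k'.2).rt h4
    · rintro ⟨c, F, hF, rfl⟩
      rcases C.pm _ hF.fl with h2 | h2
      · refine ⟨⟨_, h2⟩, Subtype.ext (fc_eq (Or.inl ?_))⟩
        exact rts_ext (hf _) hF.rts (hfk _)
      · refine ⟨⟨_, h2⟩, Subtype.ext (fc_eq (Or.inr ?_))⟩
        refine rts_ext (hf _) hF.neg.rts ?_
        rw [hfk, rs_neg]
  rw [← Nat.card_congr (Equiv.ofBijective _ hb), Nat.card_eq_fintype_card, Fintype.card_coe]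

/-- Homomorphisms with the same kernel as `σ`. -/
private def BB (σ : E →+* ℂ) : Type := {σ' : E →+* ℂ // SK σ σ'}

/-- Pairs whose first component has the same kernel as `σ`. -/
private def XX (R : E →+* Matrix ι ι ℚ) (Φ : Matrix ι ι ℚ) (σ : E →+* ℂ) : Type :=
  {q : (E →+* ℂ) × Set (ℂ → ℚ) // SK σ q.1 ∧ IsFc R Φ q.1 q.2}

private theorem ker_cp {σ σ' : E →+* ℂ} (h : SK σ σ') (γ : ℂ ≃+* ℂ) : SK σ (cp γ σ') := fun a => by
  rw [cp_apply, map_eq_zero_iff γ γ.injective]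
  exact h a

@[reducible] private def actX (hΦ : ⨆ μ, Module.End.eigenspace (Matrix.toLin' (ratM Φ)) μ = ⊤)
    (σ : E →+* ℂ) : MulAction (ℂ ≃+* ℂ) (XX R Φ σ) where
  smul γ q := ⟨(cp γ q.1.1, mv γ '' q.1.2), ker_cp q.2.1 γ, isFc_mv hΦ γ q.2.2⟩
  one_smul q := Subtype.ext (Prod.ext rfl
    ((Set.image_congr fun F _ => (mv_one : mv 1 F = F)).trans (Set.image_id' _)))
  mul_smul γ γ' q := Subtype.ext (Prod.ext rfl (by
    change mv (γ * γ') '' q.1.2 = mv γ '' (mv γ' '' q.1.2)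
    rw [Set.image_image]
    rfl))

@[reducible] private def actB (σ : E →+* ℂ) : MulAction (ℂ ≃+* ℂ) (BB σ) where
  smul γ b := ⟨cp γ b.1, ker_cp b.2 γ⟩
  one_smul _ := rfl
  mul_smul _ _ _ := rfl

private theorem iter_pow (τ₀ : ℂ ≃+* ℂ) : ∀ (k : ℕ) (z : ℂ), (τ₀ ^ k) z = (τ₀ ^[k]) z := by
  intro k
  induction k with
  | zero =>
    intro z
    rfl
  | succ k ih =>
    intro z
    rw [pow_succ, Function.iterate_succ_apply, ← ih]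
    rfl

private theorem finite_XX [Algebra ℚ E] [Module.Finite ℚ E] (R : E →+* Matrix ι ι ℚ)
    (Φ : Matrix ι ι ℚ) (σ : E →+* ℂ) : Finite (XX R Φ σ) := by
  have h2 : {q : (E →+* ℂ) × Set (ℂ → ℚ) | SK σ q.1 ∧ IsFc R Φ q.1 q.2}.Finite := by
    refine ((Set.finite_univ (α := E →+* ℂ)).biUnion fun σ _ =>
      (finite_fc R Φ σ).image fun c => (σ, c)).subset ?_
    rintro ⟨σ, c⟩ h
    exact Set.mem_biUnion (Set.mem_univ σ) ⟨c, h.2, rfl⟩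
  exact h2.to_subtype

/-- Real homomorphisms. -/
theorem SK.real (hc : ∀ (σ : E →+* ℂ) a, σ (c a) = starRingEnd ℂ (σ a)) {σ σ' : E →+* ℂ}
    (h : SK σ σ') (hr : ∀ a, starRingEnd ℂ (σ a) = σ a) (a : E) :
    starRingEnd ℂ (σ' a) = σ' a := by
  have h1 : σ' (c a - a) = 0 := by
    rw [h, map_sub, hc, hr, sub_self]
  rw [map_sub, hc, sub_eq_zero] at h1
  exact h1

/-- **No roots without zeros.** -/
theorem no_fl [Algebra ℚ E] [Module.Finite ℚ E] [IsReduced E] (H : IsFrob R Φ) (hI : Idem Φ)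
    (hc : ∀ (σ : E →+* ℂ) a, σ (c a) = starRingEnd ℂ (σ a))
    (K : Subfield ℂ) [FiniteDimensional ℚ K]
    {P : Submodule ℂ (Matrix ι ι ℂ) → Matrix ι ι ℂ → Prop}
    (hHT : ∀ γ ∈ fixG K, ∀ S : Finset ℂ, (∀ x ∈ S, IsAlgebraic ℚ x) →
      ∃ τ : ℂ ≃+* ℂ, (∀ x ∈ S, τ x = γ x) ∧ ∃ (g : Submodule ℂ (Matrix ι ι ℂ))
        (ψ e : Matrix ι ι ℂ), Mono R c Φ g ψ ∧ P g ψ ∧ Coch R Φ r g ψ τ e)
    {τ₀ : ℂ ≃+* ℂ} (hτ₀ : τ₀ ∈ fixG K) {g₀ : Submodule ℂ (Matrix ι ι ℂ)} {ψ₀ e₀ : Matrix ι ι ℂ}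
    (M₀ : Mono R c Φ g₀ ψ₀) (P₀ : P g₀ ψ₀) (C₀ : Coch R Φ r g₀ ψ₀ τ₀ e₀)
    (hspan : tor Φ ≤ Submodule.span ℂ (orbit Φ g₀ e₀)) (σ : E →+* ℂ) (hcyc : Cyc τ₀ σ)
    (hreal : ∀ a, starRingEnd ℂ (σ a) = σ a)
    (hpos : ∀ σ' : E →+* ℂ, SK σ σ' → 0 < r σ' ∧ r σ' < Fintype.card (Om R Φ σ'))
    (hcn : ∀ σ' : E →+* ℂ, SK σ σ' → ∀ h h', Rt (Ls R Φ σ') h → Rt (Ls R Φ σ') h' →
      Cn (Ls R Φ σ') h h')
    (hall : ∀ (g : Submodule ℂ (Matrix ι ι ℂ)) (ψ : Matrix ι ι ℂ), Mono R c Φ g ψ → P g ψ →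
      ∀ σ' : E →+* ℂ, SK σ σ' → (∃ k, Fl (Ls R Φ σ') k) → AllFl R Φ g σ')
    (hnum : ∀ k : ℕ, 2 ≤ k → Fintype.card (Om R Φ σ) = 2 ^ k → Nat.Coprime (finrank ℚ K) k)
    (h2 : Fintype.card (Om R Φ σ) ≠ 2) : ∀ k, ¬ Fl (Ls R Φ σ) k := by
  classical
  intro k₀ hk₀
  have hns₀ : ∀ σ' : E →+* ℂ, SK σ σ' → Ns R Φ e₀ σ' := fun σ' h1 =>
    ns_of_r M₀ H hI C₀ (hpos σ' h1)
  -- roots without zeros everywhere
  have hfl : ∀ σ' : E →+* ℂ, SK σ σ' → ∃ k, Fl (Ls R Φ σ') k := by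
    intro σ' h1
    obtain ⟨γ, rfl⟩ := h1.exists_cp
    obtain ⟨F, hF, rfl⟩ := exists_rts hk₀.rt
    exact ⟨_, (Flr.mv H.diag γ ⟨hF, hk₀⟩).fl⟩
  -- the actions
  let iX : MulAction (ℂ ≃+* ℂ) (XX R Φ σ) := actX H.diag σ
  let iB : MulAction (ℂ ≃+* ℂ) (BB σ) := actB σ
  have : Finite (XX R Φ σ) := finite_XX R Φ σ
  -- the base points
  let x₀ : BB σ → XX R Φ σ := fun b =>
    ⟨(b.1, fch R Φ b.1 (ev Φ e₀)), b.2, fch_isFc M₀ H hI C₀.mem C₀.idem (hns₀ b.1 b.2)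
      (hcn b.1 b.2) (hfl b.1 b.2)⟩
  have hx₀ : ∀ b, τ₀ • x₀ b = x₀ (τ₀ • b) := fun b =>
    Subtype.ext (Prod.ext rfl
      (coch_fch M₀ H hI C₀ (hns₀ _ (ker_cp b.2 τ₀)) (hcn _ (ker_cp b.2 τ₀))
        (hfl _ (ker_cp b.2 τ₀)) (hall _ _ M₀ P₀ _ (ker_cp b.2 τ₀) (hfl _ (ker_cp b.2 τ₀)))))
  have hpow : ∀ (k : ℕ) (b : BB σ), (τ₀ ^ k) • x₀ b = x₀ ((τ₀ ^ k) • b) := by
    intro k
    induction k with
    | zero =>
      intro b
      rw [pow_zero, one_smul, one_smul]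
    | succ k ih =>
      intro b
      rw [pow_succ, mul_smul, hx₀, ih, mul_smul]
  have hcycB : ∀ b b' : BB σ, ∃ k : ℕ, (τ₀ ^ k) • b = b' := by
    intro b b'
    obtain ⟨k, hk | hk⟩ := hcyc b.1 b'.1 b.2 b'.2
    · refine ⟨k, Subtype.ext ?_⟩
      ext a
      rw [hk a, ← iter_pow]
      rfl
    · refine ⟨k, Subtype.ext ?_⟩
      ext a
      have h1 := SK.real hc b'.2 hreal a
      rw [hk a, ← iter_pow] at h1
      rw [hk a, ← iter_pow]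
      have h3 : starRingEnd ℂ (starRingEnd ℂ ((τ₀ ^ k) (b.1 a))) = (τ₀ ^ k) (b.1 a) :=
        Complex.conj_conj _
      rw [h3] at h1
      exact h1
  have hA : ∀ x : XX R Φ σ, ∃ (γ : ℂ ≃+* ℂ) (b : BB σ), x = γ • x₀ b := by
    rintro ⟨⟨σ₁, c₁⟩, hσ₁, hc₁⟩
    have hσ₁' : SK σ σ₁ := hσ₁
    have htrans : ∀ σ' : E →+* ℂ, SK σ₁ σ' → SK σ σ' := fun σ' h3 a => (h3 a).trans (hσ₁' a)
    obtain ⟨γ, σ', h1, h2⟩ := fc_orbit (σ := σ₁) M₀ H hI C₀.mem C₀.idem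
      (fun σ' h3 => hns₀ σ' (htrans σ' h3)) (fun σ' h3 => hcn σ' (htrans σ' h3))
      (fun σ' h3 => hfl σ' (htrans σ' h3))
      (fun σ' h3 => hall _ _ M₀ P₀ σ' (htrans σ' h3) (hfl σ' (htrans σ' h3))) hspan hc₁
    have h1' : σ₁ = cp γ σ' := h1
    have h3 : SK σ σ' := by
      intro a
      rw [← hσ₁' a, h1', cp_apply, map_eq_zero_iff γ γ.injective]
    exact ⟨γ, ⟨σ', h3⟩, Subtype.ext (Prod.ext h1 h2)⟩
  have htr : ∀ x y : XX R Φ σ, ∃ γ : ℂ ≃+* ℂ, γ • x = y := by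
    intro x y
    obtain ⟨γ, b₁, rfl⟩ := hA x
    obtain ⟨γ', b₂, rfl⟩ := hA y
    obtain ⟨k, hk⟩ := hcycB b₁ b₂
    refine ⟨γ' * τ₀ ^ k * γ⁻¹, ?_⟩
    rw [mul_smul, mul_smul, inv_smul_smul, hpow, hk]
  -- the projection
  let π : XX R Φ σ → BB σ := fun x => ⟨x.1.1, x.2.1⟩
  have hπ : ∀ (γ : ℂ ≃+* ℂ) (x : XX R Φ σ), π (γ • x) = γ • π x := fun _ _ => rfl
  -- the cardinality of the fibres
  have hcard : ∀ b : BB σ, 2 ^ Nat.card {c : Set (ℂ → ℚ) // IsFc R Φ b.1 c} =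
      Fintype.card (Om R Φ σ) := fun b => by
    rw [← card_fc M₀ H hI (hcn b.1 b.2) (hfl b.1 b.2), SK.card b.2]
  have e1 : ∀ b : BB σ, Nat.card {y : XX R Φ σ // π y = b} =
      Nat.card {c : Set (ℂ → ℚ) // IsFc R Φ b.1 c} := by
    intro b
    refine Nat.card_congr
      { toFun := fun y => ⟨y.1.1.2, ?_⟩
        invFun := fun c => ⟨⟨(b.1, c.1), b.2, c.2⟩, rfl⟩
        left_inv := ?_
        right_inv := fun c => rfl }
    · have h1 : y.1.1.1 = b.1 := congrArg Subtype.val y.2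
      have h2 := y.1.2.2
      rwa [h1] at h2
    · rintro ⟨⟨⟨σ', c'⟩, h1⟩, h3⟩
      have h4 : σ' = b.1 := congrArg Subtype.val h3
      exact Subtype.ext (Subtype.ext (Prod.ext h4.symm rfl))
  have hcop : ∀ x : XX R Φ σ, (fixG K).index.Coprime (Nat.card {y : XX R Φ σ // π y = π x}) := by
    intro x
    rw [Pool.Agent.FQ.index_fixG, e1]
    have hfin : Finite {y : XX R Φ σ // π y = π x} := Subtype.finite
    have hne : Nat.card {y : XX R Φ σ // π y = π x} ≠ 0 := by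
      have : Nonempty {y : XX R Φ σ // π y = π x} := ⟨⟨x, rfl⟩⟩
      exact Nat.card_pos.ne'
    rw [e1] at hne
    rcases Nat.lt_or_ge (Nat.card {c : Set (ℂ → ℚ) // IsFc R Φ (π x).1 c}) 2 with h6 | h6
    · have h7 : Nat.card {c : Set (ℂ → ℚ) // IsFc R Φ (π x).1 c} = 1 := by omega
      rw [h7]
      exact Nat.coprime_one_right _
    · exact hnum _ h6 (hcard (π x)).symm
  have hfr : (fixG K).index ≠ 0 := by
    rw [Pool.Agent.FQ.index_fixG]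
    exact Module.finrank_pos.ne'
  have hAtr := Pool.Agent.FQGrp.fib_transitive (Γ := ℂ ≃+* ℂ) (X := XX R Φ σ) (B := BB σ)
    π hπ htr (fixG K) hfr (fun x y => by
      obtain ⟨k, hk⟩ := hcycB (π x) (π y)
      exact ⟨τ₀ ^ k, pow_mem hτ₀ k, hk⟩) hcop
  -- the sections
  have hsec : ∀ γ : fixG K, ∃ s : BB σ → XX R Φ σ, (∀ b, π (s b) = b) ∧
      ∀ b, γ • s b = s (γ • b) := by
    rintro ⟨γ, hγ⟩
    let b := Module.finBasis ℚ E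
    have hfin : (⋃ σ : E →+* ℂ, (Om R Φ σ ∪ Set.range fun i => σ (b i))).Finite :=
      Set.finite_iUnion fun σ => (finite_Om R Φ σ).union (Set.finite_range _)
    obtain ⟨τ, hτ, g, ψ, e, M, PM, C⟩ := hHT γ hγ hfin.toFinset (by
      intro x hx
      rw [Set.Finite.mem_toFinset, Set.mem_iUnion] at hx
      obtain ⟨σ, hx | ⟨i, rfl⟩⟩ := hx
      · exact eig_alg hx
      · have h1 : IsAlgebraic ℚ (b i) := Algebra.IsAlgebraic.isAlgebraic _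
        exact h1.algHom σ.toRatAlgHom)
    have hS1 : ∀ (σ : E →+* ℂ), ∀ μ ∈ Om R Φ σ, τ μ = γ μ := fun σ μ hμ =>
      hτ μ (by
        rw [Set.Finite.mem_toFinset, Set.mem_iUnion]
        exact ⟨σ, Or.inl hμ⟩)
    have hS2 : ∀ σ : E →+* ℂ, cp γ σ = cp τ σ := by
      intro σ
      have h1 : (cp γ σ).toRatAlgHom.toLinearMap = (cp τ σ).toRatAlgHom.toLinearMap := by
        refine b.ext fun i => ?_
        change γ (σ (b i)) = τ (σ (b i))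
        refine (hτ _ ?_).symm
        rw [Set.Finite.mem_toFinset, Set.mem_iUnion]
        exact ⟨σ, Or.inr ⟨i, rfl⟩⟩
      ext a
      exact LinearMap.congr_fun h1 a
    have hnse : ∀ σ' : E →+* ℂ, SK σ σ' → Ns R Φ e σ' := fun σ' h1 =>
      ns_of_r M H hI C (hpos σ' h1)
    refine ⟨fun b => ⟨(b.1, fch R Φ b.1 (ev Φ e)), b.2,
      fch_isFc M H hI C.mem C.idem (hnse b.1 b.2) (hcn b.1 b.2) (hfl b.1 b.2)⟩, fun _ => rfl,
      fun b => Subtype.ext (Prod.ext rfl ?_)⟩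
    change mv γ '' fch R Φ b.1 (ev Φ e) = fch R Φ (cp γ b.1) (ev Φ e)
    rw [hS2 b.1, ← coch_fch M H hI C (hnse _ (ker_cp b.2 τ)) (hcn _ (ker_cp b.2 τ))
      (hfl _ (ker_cp b.2 τ)) (hall _ _ M PM _ (ker_cp b.2 τ) (hfl _ (ker_cp b.2 τ)))]
    exact Set.image_congr fun F hF => mv_congr (hS1 b.1) hF.1.rts
  have hinj := Pool.Agent.FQGrp.jordan_fib (Γ := fixG K) (X := XX R Φ σ) (B := BB σ)
    π (fun _ _ => rfl) (fun x y => by
      obtain ⟨a, ha, h1⟩ := hAtr x y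
      exact ⟨⟨a, ha⟩, h1⟩) hsec
  -- the conclusion
  let b₀ : BB σ := ⟨σ, fun _ => Iff.rfl⟩
  have h3 : Nat.card {y : XX R Φ σ // π y = b₀} ≤ 1 := by
    have : Subsingleton {y : XX R Φ σ // π y = b₀} :=
      ⟨fun y z => Subtype.ext (hinj (y.2.trans z.2.symm))⟩
    exact Finite.card_le_one_iff_subsingleton.2 this
  rw [e1 b₀] at h3
  have h4 := hcard b₀
  rcases Nat.le_one_iff_eq_zero_or_eq_one.1 h3 with h5 | h5
  · -- the fibre is not empty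
    obtain ⟨F, hF, rfl⟩ := exists_rts hk₀.rt
    have hfin : Finite {c : Set (ℂ → ℚ) // IsFc R Φ b₀.1 c} := (finite_fc R Φ b₀.1).to_subtype
    have hne : Nonempty {c : Set (ℂ → ℚ) // IsFc R Φ b₀.1 c} :=
      ⟨⟨{F, -F}, F, ⟨hF, hk₀⟩, rfl⟩⟩
    exact Nat.card_pos.ne' h5
  · rw [h5, pow_one] at h4
    exact h2 h4.symm

/-- The symplectic case of dimension eight. -/
theorem allFl_sp (M : Mono R c Φ g ψ) (H : IsFrob R Φ) (hI : Idem Φ)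
    (hcn : ∀ h h', Rt (Ls R Φ σ) h → Rt (Ls R Φ σ) h' → Cn (Ls R Φ σ) h h')
    (h8 : Fintype.card (Om R Φ σ) = 8) (hfl : ∃ k, Fl (Ls R Φ σ) k)
    (hform : ∀ (W : Submodule ℂ (ι → ℂ)) (p : (ι → ℂ) →ₗ[ℂ] W) (v : Basis (Om R Φ σ) ℂ W),
      Frame R Φ g σ W p v → ∃ φ : W →ₗ[ℂ] W →ₗ[ℂ] ℂ, (∀ x, φ x x = 0) ∧
        (∀ x, (∀ y, φ x y = 0) → x = 0) ∧
        ∀ x ∈ res p g, ∃ κ : ℂ, ∀ a b, φ (x a) b + φ a (x b) = κ * φ a b) :
    AllFl R Φ g σ := by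
  intro W p v F h hh
  have hnt := F.nontrivial
  have T := td M H hI F.irr F.prj
  obtain ⟨φ, h1, h2, h3⟩ := hform W p v F
  have h4 := T.all_fl_sp v (F.hv M) (by rw [F.lv M]; exact hcn) h1 h2 h3
    (by rw [← F.card]; exact h8) (by rw [F.lv M]; exact hfl) hh
  rwa [F.lv M] at h4

/-- The orthogonal case of dimension four. -/
theorem allFl_so (M : Mono R c Φ g ψ) (H : IsFrob R Φ) (hI : Idem Φ)
    (hcn : ∀ h h', Rt (Ls R Φ σ) h → Rt (Ls R Φ σ) h' → Cn (Ls R Φ σ) h h')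
    (h4 : Fintype.card (Om R Φ σ) = 4) (hfl : ∃ k, Fl (Ls R Φ σ) k)
    (hform : ∀ (W : Submodule ℂ (ι → ℂ)) (p : (ι → ℂ) →ₗ[ℂ] W) (v : Basis (Om R Φ σ) ℂ W),
      Frame R Φ g σ W p v → ∃ φ : W →ₗ[ℂ] W →ₗ[ℂ] ℂ, (∀ x y, φ x y = φ y x) ∧
        (∀ x, (∀ y, φ x y = 0) → x = 0) ∧
        ∀ x ∈ res p g, ∃ κ : ℂ, ∀ a b, φ (x a) b + φ a (x b) = κ * φ a b) :
    AllFl R Φ g σ := by
  intro W p v F h hh
  have hnt := F.nontrivial
  have T := td M H hI F.irr F.prj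
  obtain ⟨φ, h1, h2, h3⟩ := hform W p v F
  have h5 := T.all_fl_so v (F.hv M) (by rw [F.lv M]; exact hcn) h1 h2 h3
    (by rw [← F.card]; exact h4) (by rw [F.lv M]; exact hfl) hh
  rwa [F.lv M] at h5

end Pool.Agent.FQV
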