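import Pool.Agent.FQV.Joint

/-!
# The reflections given by the root vectors of `g`: properties (PACKAGE FU17)

`equiv`: `π` maps `Om R Φ σ` to itself (`pm`) and is its own inverse (`inv`).

`sum`: `∑ F (π μ) = ∑ F μ` (`equiv`) and `F (π μ) = - F μ` (`neg`).

`kill`: `HS R σ` is stable under `Φ` (`H.comm`) and spanned by eigenvectors of `Φ` in `HS R σ` (`H.diag`; e.g.
`Submodule.inf_iSup_eigenspace...` or Lagrange polynomials in `Φ`; see the proof of `exists_eig` in `Isot.lean` or of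
`exists_basis` in `Bas.lean`), whose eigenvalues are in `Om R Φ σ`. So `(z y - y z) w = 0` for all `w ∈ HS R σ` (`val`). `HS R σ` is stable under
`z` and `y` (`HS_stable`), so for `w ∈ HS R σ`: `z w = z y z w = z (y (z w)) = z (z (y w)) = 0` (`z y w = y z w`, `zz`).

`two`: `h z - z h = 2 z` for `h = z y - y z` (`zz`, `zyz`).

`skew`: let `h = z y - y z`; `z = (1/2) (h z - z h)` by `two`; `h ∈ g` (`M.le`) and `z ∈ g` are similitudes (`M.sim`) with multipliers
`κ`, `κ'`, so the commutator has the multiplier `0`.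

`jrt_tr`: take a frame `(W, p, v)` for `σ` (`exists_frame`). Let `U` be the span of the vectors `v μ`, `μ ∈ A`, in `ℂ^ι`. It is stable under `g`: by
`mem_span_roots (cartan M H)` it is enough to consider root vectors `z ∈ g`, `z ≠ 0`, with root `α`. If `α` is zero on `tor Φ` then
`z ∈ tor Φ` (`M.cent`) and `z (v μ)` is a multiple of `v μ` (`exists_scalar`). Otherwise take `y, F, π` from `exists_jrt`. If `z (v μ) ≠ 0` then by
`shift` it is an eigenvector of `Φ` in `W` for the eigenvalue `π μ`, so it is a multiple of `v ν`, `ν = π μ ∈ A` (the `v ν` are a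
basis of `W` of eigenvectors with distinct eigenvalues). So `U = W` (`F.irr.2.2`, `U ≠ ⊥`) and `A = univ` (linear independence). -/

set_option autoImplicit false
set_option linter.unusedSectionVars false

namespace Pool.Agent.FQV

open Module
open Pool.Agent.CoprimeSig (ratM endo mem_endo Cartan IsRoot mem_span_roots Opp)

variable {ι : Type} [Fintype ι] [DecidableEq ι] {E : Type} [CommRing E]
  {R : E →+* Matrix ι ι ℚ} {Φ : Matrix ι ι ℚ} {σ : E →+* ℂ} {c : E → E}
  {g : Submodule ℂ (Matrix ι ι ℂ)} {ψ : Matrix ι ι ℂ} {z y : Matrix ι ι ℂ} {F : ℂ → ℚ}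
  {π : ℂ → ℂ}

theorem Jrt.equiv (J : Jrt R Φ g z y F π) (σ : E →+* ℂ) :
    ∃ π' : Equiv.Perm (Om R Φ σ), ∀ μ, ((π' μ : Om R Φ σ) : ℂ) = π μ := by
  have h : Function.Involutive (fun μ : Om R Φ σ => (⟨π μ, J.pm σ μ μ.2⟩ : Om R Φ σ)) :=
    fun μ => Subtype.ext (J.inv σ μ μ.2)
  exact ⟨h.toPerm, fun μ => rfl⟩

theorem Jrt.sum (J : Jrt R Φ g z y F π) (σ : E →+* ℂ) : ∑ μ, rs R Φ σ F μ = 0 := by
  obtain ⟨π', hπ⟩ := J.equiv σ
  have h1 : ∑ μ, rs R Φ σ F (π' μ) = ∑ μ, rs R Φ σ F μ := Equiv.sum_comp π' _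
  have h2 : ∑ μ, rs R Φ σ F (π' μ) = -∑ μ, rs R Φ σ F μ := by
    rw [← Finset.sum_neg_distrib]
    refine Finset.sum_congr rfl fun μ _ => ?_
    rw [rs_apply, rs_apply, hπ, J.neg σ μ μ.2]
  rw [h1] at h2
  linarith

theorem Jrt.two (J : Jrt R Φ g z y F π) :
    (z * y - y * z) * z - z * (z * y - y * z) = (2 : ℂ) • z := by
  have h1 : (z * y - y * z) * z = z := by
    rw [sub_mul, J.zyz, mul_assoc y z z, J.zz, mul_zero, sub_zero]
  have h2 : z * (z * y - y * z) = -z := by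
    rw [mul_sub, ← mul_assoc, ← mul_assoc, J.zz, zero_mul, J.zyz, zero_sub]
  rw [h1, h2, sub_neg_eq_add, two_smul]

theorem Jrt.kill (J : Jrt R Φ g z y F π) (M : Mono R c Φ g ψ) (H : IsFrob R Φ)
    (h : ∀ μ ∈ Om R Φ σ, F μ = 0) : ∀ w ∈ HS R σ, z.mulVec w = 0 := by
  have hΦ : ∀ w ∈ HS R σ, Matrix.toLin' (ratM Φ) w ∈ HS R σ := by
    intro w hw a
    have h1 : ratM (R a) * ratM Φ = ratM Φ * ratM (R a) := by
      have h2 := congrArg (Rat.castHom ℂ).mapMatrix (H.comm a)
      rw [map_mul, map_mul] at h2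
      exact h2
    rw [Matrix.toLin'_apply, Matrix.mulVec_mulVec, h1, ← Matrix.mulVec_mulVec, hw a,
      Matrix.mulVec_smul]
  have h1 := Submodule.inf_iSup_genEigenspace (f := Matrix.toLin' (ratM Φ)) hΦ 1
  have h2 : ⨆ μ, Module.End.genEigenspace (Matrix.toLin' (ratM Φ)) μ 1 = ⊤ := H.diag
  rw [h2, inf_top_eq] at h1
  have key : ∀ w ∈ HS R σ, (z * y - y * z).mulVec w = 0 := by
    intro w hw
    have h3 : HS R σ ≤ LinearMap.ker (Matrix.toLin' (z * y - y * z)) := by
      rw [h1]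
      refine iSup_le fun μ v hv => ?_
      rw [LinearMap.mem_ker, Matrix.toLin'_apply]
      have h4 : (ratM Φ).mulVec v = μ • v := by
        have h5 := Module.End.mem_eigenspace_iff.1 hv.2
        rwa [Matrix.toLin'_apply] at h5
      by_cases hv0 : v = 0
      · rw [hv0, Matrix.mulVec_zero]
      · rw [J.val μ v h4, h μ ⟨v, hv.1, hv0, h4⟩, Rat.cast_zero, zero_smul]
    have h4 := h3 hw
    rwa [LinearMap.mem_ker, Matrix.toLin'_apply] at h4
  intro w hw
  have h3 := key _ (HS_stable M z J.mz w hw)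
  rw [Matrix.mulVec_mulVec, sub_mul, J.zyz, mul_assoc y z z, J.zz, mul_zero, sub_zero] at h3
  exact h3

private theorem jo2_comm {k z ψ : Matrix ι ι ℂ} {κ κ' : ℂ}
    (hk : k.transpose * ψ + ψ * k = κ • ψ) (hz : z.transpose * ψ + ψ * z = κ' • ψ) :
    (k * z - z * k).transpose * ψ + ψ * (k * z - z * k) = 0 := by
  have e1 : k.transpose * ψ = κ • ψ - ψ * k := by rw [← hk, add_sub_cancel_right]
  have e2 : z.transpose * ψ = κ' • ψ - ψ * z := by rw [← hz, add_sub_cancel_right]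
  have a1 : z.transpose * (k.transpose * ψ) =
      κ • (κ' • ψ - ψ * z) - (κ' • ψ - ψ * z) * k := by
    rw [e1, mul_sub, mul_smul_comm, ← mul_assoc, e2]
  have a2 : k.transpose * (z.transpose * ψ) =
      κ' • (κ • ψ - ψ * k) - (κ • ψ - ψ * k) * z := by
    rw [e2, mul_sub, mul_smul_comm, ← mul_assoc, e1]
  rw [Matrix.transpose_sub, Matrix.transpose_mul, Matrix.transpose_mul, sub_mul, mul_assoc,
    mul_assoc, a1, a2]
  simp only [smul_sub, sub_mul, mul_sub, smul_mul_assoc, mul_assoc, smul_smul]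
  rw [mul_comm κ' κ]
  abel

theorem Jrt.skew (J : Jrt R Φ g z y F π) (M : Mono R c Φ g ψ) :
    z.transpose * ψ + ψ * z = 0 := by
  obtain ⟨κ, hκ⟩ := M.sim _ (M.lie z J.mz y J.my)
  obtain ⟨κ', hκ'⟩ := M.sim z J.mz
  have h2 := J.two
  have h3 := jo2_comm hκ hκ'
  rw [h2] at h3
  rw [Matrix.transpose_smul, smul_mul_assoc, mul_smul_comm, ← smul_add] at h3
  exact (smul_eq_zero.1 h3).resolve_left two_ne_zero

private theorem jo2_eig {W : Submodule ℂ (ι → ℂ)} {p : (ι → ℂ) →ₗ[ℂ] W}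
    {v : Basis (Om R Φ σ) ℂ W} (F : Frame R Φ g σ W p v) {w : W} {ν : Om R Φ σ}
    (h : (ratM Φ).mulVec (w : ι → ℂ) = (ν : ℂ) • (w : ι → ℂ)) : w = v.repr w ν • v ν := by
  have h1 : ∑ i, (v.repr w i * (i : ℂ)) • v i = ∑ i, ((ν : ℂ) * v.repr w i) • v i := by
    apply Subtype.ext
    have h2 : (((∑ i, v.repr w i • v i : W)) : ι → ℂ) = w := congrArg Subtype.val (v.sum_repr w)
    have h3 : ((∑ i, (v.repr w i * (i : ℂ)) • v i : W) : ι → ℂ) = (ratM Φ).mulVec (w : ι → ℂ) := by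
      rw [← h2]
      simp only [Submodule.coe_sum, Submodule.coe_smul]
      rw [← Matrix.toLin'_apply, map_sum]
      refine Finset.sum_congr rfl fun i _ => ?_
      rw [map_smul, Matrix.toLin'_apply, F.bas, smul_smul]
    have h4 : ((∑ i, ((ν : ℂ) * v.repr w i) • v i : W) : ι → ℂ) = (ν : ℂ) • (w : ι → ℂ) := by
      conv_rhs => rw [← h2]
      simp only [Submodule.coe_sum, Submodule.coe_smul]
      rw [Finset.smul_sum]
      exact Finset.sum_congr rfl fun i _ => by rw [smul_smul]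
    rw [h3, h4, h]
  have h5 : ∀ i, v.repr w i * (i : ℂ) = (ν : ℂ) * v.repr w i := by
    intro i
    have h6 : (⇑(v.repr (∑ i, (v.repr w i * (i : ℂ)) • v i)) : Om R Φ σ → ℂ) =
        ⇑(v.repr (∑ i, ((ν : ℂ) * v.repr w i) • v i)) := by rw [h1]
    rw [Basis.repr_sum_self, Basis.repr_sum_self] at h6
    exact congrFun h6 i
  have h7 : ∀ i, i ≠ ν → v.repr w i = 0 := by
    intro i hi
    have h8 : v.repr w i * ((i : ℂ) - (ν : ℂ)) = 0 := by
      rw [mul_sub, h5 i]
      ring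
    rcases mul_eq_zero.1 h8 with h9 | h9
    · exact h9
    · exact absurd (Subtype.ext (sub_eq_zero.1 h9)) hi
  conv_lhs => rw [← v.sum_repr w]
  rw [Finset.sum_eq_single ν]
  · intro i _ hi
    rw [h7 i hi, zero_smul]
  · intro hν
    exact absurd (Finset.mem_univ ν) hν

theorem jrt_tr [Algebra ℚ E] [Module.Finite ℚ E] [IsReduced E] (M : Mono R c Φ g ψ)
    (H : IsFrob R Φ) (hI : Idem Φ) (σ : E →+* ℂ) (A : Set (Om R Φ σ)) (hA : A.Nonempty)
    (hst : ∀ z y F π, Jrt R Φ g z y F π → ∀ μ ∈ A, ∀ ν : Om R Φ σ, (ν : ℂ) = π μ → ν ∈ A) :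
    A = Set.univ := by
  obtain ⟨W, p, v, F⟩ := exists_frame M H hI σ
  set U : Submodule ℂ (ι → ℂ) :=
    Submodule.span ℂ ((fun μ : Om R Φ σ => (v μ : ι → ℂ)) '' A) with hU
  have hUW : U ≤ W := by
    refine Submodule.span_le.2 ?_
    rintro _ ⟨μ, _, rfl⟩
    exact (v μ).2
  -- stability under the root vectors
  have hroot : ∀ (a : End ℂ (ι → ℂ)) (α : End ℂ (ι → ℂ) → ℂ),
      IsRoot (endo g) (endo (tor Φ)) α a → ∀ u ∈ U, a u ∈ U := by
    intro a α ha
    obtain ⟨z, hz, rfl⟩ := ha.mem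
    have hcomm : ∀ x ∈ tor Φ, x * z - z * x = α (Matrix.toLin' x) • z := by
      intro x hx
      have h1 := ha.root _ (mem_endo.2 hx)
      apply (Matrix.toLin' (R := ℂ)).injective
      rw [map_sub, Matrix.toLin'_mul, Matrix.toLin'_mul, map_smul]
      exact h1
    have hgen : ∀ μ ∈ A, Matrix.toLin' z (v μ : ι → ℂ) ∈ U := by
      intro μ hμ
      rw [Matrix.toLin'_apply]
      by_cases hne : ∃ x ∈ tor Φ, α (Matrix.toLin' x) ≠ 0
      · by_cases hz0 : z = 0
        · rw [hz0, Matrix.zero_mulVec]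
          exact U.zero_mem
        obtain ⟨y, G, π, J⟩ := exists_jrt M H hI hz hz0
          (α := fun x => α (Matrix.toLin' x)) hcomm hne
        by_cases h0 : z.mulVec (v μ : ι → ℂ) = 0
        · rw [h0]
          exact U.zero_mem
        have h1 := (J.shift μ (v μ) (F.bas μ) h0).2
        have h2 := hst z y G π J μ hμ ⟨π μ, J.pm σ μ μ.2⟩ rfl
        have h3 : z.mulVec (v μ : ι → ℂ) ∈ W := F.irr.1 z hz _ (v μ).2
        have h4 := jo2_eig F (w := ⟨_, h3⟩) (ν := ⟨π μ, J.pm σ μ μ.2⟩) h1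
        have h5 := congrArg Subtype.val h4
        rw [Submodule.coe_smul] at h5
        change z.mulVec (v μ : ι → ℂ) = _ at h5
        rw [h5]
        exact U.smul_mem _ (Submodule.subset_span ⟨_, h2, rfl⟩)
      · push Not at hne
        have hzt : z ∈ tor Φ := M.cent z hz fun x hx => by
          have h1 := hcomm x hx
          rw [hne x hx, zero_smul, sub_eq_zero] at h1
          exact h1.symm
        obtain ⟨d, hd⟩ := exists_scalar hzt
        rw [hd μ _ (F.bas μ)]
        exact U.smul_mem _ (Submodule.subset_span ⟨μ, hμ, rfl⟩)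
    intro u hu
    have h1 : U ≤ U.comap (Matrix.toLin' z) := by
      rw [hU]
      refine Submodule.span_le.2 ?_
      rintro _ ⟨μ, hμ, rfl⟩
      exact hgen μ hμ
    exact h1 hu
  have hstab : ∀ x ∈ g, ∀ u ∈ U, x.mulVec u ∈ U := by
    intro x hx u hu
    have h1 := mem_span_roots (cartan M H) (mem_endo.2 hx)
    have h2 : ∀ a ∈ Submodule.span ℂ {a | ∃ α, IsRoot (endo g) (endo (tor Φ)) α a},
        a u ∈ U := by
      intro a ha
      induction ha using Submodule.span_induction with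
      | mem a ha =>
        obtain ⟨α, hα⟩ := ha
        exact hroot a α hα u hu
      | zero => exact U.zero_mem
      | add a b _ _ h3 h4 => exact U.add_mem h3 h4
      | smul c a _ h3 => exact U.smul_mem c h3
    have h3 := h2 _ h1
    rwa [Matrix.toLin'_apply] at h3
  have hne : U ≠ ⊥ := by
    obtain ⟨μ, hμ⟩ := hA
    intro h0
    have h1 : (v μ : ι → ℂ) ∈ U := Submodule.subset_span ⟨μ, hμ, rfl⟩
    rw [h0, Submodule.mem_bot] at h1
    exact v.ne_zero μ (Subtype.ext h1)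
  have hUW' : U = W := (F.irr.2.2 U hUW hstab).resolve_left hne
  have hli : LinearIndependent ℂ fun μ : Om R Φ σ => (v μ : ι → ℂ) :=
    v.linearIndependent.map' W.subtype W.ker_subtype
  rw [Set.eq_univ_iff_forall]
  intro ν
  by_contra hν
  refine hli.notMem_span_image hν ?_
  rw [← hU, hUW']
  exact (v ν).2

end Pool.Agent.FQV
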