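import Pool.Agent.FQV.Rk

/-!
# The multiplier and the traces on the irreducible subspaces
-/

set_option autoImplicit false
set_option linter.unusedSectionVars false

namespace Pool.Agent.FQV

open Module
open Pool.Agent.CoprimeSig (ratM endo mem_endo Cartan IsRoot mem_span_roots)
open Pool.Agent.FQ (expG)

variable {ι : Type} [Fintype ι] [DecidableEq ι] {E : Type} [CommRing E]
  {R : E →+* Matrix ι ι ℚ} {Φ : Matrix ι ι ℚ} {σ σ' : E →+* ℂ} {c : E → E}
  {g : Submodule ℂ (Matrix ι ι ℂ)} {ψ : Matrix ι ι ℂ} {W : Submodule ℂ (ι → ℂ)}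
  {p : (ι → ℂ) →ₗ[ℂ] W} {v : Basis (Om R Φ σ) ℂ W} {r : (E →+* ℂ) → ℕ}

theorem TrC.add {N N' : Matrix ι ι ℂ} {a a' : (ℂ ≃+* ℂ) →₀ ℂ} (hN : N ∈ g) (hN' : N' ∈ g)
    (h : TrC R r g ψ N a) (h' : TrC R r g ψ N' a') : TrC R r g ψ (N + N') (a + a') := by
  classical
  refine ⟨?_, fun σ W hσ hW A hA => ?_⟩
  · rw [Finsupp.sum_add_index' (fun _ => rfl) (fun _ _ _ => rfl), add_smul, ← h.1, ← h'.1,
      Matrix.transpose_add, add_mul, mul_add]
    abel
  · have e1 : ∀ w : W, N.mulVec w ∈ W := fun w => hW.1 N hN w w.2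
    let B : End ℂ W := ((Matrix.toLin' N).restrict (p := W) (q := W) fun w hw => by
      rw [Matrix.toLin'_apply]
      exact e1 ⟨w, hw⟩)
    have hB : ∀ w : W, (B w : ι → ℂ) = N.mulVec w := fun w => Matrix.toLin'_apply N w
    have hC : ∀ w : W, ((A - B) w : ι → ℂ) = N'.mulVec w := fun w => by
      rw [LinearMap.sub_apply, Submodule.coe_sub, hA, hB, Matrix.add_mulVec, add_sub_cancel_left]
    have h1 := h.2 σ W hσ hW B hB
    have h2 := h'.2 σ W hσ hW (A - B) hC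
    have h3 : LinearMap.trace ℂ W (A - B) = LinearMap.trace ℂ W A - LinearMap.trace ℂ W B :=
      LinearMap.map_sub (LinearMap.trace ℂ W) A B
    rw [h3] at h2
    rw [Finsupp.sum_add_index' (fun _ => zero_mul _) (fun _ _ _ => add_mul _ _ _), ← h1, ← h2]
    ring

theorem TrC.zero : TrC R r g ψ 0 0 := by
  refine ⟨?_, fun σ W _ _ A hA => ?_⟩
  · rw [Finsupp.sum_zero_index, zero_smul, Matrix.transpose_zero, zero_mul, mul_zero, add_zero]
  · have h1 : A = 0 := by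
      ext w
      rw [hA w, Matrix.zero_mulVec]
      rfl
    rw [h1, map_zero, Finsupp.sum_zero_index]

theorem TrC.smul {N : Matrix ι ι ℂ} {a : (ℂ ≃+* ℂ) →₀ ℂ} (hN : N ∈ g) (t : ℂ)
    (h : TrC R r g ψ N a) : TrC R r g ψ (t • N) (t • a) := by
  classical
  refine ⟨?_, fun σ W hσ hW A hA => ?_⟩
  · rw [Finsupp.sum_smul_index' (fun _ => rfl), Matrix.transpose_smul, smul_mul_assoc,
      mul_smul_comm, ← smul_add, h.1, smul_smul]
    congr 1
    rw [Finsupp.sum, Finsupp.sum, Finset.mul_sum]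
    rfl
  · let B : End ℂ W := ((Matrix.toLin' N).restrict (p := W) (q := W) fun w hw => by
      rw [Matrix.toLin'_apply]
      exact hW.1 N hN w hw)
    have hB : ∀ w : W, (B w : ι → ℂ) = N.mulVec w := fun w => Matrix.toLin'_apply N w
    have h1 := h.2 σ W hσ hW B hB
    have h2 : A = t • B := by
      ext w
      rw [hA, LinearMap.smul_apply, Submodule.coe_smul, hB, Matrix.smul_mulVec]
    rw [h2, map_smul, h1, Finsupp.sum_smul_index' (fun _ => zero_mul _), Finsupp.sum, Finsupp.sum,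
      smul_eq_mul, Finset.mul_sum]
    exact Finset.sum_congr rfl fun _ _ => by rw [smul_eq_mul, mul_assoc]

/-- The commutators. -/
theorem TrC.lie (M : Mono R c Φ g ψ) {x y : Matrix ι ι ℂ} (hx : x ∈ g) (hy : y ∈ g) :
    TrC R r g ψ (x * y - y * x) 0 := by
  obtain ⟨κ, hκ⟩ := M.sim x hx
  obtain ⟨κ', hκ'⟩ := M.sim y hy
  refine ⟨?_, fun σ W hσ hW A hA => ?_⟩
  · rw [Finsupp.sum_zero_index, zero_smul]
    have h1 : x.transpose * ψ = κ • ψ - ψ * x := eq_sub_of_add_eq hκ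
    have h2 : y.transpose * ψ = κ' • ψ - ψ * y := eq_sub_of_add_eq hκ'
    rw [Matrix.transpose_sub, Matrix.transpose_mul, Matrix.transpose_mul, sub_mul, mul_assoc,
      mul_assoc, h1, h2, mul_sub, mul_sub, ← mul_assoc, ← mul_assoc, h1, h2, mul_smul_comm,
      mul_smul_comm, h1, h2, sub_mul, sub_mul, smul_mul_assoc, smul_mul_assoc, mul_sub]
    simp only [smul_sub, mul_assoc]
    rw [smul_comm κ κ']
    abel
  · obtain ⟨q, P⟩ := exists_prj M hW.1
    have h1 : A = rm q x * rm q y - rm q y * rm q x := by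
      rw [← rm_mul P (hW.1 x hx) (hW.1 y hy), ← rm_mul P (hW.1 y hy) (hW.1 x hx), ← rm_sub]
      ext w
      rw [hA, rm_apply P (hW.1 _ (M.lie x hx y hy))]
    have h2 := LinearMap.map_sub (LinearMap.trace ℂ W) (rm q x * rm q y) (rm q y * rm q x)
    rw [h1, h2, LinearMap.trace_mul_comm, sub_self, Finsupp.sum_zero_index]

/-- The idempotents of the torus. -/
theorem TrC.idem [Nonempty ι] (M : Mono R c Φ g ψ) (H : IsFrob R Φ) (hI : Idem Φ)
    {e : Matrix ι ι ℂ} (he : e ∈ tor Φ) (hee : e * e = e) (htr : 2 * e.trace = Fintype.card ι)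
    {γ : ℂ ≃+* ℂ} (hγ : ∀ σ, sm R Φ σ (ev Φ e) = r (cp γ σ)) :
    TrC R r g ψ e (Finsupp.single γ 1) := by
  refine ⟨?_, fun σ W hσ hW A hA => ?_⟩
  · rw [Finsupp.sum_single_index rfl, one_smul]
    exact mult_of_trace M (M.le he) htr
  · obtain ⟨q, P⟩ := exists_prj M hW.1
    obtain ⟨v, F⟩ := exists_basis M H hI hW P hσ
    have h1 : A = rm q e := by
      ext w
      rw [hA, rm_apply P (hW.1 e (M.le he))]
    rw [Finsupp.sum_single_index (zero_mul _), one_mul, h1, trace_rm F M he hee, hγ σ]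
    exact_mod_cast rfl

/-- **The multiplier and the traces of the elements of `g`.** -/
theorem exists_trc (M : Mono R c Φ g ψ) (H : IsFrob R Φ) (hR : Rk R Φ r) {N : Matrix ι ι ℂ}
    (hN : N ∈ g) : ∃ a : (ℂ ≃+* ℂ) →₀ ℂ, TrC R r g ψ N a := by
  rcases isEmpty_or_nonempty ι with hι | hι
  · have h1 : N = 0 := Matrix.ext fun i => (hι.false i).elim
    rw [h1]
    exact ⟨0, TrC.zero⟩
  have hC := cartan M H
  have ctor : ∀ z ∈ tor Φ, z ∈ g ∧ ∃ a : (ℂ ≃+* ℂ) →₀ ℂ, TrC R r g ψ z a := by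
    intro z hz
    have h2 := hR.span hz
    clear hz
    induction h2 using Submodule.span_induction with
    | mem e he =>
      obtain ⟨he, hee, htr, γ, hγ⟩ := he
      exact ⟨M.le he, _, TrC.idem M H hR.tr.idem he hee htr hγ⟩
    | zero => exact ⟨g.zero_mem, 0, TrC.zero⟩
    | add x y _ _ hx hy =>
      obtain ⟨hx, a, ha⟩ := hx
      obtain ⟨hy, b, hb⟩ := hy
      exact ⟨g.add_mem hx hy, _, ha.add hx hy hb⟩
    | smul t x _ hx =>
      obtain ⟨hx, a, ha⟩ := hx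
      exact ⟨g.smul_mem t hx, _, ha.smul hx t⟩
  have key : ∀ z : Matrix ι ι ℂ, (∃ α, IsRoot (endo g) (endo (tor Φ)) α (Matrix.toLin' z)) →
      z ∈ g ∧ ∃ a : (ℂ ≃+* ℂ) →₀ ℂ, TrC R r g ψ z a := by
    rintro z ⟨α, hz⟩
    have hzg : z ∈ g := mem_endo.1 hz.mem
    have hroot : ∀ x ∈ tor Φ, x * z - z * x = α (Matrix.toLin' x) • z := by
      intro x hx
      have h1 := hz.root _ (mem_endo.2 hx)
      have h2 : Matrix.toLin' (x * z - z * x) = Matrix.toLin' (α (Matrix.toLin' x) • z) := by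
        rw [map_sub, map_smul, Matrix.toLin'_mul, Matrix.toLin'_mul]
        exact h1
      exact (Matrix.toLin' (R := ℂ)).injective h2
    by_cases hα : ∃ τ ∈ tor Φ, α (Matrix.toLin' τ) ≠ 0
    · obtain ⟨τ, hτ, h0⟩ := hα
      refine ⟨hzg, (α (Matrix.toLin' τ))⁻¹ • 0, ?_⟩
      have h1 := (TrC.lie (r := r) M (M.le hτ) hzg).smul (M.lie τ (M.le hτ) z hzg)
        (α (Matrix.toLin' τ))⁻¹
      rw [hroot τ hτ, smul_smul, inv_mul_cancel₀ h0, one_smul] at h1
      exact h1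
    · push Not at hα
      refine ctor z (M.cent z hzg fun y hy => ?_)
      have h1 := hroot y hy
      rw [hα y hy, zero_smul] at h1
      exact (sub_eq_zero.1 h1).symm
  have h2 : ∀ y ∈ Submodule.span ℂ {z | ∃ α, IsRoot (endo g) (endo (tor Φ)) α z},
      LinearMap.toMatrix' y ∈ g ∧ ∃ a : (ℂ ≃+* ℂ) →₀ ℂ,
        TrC R r g ψ (LinearMap.toMatrix' y) a := by
    intro y hy
    induction hy using Submodule.span_induction with
    | mem z hz =>
      apply key
      obtain ⟨α, hα⟩ := hz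
      exact ⟨α, by rwa [Matrix.toLin'_toMatrix']⟩
    | zero =>
      rw [map_zero]
      exact ⟨g.zero_mem, 0, TrC.zero⟩
    | add x y _ _ hx hy =>
      obtain ⟨hx, a, ha⟩ := hx
      obtain ⟨hy, b, hb⟩ := hy
      rw [map_add]
      exact ⟨g.add_mem hx hy, _, ha.add hx hy hb⟩
    | smul t x _ hx =>
      obtain ⟨hx, a, ha⟩ := hx
      rw [map_smul]
      exact ⟨g.smul_mem t hx, _, ha.smul hx t⟩
  have h3 := (h2 _ (mem_span_roots hC (mem_endo.2 hN))).2
  rwa [LinearMap.toMatrix'_toLin'] at h3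

variable [Algebra ℚ E] [Module.Finite ℚ E] [IsReduced E]

/-- The trace if the ranks are half of the dimension. -/
theorem bal (M : Mono R c Φ g ψ) (H : IsFrob R Φ) (hR : Rk R Φ r) (hW : Irr g W) (P : Prj g W p)
    (hσ : W ≤ HS R σ) (hb : ∀ σ', SK σ σ' → 2 * r σ' = Fintype.card (Om R Φ σ))
    {x : Matrix ι ι ℂ} (hx : x ∈ g) {κ : ℂ} (hκ : x.transpose * ψ + ψ * x = κ • ψ) :
    2 * LinearMap.trace ℂ W (rm p x) = κ * finrank ℂ W := by
  obtain ⟨v, F⟩ := exists_basis M H hR.tr.idem hW P hσ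
  obtain ⟨a, h1, h2⟩ := exists_trc M H hR hx
  have hne : ψ ≠ 0 := by
    rintro rfl
    have hnt : Nontrivial W := F.nontrivial
    obtain ⟨w, hw⟩ := exists_ne (0 : W)
    apply hw
    obtain ⟨u, hu⟩ := M.unit
    apply Subtype.ext
    change (w : ι → ℂ) = 0
    rw [← Matrix.one_mulVec (w : ι → ℂ), ← u.inv_mul, hu, mul_zero, Matrix.zero_mulVec]
  have h3 : κ = a.sum fun _ z => z := by
    rw [hκ] at h1
    exact smul_left_injective ℂ hne h1
  rw [h2 σ W hσ hW (rm p x) fun w => rm_apply P (hW.1 x hx) w, h3, ← F.card, Finsupp.sum,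
    Finsupp.sum, Finset.mul_sum, Finset.sum_mul]
  refine Finset.sum_congr rfl fun γ _ => ?_
  have h4 : (2 * r (cp γ σ) : ℂ) = Fintype.card (Om R Φ σ) := by
    exact_mod_cast hb _ (sk_cp γ σ)
  rw [← h4]
  ring

/-- Homomorphisms with the same kernel as a real one are real. -/
theorem real_sk (hc : ∀ (σ : E →+* ℂ) a, σ (c a) = starRingEnd ℂ (σ a))
    (hr : ∀ a, starRingEnd ℂ (σ a) = σ a) (h : SK σ σ') (a : E) :
    starRingEnd ℂ (σ' a) = σ' a := by
  rw [← hc, ← sub_eq_zero, ← map_sub, h, map_sub, hc, hr, sub_self]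

theorem r_real (M : Mono R c Φ g ψ) (H : IsFrob R Φ) (hI : Idem Φ) {τ : ℂ ≃+* ℂ}
    {e : Matrix ι ι ℂ} (C : Coch R Φ r g ψ τ e) (hr : ∀ a, starRingEnd ℂ (σ a) = σ a) :
    2 * r σ = Fintype.card (Om R Φ σ) := by
  have h1 := r_dual M H hI C σ
  have h2 : cp starRingAut σ = σ := RingHom.ext fun a => hr a
  rw [h2] at h1
  rw [two_mul, h1]

end Pool.Agent.FQV
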