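import Pool.Agent.FQV.Goursat
import Pool.Agent.FQV.Ideal

/-!
# The Lie algebra

A matrix `D` is good if it is skew, commutes with the commutant of `g` and has trace zero on the irreducible subspaces.
Good matrices are in `g`: for every `σ` there is a skew `y ∈ g` which is equal to `D` on `HS R σ` and `HS R (cp starRingAut σ)`
and zero on the other eigenspaces. The general case follows by subtracting combinations of idempotents.
-/

set_option autoImplicit false
set_option linter.unusedSectionVars false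

namespace Pool.Agent.FQV

open Module
open Pool.Agent.CoprimeSig (ratM)

variable {ι : Type} [Fintype ι] [DecidableEq ι] {E : Type} [CommRing E]
  {R : E →+* Matrix ι ι ℚ} {Φ : Matrix ι ι ℚ} {σ : E →+* ℂ} {c : E → E}
  {g : Submodule ℂ (Matrix ι ι ℂ)} {ψ : Matrix ι ι ℂ} {r : (E →+* ℂ) → ℕ}

/-! ### Matrices which commute with the commutant -/

/-- The matrix of the projection onto a stable subspace. -/
private theorem fin_matrix {W : Submodule ℂ (ι → ℂ)} (M : Mono R c Φ g ψ)
    (hW : ∀ x ∈ g, ∀ w ∈ W, x.mulVec w ∈ W) :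
    ∃ Z : Matrix ι ι ℂ, (∀ x ∈ g, x * Z = Z * x) ∧ (∀ v, Z.mulVec v ∈ W) ∧
      ∀ w ∈ W, Z.mulVec w = w := by
  obtain ⟨p, P⟩ := exists_prj M hW
  have hZ : ∀ v, (LinearMap.toMatrix' (W.subtype ∘ₗ p)).mulVec v = (p v : ι → ℂ) := by
    intro v
    rw [← Matrix.toLin'_apply, Matrix.toLin'_toMatrix']
    rfl
  refine ⟨LinearMap.toMatrix' (W.subtype ∘ₗ p), fun x hx => ?_, fun v => ?_, fun w hw => ?_⟩
  · apply (Matrix.toLin' (R := ℂ)).injective
    refine LinearMap.ext fun v => ?_
    rw [Matrix.toLin'_apply, Matrix.toLin'_apply, ← Matrix.mulVec_mulVec, ← Matrix.mulVec_mulVec,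
      hZ, hZ, P.eq x hx]
  · rw [hZ]
    exact (p v).2
  · rw [hZ, P.id ⟨w, hw⟩]

/-- `D` commutes with the commutant of `g`. -/
private def Bic (g : Submodule ℂ (Matrix ι ι ℂ)) (D : Matrix ι ι ℂ) : Prop :=
  ∀ Z : Matrix ι ι ℂ, (∀ x ∈ g, x * Z = Z * x) → D * Z = Z * D

private theorem bic_stable {W : Submodule ℂ (ι → ℂ)} {D : Matrix ι ι ℂ} (M : Mono R c Φ g ψ)
    (hD : Bic g D) (hW : ∀ x ∈ g, ∀ w ∈ W, x.mulVec w ∈ W) : ∀ w ∈ W, D.mulVec w ∈ W := by
  intro w hw
  obtain ⟨Z, hZ, hZ1, hZ2⟩ := fin_matrix M hW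
  have h3 : D.mulVec w = Z.mulVec (D.mulVec w) := by
    conv_lhs => rw [← hZ2 w hw]
    rw [Matrix.mulVec_mulVec, hD Z hZ, Matrix.mulVec_mulVec]
  rw [h3]
  exact hZ1 _

private theorem bic_sub {D D' : Matrix ι ι ℂ} (h : Bic g D) (h' : Bic g D') :
    Bic g (D - D') := fun Z hZ => by rw [sub_mul, mul_sub, h Z hZ, h' Z hZ]

/-- The skew matrices which commute with the commutant. -/
private structure Sb (g : Submodule ℂ (Matrix ι ι ℂ)) (ψ D : Matrix ι ι ℂ) : Prop where
  skew : D.transpose * ψ + ψ * D = 0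
  bic : Bic g D

private theorem Sb.sub {D D' : Matrix ι ι ℂ} (h : Sb g ψ D) (h' : Sb g ψ D') :
    Sb g ψ (D - D') := by
  refine ⟨?_, bic_sub h.bic h'.bic⟩
  have e1 := h.skew
  have e2 := h'.skew
  rw [Matrix.transpose_sub, sub_mul, mul_sub]
  have e3 : D.transpose * ψ - D'.transpose * ψ + (ψ * D - ψ * D') =
      (D.transpose * ψ + ψ * D) - (D'.transpose * ψ + ψ * D') := by abel
  rw [e3, e1, e2, sub_zero]

/-- The skew matrices which commute with the commutant and have trace zero on the irreducible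
subspaces. -/
private structure Good (g : Submodule ℂ (Matrix ι ι ℂ)) (ψ D : Matrix ι ι ℂ) : Prop
    extends Sb g ψ D where
  tr : ∀ (W : Submodule ℂ (ι → ℂ)), Irr g W → ∀ p : (ι → ℂ) →ₗ[ℂ] W, Prj g W p →
    LinearMap.trace ℂ W (rm p D) = 0

/-- Equality on an irreducible subspace gives equality on the eigenspace. -/
private theorem eq_on_HS (M : Mono R c Φ g ψ) {W : Submodule ℂ (ι → ℂ)} (hW : Irr g W)
    (hσ : W ≤ HS R σ) {D y : Matrix ι ι ℂ} (hD : Bic g D) (hy : Bic g y)
    (h : ∀ w ∈ W, y.mulVec w = D.mulVec w) : ∀ w ∈ HS R σ, y.mulVec w = D.mulVec w := by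
  let S : Submodule ℂ (ι → ℂ) := Submodule.span ℂ {u | ∃ Z : Matrix ι ι ℂ,
    (∀ x ∈ g, x * Z = Z * x) ∧ ∃ w ∈ W, u = Z.mulVec w}
  have hst : ∀ (X : Matrix ι ι ℂ), (∀ Z : Matrix ι ι ℂ, (∀ x ∈ g, x * Z = Z * x) →
      ∀ w ∈ W, X.mulVec (Z.mulVec w) ∈ S) → ∀ u ∈ S, X.mulVec u ∈ S := by
    intro X hX u hu
    have h1 : S ≤ S.comap (Matrix.toLin' X) := by
      refine Submodule.span_le.2 ?_
      rintro _ ⟨Z, hZ, w, hw, rfl⟩
      change Matrix.toLin' X (Z.mulVec w) ∈ S
      rw [Matrix.toLin'_apply]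
      exact hX Z hZ w hw
    have h2 := h1 hu
    rwa [Submodule.mem_comap, Matrix.toLin'_apply] at h2
  have hle : S ≤ HS R σ := by
    refine Submodule.span_le.2 ?_
    rintro _ ⟨Z, hZ, w, hw, rfl⟩
    intro a
    rw [Matrix.mulVec_mulVec, ← M.center Z hZ a, ← Matrix.mulVec_mulVec, hσ hw a,
      Matrix.mulVec_smul]
  have hWS : W ≤ S := fun w hw => Submodule.subset_span
    ⟨1, fun x _ => by rw [mul_one, one_mul], w, hw, by rw [Matrix.one_mulVec]⟩
  have h1 : S = ⊥ ∨ S = HS R σ := by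
    refine M.iso σ S hle (fun x hx => hst x ?_) (fun Z' hZ' _ => hst Z' ?_)
    · intro Z hZ w hw
      refine Submodule.subset_span ⟨Z, hZ, x.mulVec w, hW.1 x hx w hw, ?_⟩
      rw [Matrix.mulVec_mulVec, Matrix.mulVec_mulVec, hZ x hx]
    · intro Z hZ w hw
      refine Submodule.subset_span ⟨Z' * Z, fun x hx => ?_, w, hw, ?_⟩
      · rw [← mul_assoc, hZ' x hx, mul_assoc, hZ x hx, mul_assoc]
      · rw [Matrix.mulVec_mulVec]
  have h2 : S = HS R σ := by
    rcases h1 with h1 | h1
    · exfalso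
      apply hW.2.1
      rw [eq_bot_iff, ← h1]
      exact hWS
    · exact h1
  have h3 : S ≤ LinearMap.eqLocus (Matrix.toLin' y) (Matrix.toLin' D) := by
    refine Submodule.span_le.2 ?_
    rintro _ ⟨Z, hZ, w, hw, rfl⟩
    change Matrix.toLin' y (Z.mulVec w) = Matrix.toLin' D (Z.mulVec w)
    rw [Matrix.toLin'_apply, Matrix.toLin'_apply, Matrix.mulVec_mulVec, Matrix.mulVec_mulVec,
      hy Z hZ, hD Z hZ, ← Matrix.mulVec_mulVec, ← Matrix.mulVec_mulVec, h w hw]
  intro w hw
  rw [← h2] at hw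
  have h4 := h3 hw
  change Matrix.toLin' y w = Matrix.toLin' D w at h4
  rwa [Matrix.toLin'_apply, Matrix.toLin'_apply] at h4

private theorem dot_transpose (X : Matrix ι ι ℂ) (u w : ι → ℂ) :
    X.mulVec u ⬝ᵥ w = u ⬝ᵥ X.transpose.mulVec w := by
  rw [Matrix.dotProduct_mulVec, Matrix.vecMul_transpose]

/-- Skew matrices which are equal on an eigenspace are equal on the conjugate one. -/
private theorem eq_on_conj (M : Mono R c Φ g ψ)
    (hc : ∀ (σ : E →+* ℂ) a, σ (c a) = starRingEnd ℂ (σ a)) {D y : Matrix ι ι ℂ}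
    (hD : Sb g ψ D) (hy : Sb g ψ y) (h : ∀ w ∈ HS R σ, y.mulVec w = D.mulVec w) :
    ∀ u ∈ HS R (cp starRingAut σ), y.mulVec u = D.mulVec u := by
  intro u hu
  have hG := hy.sub hD
  have hmem : (y - D).mulVec u ∈ HS R (cp starRingAut σ) :=
    bic_stable M hG.bic (HS_stable M) u hu
  have h1 : ∀ w, (y - D).mulVec u ⬝ᵥ ψ.mulVec w = 0 := by
    let L : (ι → ℂ) →ₗ[ℂ] ℂ :=
      { toFun := fun w => (y - D).mulVec u ⬝ᵥ ψ.mulVec w
        map_add' := fun v w => by rw [Matrix.mulVec_add, dotProduct_add]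
        map_smul' := fun t w => by rw [Matrix.mulVec_smul, dotProduct_smul, RingHom.id_apply] }
    have h2 : (⊤ : Submodule ℂ (ι → ℂ)) ≤ LinearMap.ker L := by
      rw [← iSup_HS M]
      refine iSup_le fun σ' w hw => ?_
      rw [LinearMap.mem_ker]
      change (y - D).mulVec u ⬝ᵥ ψ.mulVec w = 0
      by_cases hσ : σ' = σ
      · subst hσ
        have e1 : (y - D).transpose * ψ = -(ψ * (y - D)) := eq_neg_of_add_eq_zero_left hG.skew
        rw [dot_transpose, Matrix.mulVec_mulVec, e1, Matrix.neg_mulVec, ← Matrix.mulVec_mulVec,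
          Matrix.sub_mulVec, h w hw, sub_self, Matrix.mulVec_zero, neg_zero, dotProduct_zero]
      · by_contra hne
        apply hσ
        refine RingHom.ext fun a => ?_
        have e1 : (ratM (R a)).mulVec ((y - D).mulVec u) ⬝ᵥ ψ.mulVec w =
            (y - D).mulVec u ⬝ᵥ ψ.mulVec ((ratM (R (c a))).mulVec w) := by
          rw [dot_transpose, Matrix.mulVec_mulVec, Matrix.mulVec_mulVec, M.ros]
        rw [hmem a, hw (c a), Matrix.mulVec_smul, smul_dotProduct, dotProduct_smul, smul_eq_mul,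
          smul_eq_mul, hc] at e1
        have e2 := mul_right_cancel₀ hne e1
        have e3 : starRingEnd ℂ (σ a) = starRingEnd ℂ (σ' a) := e2
        exact ((starRingEnd ℂ).injective e3).symm
    intro w
    exact LinearMap.mem_ker.1 (h2 (Submodule.mem_top : w ∈ ⊤))
  have h2 : (y - D).mulVec u = 0 := by
    obtain ⟨w, hw⟩ := M.unit
    have hinv : ψ * ((w⁻¹ : (Matrix ι ι ℂ)ˣ) : Matrix ι ι ℂ) = 1 := by
      rw [← hw]
      exact w.mul_inv
    refine dotProduct_eq_zero _ fun z => ?_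
    have h3 := h1 (((w⁻¹ : (Matrix ι ι ℂ)ˣ) : Matrix ι ι ℂ).mulVec z)
    rwa [Matrix.mulVec_mulVec, hinv, Matrix.one_mulVec] at h3
  rw [Matrix.sub_mulVec] at h2
  exact sub_eq_zero.1 h2

private theorem rm_congr {W : Submodule ℂ (ι → ℂ)} {p : (ι → ℂ) →ₗ[ℂ] W} {D D' : Matrix ι ι ℂ}
    (P : Prj g W p) (hD : ∀ w ∈ W, D.mulVec w ∈ W) (hD' : ∀ w ∈ W, D'.mulVec w ∈ W)
    (h : ∀ w ∈ W, D.mulVec w = D'.mulVec w) : rm p D = rm p D' := by
  refine LinearMap.ext fun w => Subtype.ext ?_
  rw [rm_apply P hD, rm_apply P hD', h w w.2]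

/-- An operator with trace zero on a line is zero. -/
private theorem zero_of_trace {V : Type*} [AddCommGroup V] [Module ℂ V] (h1 : finrank ℂ V = 1)
    {A : End ℂ V} (hA : LinearMap.trace ℂ V A = 0) : A = 0 := by
  have hfin : FiniteDimensional ℂ V := FiniteDimensional.of_finrank_pos (by omega)
  obtain ⟨v, hv, hspan⟩ := finrank_eq_one_iff'.1 h1
  obtain ⟨s, hs⟩ := hspan (A v)
  have h2 : A = s • (1 : End ℂ V) := by
    refine LinearMap.ext fun w => ?_
    obtain ⟨t, rfl⟩ := hspan w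
    rw [map_smul, ← hs, LinearMap.smul_apply, Module.End.one_apply, smul_comm]
  rw [h2, map_smul, LinearMap.trace_one, h1, Nat.cast_one, smul_eq_mul, mul_one] at hA
  rw [h2, hA, zero_smul]

/-- **The Lie algebra.** -/
theorem mem_iff [Algebra ℚ E] [Module.Finite ℚ E] [IsReduced E] (M : Mono R c Φ g ψ)
    (H : IsFrob R Φ) (hR : Rk R Φ r) (hc : ∀ (σ : E →+* ℂ) a, σ (c a) = starRingEnd ℂ (σ a))
    {sp : (E →+* ℂ) → Prop}
    (hkd : ∀ σ : E →+* ℂ, Fintype.card (Om R Φ σ) = 1 ∨ Kd R Φ g sp σ)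
    (hT : ∀ σ σ' : E →+* ℂ, Fintype.card (Om R Φ σ) ≠ 1 → σ' ≠ cp starRingAut σ →
      NoTw R Φ r σ σ')
    (hx : ∀ σ σ' : E →+* ℂ, NoEx R Φ r sp σ σ')
    (hfull : ∀ (σ : E →+* ℂ) (W : Submodule ℂ (ι → ℂ)) (p : (ι → ℂ) →ₗ[ℂ] W)
      (v : Basis (Om R Φ σ) ℂ W), Frame R Φ g σ W p v → Fintype.card (Om R Φ σ) ≠ 1 →
      FullW g ψ p) (N : Matrix ι ι ℂ) :
    N ∈ g ↔ (∀ Z : Matrix ι ι ℂ, (∀ x ∈ g, x * Z = Z * x) → N * Z = Z * N) ∧
      ∃ a : (ℂ ≃+* ℂ) →₀ ℂ, TrC R r g ψ N a := by
  have hI : Idem Φ := hR.tr.idem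
  constructor
  · intro hN
    exact ⟨fun Z hZ => hZ N hN, exists_trc M H hR hN⟩
  · rintro ⟨hbic, a, hm, htr⟩
    rcases isEmpty_or_nonempty ι with hι | hι
    · have h1 : N = 0 := Matrix.ext fun i => (hι.false i).elim
      rw [h1]
      exact g.zero_mem
    -- the matrices given by one eigenspace
    have key : ∀ D : Matrix ι ι ℂ, Good g ψ D → ∀ σ : E →+* ℂ, ∃ y ∈ g, Sb g ψ y ∧
        (∀ w ∈ HS R σ, y.mulVec w = D.mulVec w) ∧
        (∀ w ∈ HS R (cp starRingAut σ), y.mulVec w = D.mulVec w) ∧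
        ∀ σ' : E →+* ℂ, σ' ≠ σ → σ' ≠ cp starRingAut σ → ∀ w ∈ HS R σ', y.mulVec w = 0 := by
      intro D hD σ
      obtain ⟨W, p, v, F⟩ := exists_frame M H hI σ
      have hDW := bic_stable M hD.bic F.irr.1
      by_cases h1 : Fintype.card (Om R Φ σ) = 1
      · have h0 : Sb g ψ 0 := ⟨by rw [Matrix.transpose_zero, zero_mul, mul_zero, add_zero],
          fun Z _ => by rw [zero_mul, mul_zero]⟩
        have h2 : rm p D = 0 :=
          zero_of_trace (by rw [← F.card, h1]) (hD.tr W F.irr p F.prj)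
        have h3 : ∀ w ∈ HS R σ, (0 : Matrix ι ι ℂ).mulVec w = D.mulVec w := by
          refine eq_on_HS M F.irr F.le hD.bic h0.bic fun w hw => ?_
          have h4 := congrArg (fun T : End ℂ W => (T ⟨w, hw⟩ : ι → ℂ)) h2
          rw [rm_apply F.prj hDW] at h4
          rw [h4, Matrix.zero_mulVec]
          rfl
        exact ⟨0, g.zero_mem, h0, h3, eq_on_conj M hc hD.toSb h0 h3,
          fun _ _ _ w _ => Matrix.zero_mulVec w⟩
      · have hne : Fintype.card (Om R Φ σ) ≠ 1 := h1
        have K := (hkd σ).resolve_left h1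
        have hres : rm p D ∈ res p g := by
          refine hfull σ W p v F hne (rm p D) (hD.tr W F.irr p F.prj) fun φ hφ u w => ?_
          exact skew_of_skew M F.irr F.prj hφ.mult hD.skew hD.bic hDW u w
        have hG : ∀ (z y : Matrix ι ι ℂ) (G : ℂ → ℚ) (π : ℂ → ℂ), Jrt R Φ g z y G π →
            (∃ μ ∈ Om R Φ σ, G μ ≠ 0) → ∀ σ' : E →+* ℂ, σ' ≠ σ → σ' ≠ cp starRingAut σ →
            ∀ μ ∈ Om R Φ σ', G μ = 0 := by
          intro z y G π J hμ σ' h1 h2
          rcases hkd σ' with h3 | K'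
          · intro μ hμ'
            obtain ⟨x, hx⟩ := Fintype.card_eq_one_iff.1 h3
            have h4 := J.sum σ'
            rw [Fintype.sum_eq_single (⟨μ, hμ'⟩ : Om R Φ σ') fun b hb =>
              absurd ((hx b).trans (hx ⟨μ, hμ'⟩).symm) hb] at h4
            exact h4
          · have hcc : cp starRingAut (cp starRingAut σ) = σ :=
              RingHom.ext fun a => Complex.conj_conj (σ a)
            exact goursat M H hR K K' (hT σ σ' hne h2)
              (hT _ σ' (by rw [card_cp]; exact hne) (by rw [hcc]; exact h1)) (hx σ σ') (hx σ' σ)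
              h1 h2 J hμ
        obtain ⟨y, hy, hyD, hys, hy0⟩ := exists_single M H hI F hG hres
          (hD.tr W F.irr p F.prj)
        have hyS : Sb g ψ y := ⟨hys, fun Z hZ => hZ y hy⟩
        have h1 : ∀ w ∈ HS R σ, y.mulVec w = D.mulVec w := by
          refine eq_on_HS M F.irr F.le hD.bic hyS.bic fun w hw => ?_
          have h2 := congrArg (fun T : End ℂ W => (T ⟨w, hw⟩ : ι → ℂ)) hyD
          rwa [rm_apply F.prj (F.irr.1 y hy), rm_apply F.prj hDW] at h2
        exact ⟨y, hy, hyS, h1, eq_on_conj M hc hD.toSb hyS h1, hy0⟩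
    -- induction
    have hfin : Finite (E →+* ℂ) := finite_hom
    have main : ∀ (n : ℕ) (D : Matrix ι ι ℂ), Good g ψ D →
        {σ : E →+* ℂ | ∃ w ∈ HS R σ, D.mulVec w ≠ 0}.ncard = n → D ∈ g := by
      intro n
      induction n using Nat.strong_induction_on with
      | _ n ih =>
        intro D hD hn
        by_cases h0 : ∀ σ : E →+* ℂ, ∀ w ∈ HS R σ, D.mulVec w = 0
        · have h1 : D = 0 := by
            have h2 : (⊤ : Submodule ℂ (ι → ℂ)) ≤ LinearMap.ker (Matrix.toLin' D) := by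
              rw [← iSup_HS M]
              refine iSup_le fun σ w hw => ?_
              rw [LinearMap.mem_ker, Matrix.toLin'_apply]
              exact h0 σ w hw
            have h3 : Matrix.toLin' D = 0 := LinearMap.ext fun w =>
              LinearMap.mem_ker.1 (h2 Submodule.mem_top)
            exact (Matrix.toLin' (R := ℂ)).injective (h3.trans (map_zero _).symm)
          rw [h1]
          exact g.zero_mem
        · push Not at h0
          obtain ⟨σ, w₀, hw₀, hne⟩ := h0
          obtain ⟨y, hy, hyS, h1, h2, h3⟩ := key D hD σ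
          -- the difference
          have hval : ∀ σ' : E →+* ℂ, (∀ w ∈ HS R σ', (D - y).mulVec w = 0) ∨
              ∀ w ∈ HS R σ', (D - y).mulVec w = D.mulVec w := by
            intro σ'
            by_cases e1 : σ' = σ
            · subst e1
              exact Or.inl fun w hw => by rw [Matrix.sub_mulVec, h1 w hw, sub_self]
            · by_cases e2 : σ' = cp starRingAut σ
              · subst e2
                exact Or.inl fun w hw => by rw [Matrix.sub_mulVec, h2 w hw, sub_self]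
              · exact Or.inr fun w hw => by rw [Matrix.sub_mulVec, h3 σ' e1 e2 w hw, sub_zero]
          have hG : Good g ψ (D - y) := by
            refine ⟨hD.toSb.sub hyS, fun W hW p P => ?_⟩
            obtain ⟨σ', hσ'⟩ := exists_sig M hW
            have hst := bic_stable M (hD.toSb.sub hyS).bic hW.1
            rcases hval σ' with h4 | h4
            · rw [rm_congr (D' := 0) P hst (fun w _ => by
                rw [Matrix.zero_mulVec]
                exact W.zero_mem) fun w hw => by rw [h4 w (hσ' hw), Matrix.zero_mulVec]]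
              have h5 : rm p (0 : Matrix ι ι ℂ) = 0 := by
                unfold rm
                rw [map_zero, map_zero]
              rw [h5, map_zero]
            · rw [rm_congr P hst (bic_stable M hD.bic hW.1) fun w hw => h4 w (hσ' hw)]
              exact hD.tr W hW p P
          have h4 : {σ' : E →+* ℂ | ∃ w ∈ HS R σ', (D - y).mulVec w ≠ 0} ⊂
              {σ' : E →+* ℂ | ∃ w ∈ HS R σ', D.mulVec w ≠ 0} := by
            refine (Set.ssubset_iff_of_subset ?_).2 ⟨σ, ⟨w₀, hw₀, hne⟩, ?_⟩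
            · rintro σ' ⟨w, hw, hDw⟩
              rcases hval σ' with h5 | h5
              · exact absurd (h5 w hw) hDw
              · rw [h5 w hw] at hDw
                exact ⟨w, hw, hDw⟩
            · rintro ⟨w, hw, hDw⟩
              rw [Matrix.sub_mulVec, h1 w hw, sub_self] at hDw
              exact hDw rfl
          have h5 := Set.ncard_lt_ncard h4 (Set.toFinite _)
          rw [hn] at h5
          have h6 := ih _ h5 (D - y) hG rfl
          have h7 := g.add_mem h6 hy
          rwa [sub_add_cancel] at h7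
    -- the combination of idempotents with the same multiplier and the same traces
    have comb : ∀ b : (ℂ ≃+* ℂ) →₀ ℂ, ∃ x ∈ g, TrC R r g ψ x b := by
      intro b
      induction b using Finsupp.induction_linear with
      | zero => exact ⟨0, g.zero_mem, TrC.zero⟩
      | add b b' hb hb' =>
        obtain ⟨x, hx, h1⟩ := hb
        obtain ⟨x', hx', h1'⟩ := hb'
        exact ⟨x + x', g.add_mem hx hx', h1.add hx hx' h1'⟩
      | single γ t =>
        obtain ⟨e, he, hee, htr, hs⟩ := hR.ex γ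
        have h1 := (TrC.idem M H hI he hee htr hs).smul (M.le he) t
        rw [Finsupp.smul_single, smul_eq_mul, mul_one] at h1
        exact ⟨t • e, g.smul_mem t (M.le he), h1⟩
    obtain ⟨x, hx, hxm, hxt⟩ := comb a
    have hxb : Bic g x := fun Z hZ => hZ x hx
    have hD : Good g ψ (N - x) := by
      refine ⟨⟨?_, bic_sub hbic hxb⟩, fun W hW p P => ?_⟩
      · rw [Matrix.transpose_sub, sub_mul, mul_sub]
        have e1 : N.transpose * ψ - x.transpose * ψ + (ψ * N - ψ * x) =
            (N.transpose * ψ + ψ * N) - (x.transpose * ψ + ψ * x) := by abel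
        rw [e1, hm, hxm, sub_self]
      · obtain ⟨σ, hσ⟩ := exists_sig M hW
        have hst : ∀ w ∈ W, N.mulVec w ∈ W := bic_stable M hbic hW.1
        have h1 := htr σ W hσ hW (rm p N) fun w => rm_apply P hst w
        have h2 := hxt σ W hσ hW (rm p x) fun w => rm_apply P (hW.1 x hx) w
        rw [rm_sub]
        refine ((LinearMap.trace ℂ W).map_sub (rm p N) (rm p x)).trans ?_
        rw [h1, h2, sub_self]
    have h8 := g.add_mem (main _ _ hD rfl) hx
    rwa [sub_add_cancel] at h8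

end Pool.Agent.FQV
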