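import Pool.Agent.FQV.Trc

/-!
# Invariant forms on the irreducible subspaces
-/

set_option autoImplicit false
set_option linter.unusedSectionVars false

namespace Pool.Agent.FQV

open Module
open Pool.Agent.CoprimeSig (ratM)

variable {ι : Type} [Fintype ι] [DecidableEq ι] {E : Type} [CommRing E]
  {R : E →+* Matrix ι ι ℚ} {Φ : Matrix ι ι ℚ} {σ : E →+* ℂ} {c : E → E}
  {g : Submodule ℂ (Matrix ι ι ℂ)} {ψ : Matrix ι ι ℂ} {W : Submodule ℂ (ι → ℂ)}
  {p : (ι → ℂ) →ₗ[ℂ] W} {r : (E →+* ℂ) → ℕ}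

/-- The elements of `g` have the same multipliers for `φ` as for `ψ`. -/
def Mul (g : Submodule ℂ (Matrix ι ι ℂ)) (ψ : Matrix ι ι ℂ) (p : (ι → ℂ) →ₗ[ℂ] W)
    (φ : W →ₗ[ℂ] W →ₗ[ℂ] ℂ) : Prop :=
  ∀ x ∈ g, ∀ κ : ℂ, x.transpose * ψ + ψ * x = κ • ψ →
    ∀ u w, φ (rm p x u) w + φ u (rm p x w) = κ * φ u w

/-- `φ` is a nondegenerate form on `W` for which the elements of `g` have the same multipliers as
for `ψ`. -/
structure IsForm (g : Submodule ℂ (Matrix ι ι ℂ)) (ψ : Matrix ι ι ℂ) (p : (ι → ℂ) →ₗ[ℂ] W)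
    (φ : W →ₗ[ℂ] W →ₗ[ℂ] ℂ) : Prop where
  nd : ∀ x, (∀ y, φ x y = 0) → x = 0
  mult : Mul g ψ p φ

private theorem form_ext {A B : Matrix ι ι ℂ}
    (h : ∀ u v : ι → ℂ, u ⬝ᵥ A.mulVec v = u ⬝ᵥ B.mulVec v) : A = B := by
  ext i j
  have h1 := h (Pi.single i 1) (Pi.single j 1)
  simpa using h1

/-- `p` commutes with the elements of `g` -/
private theorem form_p (hW : Irr g W) (P : Prj g W p) {x : Matrix ι ι ℂ} (hx : x ∈ g)
    (u : ι → ℂ) : p (x.mulVec u) = rm p x (p u) := by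
  apply Subtype.ext
  rw [P.eq x hx u, rm_apply P (hW.1 x hx)]

theorem exists_rep (M : Mono R c Φ g ψ) (hW : Irr g W) (P : Prj g W p)
    {φ : W →ₗ[ℂ] W →ₗ[ℂ] ℂ} (hφ : Mul g ψ p φ) :
    ∃ Z : Matrix ι ι ℂ, (∀ x ∈ g, x * Z = Z * x) ∧
      ∀ u v : ι → ℂ, φ (p u) (p v) = u ⬝ᵥ (ψ * Z).mulVec v := by
  obtain ⟨b, hb⟩ : ∃ b : Matrix ι ι ℂ, ∀ u v : ι → ℂ, φ (p u) (p v) = u ⬝ᵥ b.mulVec v := by
    refine ⟨LinearMap.toMatrix₂' ℂ (φ.compl₁₂ p p), fun u v => ?_⟩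
    have h1 := Matrix.toLinearMap₂'_apply' (LinearMap.toMatrix₂' ℂ (φ.compl₁₂ p p)) u v
    rw [Matrix.toLinearMap₂'_toMatrix'] at h1
    rw [← h1, LinearMap.compl₁₂_apply]
  obtain ⟨w, hw⟩ := M.unit
  have hinv : ψ * ((w⁻¹ : (Matrix ι ι ℂ)ˣ) : Matrix ι ι ℂ) = 1 := by
    rw [← hw]
    exact w.mul_inv
  have hinv' : ((w⁻¹ : (Matrix ι ι ℂ)ˣ) : Matrix ι ι ℂ) * ψ = 1 := by
    rw [← hw]
    exact w.inv_mul
  obtain ⟨Z, hZ⟩ : ∃ Z : Matrix ι ι ℂ, ψ * Z = b :=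
    ⟨((w⁻¹ : (Matrix ι ι ℂ)ˣ) : Matrix ι ι ℂ) * b, by rw [← mul_assoc, hinv, one_mul]⟩
  refine ⟨Z, fun x hx => ?_, fun u v => by rw [hZ]; exact hb u v⟩
  obtain ⟨κ, hκ⟩ := M.sim x hx
  have h1 : x.transpose * b + b * x = κ • b := by
    refine form_ext fun u v => ?_
    have h2 := hφ x hx κ hκ (p u) (p v)
    rw [← form_p hW P hx, ← form_p hW P hx, hb, hb, hb] at h2
    rw [Matrix.add_mulVec, dotProduct_add, Matrix.smul_mulVec, dotProduct_smul, smul_eq_mul,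
      ← h2, ← Matrix.mulVec_mulVec v x.transpose b, ← Matrix.mulVec_mulVec v b x,
      Matrix.dotProduct_mulVec u x.transpose, Matrix.vecMul_transpose]
  have h3 : x.transpose * ψ = κ • ψ - ψ * x := eq_sub_of_add_eq hκ
  have h4 : ψ * (x * Z) = ψ * (Z * x) := by
    have h5 : x.transpose * b = κ • b - ψ * (x * Z) := by
      rw [← hZ, ← mul_assoc, h3, sub_mul, smul_mul_assoc, mul_assoc ψ x Z]
    rw [h5, ← hZ] at h1
    rw [← mul_assoc ψ Z x]
    have h6 : ψ * Z * x - ψ * (x * Z) = 0 := by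
      rw [← sub_eq_zero] at h1
      rw [← h1]
      abel
    exact (sub_eq_zero.1 h6).symm
  have h5 := congrArg (fun y => ((w⁻¹ : (Matrix ι ι ℂ)ˣ) : Matrix ι ι ℂ) * y) h4
  simp only [← mul_assoc, hinv', one_mul] at h5
  exact h5

theorem real_of_form (M : Mono R c Φ g ψ) (hc : ∀ (σ : E →+* ℂ) a, σ (c a) = starRingEnd ℂ (σ a))
    (hW : Irr g W) (P : Prj g W p) (hσ : W ≤ HS R σ) {φ : W →ₗ[ℂ] W →ₗ[ℂ] ℂ}
    (hφ : Mul g ψ p φ) (h0 : φ ≠ 0) (a : E) : starRingEnd ℂ (σ a) = σ a := by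
  obtain ⟨Z, hZ, hrep⟩ := exists_rep M hW P hφ
  obtain ⟨u, w, huw⟩ : ∃ u w : W, φ u w ≠ 0 := by
    by_contra h
    push Not at h
    exact h0 (LinearMap.ext fun u => LinearMap.ext fun w => h u w)
  have h1 : φ u w = (u : ι → ℂ) ⬝ᵥ (ψ * Z).mulVec w := by rw [← hrep, P.id, P.id]
  have h2 : σ a * φ u w = σ (c a) * φ u w := by
    calc σ a * φ u w = (σ a • (u : ι → ℂ)) ⬝ᵥ (ψ * Z).mulVec w := by
          rw [smul_dotProduct, smul_eq_mul, h1]
      _ = ((ratM (R a)).mulVec (u : ι → ℂ)) ⬝ᵥ (ψ * Z).mulVec w := by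
          rw [mem_HS.1 (hσ u.2) a]
      _ = (u : ι → ℂ) ⬝ᵥ ((ratM (R a)).transpose * (ψ * Z)).mulVec w := by
          rw [← Matrix.mulVec_mulVec (w : ι → ℂ) (ratM (R a)).transpose (ψ * Z),
            Matrix.dotProduct_mulVec (u : ι → ℂ) (ratM (R a)).transpose,
            Matrix.vecMul_transpose]
      _ = (u : ι → ℂ) ⬝ᵥ (ψ * Z * ratM (R (c a))).mulVec w := by
          rw [← mul_assoc, M.ros, mul_assoc, ← M.center Z hZ, ← mul_assoc]
      _ = (u : ι → ℂ) ⬝ᵥ (ψ * Z).mulVec (σ (c a) • (w : ι → ℂ)) := by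
          rw [← Matrix.mulVec_mulVec, mem_HS.1 (hσ w.2) (c a)]
      _ = σ (c a) * φ u w := by
          rw [Matrix.mulVec_smul, dotProduct_smul, smul_eq_mul, h1]
  rw [← hc]
  exact (mul_right_cancel₀ huw h2).symm

/-- the trace of a similitude of a nondegenerate form -/
private theorem trace_sim {V : Type*} [AddCommGroup V] [Module ℂ V] [FiniteDimensional ℂ V]
    {φ : V →ₗ[ℂ] V →ₗ[ℂ] ℂ} (hφ : ∀ x, (∀ y, φ x y = 0) → x = 0) {y : End ℂ V} {κ : ℂ}
    (h : ∀ u w, φ (y u) w + φ u (y w) = κ * φ u w) :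
    2 * LinearMap.trace ℂ V y = κ * finrank ℂ V := by
  have hinj : Function.Injective (φ : V →ₗ[ℂ] Module.Dual ℂ V) := by
    rw [injective_iff_map_eq_zero]
    intro x hx
    exact hφ x fun z => by rw [hx]; rfl
  let e : V ≃ₗ[ℂ] Module.Dual ℂ V := LinearMap.linearEquivOfInjective
    (φ : V →ₗ[ℂ] Module.Dual ℂ V) hinj Subspace.dual_finrank_eq.symm
  have he : ∀ u, e u = φ u := fun u => rfl
  have h1 : e.conj y = κ • (1 : End ℂ (Module.Dual ℂ V)) -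
      Module.Dual.transpose (R := ℂ) y := by
    refine LinearMap.ext fun f => ?_
    obtain ⟨u, rfl⟩ := e.surjective f
    refine LinearMap.ext fun w => ?_
    have h2 : e.conj y (e u) = e (y u) := by
      rw [LinearEquiv.conj_apply_apply, e.symm_apply_apply]
    have h3 : (κ • (1 : End ℂ (Module.Dual ℂ V)) - Module.Dual.transpose (R := ℂ) y) (e u) w =
        κ * φ u w - φ u (y w) := rfl
    rw [h2, h3, he, ← h u w]
    ring
  have h2 := congrArg (LinearMap.trace ℂ (Module.Dual ℂ V)) h1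
  rw [LinearMap.trace_conj', map_sub, map_smul, LinearMap.trace_one, LinearMap.trace_transpose',
    Subspace.dual_finrank_eq, smul_eq_mul] at h2
  linear_combination h2

/-- An idempotent similitude which is not `0` or `1` has multiplier one. -/
private theorem form_idem {V : Type*} [AddCommGroup V] [Module ℂ V] {φ : V →ₗ[ℂ] V →ₗ[ℂ] ℂ}
    (hφ : ∀ x, (∀ y, φ x y = 0) → x = 0) {e : End ℂ V} (hee : e * e = e) (h0 : e ≠ 0)
    (h1 : e ≠ 1) {κ : ℂ} (h : ∀ u w, φ (e u) w + φ u (e w) = κ * φ u w) : κ = 1 := by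
  have hee' : ∀ w, e (e w) = e w := fun w => LinearMap.congr_fun hee w
  have e0 : ∀ w, e (w - e w) = 0 := fun w => by rw [map_sub, hee', sub_self]
  by_contra hκ
  have hκ' : 1 - κ ≠ 0 := sub_ne_zero.2 (Ne.symm hκ)
  -- the image and the kernel are orthogonal
  have h2 : ∀ a b, φ (e a) (b - e b) = 0 := fun a b => by
    have h3 := h (e a) (b - e b)
    rw [hee', e0, map_zero, add_zero] at h3
    exact (mul_eq_zero.1 (show (1 - κ) * φ (e a) (b - e b) = 0 by linear_combination h3)).resolve_left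
      hκ'
  have h2' : ∀ a b, φ (b - e b) (e a) = 0 := fun a b => by
    have h3 := h (b - e b) (e a)
    rw [hee', e0, map_zero, LinearMap.zero_apply, zero_add] at h3
    exact (mul_eq_zero.1 (show (1 - κ) * φ (b - e b) (e a) = 0 by linear_combination h3)).resolve_left
      hκ'
  have h3 : ∀ a b, (2 - κ) * φ (e a) (e b) = 0 := fun a b => by
    have h4 := h (e a) (e b)
    rw [hee', hee'] at h4
    linear_combination h4
  have h4 : ∀ a b, κ * φ (a - e a) (b - e b) = 0 := fun a b => by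
    have h5 := h (a - e a) (b - e b)
    rw [e0, e0, map_zero, map_zero, LinearMap.zero_apply, zero_add] at h5
    exact h5.symm
  by_cases hκ0 : κ = 0
  · apply h0
    ext a
    refine hφ _ fun b => ?_
    have h5 : φ (e a) (e b) = 0 :=
      (mul_eq_zero.1 (h3 a b)).resolve_left (by rw [hκ0, sub_zero]; exact two_ne_zero)
    have h6 := h2 a b
    rwa [map_sub, h5, sub_zero] at h6
  · apply h1
    ext a
    rw [Module.End.one_apply, eq_comm, ← sub_eq_zero]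
    refine hφ _ fun b => ?_
    have h5 : φ (a - e a) (b - e b) = 0 := (mul_eq_zero.1 (h4 a b)).resolve_left hκ0
    rwa [map_sub (φ (a - e a)) b, h2', sub_zero] at h5

variable [Algebra ℚ E] [Module.Finite ℚ E] [IsReduced E]

/-- There is no form on the irreducible subspaces for a homomorphism which is not real. -/
theorem no_form (M : Mono R c Φ g ψ) (H : IsFrob R Φ) (hR : Rk R Φ r)
    (hc : ∀ (σ : E →+* ℂ) a, σ (c a) = starRingEnd ℂ (σ a))
    (hW : Irr g W) (P : Prj g W p) (hσ : W ≤ HS R σ) (hn : ∃ a, starRingEnd ℂ (σ a) ≠ σ a)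
    (htw : (∀ σ', SK σ σ' → 2 * r σ' = Fintype.card (Om R Φ σ) ∨ r σ' = 0 ∨
      r σ' = Fintype.card (Om R Φ σ)) → ∀ σ', SK σ σ' → 2 * r σ' = Fintype.card (Om R Φ σ))
    (φ : W →ₗ[ℂ] W →ₗ[ℂ] ℂ) (hφ : ∀ x, (∀ y, φ x y = 0) → x = 0) :
    ¬ ∀ y ∈ res p g, ∃ κ : ℂ, ∀ u w, φ (y u) w + φ u (y w) = κ * φ u w := by
  intro h
  have hnt : Nontrivial W := Submodule.nontrivial_iff_ne_bot.2 hW.2.1
  have hdim : (finrank ℂ W : ℂ) ≠ 0 := by
    rw [Nat.cast_ne_zero]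
    exact (finrank_pos (R := ℂ) (M := W)).ne'
  obtain ⟨v, F⟩ := exists_basis M H hR.tr.idem hW P hσ
  -- the ranks are half of the dimension
  have hb : ∀ σ', SK σ σ' → 2 * r σ' = Fintype.card (Om R Φ σ) := by
    refine htw fun σ' hsk => ?_
    by_cases hz : r σ' = 0
    · exact Or.inr (Or.inl hz)
    by_cases hz' : r σ' = Fintype.card (Om R Φ σ)
    · exact Or.inr (Or.inr hz')
    left
    obtain ⟨γ, rfl⟩ := hsk.exists_cp
    obtain ⟨e, he, hee, -, hs⟩ := hR.ex γ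
    obtain ⟨h1, h2, -⟩ := rm_val F M he hee
    have htr := trace_rm F M he hee
    rw [hs σ] at htr
    obtain ⟨κ, hκ⟩ := h _ (rm_mem (M.le he))
    have h3 : κ = 1 := by
      refine form_idem hφ h2 ?_ ?_ hκ
      · intro h4
        rw [h4, map_zero] at htr
        have h5 : (r (cp γ σ) : ℂ) = 0 := by exact_mod_cast htr.symm
        have h6 : r (cp γ σ) = 0 := by exact_mod_cast h5
        omega
      · intro h4
        rw [h4, LinearMap.trace_one, ← F.card] at htr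
        have h5 : ((Fintype.card (Om R Φ σ) : ℕ) : ℂ) = (r (cp γ σ) : ℂ) := by exact_mod_cast htr
        have h6 : Fintype.card (Om R Φ σ) = r (cp γ σ) := by exact_mod_cast h5
        omega
    have h4 := trace_sim hφ hκ
    rw [htr, h3, one_mul, ← F.card] at h4
    exact_mod_cast h4
  have hmul : Mul g ψ p φ := by
    intro x hx κ hκ
    obtain ⟨κ', hκ'⟩ := h _ (rm_mem hx)
    have h1 := trace_sim hφ hκ'
    rw [bal M H hR hW P hσ hb hx hκ] at h1
    have h2 := mul_right_cancel₀ hdim h1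
    rw [h2]
    exact hκ'
  have h0 : φ ≠ 0 := by
    intro h0
    obtain ⟨x, hx⟩ := exists_ne (0 : W)
    exact hx (hφ x fun y => by rw [h0]; rfl)
  obtain ⟨a, ha⟩ := hn
  exact ha (real_of_form M hc hW P hσ hmul h0 a)

omit [Algebra ℚ E] [Module.Finite ℚ E] [IsReduced E]

/-- The elements of `res p g` are similitudes. -/
theorem IsForm.sim {φ : W →ₗ[ℂ] W →ₗ[ℂ] ℂ} (hφ : IsForm g ψ p φ) (M : Mono R c Φ g ψ) :
    ∀ x ∈ res p g, ∃ κ : ℂ, ∀ u w, φ (x u) w + φ u (x w) = κ * φ u w := by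
  intro y hy
  obtain ⟨x, hx, rfl⟩ := mem_res.1 hy
  obtain ⟨κ, hκ⟩ := M.sim x hx
  exact ⟨κ, hφ.mult x hx κ hκ⟩

/-- A matrix which is skew for `ψ` and commutes with the commutant of `g` is skew for `φ`. -/
theorem skew_of_skew (M : Mono R c Φ g ψ) (hW : Irr g W) (P : Prj g W p)
    {φ : W →ₗ[ℂ] W →ₗ[ℂ] ℂ} (hφ : Mul g ψ p φ) {D : Matrix ι ι ℂ}
    (hD : D.transpose * ψ + ψ * D = 0)
    (hcomm : ∀ Z : Matrix ι ι ℂ, (∀ x ∈ g, x * Z = Z * x) → D * Z = Z * D)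
    (hDW : ∀ w ∈ W, D.mulVec w ∈ W) (u w : W) : φ (rm p D u) w + φ u (rm p D w) = 0 := by
  obtain ⟨Z, hZ, hrep⟩ := exists_rep M hW P hφ
  have h1 : ∀ u w : W, φ u w = (u : ι → ℂ) ⬝ᵥ (ψ * Z).mulVec w := by
    intro u w
    rw [← hrep, P.id, P.id]
  rw [h1, h1, rm_apply P hDW, rm_apply P hDW]
  have h2 : (D.mulVec (u : ι → ℂ)) ⬝ᵥ (ψ * Z).mulVec w =
      (u : ι → ℂ) ⬝ᵥ (D.transpose * ψ * Z).mulVec w := by
    have h4 : (D.transpose * ψ * Z).mulVec (w : ι → ℂ) =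
        D.transpose.mulVec ((ψ * Z).mulVec (w : ι → ℂ)) := by
      rw [Matrix.mulVec_mulVec, mul_assoc]
    rw [h4, Matrix.dotProduct_mulVec (u : ι → ℂ) D.transpose, Matrix.vecMul_transpose]
  have h3 : (ψ * Z).mulVec (D.mulVec (w : ι → ℂ)) = (ψ * D * Z).mulVec w := by
    rw [Matrix.mulVec_mulVec, mul_assoc, ← hcomm Z hZ, ← mul_assoc]
  rw [h2, h3, ← dotProduct_add, ← Matrix.add_mulVec, ← add_mul, hD, zero_mul, Matrix.zero_mulVec,
    dotProduct_zero]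

end Pool.Agent.FQV
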