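import Pool.Agent.FQV.Form

/-!
# Invariant forms on the irreducible subspaces: existence and uniqueness (PACKAGE FU9)

`iSup_HS`: if not, let `U = ⨆ σ, HS R σ`; it is stable under `g` (`HS_stable`), so it has a stable complement `U'` (`M.ss`), `U' ≠ ⊥`
contains an irreducible `W` (`exists_irr`), and `W ≤ HS R σ` for some `σ` (`exists_sig`), contradiction.

`exists_isForm`: for `Z` in the commutant of `g` let `φ_Z u w = u ⬝ᵥ (ψ * Z).mulVec w` on `W`. It satisfies `mult`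
(`xᵀ ψ Z + ψ Z x = (xᵀ ψ + ψ x) Z`). (i) Some `φ_Z` is not zero on `W`: assume that all are zero. Let
`U ≤ HS R σ` be the span of all `Z w`, `w ∈ W`, `Z` in the commutant of `g` such that `Z` preserves `HS R σ` (by `M.center`
every `Z` does). `U` is stable under `g` and under the commutant, and it is not zero (`Z = 1`), so `U = HS R σ` by `M.iso σ`. So
`w ⬝ᵥ ψ u = 0` for `w ∈ W`, `u ∈ HS R σ`. For `u ∈ HS R σ'`, `σ' ≠ σ`: `(R a w)ᵀ ψ u = wᵀ ψ R (c a) u` gives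
`σ a * (w ⬝ᵥ ψ u) = σ' (c a) * (w ⬝ᵥ ψ u)`, `σ' (c a) = conj (σ' a)`; if `w ⬝ᵥ ψ u ≠ 0` then `σ a = conj (σ' a)` for all `a`, and as `σ` is real
`σ = σ'`, contradiction. By `iSup_HS` `w ⬝ᵥ ψ u = 0` for all `u`, so `wᵀ ψ = 0`, `w = 0` (`M.unit`), contradiction with `W ≠ ⊥`.
(ii) It is nondegenerate: `{u ∈ W | ∀ w ∈ W, φ_Z u w = 0}` is stable under `g` (`mult`) and not `W`, so it is `⊥` (`hW.2.2`).
(iii) Let `φ = φ_Z`. By nondegeneracy there is `θ : End ℂ W` with `φ w u = φ (θ u) w` for all `u, w` (finite dimension). Both `φ` and the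
transposed form have the same multipliers, so `θ` commutes with `rm p x`, `x ∈ g`; by Schur's lemma
(`PrimePow.schur_irr`, used in `Pool/Agent/FQA/Iface.lean`; `irr_res`) `θ = t • 1`, `φ w u = t * φ u w`, so `t ^ 2 = 1`
(`φ ≠ 0`): `t = 1` symmetric, `t = -1` alternating.

`IsForm.unique`: by nondegeneracy of `φ` there is `θ : End ℂ W` with `φ' u w = φ (θ u) w`; it commutes with `rm p x`, `x ∈ g`
(both have the same multipliers), so it is a scalar by Schur's lemma. -/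

set_option autoImplicit false
set_option linter.unusedSectionVars false

namespace Pool.Agent.FQV

open Module
open Pool.Agent.CoprimeSig (ratM)

variable {ι : Type} [Fintype ι] [DecidableEq ι] {E : Type} [CommRing E]
  {R : E →+* Matrix ι ι ℚ} {Φ : Matrix ι ι ℚ} {σ : E →+* ℂ} {c : E → E}
  {g : Submodule ℂ (Matrix ι ι ℂ)} {ψ : Matrix ι ι ℂ} {W : Submodule ℂ (ι → ℂ)}
  {p : (ι → ℂ) →ₗ[ℂ] W}

theorem iSup_HS (M : Mono R c Φ g ψ) : ⨆ σ : E →+* ℂ, HS R σ = ⊤ := by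
  by_contra hne
  have hst : ∀ x ∈ g, ∀ w ∈ ⨆ σ : E →+* ℂ, HS R σ, x.mulVec w ∈ ⨆ σ : E →+* ℂ, HS R σ := by
    intro x hx w hw
    have h1 : (⨆ σ : E →+* ℂ, HS R σ) ≤
        Submodule.comap (Matrix.toLin' x) (⨆ σ : E →+* ℂ, HS R σ) := by
      refine iSup_le fun σ v hv => ?_
      rw [Submodule.mem_comap, Matrix.toLin'_apply]
      exact Submodule.mem_iSup_of_mem σ (HS_stable M x hx v hv)
    have h2 := h1 hw
    rwa [Submodule.mem_comap, Matrix.toLin'_apply] at h2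
  obtain ⟨U', hc, hU'⟩ := M.ss _ hst
  have h0 : U' ≠ ⊥ := by
    rintro rfl
    have h1 := hc.sup_eq_top
    rw [sup_bot_eq] at h1
    exact hne h1
  obtain ⟨W, hWU, hW⟩ := exists_irr hU' h0
  obtain ⟨σ, hσ⟩ := exists_sig M hW
  apply hW.2.1
  rw [eq_bot_iff]
  intro w hw
  have h1 : w ∈ (⨆ σ : E →+* ℂ, HS R σ) ⊓ U' :=
    ⟨Submodule.mem_iSup_of_mem σ (hσ hw), hWU hw⟩
  rwa [hc.inf_eq_bot] at h1

/-- A form with the same multipliers as a nondegenerate one is a multiple of it. -/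
private theorem form2_uniq (M : Mono R c Φ g ψ) (hW : Irr g W) (P : Prj g W p)
    {φ φ' : W →ₗ[ℂ] W →ₗ[ℂ] ℂ} (hnd : ∀ x, (∀ y, φ x y = 0) → x = 0) (hφ : Mul g ψ p φ)
    (hφ' : Mul g ψ p φ') : ∃ t : ℂ, φ' = t • φ := by
  have hinj : Function.Injective φ := by
    rw [← LinearMap.ker_eq_bot, LinearMap.ker_eq_bot']
    intro x hx
    exact hnd x fun y => by rw [hx, LinearMap.zero_apply]
  let e : W ≃ₗ[ℂ] Module.Dual ℂ W :=
    LinearMap.linearEquivOfInjective φ hinj (Subspace.dual_finrank_eq (K := ℂ) (V := W)).symm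
  have he : ∀ u, e u = φ u := fun u => rfl
  let θ : End ℂ W := (e.symm : Module.Dual ℂ W →ₗ[ℂ] W) ∘ₗ φ'
  have hθ : ∀ u, φ (θ u) = φ' u := fun u => by
    rw [← he]
    exact e.apply_symm_apply (φ' u)
  obtain ⟨t, ht⟩ := PrimePow.schur_irr (irr_res P hW) θ fun y hy => by
    obtain ⟨x, hx, rfl⟩ := mem_res.1 hy
    obtain ⟨κ, hκ⟩ := M.sim x hx
    refine LinearMap.ext fun u => hinj (LinearMap.ext fun w => ?_)
    have h1 := hφ x hx κ hκ (θ u) w
    have h2 := hφ' x hx κ hκ u w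
    rw [Module.End.mul_apply, Module.End.mul_apply, hθ]
    rw [hθ u] at h1
    linear_combination h2 - h1
  refine ⟨t, LinearMap.ext fun u => LinearMap.ext fun w => ?_⟩
  rw [← hθ, ht]
  simp

/-- The form on `W` given by a matrix. -/
private noncomputable def f2form (W : Submodule ℂ (ι → ℂ)) (B : Matrix ι ι ℂ) :
    W →ₗ[ℂ] W →ₗ[ℂ] ℂ :=
  LinearMap.mk₂ ℂ (fun u w => (u : ι → ℂ) ⬝ᵥ B.mulVec (w : ι → ℂ))
    (fun u v w => by rw [Submodule.coe_add, add_dotProduct])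
    (fun a u w => by rw [Submodule.coe_smul, smul_dotProduct, smul_eq_mul])
    (fun u v w => by rw [Submodule.coe_add, Matrix.mulVec_add, dotProduct_add])
    (fun a u w => by rw [Submodule.coe_smul, Matrix.mulVec_smul, dotProduct_smul, smul_eq_mul])

private theorem f2form_apply (B : Matrix ι ι ℂ) (u w : W) :
    f2form W B u w = (u : ι → ℂ) ⬝ᵥ B.mulVec (w : ι → ℂ) := rfl

private theorem f2_transpose (x B : Matrix ι ι ℂ) (u w : ι → ℂ) :
    (x.mulVec u) ⬝ᵥ B.mulVec w = u ⬝ᵥ (x.transpose * B).mulVec w := by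
  rw [← Matrix.mulVec_mulVec, Matrix.dotProduct_mulVec u x.transpose, Matrix.vecMul_transpose]

private theorem f2form_mul (hW : ∀ x ∈ g, ∀ w ∈ W, x.mulVec w ∈ W) (P : Prj g W p)
    {Z : Matrix ι ι ℂ} (hZ : ∀ x ∈ g, x * Z = Z * x) : Mul g ψ p (f2form W (ψ * Z)) := by
  intro x hx κ hκ u w
  rw [f2form_apply, f2form_apply, f2form_apply, rm_apply P (hW x hx), rm_apply P (hW x hx),
    f2_transpose, Matrix.mulVec_mulVec, ← dotProduct_add, ← Matrix.add_mulVec]
  have h1 : x.transpose * (ψ * Z) + ψ * Z * x = κ • (ψ * Z) := by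
    rw [mul_assoc ψ Z x, ← hZ x hx, ← mul_assoc, ← mul_assoc, ← add_mul, hκ, smul_mul_assoc]
  rw [h1, Matrix.smul_mulVec, dotProduct_smul, smul_eq_mul]

/-- Some form is not zero. -/
private theorem f2_exists (M : Mono R c Φ g ψ)
    (hc : ∀ (σ : E →+* ℂ) a, σ (c a) = starRingEnd ℂ (σ a)) (hW : Irr g W)
    (hσ : W ≤ HS R σ) (hr : ∀ a, starRingEnd ℂ (σ a) = σ a) :
    ∃ Z : Matrix ι ι ℂ, (∀ x ∈ g, x * Z = Z * x) ∧ f2form W (ψ * Z) ≠ 0 := by
  by_contra hno
  push Not at hno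
  have hz : ∀ Z : Matrix ι ι ℂ, (∀ x ∈ g, x * Z = Z * x) → ∀ u ∈ W, ∀ w ∈ W,
      u ⬝ᵥ ψ.mulVec (Z.mulVec w) = 0 := by
    intro Z hZ u hu w hw
    have h1 := congrArg (fun f : W →ₗ[ℂ] W →ₗ[ℂ] ℂ => f ⟨u, hu⟩ ⟨w, hw⟩) (hno Z hZ)
    simp only [LinearMap.zero_apply] at h1
    rw [f2form_apply] at h1
    rw [Matrix.mulVec_mulVec]
    exact h1
  set S : Set (ι → ℂ) := {v | ∃ Z : Matrix ι ι ℂ, ((∀ x ∈ g, x * Z = Z * x) ∧
    ∀ w ∈ HS R σ, Z.mulVec w ∈ HS R σ) ∧ ∃ w ∈ W, v = Z.mulVec w} with hS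
  have hWU : W ≤ Submodule.span ℂ S := by
    intro w hw
    exact Submodule.subset_span ⟨1, ⟨fun x _ => by rw [mul_one, one_mul],
      fun w hw => by rwa [Matrix.one_mulVec]⟩, w, hw, (Matrix.one_mulVec w).symm⟩
  have hU1 : Submodule.span ℂ S ≤ HS R σ := by
    refine Submodule.span_le.2 ?_
    rintro _ ⟨Z, hZ, w, hw, rfl⟩
    exact hZ.2 w (hσ hw)
  have hU2 : ∀ x ∈ g, ∀ u ∈ Submodule.span ℂ S, x.mulVec u ∈ Submodule.span ℂ S := by
    intro x hx u hu
    induction hu using Submodule.span_induction with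
    | mem v hv =>
      obtain ⟨Z, hZ, w, hw, rfl⟩ := hv
      rw [Matrix.mulVec_mulVec, hZ.1 x hx, ← Matrix.mulVec_mulVec]
      exact Submodule.subset_span ⟨Z, hZ, _, hW.1 x hx w hw, rfl⟩
    | zero => rw [Matrix.mulVec_zero]; exact Submodule.zero_mem _
    | add u v _ _ h1 h2 => rw [Matrix.mulVec_add]; exact Submodule.add_mem _ h1 h2
    | smul c u _ h1 => rw [Matrix.mulVec_smul]; exact Submodule.smul_mem _ c h1
  have hU3 : ∀ Z : Matrix ι ι ℂ, (∀ x ∈ g, x * Z = Z * x) →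
      (∀ w ∈ HS R σ, Z.mulVec w ∈ HS R σ) →
      ∀ u ∈ Submodule.span ℂ S, Z.mulVec u ∈ Submodule.span ℂ S := by
    intro Y hY1 hY2 u hu
    induction hu using Submodule.span_induction with
    | mem v hv =>
      obtain ⟨Z, hZ, w, hw, rfl⟩ := hv
      rw [Matrix.mulVec_mulVec]
      refine Submodule.subset_span ⟨Y * Z, ⟨fun x hx => ?_, fun w hw => ?_⟩, w, hw, rfl⟩
      · rw [← Matrix.mul_assoc, hY1 x hx, Matrix.mul_assoc, hZ.1 x hx, Matrix.mul_assoc]
      · rw [← Matrix.mulVec_mulVec]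
        exact hY2 _ (hZ.2 w hw)
    | zero => rw [Matrix.mulVec_zero]; exact Submodule.zero_mem _
    | add u v _ _ h1 h2 => rw [Matrix.mulVec_add]; exact Submodule.add_mem _ h1 h2
    | smul c u _ h1 => rw [Matrix.mulVec_smul]; exact Submodule.smul_mem _ c h1
  have hU4 : Submodule.span ℂ S = HS R σ := by
    rcases M.iso σ _ hU1 hU2 hU3 with h1 | h1
    · exact absurd (le_bot_iff.1 (h1 ▸ hWU)) hW.2.1
    · exact h1
  obtain ⟨u, hu, hu0⟩ := Submodule.exists_mem_ne_zero_of_ne_bot hW.2.1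
  have hker : (⊤ : Submodule ℂ (ι → ℂ)) ≤
      LinearMap.ker ((Matrix.toLin' ψ).dualMap (dotProductBilin ℂ ℂ u)) := by
    rw [← iSup_HS M]
    refine iSup_le fun σ' v hv => ?_
    rw [LinearMap.mem_ker, LinearMap.dualMap_apply, Matrix.toLin'_apply]
    change u ⬝ᵥ ψ.mulVec v = 0
    by_cases hs : σ' = σ
    · subst hs
      rw [← hU4] at hv
      induction hv using Submodule.span_induction with
      | mem v hv =>
        obtain ⟨Z, hZ, w, hw, rfl⟩ := hv
        exact hz Z hZ.1 u hu w hw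
      | zero => rw [Matrix.mulVec_zero, dotProduct_zero]
      | add x y _ _ h1 h2 => rw [Matrix.mulVec_add, dotProduct_add, h1, h2, add_zero]
      | smul a x _ h1 => rw [Matrix.mulVec_smul, dotProduct_smul, h1, smul_zero]
    · by_contra hne
      apply hs
      refine RingHom.ext fun a => ?_
      have h1 : ((ratM (R a)).mulVec u) ⬝ᵥ ψ.mulVec v =
          u ⬝ᵥ ψ.mulVec ((ratM (R (c a))).mulVec v) := by
        rw [f2_transpose, M.ros, Matrix.mulVec_mulVec]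
      rw [hσ hu a, hv (c a), smul_dotProduct, Matrix.mulVec_smul, dotProduct_smul, smul_eq_mul,
        smul_eq_mul, hc] at h1
      have h2 := mul_right_cancel₀ hne h1
      rw [← hr a, h2, Complex.conj_conj]
  apply hu0
  obtain ⟨B, hB, -⟩ := M.unit.exists_right_inv |>.imp fun B hB => And.intro hB trivial
  funext i
  have h3 := hker (Submodule.mem_top : B.mulVec (Pi.single i 1) ∈ (⊤ : Submodule ℂ (ι → ℂ)))
  rw [LinearMap.mem_ker, LinearMap.dualMap_apply, Matrix.toLin'_apply, Matrix.mulVec_mulVec, hB,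
    Matrix.one_mulVec] at h3
  change u ⬝ᵥ Pi.single i 1 = 0 at h3
  rwa [dotProduct_single, mul_one] at h3

theorem exists_isForm (M : Mono R c Φ g ψ)
    (hc : ∀ (σ : E →+* ℂ) a, σ (c a) = starRingEnd ℂ (σ a)) (hW : Irr g W) (P : Prj g W p)
    (hσ : W ≤ HS R σ) (hr : ∀ a, starRingEnd ℂ (σ a) = σ a) :
    ∃ φ : W →ₗ[ℂ] W →ₗ[ℂ] ℂ, IsForm g ψ p φ ∧
      ((∀ x, φ x x = 0) ∨ ∀ x y, φ x y = φ y x) := by
  obtain ⟨Z, hZ, h0⟩ := f2_exists M hc hW hσ hr
  have hm : Mul g ψ p (f2form W (ψ * Z)) := f2form_mul hW.1 P hZ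
  set φ := f2form W (ψ * Z) with hφ
  have hker : LinearMap.ker φ = ⊥ := by
    rcases irr_res P hW (LinearMap.ker φ) (fun a ha u hu => by
      obtain ⟨x, hx, rfl⟩ := mem_res.1 ha
      obtain ⟨κ, hκ⟩ := M.sim x hx
      rw [LinearMap.mem_ker] at hu ⊢
      refine LinearMap.ext fun w => ?_
      have h1 := hm x hx κ hκ u w
      rw [hu, LinearMap.zero_apply, LinearMap.zero_apply, add_zero, mul_zero] at h1
      rw [h1, LinearMap.zero_apply]) with h | h
    · exact h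
    · exact absurd (LinearMap.ker_eq_top.1 h) h0
  have hnd : ∀ x, (∀ y, φ x y = 0) → x = 0 := by
    intro x hx
    have h1 : x ∈ LinearMap.ker φ := LinearMap.mem_ker.2 (LinearMap.ext fun y => by
      rw [hx, LinearMap.zero_apply])
    rwa [hker, Submodule.mem_bot] at h1
  have hflip : Mul g ψ p φ.flip := by
    intro x hx κ hκ u w
    rw [LinearMap.flip_apply, LinearMap.flip_apply, LinearMap.flip_apply, add_comm]
    exact hm x hx κ hκ w u
  obtain ⟨t, ht⟩ := form2_uniq M hW P hnd hm hflip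
  have ht' : ∀ u w, φ w u = t * φ u w := fun u w => by
    have h1 := congrArg (fun f : W →ₗ[ℂ] W →ₗ[ℂ] ℂ => f u w) ht
    simpa using h1
  refine ⟨φ, ⟨hnd, hm⟩, ?_⟩
  have hex : ∃ u w, φ u w ≠ 0 := by
    by_contra hno
    push Not at hno
    exact h0 (LinearMap.ext fun u => LinearMap.ext fun w => hno u w)
  obtain ⟨u, w, huw⟩ := hex
  have htt : t * t = 1 := by
    have h1 := ht' w u
    rw [ht' u w, ← mul_assoc] at h1
    have h2 : (t * t) * φ u w = 1 * φ u w := by rw [one_mul, ← h1]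
    exact mul_right_cancel₀ huw h2
  rcases mul_self_eq_one_iff.1 htt with h1 | h1
  · right
    intro x y
    rw [ht' y x, h1, one_mul]
  · left
    intro x
    have h2 := ht' x x
    rw [h1] at h2
    linear_combination h2 / 2

/-- The form is unique. -/
theorem IsForm.unique (M : Mono R c Φ g ψ) (hW : Irr g W) (P : Prj g W p)
    {φ φ' : W →ₗ[ℂ] W →ₗ[ℂ] ℂ} (hφ : IsForm g ψ p φ) (hφ' : Mul g ψ p φ') :
    ∃ t : ℂ, φ' = t • φ := by
  exact form2_uniq M hW P hφ.nd hφ.mult hφ'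

end Pool.Agent.FQV
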