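import Pool.Agent.FQV.FullW
import Pool.Agent.FQA.KindN
import Pool.Agent.FQA.EvenK
import Pool.Agent.FQA.NfC
import Pool.Agent.FQA.SpreadN
import Pool.Agent.FQA.SplitN
import Pool.Agent.FQA.ModN

/-!
# The operators induced on the irreducible subspaces

`FullW g ψ p`: every operator on `W` of trace zero which is skew for the invariant forms (if there are any) is induced
by an element of `g`. It is proved here from the theorems for `TD` in `Pool/Agent/FQA`.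
-/

set_option autoImplicit false
set_option linter.unusedSectionVars false

namespace Pool.Agent.FQV

open Module
open Pool.Agent.CoprimeSig (ratM)
open Pool.Agent.FQA (TD Cn Fl)
open Pool.Agent.NumRank (Lv)
open Pool.Agent.PrimePow.CC (Rf Rt Lat)
open Pool.Agent.FQ (expG)
open Pool.Agent.SmallRank (rk)

variable {ι : Type} [Fintype ι] [DecidableEq ι] {E : Type} [CommRing E]
  {R : E →+* Matrix ι ι ℚ} {Φ : Matrix ι ι ℚ} {σ : E →+* ℂ} {c : E → E}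
  {g : Submodule ℂ (Matrix ι ι ℂ)} {ψ : Matrix ι ι ℂ} {W : Submodule ℂ (ι → ℂ)}
  {p : (ι → ℂ) →ₗ[ℂ] W} {v : Basis (Om R Φ σ) ℂ W} {r : (E →+* ℂ) → ℕ}

/-- The rank of an idempotent of the torus. -/
theorem rk_rm (F : Frame R Φ g σ W p v) (M : Mono R c Φ g ψ) {e : Matrix ι ι ℂ}
    (he : e ∈ tor Φ) (hee : e * e = e) {k : ℕ} (hk : sm R Φ σ (ev Φ e) = k) :
    rk (rm p e) = k := by
  have h1 := trace_rm F M he hee
  rw [SmallRank.trace_idem (rm_val F M he hee).2.1, hk] at h1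
  exact_mod_cast h1

/-- All invariant forms on the irreducible subspaces of the eigenspace are alternating, if `g`
and `ψ` satisfy `P`. -/
def Alt (P : Submodule ℂ (Matrix ι ι ℂ) → Matrix ι ι ℂ → Prop) (R : E →+* Matrix ι ι ℚ)
    (c : E → E) (Φ : Matrix ι ι ℚ) (σ : E →+* ℂ) : Prop :=
  ∀ (g : Submodule ℂ (Matrix ι ι ℂ)) (ψ : Matrix ι ι ℂ), Mono R c Φ g ψ → P g ψ →
    ∀ (W : Submodule ℂ (ι → ℂ)) (p : (ι → ℂ) →ₗ[ℂ] W) (v : Basis (Om R Φ σ) ℂ W),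
      Frame R Φ g σ W p v → ∀ φ, IsForm g ψ p φ → ∀ x, φ x x = 0

theorem alt_of_symp {P : Submodule ℂ (Matrix ι ι ℂ) → Matrix ι ι ℂ → Prop}
    (h : ∀ (g : Submodule ℂ (Matrix ι ι ℂ)) (ψ : Matrix ι ι ℂ),
    Mono R c Φ g ψ → P g ψ → ∀ W ≤ HS R σ, Irr g W → SympOn g ψ W) : Alt P R c Φ σ := by
  intro g ψ M hP W p v F φ hφ x
  obtain ⟨θ, halt, hnd, hmul⟩ := h g ψ M hP W F.le F.irr
  have hm : Mul g ψ p (θ.compl₁₂ W.subtype W.subtype) := by
    intro y hy κ hκ u w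
    simp only [LinearMap.compl₁₂_apply, Submodule.subtype_apply]
    rw [rm_apply F.prj (F.irr.1 y hy), rm_apply F.prj (F.irr.1 y hy)]
    exact hmul y hy κ hκ u u.2 w w.2
  obtain ⟨t, ht⟩ := hφ.unique M F.irr F.prj hm
  have hnt : Nontrivial W := F.nontrivial
  have ht0 : t ≠ 0 := by
    rintro rfl
    obtain ⟨z, hz⟩ := exists_ne (0 : W)
    apply hz
    apply Subtype.ext
    refine hnd z z.2 fun y hy => ?_
    have h1 := LinearMap.congr_fun (LinearMap.congr_fun ht z) ⟨y, hy⟩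
    rw [zero_smul] at h1
    exact h1
  have h1 := LinearMap.congr_fun (LinearMap.congr_fun ht x) x
  have h2 : (θ.compl₁₂ W.subtype W.subtype) x x = 0 := halt x x.2
  rw [h2, LinearMap.smul_apply, LinearMap.smul_apply, smul_eq_mul] at h1
  exact (mul_eq_zero.1 h1.symm).resolve_left ht0

/-- All invariant forms on the irreducible subspaces of the eigenspace are symmetric, if `g` and `ψ`
satisfy `P`. -/
def Syp (P : Submodule ℂ (Matrix ι ι ℂ) → Matrix ι ι ℂ → Prop) (R : E →+* Matrix ι ι ℚ)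
    (c : E → E) (Φ : Matrix ι ι ℚ) (σ : E →+* ℂ) : Prop :=
  ∀ (g : Submodule ℂ (Matrix ι ι ℂ)) (ψ : Matrix ι ι ℂ), Mono R c Φ g ψ → P g ψ →
    ∀ (W : Submodule ℂ (ι → ℂ)) (p : (ι → ℂ) →ₗ[ℂ] W) (v : Basis (Om R Φ σ) ℂ W),
      Frame R Φ g σ W p v → ∀ φ, IsForm g ψ p φ → ∀ x y, φ x y = φ y x

theorem syp_of_orth {P : Submodule ℂ (Matrix ι ι ℂ) → Matrix ι ι ℂ → Prop}
    (h : ∀ (g : Submodule ℂ (Matrix ι ι ℂ)) (ψ : Matrix ι ι ℂ), Mono R c Φ g ψ →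
      P g ψ → ∀ W ≤ HS R σ, Irr g W → OrthOn g ψ W) : Syp P R c Φ σ := by
  intro g ψ M hP W p v F φ hφ x y
  obtain ⟨θ, hsym, hnd, hmul⟩ := h g ψ M hP W F.le F.irr
  have hm : Mul g ψ p (θ.compl₁₂ W.subtype W.subtype) := by
    intro y hy κ hκ u w
    simp only [LinearMap.compl₁₂_apply, Submodule.subtype_apply]
    rw [rm_apply F.prj (F.irr.1 y hy), rm_apply F.prj (F.irr.1 y hy)]
    exact hmul y hy κ hκ u u.2 w w.2
  obtain ⟨t, ht⟩ := hφ.unique M F.irr F.prj hm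
  have hnt : Nontrivial W := F.nontrivial
  have ht0 : t ≠ 0 := by
    rintro rfl
    obtain ⟨z, hz⟩ := exists_ne (0 : W)
    apply hz
    apply Subtype.ext
    refine hnd z z.2 fun y hy => ?_
    have h1 := LinearMap.congr_fun (LinearMap.congr_fun ht z) ⟨y, hy⟩
    rw [zero_smul] at h1
    exact h1
  have h1 := LinearMap.congr_fun (LinearMap.congr_fun ht x) y
  have h2 := LinearMap.congr_fun (LinearMap.congr_fun ht y) x
  have h3 : (θ.compl₁₂ W.subtype W.subtype) x y = (θ.compl₁₂ W.subtype W.subtype) y x :=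
    hsym x x.2 y y.2
  rw [LinearMap.smul_apply, LinearMap.smul_apply, smul_eq_mul] at h1 h2
  rw [h1, h2] at h3
  exact mul_left_cancel₀ ht0 h3

/-- A nondegenerate form is not alternating and symmetric. -/
theorem not_alt_symm {V : Type*} [AddCommGroup V] [Module ℂ V] [Nontrivial V]
    {φ : V →ₗ[ℂ] V →ₗ[ℂ] ℂ} (hnd : ∀ x, (∀ y, φ x y = 0) → x = 0) (halt : ∀ x, φ x x = 0)
    (hs : ∀ x y, φ x y = φ y x) : False := by
  obtain ⟨x, hx⟩ := exists_ne (0 : V)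
  apply hx
  refine hnd x fun y => ?_
  have h1 := halt (x + y)
  rw [map_add, map_add, LinearMap.add_apply, LinearMap.add_apply, halt x, halt y, hs y x] at h1
  have h3 : 2 * φ x y = 0 := by linear_combination h1
  exact (mul_eq_zero.1 h3).resolve_left two_ne_zero

section

variable [Algebra ℚ E] [Module.Finite ℚ E] [IsReduced E]

/-- Connectedness from the numbers. -/
theorem cn_num (hR : Rk R Φ r) (M : Mono R c Φ g ψ) (H : IsFrob R Φ) (F : Frame R Φ g σ W p v)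
    (hnum : ∀ a b : ℕ, 1 < a → 1 < b → Fintype.card (Om R Φ σ) = a * b →
      (∀ σ', SK σ σ' → a ∣ r σ' ∨ b ∣ r σ') →
      (∃ σ', SK σ σ' ∧ 0 < r σ' ∧ r σ' < Fintype.card (Om R Φ σ) ∧ a ∣ r σ') →
      ¬ ∃ σ', SK σ σ' ∧ 0 < r σ' ∧ r σ' < Fintype.card (Om R Φ σ) ∧ b ∣ r σ') :
    ∀ h h', Rt (Ls R Φ σ) h → Rt (Ls R Φ σ) h' → Cn (Ls R Φ σ) h h' := by
  have hnt : Nontrivial W := F.nontrivial
  have T := td M H hR.tr.idem F.irr F.prj
  have h1 := T.cn_of_num v (F.hv M) {ρ | ∃ σ', SK σ σ' ∧ ρ = r σ'} (by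
    intro y hy
    obtain ⟨x, hx, rfl⟩ := mem_res.1 hy
    have h1 := hR.span hx
    clear hy hx
    induction h1 using Submodule.span_induction with
    | mem e he =>
      obtain ⟨he, hee, -, γ, hγ⟩ := he
      refine Submodule.subset_span ⟨rm_mem he, (rm_val F M he hee).2.1, r (cp γ σ),
        ⟨_, sk_cp γ σ, rfl⟩, ?_⟩
      rw [trace_rm F M he hee, hγ σ]
      exact_mod_cast rfl
    | zero =>
      have h2 : rm p (0 : Matrix ι ι ℂ) = 0 := by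
        unfold rm
        rw [map_zero, map_zero]
      rw [h2]
      exact Submodule.zero_mem _
    | add a b _ _ ha hb =>
      rw [rm_add]
      exact Submodule.add_mem _ ha hb
    | smul c a _ ha =>
      rw [rm_smul]
      exact Submodule.smul_mem _ c ha) (by
    rintro _ ⟨σ', hsk, rfl⟩
    obtain ⟨γ, rfl⟩ := hsk.exists_cp
    obtain ⟨e, he, hee, -, hs⟩ := hR.ex γ
    refine ⟨rm p e, rm_mem he, (rm_val F M he hee).2.1, ?_⟩
    rw [trace_rm F M he hee, hs σ]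
    exact_mod_cast rfl) (by
    intro a b ha hb hab hdiv hA hB
    rw [← F.card] at hab hA hB
    obtain ⟨_, ⟨σ₁, hs₁, rfl⟩, h2⟩ := hA
    obtain ⟨_, ⟨σ₂, hs₂, rfl⟩, h3⟩ := hB
    exact hnum a b ha hb hab (fun σ' hσ' => hdiv _ ⟨σ', hσ', rfl⟩) ⟨σ₁, hs₁, h2⟩ ⟨σ₂, hs₂, h3⟩)
  rwa [F.lv M] at h1

/-! ### No invariant form -/

/-- The determinant form of a space of dimension two. -/
private theorem exists_det {V : Type*} [AddCommGroup V] [Module ℂ V] (b : Basis (Fin 2) ℂ V) :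
    ∃ φ : V →ₗ[ℂ] V →ₗ[ℂ] ℂ, (∀ x, φ x x = 0) ∧ (∀ x, (∀ y, φ x y = 0) → x = 0) ∧
      ∀ (y : End ℂ V) (u w : V), φ (y u) w + φ u (y w) = LinearMap.trace ℂ V y * φ u w := by
  let φ : V →ₗ[ℂ] V →ₗ[ℂ] ℂ :=
    LinearMap.mk₂ ℂ (fun x y => b.repr x 0 * b.repr y 1 - b.repr x 1 * b.repr y 0)
      (fun a b' d => by simp only [map_add, Finsupp.add_apply]; ring)
      (fun t a b' => by simp only [map_smul, Finsupp.smul_apply, smul_eq_mul]; ring)
      (fun a b' d => by simp only [map_add, Finsupp.add_apply]; ring)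
      (fun t a b' => by simp only [map_smul, Finsupp.smul_apply, smul_eq_mul]; ring)
  have hφ : ∀ x y, φ x y = b.repr x 0 * b.repr y 1 - b.repr x 1 * b.repr y 0 := fun _ _ => rfl
  refine ⟨φ, fun x => by rw [hφ]; ring, fun x hx => ?_, fun y u w => ?_⟩
  · have h0 := hx (b 1)
    have h1 := hx (b 0)
    rw [hφ] at h0 h1
    simp at h0 h1
    refine b.ext_elem fun i => ?_
    rw [map_zero, Finsupp.zero_apply]
    fin_cases i
    · exact h0
    · exact h1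
  · have h1 : ∀ (z : V) (i : Fin 2), b.repr (y z) i =
        LinearMap.toMatrix b b y i 0 * b.repr z 0 + LinearMap.toMatrix b b y i 1 * b.repr z 1 := by
      intro z i
      have h2 := congrFun (LinearMap.toMatrix_mulVec_repr b b y z) i
      rw [← h2, Matrix.mulVec, dotProduct, Fin.sum_univ_two]
    have h2 : LinearMap.trace ℂ V y = LinearMap.toMatrix b b y 0 0 + LinearMap.toMatrix b b y 1 1 := by
      rw [LinearMap.trace_eq_matrix_trace ℂ b, Matrix.trace, Fin.sum_univ_two]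
      rfl
    rw [hφ, hφ, hφ, h1, h1, h1, h1, h2]
    ring

/-- Dimension two. -/
theorem full_two (H : IsFrob R Φ) (hI : Idem Φ) (M : Mono R c Φ g ψ)
    (F : Frame R Φ g σ W p v) (h2 : Fintype.card (Om R Φ σ) = 2) : FullW g ψ p := by
  intro D hD _
  have T := td M H hI F.irr F.prj
  obtain ⟨φ, halt, hnd, hmul⟩ := exists_det (v.reindex (Fintype.equivFinOfCardEq h2))
  exact T.skew_of_mod4 halt hnd (fun x _ => ⟨_, hmul x⟩) (Or.inl (by rw [← F.card, h2]))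
    (fun a b => by rw [hmul, hD, zero_mul])

/-- Dimension four. -/
theorem full_nr4 (H : IsFrob R Φ) (hR : Rk R Φ r)
    (hc : ∀ (σ : E →+* ℂ) a, σ (c a) = starRingEnd ℂ (σ a)) (M : Mono R c Φ g ψ)
    (F : Frame R Φ g σ W p v) (hnr : ∃ a, starRingEnd ℂ (σ a) ≠ σ a)
    (htw : (∀ σ', SK σ σ' → 2 * r σ' = Fintype.card (Om R Φ σ) ∨ r σ' = 0 ∨
      r σ' = Fintype.card (Om R Φ σ)) → ∀ σ', SK σ σ' → 2 * r σ' = Fintype.card (Om R Φ σ))
    (h4 : Fintype.card (Om R Φ σ) = 4) (h2 : ∃ σ', SK σ σ' ∧ r σ' = 2) : FullW g ψ p := by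
  intro D _ _
  have hnt : Nontrivial W := F.nontrivial
  have T := td M H hR.tr.idem F.irr F.prj
  obtain ⟨σ', hsk, hr2⟩ := h2
  obtain ⟨γ, rfl⟩ := hsk.exists_cp
  obtain ⟨e, he, hee, -, hs⟩ := hR.ex γ
  refine T.full_four (no_form M H hR hc F.irr F.prj F.le hnr htw) (by rw [← F.card, h4])
    (rm_mem (M.le he)) (rm_val F M he hee).2.1 ?_ D
  rw [← hr2]
  exact rk_rm F M he hee (hs σ)

/-- The general case. -/
theorem full_nr (H : IsFrob R Φ) (hR : Rk R Φ r)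
    (hc : ∀ (σ : E →+* ℂ) a, σ (c a) = starRingEnd ℂ (σ a)) (M : Mono R c Φ g ψ)
    (F : Frame R Φ g σ W p v) (hnr : ∃ a, starRingEnd ℂ (σ a) ≠ σ a)
    (hcn : ∀ h h', Rt (Ls R Φ σ) h → Rt (Ls R Φ σ) h' → Cn (Ls R Φ σ) h h')
    (hty : (∃ σ', SK σ σ' ∧ 0 < r σ' ∧ r σ' < Fintype.card (Om R Φ σ) ∧
        2 * r σ' ≠ Fintype.card (Om R Φ σ) ∧ ∀ N k : ℕ, 2 ≤ k →
        k + 2 ≤ N → Fintype.card (Om R Φ σ) = N.choose k → r σ' ≠ (N - 1).choose (k - 1)) ∨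
      ((∃ σ', SK σ σ' ∧ 2 * r σ' = Fintype.card (Om R Φ σ)) ∧
        (∀ m : ℕ, 4 ≤ m → Even m → Fintype.card (Om R Φ σ) ≠ 2 ^ m) ∧
        (Fintype.card (Om R Φ σ) = 2 ∨
          ((∀ σ', SK σ σ' → 2 * r σ' = Fintype.card (Om R Φ σ) ∨ r σ' = 0 ∨
            r σ' = Fintype.card (Om R Φ σ)) →
            ∀ σ', SK σ σ' → 2 * r σ' = Fintype.card (Om R Φ σ))))) :
    FullW g ψ p := by
  by_cases h2 : Fintype.card (Om R Φ σ) = 2
  · exact full_two H hR.tr.idem M F h2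
  intro D _ _
  have hnt : Nontrivial W := F.nontrivial
  have T := td M H hR.tr.idem F.irr F.prj
  have hcn' : ∀ h h', Rt (Lv (res p (tor Φ)) v) h → Rt (Lv (res p (tor Φ)) v) h' →
      Cn (Lv (res p (tor Φ)) v) h h' := by
    rw [F.lv M]
    exact hcn
  rcases hty with ⟨σ', hsk, hp0, hp1, hub, hbin⟩ | ⟨⟨σ', hsk, hb⟩, hn, htw⟩
  · obtain ⟨γ, rfl⟩ := hsk.exists_cp
    obtain ⟨e, he, hee, -, hs⟩ := hR.ex γ
    obtain ⟨h1, h2, -⟩ := rm_val F M he hee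
    have hrk := rk_rm F M he hee (hs σ)
    refine T.full_of_unb v (F.hv M) hcn' h1 h2 ?_ ?_ ?_ ?_ D
    · intro h0
      rw [h0, SmallRank.rk_eq_zero.2 rfl] at hrk
      omega
    · intro h0
      rw [h0, SmallRank.rk_one, ← F.card] at hrk
      omega
    · rw [hrk, ← F.card]
      exact hub
    · intro N k hk hN h3
      rw [hrk]
      rw [← F.card] at h3
      exact hbin N k hk hN h3
  · have hnf := no_form M H hR hc F.irr F.prj F.le hnr (htw.resolve_left h2)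
    obtain ⟨γ, rfl⟩ := hsk.exists_cp
    obtain ⟨e, he, hee, -, hs⟩ := hR.ex γ
    obtain ⟨h1, h2, -⟩ := rm_val F M he hee
    have hrk := rk_rm F M he hee (hs σ)
    exact T.nf_free v (F.hv M) hcn' hnf (fun m hm hev => by
      rw [← F.card]
      exact hn m hm hev) h1 h2 (by rw [hrk, ← F.card]; exact hb) D

/-! ### The real eigenspaces -/

/-- The conditions on the dimension in the alternating case. -/
def TyA (R : E →+* Matrix ι ι ℚ) (Φ : Matrix ι ι ℚ) (σ : E →+* ℂ) : Prop :=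
  (∀ m : ℕ, 5 ≤ m → m % 4 = 1 ∨ m % 4 = 2 → Fintype.card (Om R Φ σ) ≠ 2 ^ m) ∧
    ∀ m : ℕ, 3 ≤ m → Fintype.card (Om R Φ σ) = 2 ^ m → ∀ k, ¬ Fl (Ls R Φ σ) k

/-- The conditions on the dimension in the symmetric case. -/
def TyS (R : E →+* Matrix ι ι ℚ) (Φ : Matrix ι ι ℚ) (σ : E →+* ℂ) : Prop :=
  (∀ m : ℕ, 3 ≤ m → Fintype.card (Om R Φ σ) ≠ 2 ^ m) ∧
    (Fintype.card (Om R Φ σ) = 4 → ∀ k, ¬ Fl (Ls R Φ σ) k)

private theorem tyS_fl (h : TyS R Φ σ) {n : ℕ} (hn : Fintype.card (Om R Φ σ) = n) :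
    (∀ m : ℕ, 3 ≤ m → m % 4 = 0 ∨ m % 4 = 3 → n ≠ 2 ^ m) ∧
      ∀ m : ℕ, 2 ≤ m → n = 2 ^ m → ∀ k, ¬ Fl (Ls R Φ σ) k := by
  subst hn
  refine ⟨fun m hm _ => h.1 m hm, fun m hm h1 => ?_⟩
  rcases Nat.eq_or_lt_of_le hm with h2 | h2
  · exact h.2 (by rw [h1, ← h2]; rfl)
  · exact absurd h1 (h.1 m h2)

/-- Dimension four, alternating form. -/
theorem full_alt4 (H : IsFrob R Φ) (hI : Idem Φ)
    (hc : ∀ (σ : E →+* ℂ) a, σ (c a) = starRingEnd ℂ (σ a)) (M : Mono R c Φ g ψ)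
    (F : Frame R Φ g σ W p v) (hr : ∀ a, starRingEnd ℂ (σ a) = σ a)
    (h4 : Fintype.card (Om R Φ σ) = 4) (halt : ∀ φ, IsForm g ψ p φ → ∀ x, φ x x = 0) :
    FullW g ψ p := by
  intro D _ hD
  have hnt : Nontrivial W := F.nontrivial
  have T := td M H hI F.irr F.prj
  obtain ⟨φ, hφ, -⟩ := exists_isForm M hc F.irr F.prj F.le hr
  exact T.skew_of_mod4 (halt φ hφ) hφ.nd (hφ.sim M) (Or.inr (by rw [← F.card, h4])) (hD φ hφ)

/-- The general case of a real eigenspace. -/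
theorem full_real {P : Submodule ℂ (Matrix ι ι ℂ) → Matrix ι ι ℂ → Prop} (hP : P g ψ)
    (H : IsFrob R Φ) (hR : Rk R Φ r)
    (hc : ∀ (σ : E →+* ℂ) a, σ (c a) = starRingEnd ℂ (σ a)) (M : Mono R c Φ g ψ)
    (F : Frame R Φ g σ W p v) (hr : ∀ a, starRingEnd ℂ (σ a) = σ a)
    (hcn : ∀ h h', Rt (Ls R Φ σ) h → Rt (Ls R Φ σ) h' → Cn (Ls R Φ σ) h h')
    (hA : TyA R Φ σ) (hS : Alt P R c Φ σ ∨ TyS R Φ σ)
    (hcj : HTc P R c Φ r ∨
      ((Syp P R c Φ σ ∨ ∀ k : ℕ, Odd k → 3 ≤ k → Fintype.card (Om R Φ σ) ≠ (2 * k).choose k) ∧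
      (Alt P R c Φ σ ∨ ∀ k : ℕ, Even k → 4 ≤ k → Fintype.card (Om R Φ σ) ≠ (2 * k).choose k))) :
    FullW g ψ p := by
  intro D _ hD
  have hnt : Nontrivial W := F.nontrivial
  have T := td M H hR.tr.idem F.irr F.prj
  have hcn' : ∀ h h', Rt (Lv (res p (tor Φ)) v) h → Rt (Lv (res p (tor Φ)) v) h' →
      Cn (Lv (res p (tor Φ)) v) h h' := by
    rw [F.lv M]
    exact hcn
  have hne : Nonempty ι := by
    by_contra hcon
    rw [not_nonempty_iff] at hcon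
    obtain ⟨w, hw⟩ := exists_ne (0 : W)
    exact hw (Subtype.ext (funext fun i => hcon.elim i))
  obtain ⟨φ, hφ, has⟩ := exists_isForm M hc F.irr F.prj F.le hr
  rcases hcj with hcj | ⟨hb1, hb2⟩
  · obtain ⟨τ, g₁, ψ₁, e₁, hτ, M₁, P₁, C₁⟩ := hcj
    have htr := trace_of_mult M₁ C₁.mult
    have h1 : e₁.map τ = 1 - e₁ := map_eq_one_sub H C₁.mem C₁.idem htr hτ
    obtain ⟨u, hu, hue⟩ := C₁.conj
    rw [h1] at hue
    obtain ⟨W₁, p₁, v₁, F₁⟩ := exists_frame M₁ H hR.tr.idem σ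
    have hnt₁ : Nontrivial W₁ := F₁.nontrivial
    have T₁ := td M₁ H hR.tr.idem F₁.irr F₁.prj
    obtain ⟨φ₁, hφ₁, has₁⟩ := exists_isForm M₁ hc F₁.irr F₁.prj F₁.le hr
    have hcn₁ : ∀ h h', Rt (Lv (res p₁ (tor Φ)) v₁) h → Rt (Lv (res p₁ (tor Φ)) v₁) h' →
        Cn (Lv (res p₁ (tor Φ)) v₁) h h' := by
      rw [F₁.lv M₁]
      exact hcn
    obtain ⟨u', hu', hconj⟩ := exp_res F₁.prj F₁.irr.1 hu
    obtain ⟨h2', h3', -⟩ := rm_val F₁ M₁ C₁.mem C₁.idem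
    have h5 : (u' : End ℂ W₁) * rm p₁ e₁ * ((u'⁻¹ : (End ℂ W₁)ˣ) : End ℂ W₁) =
        1 - rm p₁ e₁ := by
      rw [← hconj e₁ (M₁.le C₁.mem), ← hue, rm_sub, rm_one F₁.prj]
    have h4' : ∀ a b, φ₁ (rm p₁ e₁ a) b + φ₁ a (rm p₁ e₁ b) = φ₁ a b := by
      intro a b
      have h5 := hφ₁.mult e₁ (M₁.le C₁.mem) 1 (by rw [one_smul]; exact C₁.mult) a b
      rwa [one_mul] at h5
    have hfull : ∀ D₁ : End ℂ W₁, (∀ a b, φ₁ (D₁ a) b + φ₁ a (D₁ b) = 0) → D₁ ∈ res p₁ g₁ := by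
      intro D₁ hD₁
      rcases has₁ with halt | hsymm
      · exact T₁.sp_conj v₁ (F₁.hv M₁) hcn₁ halt hφ₁.nd (hφ₁.sim M₁)
          (by rw [← F₁.card]; exact hA.1) (by rw [← F₁.card, F₁.lv M₁]; exact hA.2) h2' h3' h4'
          hu' h5 hD₁
      · have hS' := hS.resolve_left fun h =>
          not_alt_symm hφ₁.nd (h g₁ ψ₁ M₁ P₁ W₁ p₁ v₁ F₁ φ₁ hφ₁) hsymm
        obtain ⟨e1, e2⟩ := tyS_fl hS' F₁.card
        exact T₁.so_conj v₁ (F₁.hv M₁) hcn₁ hsymm hφ₁.nd (hφ₁.sim M₁) e1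
          (by rw [F₁.lv M₁]; exact e2) h2' h3' h4' hu' h5 hD₁
    have hm := mult_of_trace M (M.le C₁.mem) htr
    obtain ⟨h2, h3, -⟩ := rm_val F M C₁.mem C₁.idem
    have h4 : ∀ a b, φ (rm p e₁ a) b + φ a (rm p e₁ b) = φ a b := by
      intro a b
      have h5 := hφ.mult e₁ (M.le C₁.mem) 1 (by rw [one_smul]; exact hm) a b
      rwa [one_mul] at h5
    have hL : Lv (res p (tor Φ)) v = Lv (res p₁ (tor Φ)) v₁ := by rw [F.lv M, F₁.lv M₁]
    rcases has with halt | hsymm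
    · exact T.spread_sp v (F.hv M) hcn' halt hφ.nd (hφ.sim M) h2 h3 h4 T₁ v₁ (F₁.hv M₁) hL
        has₁ hφ₁.nd (hφ₁.sim M₁) h2' h3' h4' hfull (hD φ hφ)
    · have hS' := hS.resolve_left fun h => not_alt_symm hφ.nd (h g ψ M hP W p v F φ hφ) hsymm
      exact T.spread_so v (F.hv M) hcn' hsymm hφ.nd (hφ.sim M)
        (by rw [← F.card]; exact hS'.1 3 le_rfl)
        (by rw [← F.card, F.lv M]; exact hS'.2) h2 h3 h4 T₁ v₁ (F₁.hv M₁) hL
        has₁ hφ₁.nd (hφ₁.sim M₁) h2' h3' h4' hfull (hD φ hφ)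
  · obtain ⟨e, he, hee, htr, -⟩ := hR.ex 1
    have hm := mult_of_trace M (M.le he) htr
    obtain ⟨h2, h3, -⟩ := rm_val F M he hee
    have h4 : ∀ a b, φ (rm p e a) b + φ a (rm p e b) = φ a b := by
      intro a b
      have h5 := hφ.mult e (M.le he) 1 (by rw [one_smul]; exact hm) a b
      rwa [one_mul] at h5
    rcases has with halt | hsymm
    · have hns : ¬ Syp P R c Φ σ := fun h =>
        not_alt_symm hφ.nd halt (h g ψ M hP W p v F φ hφ)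
      exact T.sp_bal v (F.hv M) hcn' halt hφ.nd (hφ.sim M)
        (by rw [← F.card]; exact hA.1) (by rw [← F.card, F.lv M]; exact hA.2)
        (by rw [← F.card]; exact hb1.resolve_left hns) h2 h3 h4 (hD φ hφ)
    · have hna : ¬ Alt P R c Φ σ := fun h =>
        not_alt_symm hφ.nd (h g ψ M hP W p v F φ hφ) hsymm
      obtain ⟨e1, e2⟩ := tyS_fl (hS.resolve_left hna) F.card
      exact T.so_bal' v (F.hv M) hcn' hsymm hφ.nd (hφ.sim M) e1
        (by rw [F.lv M]; exact e2) (by rw [← F.card]; exact hb2.resolve_left hna) h2 h3 h4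
        (hD φ hφ)

end

end Pool.Agent.FQV
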