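import Pool.Agent.FQV.Form2

/-!
# The operators induced on the irreducible subspaces: definitions
-/

set_option autoImplicit false
set_option linter.unusedSectionVars false

namespace Pool.Agent.FQV

open Module
open Pool.Agent.CoprimeSig (ratM)

variable {ι : Type} [Fintype ι] [DecidableEq ι] {E : Type} [CommRing E]
  {W : Submodule ℂ (ι → ℂ)}

/-- The operators of trace zero which are skew for the invariant forms are induced by `g`. -/
def FullW (g : Submodule ℂ (Matrix ι ι ℂ)) (ψ : Matrix ι ι ℂ) (p : (ι → ℂ) →ₗ[ℂ] W) : Prop :=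
  ∀ D : End ℂ W, LinearMap.trace ℂ W D = 0 →
    (∀ φ, IsForm g ψ p φ → ∀ u w, φ (D u) w + φ u (D w) = 0) → D ∈ res p g

/-- A decomposition of Hodge and Tate at a place where the Frobenius automorphism is the complex
conjugation. -/
def HTc (P : Submodule ℂ (Matrix ι ι ℂ) → Matrix ι ι ℂ → Prop) (R : E →+* Matrix ι ι ℚ)
    (c : E → E) (Φ : Matrix ι ι ℚ) (r : (E →+* ℂ) → ℕ) : Prop :=
  ∃ (τ : ℂ ≃+* ℂ) (g : Submodule ℂ (Matrix ι ι ℂ)) (ψ e : Matrix ι ι ℂ),
    (∀ μ, Module.End.HasEigenvalue (Matrix.toLin' (ratM Φ)) μ → τ μ = starRingEnd ℂ μ) ∧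
      Mono R c Φ g ψ ∧ P g ψ ∧ Coch R Φ r g ψ τ e

end Pool.Agent.FQV
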