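import Pool.Agent.FQV.Bas

/-!
# Representations with the same weights are isomorphic (PACKAGE FU15)

Proof of `iso_of_om`. Take frames `F : Frame R Φ g σ W p v`, `F' : Frame R Φ g σ' W' p' v'` (`exists_frame`).

(1) There are `x₀ ∈ tor Φ` and an injective function `d : Spec Φ → ℚ` on the set of the eigenvalues of `Φ` with `x₀ w = d μ w` if
`Φ w = μ w`. By `sep` (`Sep.lean`) and `hI` for eigenvalues `μ ≠ ν` there is an idempotent `e ∈ tor Φ` with `ev Φ e μ ≠ ev Φ e ν` (otherwise all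
elements of the span have the same scalars on both eigenspaces). Choose such `e_j` for the finitely many pairs and take
`x₀ = ∑ t_j e_j` with `t_j ∈ ℚ` such that the finitely many linear forms `∑ t_j (ev e_j μ - ev e_j ν)` are not zero
(`Module.Dual.exists_forall_ne_zero_of_forall_exists`, used in `Pool/Agent/PrimePow/Comb3.lean`).

(2) Let `z ∈ g` be a root vector, `z ≠ 0`, `s` the value of its root at `x₀`: `x₀ z - z x₀ = s z`. If `Φ w = μ w` then `x₀ (z w) = (d μ + s) z w`. There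
is an eigenvector `w` with `z w ≠ 0` (`H.diag`), so `d μ + s` is an eigenvalue of `x₀`, which is one of the `d ν` (`ℂ^ι` is the sum of the
eigenspaces of `Φ`). So `s = d ν - d μ ∈ ℚ`. If `s = 0` then `z` preserves the eigenspaces of `x₀`, which are those of `Φ`, so it
commutes with `Φ` and with `tor Φ`, `z ∈ tor Φ` (`M.cent`).

(3) Let `a ∈ Om R Φ σ = Om R Φ σ'` be the element with the largest `d a`. Let `N` be the smallest subspace of `ℂ^ι × ℂ^ι` which contains
`(v a, v' a)` and is stable under the root vectors `z` with `s < 0` (acting on both components; `sInf`).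
`N` is stable under `g`: let `N' = {w ∈ N | ∀ x ∈ g, x w ∈ N}`. `(v a, v' a) ∈ N'`: `g` is spanned by root vectors
(`mem_span_roots (cartan M H)`); if `s > 0` then `z (v a) = 0` because `z (v a) ∈ W` is a combination of the `v b`, for which the
eigenvalues of `x₀` are `d b ≤ d a < d a + s`; the same for `v' a`; if `s = 0` then `z ∈ tor Φ` and `z` acts on `v a` and on `v' a` as the same
scalar (`exists_scalar`); if `s < 0` by definition. If `w ∈ N'` and `z` is a root vector with `s < 0` then `z w ∈ N` and for `x ∈ g`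
`x (z w) = z (x w) + [x, z] w ∈ N`. So `N' = N`.

(4) For `(u, u') ∈ N`: `u ∈ W`, `u' ∈ W'`, and the coordinate of `u` at `v a` is equal to the coordinate of `u'` at `v' a`: this is a subspace
which contains `(v a, v' a)` and is stable under the root vectors with `s < 0` (for `u ∈ W` the coordinate of `z u` at `v a` is
zero: `z (v b)` is an eigenvector of `x₀` with the eigenvalue `d b + s < d a`).

(5) `{u | (u, 0) ∈ N}` is a `g`-stable subspace of `W`, and not `W` by (4) (`v a` has the coordinate `1 ≠ 0`), so it is `⊥`. In the same way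
`{u' | (0, u') ∈ N} = ⊥`. The first projection of `N` is a `g`-stable subspace of `W` which contains `v a ≠ 0`, so it is `W`. So `N` is the
graph of a linear map `θ : W → W'` which commutes with `g`, `θ (v a) = v' a`. Let `Z` be the matrix of `w ↦ θ (p w)`; it commutes with
`g` (`F.prj.eq`), so with `ratM (R r)`, `r ∈ E` (`M.center`): `σ r • v' a = Z (R r (v a)) = R r (Z (v a)) = σ' r • v' a`, so `σ r = σ' r`. -/

set_option autoImplicit false
set_option linter.unusedSectionVars false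

namespace Pool.Agent.FQV

open Module
open Pool.Agent.CoprimeSig (ratM endo mem_endo Cartan IsRoot mem_span_roots)

variable {ι : Type} [Fintype ι] [DecidableEq ι] {E : Type} [CommRing E]
  {R : E →+* Matrix ι ι ℚ} {Φ : Matrix ι ι ℚ} {σ σ' : E →+* ℂ} {c : E → E}
  {g : Submodule ℂ (Matrix ι ι ℂ)} {ψ : Matrix ι ι ℂ}

/-! ## A generic element of the torus -/

private theorem hw_mem_eig {μ : ℂ} {v : ι → ℂ} :
    v ∈ Module.End.eigenspace (Matrix.toLin' (ratM Φ)) μ ↔ (ratM Φ).mulVec v = μ • v := by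
  rw [Module.End.mem_eigenspace_iff, Matrix.toLin'_apply]

private theorem hw_eigval {μ : ℂ} {v : ι → ℂ} (hv : (ratM Φ).mulVec v = μ • v) (h0 : v ≠ 0) :
    Module.End.HasEigenvalue (Matrix.toLin' (ratM Φ)) μ :=
  Module.End.hasEigenvalue_of_hasEigenvector (x := v) ⟨hw_mem_eig.2 hv, h0⟩

private theorem hw_sep_idem (H : IsFrob R Φ) (hI : Idem Φ) {μ ν : ℂ}
    (hμ : Module.End.HasEigenvalue (Matrix.toLin' (ratM Φ)) μ)
    (hν : Module.End.HasEigenvalue (Matrix.toLin' (ratM Φ)) ν) (hne : μ ≠ ν) :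
    ∃ e : Matrix ι ι ℂ, e ∈ tor Φ ∧ e * e = e ∧ ev Φ e μ ≠ ev Φ e ν := by
  by_contra hcon
  push Not at hcon
  obtain ⟨x, hx, c, d, hcd, h1, h2⟩ := sep H hμ hν hne
  obtain ⟨v, hv⟩ := hμ.exists_hasEigenvector
  obtain ⟨w, hw⟩ := hν.exists_hasEigenvector
  have hv1 := hw_mem_eig.1 hv.1
  have hw1 := hw_mem_eig.1 hw.1
  have key : ∃ s : ℂ, x.mulVec v = s • v ∧ x.mulVec w = s • w := by
    have h3 := hI hx
    clear hx h1 h2
    induction h3 using Submodule.span_induction with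
    | mem e he =>
      refine ⟨(ev Φ e μ : ℂ), ev_apply he.1 he.2 hv1, ?_⟩
      rw [hcon e he.1 he.2]
      exact ev_apply he.1 he.2 hw1
    | zero => exact ⟨0, by simp, by simp⟩
    | add a b _ _ ha hb =>
      obtain ⟨s, hs1, hs2⟩ := ha
      obtain ⟨t, ht1, ht2⟩ := hb
      exact ⟨s + t, by rw [Matrix.add_mulVec, hs1, ht1, add_smul],
        by rw [Matrix.add_mulVec, hs2, ht2, add_smul]⟩
    | smul c a _ ha =>
      obtain ⟨s, hs1, hs2⟩ := ha
      exact ⟨c * s, by rw [Matrix.smul_mulVec, hs1, smul_smul],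
        by rw [Matrix.smul_mulVec, hs2, smul_smul]⟩
  obtain ⟨s, hs1, hs2⟩ := key
  have e1 : c = s := smul_left_injective ℂ hv.2 ((h1 v hv1).symm.trans hs1)
  have e2 : d = s := smul_left_injective ℂ hw.2 ((h2 w hw1).symm.trans hs2)
  exact hcd (e1.trans e2.symm)

/-- `x₀` separates the eigenvalues of `Φ` by rational scalars. -/
private structure HWGen (Φ : Matrix ι ι ℚ) (x₀ : Matrix ι ι ℂ) (d : ℂ → ℚ) : Prop where
  mem : x₀ ∈ tor Φ
  app : ∀ μ w, (ratM Φ).mulVec w = μ • w → x₀.mulVec w = (d μ : ℂ) • w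
  inj : ∀ μ ν, Module.End.HasEigenvalue (Matrix.toLin' (ratM Φ)) μ →
    Module.End.HasEigenvalue (Matrix.toLin' (ratM Φ)) ν → d μ = d ν → μ = ν

private theorem hw_gen (H : IsFrob R Φ) (hI : Idem Φ) :
    ∃ (x₀ : Matrix ι ι ℂ) (d : ℂ → ℚ), HWGen Φ x₀ d := by
  classical
  have hfin := Module.End.finite_hasEigenvalue (Matrix.toLin' (ratM Φ))
  let S : Finset ℂ := hfin.toFinset
  have hS : ∀ μ, μ ∈ S ↔ Module.End.HasEigenvalue (Matrix.toLin' (ratM Φ)) μ := fun μ =>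
    hfin.mem_toFinset
  let P : Finset (ℂ × ℂ) := (S ×ˢ S).filter fun q => q.1 ≠ q.2
  have he : ∀ q : P, ∃ e : Matrix ι ι ℂ, e ∈ tor Φ ∧ e * e = e ∧
      ev Φ e q.1.1 ≠ ev Φ e q.1.2 := by
    rintro ⟨q, hq⟩
    rw [Finset.mem_filter, Finset.mem_product, hS, hS] at hq
    exact hw_sep_idem H hI hq.1.1 hq.1.2 hq.2
  choose e he1 he2 he3 using he
  let f : P → Module.Dual ℚ (P → ℚ) := fun q =>
    ∑ j : P, (ev Φ (e j) q.1.1 - ev Φ (e j) q.1.2) • LinearMap.proj j
  have hf : ∀ q t, f q t = ∑ j : P, (ev Φ (e j) q.1.1 - ev Φ (e j) q.1.2) * t j := by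
    intro q t
    simp [f, LinearMap.sum_apply]
  obtain ⟨t, ht⟩ := Module.Dual.exists_forall_ne_zero_of_forall_exists f fun q =>
    ⟨Pi.single q 1, by
      rw [hf, Finset.sum_eq_single q]
      · rw [Pi.single_eq_same, mul_one]
        exact sub_ne_zero.2 (he3 q)
      · intro j _ hj
        rw [Pi.single_eq_of_ne hj, mul_zero]
      · intro h
        exact absurd (Finset.mem_univ _) h⟩
  refine ⟨∑ j : P, (t j : ℂ) • e j, fun μ => ∑ j : P, ev Φ (e j) μ * t j, ⟨?_, ?_, ?_⟩⟩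
  · exact Submodule.sum_mem _ fun j _ => Submodule.smul_mem _ _ (he1 j)
  · intro μ w hw
    rw [Matrix.sum_mulVec, Rat.cast_sum, Finset.sum_smul]
    refine Finset.sum_congr rfl fun j _ => ?_
    rw [Matrix.smul_mulVec, ev_apply (he1 j) (he2 j) hw, smul_smul, Rat.cast_mul, mul_comm]
  · intro μ ν hμ hν h
    by_contra hne
    refine ht ⟨(μ, ν), ?_⟩ ?_
    · rw [Finset.mem_filter, Finset.mem_product, hS, hS]
      exact ⟨⟨hμ, hν⟩, hne⟩
    · rw [hf]
      simp only [sub_mul, Finset.sum_sub_distrib]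
      exact sub_eq_zero.2 h

variable {x₀ : Matrix ι ι ℂ} {d : ℂ → ℚ}

private theorem hw_eig (G : HWGen Φ x₀ d) (H : IsFrob R Φ) {κ : ℂ} {y : ι → ℂ} (hy : y ≠ 0)
    (h : Matrix.toLin' x₀ y = κ • y) : ∃ ν : ℂ, κ = (d ν : ℂ) := by
  by_contra hcon
  push Not at hcon
  have h1 := Module.End.eigenspaces_iSupIndep (Matrix.toLin' x₀) κ
  have h2 : (⨆ j, ⨆ _ : j ≠ κ, Module.End.eigenspace (Matrix.toLin' x₀) j) = ⊤ := by
    rw [eq_top_iff, ← H.diag]
    refine iSup_le fun μ v hv => ?_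
    refine Submodule.mem_iSup_of_mem (d μ : ℂ) (Submodule.mem_iSup_of_mem (hcon μ).symm ?_)
    rw [Module.End.mem_eigenspace_iff, Matrix.toLin'_apply]
    exact G.app μ v (hw_mem_eig.1 hv)
  rw [h2, disjoint_top] at h1
  have h3 : y ∈ Module.End.eigenspace (Matrix.toLin' x₀) κ := Module.End.mem_eigenspace_iff.2 h
  rw [h1] at h3
  exact hy h3

private theorem hw_ev {z : End ℂ (ι → ℂ)} {s κ : ℂ}
    (hs : Matrix.toLin' x₀ * z - z * Matrix.toLin' x₀ = s • z) {y : ι → ℂ}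
    (hy : Matrix.toLin' x₀ y = κ • y) : Matrix.toLin' x₀ (z y) = (κ + s) • z y := by
  have h1 := LinearMap.congr_fun hs y
  rw [LinearMap.sub_apply, Module.End.mul_apply, Module.End.mul_apply, hy, map_smul,
    LinearMap.smul_apply] at h1
  rw [add_smul, ← h1]
  abel

private theorem hw_rat (G : HWGen Φ x₀ d) (H : IsFrob R Φ) {z : End ℂ (ι → ℂ)} {s : ℂ}
    (hz : z ≠ 0) (hs : Matrix.toLin' x₀ * z - z * Matrix.toLin' x₀ = s • z) :
    ∃ q : ℚ, s = (q : ℂ) := by
  obtain ⟨μ, w, hw, hzw⟩ : ∃ (μ : ℂ) (w : ι → ℂ), (ratM Φ).mulVec w = μ • w ∧ z w ≠ 0 := by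
    by_contra hcon
    push Not at hcon
    apply hz
    have h2 : (⊤ : Submodule ℂ (ι → ℂ)) ≤ LinearMap.ker z := by
      rw [← H.diag]
      exact iSup_le fun μ v hv => hcon μ v (hw_mem_eig.1 hv)
    exact LinearMap.ext fun v => h2 (Submodule.mem_top : v ∈ ⊤)
  have h1 : Matrix.toLin' x₀ w = (d μ : ℂ) • w := by
    rw [Matrix.toLin'_apply]
    exact G.app μ w hw
  obtain ⟨ν, hν⟩ := hw_eig G H hzw (hw_ev hs h1)
  refine ⟨d ν - d μ, ?_⟩
  rw [Rat.cast_sub, ← hν]
  ring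

private theorem hw_zero (M : Mono R c Φ g ψ) (H : IsFrob R Φ) (G : HWGen Φ x₀ d)
    {z : End ℂ (ι → ℂ)} (hz : z ∈ endo g)
    (h0 : Matrix.toLin' x₀ * z = z * Matrix.toLin' x₀) : z ∈ endo (tor Φ) := by
  classical
  obtain ⟨x, hx, hxz⟩ := hz
  have hxz' : Matrix.toLin' x = z := hxz
  subst hxz'
  refine mem_endo.2 (M.cent x hx fun y hy => ?_)
  obtain ⟨dy, hdy⟩ := exists_scalar hy
  have hfin := Module.End.finite_hasEigenvalue (Matrix.toLin' (ratM Φ))
  have hinj : Set.InjOn (fun μ => (d μ : ℂ)) (hfin.toFinset : Set ℂ) := by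
    intro μ hμ ν hν h
    rw [hfin.coe_toFinset] at hμ hν
    exact G.inj μ ν hμ hν (Rat.cast_injective h)
  have hP : Matrix.toLin' y = Polynomial.aeval (Matrix.toLin' x₀)
      (Lagrange.interpolate hfin.toFinset (fun μ => (d μ : ℂ)) dy) := by
    have h2 : (⊤ : Submodule ℂ (ι → ℂ)) ≤ LinearMap.eqLocus (Matrix.toLin' y)
        (Polynomial.aeval (Matrix.toLin' x₀)
          (Lagrange.interpolate hfin.toFinset (fun μ => (d μ : ℂ)) dy)) := by
      rw [← H.diag]
      refine iSup_le fun μ v hv => ?_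
      by_cases hv0 : v = 0
      · rw [hv0]
        exact Submodule.zero_mem _
      have h3 := hw_mem_eig.1 hv
      have h4 := hw_eigval h3 hv0
      change Matrix.toLin' y v = Polynomial.aeval (Matrix.toLin' x₀) _ v
      have h5 : Module.End.HasEigenvector (Matrix.toLin' x₀) (d μ : ℂ) v :=
        ⟨Module.End.mem_eigenspace_iff.2 (by rw [Matrix.toLin'_apply, G.app μ v h3]), hv0⟩
      rw [Module.End.aeval_apply_of_hasEigenvector h5, Matrix.toLin'_apply, hdy μ v h3]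
      congr 1
      exact (Lagrange.eval_interpolate_at_node (v := fun μ => (d μ : ℂ)) dy hinj
        (hfin.mem_toFinset.2 h4)).symm
    exact LinearMap.ext fun v => h2 (Submodule.mem_top : v ∈ ⊤)
  have h1 : Matrix.toLin' y ∈ Subalgebra.centralizer ℂ {Matrix.toLin' x} := by
    rw [hP]
    refine (Algebra.adjoin_le ?_) (Polynomial.aeval_mem_adjoin_singleton ℂ (Matrix.toLin' x₀))
    rintro _ rfl
    rw [SetLike.mem_coe, Subalgebra.mem_centralizer_iff]
    rintro _ rfl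
    exact h0.symm
  rw [Subalgebra.mem_centralizer_iff] at h1
  have h2 := h1 _ rfl
  apply (Matrix.toLin' (R := ℂ)).injective
  rw [Matrix.toLin'_mul, Matrix.toLin'_mul]
  exact h2

private theorem hw_span (M : Mono R c Φ g ψ) (H : IsFrob R Φ) (G : HWGen Φ x₀ d)
    {z : End ℂ (ι → ℂ)} (hz : z ∈ endo g) :
    z ∈ Submodule.span ℂ {y | y ∈ endo g ∧ ∃ s : ℚ,
      Matrix.toLin' x₀ * y - y * Matrix.toLin' x₀ = (s : ℂ) • y} := by
  refine Submodule.span_mono ?_ (mem_span_roots (cartan M H) hz)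
  rintro y ⟨α, hy⟩
  refine ⟨hy.mem, ?_⟩
  have h1 := hy.root (Matrix.toLin' x₀) (mem_endo.2 G.mem)
  by_cases h0 : y = 0
  · exact ⟨0, by rw [h0]; simp⟩
  · obtain ⟨q, hq⟩ := hw_rat G H h0 h1
    exact ⟨q, by rw [← hq]; exact h1⟩

/-! ## Coordinates -/

private theorem hw_st {W : Submodule ℂ (ι → ℂ)} (hW : Irr g W)
    {z : End ℂ (ι → ℂ)} (hz : z ∈ endo g) {w : ι → ℂ} (hw : w ∈ W) : z w ∈ W := by
  obtain ⟨x, hx, hxz⟩ := hz
  have hxz' : Matrix.toLin' x = z := hxz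
  subst hxz'
  rw [Matrix.toLin'_apply]
  exact hW.1 x hx w hw

section Frame

variable {W : Submodule ℂ (ι → ℂ)} {p : (ι → ℂ) →ₗ[ℂ] W} {v : Basis (Om R Φ σ) ℂ W}

private theorem hw_lam (M : Mono R c Φ g ψ) (G : HWGen Φ x₀ d) (F : Frame R Φ g σ W p v)
    (b : Om R Φ σ) (y : ι → ℂ) :
    v.coord b (p (Matrix.toLin' x₀ y)) = (d b : ℂ) * v.coord b (p y) := by
  have h1 : p (Matrix.toLin' x₀ y) = (⟨Matrix.toLin' x₀ (p y), hw_st F.irr
      (mem_endo.2 (M.le G.mem)) (p y).2⟩ : W) := by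
    apply Subtype.ext
    change (p (Matrix.toLin' x₀ y) : ι → ℂ) = Matrix.toLin' x₀ (p y)
    rw [Matrix.toLin'_apply, Matrix.toLin'_apply]
    exact F.prj.eq x₀ (M.le G.mem) y
  let T : End ℂ W := (Matrix.toLin' x₀).restrict fun w hw =>
    hw_st F.irr (mem_endo.2 (M.le G.mem)) hw
  have h2 : (⟨Matrix.toLin' x₀ (p y), hw_st F.irr
      (mem_endo.2 (M.le G.mem)) (p y).2⟩ : W) = T (p y) := rfl
  have h3 : (v.coord b).comp T = (d b : ℂ) • v.coord b := by
    refine v.ext fun j => ?_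
    have h4 : T (v j) = (d j : ℂ) • v j := Subtype.ext (by
      change Matrix.toLin' x₀ (v j) = (d j : ℂ) • (v j : ι → ℂ)
      rw [Matrix.toLin'_apply]
      exact G.app _ _ (F.bas j))
    rw [LinearMap.comp_apply, h4, map_smul, LinearMap.smul_apply, Basis.coord_apply,
      Basis.repr_self]
    by_cases hij : j = b
    · rw [hij]
    · rw [Finsupp.single_eq_of_ne (Ne.symm hij), smul_zero, smul_zero]
  rw [h1, h2]
  exact LinearMap.congr_fun h3 (p y)

private theorem hw_coord (M : Mono R c Φ g ψ) (G : HWGen Φ x₀ d) (F : Frame R Φ g σ W p v)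
    (b : Om R Φ σ) {y : ι → ℂ} {κ : ℂ} (hy : Matrix.toLin' x₀ y = κ • y) (hb : κ ≠ (d b : ℂ)) :
    v.coord b (p y) = 0 := by
  have h1 := hw_lam M G F b y
  rw [hy, map_smul, map_smul, smul_eq_mul] at h1
  have h2 : (κ - (d b : ℂ)) * v.coord b (p y) = 0 := by rw [sub_mul, h1, sub_self]
  exact (mul_eq_zero.1 h2).resolve_left (sub_ne_zero.2 hb)

private theorem hw_bas (G : HWGen Φ x₀ d) (F : Frame R Φ g σ W p v) (b : Om R Φ σ) :
    Matrix.toLin' x₀ (v b : ι → ℂ) = (d b : ℂ) • (v b : ι → ℂ) := by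
  rw [Matrix.toLin'_apply]
  exact G.app _ _ (F.bas b)

private theorem hw_up (M : Mono R c Φ g ψ) (G : HWGen Φ x₀ d) (F : Frame R Φ g σ W p v)
    {a : Om R Φ σ} (ha : ∀ b : Om R Φ σ, d b ≤ d a) {z : End ℂ (ι → ℂ)} (hz : z ∈ endo g)
    {s : ℚ} (hs0 : 0 < s)
    (hs : Matrix.toLin' x₀ * z - z * Matrix.toLin' x₀ = (s : ℂ) • z) : z (v a) = 0 := by
  have h1 := hw_ev hs (hw_bas G F a)
  have h2 : p (z (v a)) = 0 := by
    refine v.ext_elem fun b => ?_
    rw [map_zero, Finsupp.zero_apply, ← Basis.coord_apply]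
    refine hw_coord M G F b h1 ?_
    rw [← Rat.cast_add]
    intro h3
    have h4 : d a + s = d b := Rat.cast_injective h3
    have h5 := ha b
    linarith
  have h3 := F.prj.id ⟨z (v a), hw_st F.irr hz (v a).2⟩
  have h4 : (p (z (v a)) : ι → ℂ) = z (v a) := congrArg Subtype.val h3
  rw [← h4, h2]
  rfl

private theorem hw_down (M : Mono R c Φ g ψ) (G : HWGen Φ x₀ d) (F : Frame R Φ g σ W p v)
    {a : Om R Φ σ} (ha : ∀ b : Om R Φ σ, d b ≤ d a) {z : End ℂ (ι → ℂ)}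
    {s : ℚ} (hs0 : s < 0)
    (hs : Matrix.toLin' x₀ * z - z * Matrix.toLin' x₀ = (s : ℂ) • z) {u : ι → ℂ}
    (hu : u ∈ W) : v.coord a (p (z u)) = 0 := by
  have h1 : (v.coord a ∘ₗ p) ∘ₗ (z ∘ₗ W.subtype) = 0 := by
    refine v.ext fun b => ?_
    rw [LinearMap.zero_apply]
    change v.coord a (p (z (v b))) = 0
    refine hw_coord M G F a (hw_ev hs (hw_bas G F b)) ?_
    rw [← Rat.cast_add]
    intro h3
    have h4 : d b + s = d a := Rat.cast_injective h3
    have h5 := ha b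
    linarith
  exact LinearMap.congr_fun h1 ⟨u, hu⟩

end Frame

/-! ## The graph -/

/-- The smallest subspace which contains `(a, a')` and is stable under the elements of `g` of
negative degree. -/
private def hwN (g : Submodule ℂ (Matrix ι ι ℂ)) (x₀ : Matrix ι ι ℂ) (a a' : ι → ℂ) :
    Submodule ℂ ((ι → ℂ) × (ι → ℂ)) :=
  sInf {N | (a, a') ∈ N ∧ ∀ z ∈ endo g, ∀ s : ℚ, s < 0 →
    Matrix.toLin' x₀ * z - z * Matrix.toLin' x₀ = (s : ℂ) • z → ∀ w ∈ N, (z w.1, z w.2) ∈ N}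

private theorem hwN_mem (a a' : ι → ℂ) : (a, a') ∈ hwN g x₀ a a' :=
  Submodule.mem_sInf.2 fun _ hN => hN.1

private theorem hwN_st {a a' : ι → ℂ} {z : End ℂ (ι → ℂ)} (hz : z ∈ endo g) {s : ℚ}
    (hs0 : s < 0) (hs : Matrix.toLin' x₀ * z - z * Matrix.toLin' x₀ = (s : ℂ) • z)
    {w : (ι → ℂ) × (ι → ℂ)} (hw : w ∈ hwN g x₀ a a') : (z w.1, z w.2) ∈ hwN g x₀ a a' :=
  Submodule.mem_sInf.2 fun N hN => hN.2 z hz s hs0 hs w (Submodule.mem_sInf.1 hw N hN)

private theorem hwN_g (M : Mono R c Φ g ψ) (H : IsFrob R Φ) (G : HWGen Φ x₀ d) {a a' : ι → ℂ}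
    (hup : ∀ z ∈ endo g, ∀ s : ℚ, 0 < s →
      Matrix.toLin' x₀ * z - z * Matrix.toLin' x₀ = (s : ℂ) • z → z a = 0 ∧ z a' = 0)
    (h0 : ∀ z ∈ endo (tor Φ), ∃ κ : ℂ, z a = κ • a ∧ z a' = κ • a') :
    ∀ w ∈ hwN g x₀ a a', ∀ z ∈ endo g, (z w.1, z w.2) ∈ hwN g x₀ a a' := by
  let N' : Submodule ℂ ((ι → ℂ) × (ι → ℂ)) :=
    { carrier := {w | w ∈ hwN g x₀ a a' ∧ ∀ z ∈ endo g, (z w.1, z w.2) ∈ hwN g x₀ a a'}
      add_mem' := by
        rintro u w ⟨hu, hu'⟩ ⟨hw, hw'⟩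
        refine ⟨Submodule.add_mem _ hu hw, fun z hz => ?_⟩
        have h1 := Submodule.add_mem _ (hu' z hz) (hw' z hz)
        rw [Prod.mk_add_mk, ← map_add, ← map_add] at h1
        exact h1
      zero_mem' := ⟨Submodule.zero_mem _, fun z _ => by
        have h1 : ((z (0 : (ι → ℂ) × (ι → ℂ)).1, z (0 : (ι → ℂ) × (ι → ℂ)).2) :
          (ι → ℂ) × (ι → ℂ)) = 0 := by simp
        rw [h1]
        exact Submodule.zero_mem _⟩
      smul_mem' := by
        rintro c w ⟨hw, hw'⟩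
        refine ⟨Submodule.smul_mem _ _ hw, fun z hz => ?_⟩
        have h1 := Submodule.smul_mem _ c (hw' z hz)
        rw [Prod.smul_mk, ← map_smul, ← map_smul] at h1
        exact h1 }
  have hlie : ∀ x ∈ endo g, ∀ y ∈ endo g, x * y - y * x ∈ endo g := (cartan M H).lie
  have h1 : hwN g x₀ a a' ≤ N' := by
    refine sInf_le ⟨⟨hwN_mem a a', fun z hz => ?_⟩, ?_⟩
    · have h2 := hw_span M H G hz
      clear hz
      induction h2 using Submodule.span_induction with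
      | mem y hy =>
        obtain ⟨hy, s, hs⟩ := hy
        rcases lt_trichotomy s 0 with h3 | h3 | h3
        · exact hwN_st hy h3 hs (hwN_mem a a')
        · rw [h3, Rat.cast_zero, zero_smul, sub_eq_zero] at hs
          obtain ⟨κ, h4, h5⟩ := h0 y (hw_zero M H G hy hs)
          have h6 : ((y a, y a') : (ι → ℂ) × (ι → ℂ)) = κ • (a, a') := by
            rw [h4, h5, Prod.smul_mk]
          change ((y a, y a') : (ι → ℂ) × (ι → ℂ)) ∈ _
          rw [h6]
          exact Submodule.smul_mem _ _ (hwN_mem a a')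
        · obtain ⟨h4, h5⟩ := hup y hy s h3 hs
          change ((y a, y a') : (ι → ℂ) × (ι → ℂ)) ∈ _
          rw [h4, h5]
          exact Submodule.zero_mem _
      | zero => exact Submodule.zero_mem _
      | add x y _ _ hx hy =>
        have h3 := Submodule.add_mem _ hx hy
        exact h3
      | smul t x _ hx =>
        have h3 := Submodule.smul_mem _ t hx
        exact h3
    · rintro z hz s hs0 hs w ⟨hw, hw'⟩
      refine ⟨hwN_st hz hs0 hs hw, fun x hx => ?_⟩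
      have h2 := hwN_st hz hs0 hs (hw' x hx)
      have h3 := hw' _ (hlie x hx z hz)
      have h4 := Submodule.add_mem _ h2 h3
      have h5 : ∀ u : ι → ℂ, z (x u) + (x * z - z * x) u = x (z u) := fun u => by
        rw [LinearMap.sub_apply, Module.End.mul_apply, Module.End.mul_apply]
        abel
      rw [Prod.mk_add_mk] at h4
      change ((z (x w.1) + (x * z - z * x) w.1, z (x w.2) + (x * z - z * x) w.2) :
        (ι → ℂ) × (ι → ℂ)) ∈ _ at h4
      rw [h5, h5] at h4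
      exact h4
  exact fun w hw z hz => (h1 hw).2 z hz

theorem iso_of_om [Algebra ℚ E] [Module.Finite ℚ E] [IsReduced E] (M : Mono R c Φ g ψ)
    (H : IsFrob R Φ) (hI : Idem Φ) (h : Om R Φ σ = Om R Φ σ') : σ = σ' := by
  classical
  obtain ⟨W, p, v, F⟩ := exists_frame M H hI σ
  obtain ⟨W', p', v', F'⟩ := exists_frame M H hI σ'
  obtain ⟨x₀, d, G⟩ := hw_gen H hI
  have hWn := F.nontrivial
  obtain ⟨a₀⟩ : Nonempty (Om R Φ σ) := v.index_nonempty
  obtain ⟨a, haO, ha⟩ := Set.exists_max_image (Om R Φ σ) d (finite_Om R Φ σ) ⟨a₀, a₀.2⟩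
  have haO' : a ∈ Om R Φ σ' := h ▸ haO
  have ha' : ∀ b : Om R Φ σ', d b ≤ d a := fun b => ha b (h.symm ▸ b.2)
  set i : Om R Φ σ := ⟨a, haO⟩ with hi
  set i' : Om R Φ σ' := ⟨a, haO'⟩ with hi'
  have hmax : ∀ b : Om R Φ σ, d b ≤ d i := fun b => ha b b.2
  have hmax' : ∀ b : Om R Φ σ', d b ≤ d i' := ha'
  have hne : (v i : ι → ℂ) ≠ 0 := fun h1 => v.ne_zero i (Subtype.ext h1)
  set N := hwN g x₀ (v i) (v' i') with hN
  have hNg : ∀ w ∈ N, ∀ z ∈ endo g, (z w.1, z w.2) ∈ N := by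
    refine hwN_g M H G (fun z hz s hs0 hs => ⟨hw_up M G F hmax hz hs0 hs,
      hw_up M G F' hmax' hz hs0 hs⟩) ?_
    rintro z ⟨x, hx, hxz⟩
    have hxz' : Matrix.toLin' x = z := hxz
    subst hxz'
    obtain ⟨e, he⟩ := exists_scalar hx
    refine ⟨e a, ?_, ?_⟩
    · rw [Matrix.toLin'_apply]
      exact he a _ (F.bas i)
    · rw [Matrix.toLin'_apply]
      exact he a _ (F'.bas i')
  have hNC : N ≤ Submodule.prod W W' ⊓ LinearMap.eqLocus
      ((v.coord i ∘ₗ p) ∘ₗ LinearMap.fst ℂ (ι → ℂ) (ι → ℂ))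
      ((v'.coord i' ∘ₗ p') ∘ₗ LinearMap.snd ℂ (ι → ℂ) (ι → ℂ)) := by
    refine sInf_le ⟨⟨⟨(v i).2, (v' i').2⟩, ?_⟩, ?_⟩
    · change v.coord i (p (v i)) = v'.coord i' (p' (v' i'))
      rw [F.prj.id, F'.prj.id, Basis.coord_apply, Basis.coord_apply, Basis.repr_self,
        Basis.repr_self, Finsupp.single_eq_same, Finsupp.single_eq_same]
    · rintro z hz s hs0 hs w ⟨⟨hw1, hw2⟩, -⟩
      refine ⟨⟨hw_st F.irr hz hw1, hw_st F'.irr hz hw2⟩, ?_⟩
      change v.coord i (p (z w.1)) = v'.coord i' (p' (z w.2))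
      rw [hw_down M G F hmax hs0 hs hw1, hw_down M G F' hmax' hs0 hs hw2]
  have hco : ∀ w ∈ N, v.coord i (p w.1) = v'.coord i' (p' w.2) := fun w hw => (hNC hw).2
  -- the kernels
  have hg : ∀ x ∈ g, ∀ w ∈ N, (x.mulVec w.1, x.mulVec w.2) ∈ N := by
    intro x hx w hw
    have h1 := hNg w hw (Matrix.toLin' x) (mem_endo.2 hx)
    rwa [Matrix.toLin'_apply, Matrix.toLin'_apply] at h1
  have hK : ∀ u, ((0 : ι → ℂ), u) ∈ N → u = 0 := by
    have h1 := F'.irr.2.2 (N.comap (LinearMap.inr ℂ (ι → ℂ) (ι → ℂ)))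
      (fun u hu => (hNC hu).1.2) (fun x hx u hu => by
        have h2 := hg x hx _ hu
        change ((0 : ι → ℂ), x.mulVec u) ∈ N
        have h3 : x.mulVec ((LinearMap.inr ℂ (ι → ℂ) (ι → ℂ)) u).1 = 0 := by
          change x.mulVec 0 = 0
          rw [Matrix.mulVec_zero]
        rw [h3] at h2
        exact h2)
    rcases h1 with h1 | h1
    · intro u hu
      have h2 : u ∈ N.comap (LinearMap.inr ℂ (ι → ℂ) (ι → ℂ)) := hu
      rw [h1] at h2
      exact h2
    · exfalso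
      have h2 : (v' i' : ι → ℂ) ∈ N.comap (LinearMap.inr ℂ (ι → ℂ) (ι → ℂ)) := by
        rw [h1]
        exact (v' i').2
      have h3 := hco _ h2
      change v.coord i (p 0) = v'.coord i' (p' (v' i')) at h3
      rw [F'.prj.id, Basis.coord_apply, Basis.coord_apply, Basis.repr_self,
        Finsupp.single_eq_same, map_zero, map_zero, Finsupp.zero_apply] at h3
      exact zero_ne_one h3
  have hS : ∀ w ∈ W, ∃ u, (w, u) ∈ N := by
    have h1 := F.irr.2.2 (N.map (LinearMap.fst ℂ (ι → ℂ) (ι → ℂ))) (by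
        rintro _ ⟨w, hw, rfl⟩
        exact (hNC hw).1.1) (by
        rintro x hx _ ⟨w, hw, rfl⟩
        exact ⟨_, hg x hx w hw, rfl⟩)
    rcases h1 with h1 | h1
    · exfalso
      have h2 : (v i : ι → ℂ) ∈ N.map (LinearMap.fst ℂ (ι → ℂ) (ι → ℂ)) :=
        ⟨_, hwN_mem _ _, rfl⟩
      rw [h1] at h2
      exact hne h2
    · intro w hw
      rw [← h1] at hw
      obtain ⟨y, hy, rfl⟩ := hw
      exact ⟨y.2, hy⟩
  -- the linear map
  let f : N →ₗ[ℂ] W := LinearMap.codRestrict W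
    (LinearMap.fst ℂ (ι → ℂ) (ι → ℂ) ∘ₗ N.subtype) fun y => (hNC y.2).1.1
  have hf : Function.Bijective f := by
    constructor
    · rw [← LinearMap.ker_eq_bot, LinearMap.ker_eq_bot']
      rintro ⟨⟨y1, y2⟩, hy⟩ h1
      have h2 : y1 = 0 := congrArg Subtype.val h1
      subst h2
      have h3 := hK y2 hy
      subst h3
      rfl
    · rintro ⟨w, hw⟩
      obtain ⟨u, hu⟩ := hS w hw
      exact ⟨⟨(w, u), hu⟩, rfl⟩
  let e := LinearEquiv.ofBijective f hf
  let θ : W →ₗ[ℂ] (ι → ℂ) := LinearMap.snd ℂ (ι → ℂ) (ι → ℂ) ∘ₗ N.subtype ∘ₗ e.symm.toLinearMap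
  have hθ : ∀ w : W, ((w : ι → ℂ), θ w) ∈ N := by
    intro w
    have h1 : f (e.symm w) = w := e.apply_symm_apply w
    have h2 : ((e.symm w : N) : (ι → ℂ) × (ι → ℂ)).1 = w := congrArg Subtype.val h1
    have h3 : ((w : ι → ℂ), θ w) = ((e.symm w : N) : (ι → ℂ) × (ι → ℂ)) := by
      rw [← h2]
      rfl
    rw [h3]
    exact (e.symm w).2
  have hu : ∀ w : W, ∀ u, ((w : ι → ℂ), u) ∈ N → u = θ w := by
    intro w u h1
    have h2 := Submodule.sub_mem _ h1 (hθ w)
    rw [Prod.mk_sub_mk, sub_self] at h2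
    exact sub_eq_zero.1 (hK _ h2)
  let Z : Matrix ι ι ℂ := LinearMap.toMatrix' (θ ∘ₗ p)
  have hZ : ∀ y, Z.mulVec y = θ (p y) := by
    intro y
    rw [← Matrix.toLin'_apply, Matrix.toLin'_toMatrix']
    rfl
  have hZc : ∀ x ∈ g, x * Z = Z * x := by
    intro x hx
    apply (Matrix.toLin' (R := ℂ)).injective
    refine LinearMap.ext fun y => ?_
    rw [Matrix.toLin'_apply, Matrix.toLin'_apply, ← Matrix.mulVec_mulVec, ← Matrix.mulVec_mulVec,
      hZ, hZ]
    refine hu (p (x.mulVec y)) _ ?_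
    rw [F.prj.eq x hx y]
    exact hg x hx _ (hθ (p y))
  have hθi : θ (v i) = v' i' := (hu (v i) _ (hwN_mem _ _)).symm
  have hne' : (v' i' : ι → ℂ) ≠ 0 := fun h1 => v'.ne_zero i' (Subtype.ext h1)
  ext r
  have h1 := M.center Z hZc r
  have h2 := congrArg (fun A : Matrix ι ι ℂ => A.mulVec (v i : ι → ℂ)) h1
  simp only [← Matrix.mulVec_mulVec] at h2
  rw [F.le (v i).2 r, Matrix.mulVec_smul, hZ, F.prj.id, hθi, F'.le (v' i').2 r] at h2
  exact smul_left_injective ℂ hne' h2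

end Pool.Agent.FQV
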