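import Pool.Agent.FQV.PairNN

/-!
# A system of type A and a system of type C or D (PACKAGE FV4, pure)

`n = card Ω`, `n' = card Ω'`, `t` from `D.weights2 hb`, `t'` from `D.swap.weights2`, `t * t' = 1` (see `PairNN.lean`).

(a) Let `J h h'`. `h' ⬝ h'` is an even natural number `2 * card {ω | h' ω = 1}` (`h'` is odd with values `0, 1, -1`), and `h ⬝ h ≥ 2` if `h ≠ 0` (`∑ h = 0`). Take `h = δ_a - δ_b`,
`a ≠ b` (`n ≥ 2` because there is `h ≠ 0` with sum zero): `2 t = h' ⬝ h'` is an even natural number and not zero, so `t` is a natural number, `t ≥ 1`. If `J h h'` for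
all `h' ∈ StSp bar` take `h' = δ_b - δ_(bar b)`: `2 = t (h ⬝ h) ≥ 2 t`, so `t = 1`. In the second case of `h2` take `h' = δ_a + δ_b - δ_(bar a) - δ_(bar b)`, `b ≠ a, bar a`
(`6 ≤ card Ω'`): `4 = t (h ⬝ h) ≥ 2 t`, `t ≤ 2`. (`Ω'` is not empty: `β`.)

(b) `U = span {h | ∃ h', J h h'}` is the space of all functions with sum zero. `U' = span {h' | ∃ h, J h h'}` is the space of all odd functions (`hodd`;
`odd_span_sp`, `odd_span_so`). Let `w` be the vector for `β` and `w'` the vector for a point of `Ω` (from `D.swap.weights2`). `sl_rep`, `real_rep`: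
`n' * (w ⬝ w) = t * n * (u ⬝ u) = t * (n - 1)`, `n * (w' ⬝ w') = t' * n' / 2`. So `w, w' ≠ 0`. `w ⬝ h = h' β ∈ {0, 1, -1}` and `w' ⬝ h' ∈ {0, 1, -1}` for `J h h'`. By
`sl_fin` `w = 1_A - k / n`, `n * (w ⬝ w) = k (n - k)`, so (*) `n' * k * (n - k) = t * n * (n - 1)`. By `sp_nrm`, `so_nrm`: `w' ⬝ w' = 1 / 2`, and then `n' = t * n`, or (only
in the second case of `h2`) `16 (w' ⬝ w') = n'`, and then `n * t = 8`.

(c) If `n' = t * n`: (*) gives `k * (n - k) = n - 1`, and `sl_min`, `sl_dot` give `PCon N β a` as in `PairNN.lean` (left case). If `n * t = 8`, `t ∈ {1, 2}`: for `t = 1`,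
`n = 8`: `n' * k * (8 - k) = 56`, `1 ≤ k ≤ 7`, `n' ≠ 8`: impossible (`k (8 - k) ∈ {7, 12, 15, 16}`). For `t = 2`, `n = 4`: `n' * k * (4 - k) = 24`, `1 ≤ k ≤ 3`, `n' ≠ 8`: so `k = 2`,
`n' = 6`: the right case (not in the first case of `h2`), as `w ⬝ (f.1 - c) = ∑ b ∈ A, (f.1 b - c) = ∑ b ∈ A, f.1 b - 2 c`, `c = (∑ f.1) / 4`. -/

set_option autoImplicit false

namespace Pool.Agent.FQV

variable {Ω Ω' : Type*} [Fintype Ω] [Fintype Ω']
  {N : Submodule ℚ ((Ω → ℚ) × (Ω' → ℚ))} {J : (Ω → ℚ) → (Ω' → ℚ) → Prop}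

private theorem nr_pos {Ω : Type*} [Fintype Ω] {h : Ω → ℚ} (hh : h ≠ 0) : 0 < h ⬝ᵥ h := by
  obtain ⟨ω, hω⟩ := Function.ne_iff.1 hh
  refine Finset.sum_pos' (fun i _ => mul_self_nonneg _) ⟨ω, Finset.mem_univ _, ?_⟩
  exact mul_self_pos.2 hω

/-- A function with the values `0`, `1`, `-1` and the sum zero has norm at least `2`. -/
private theorem nr_two {Ω : Type*} [Fintype Ω] {h : Ω → ℚ}
    (hv : ∀ ω, h ω = -1 ∨ h ω = 0 ∨ h ω = 1) (hs : ∑ ω, h ω = 0) (h0 : h ≠ 0) :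
    2 ≤ h ⬝ᵥ h := by
  obtain ⟨ω, hω⟩ := Function.ne_iff.1 h0
  rw [Pi.zero_apply] at hω
  rcases hv ω with h1 | h1 | h1
  · have h2 : h ⬝ᵥ h = ∑ ν, (h ν * h ν - h ν) := by
      rw [Finset.sum_sub_distrib, hs, sub_zero, dotProduct]
    have h3 : h ω * h ω - h ω ≤ ∑ ν, (h ν * h ν - h ν) := by
      refine Finset.single_le_sum (f := fun ν => h ν * h ν - h ν) (fun ν _ => ?_)
        (Finset.mem_univ ω)
      rcases hv ν with h4 | h4 | h4 <;> simp only [h4] <;> norm_num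
    rw [h2]
    refine le_trans ?_ h3
    rw [h1]
    norm_num
  · exact absurd h1 hω
  · have h2 : h ⬝ᵥ h = ∑ ν, (h ν * h ν + h ν) := by
      rw [Finset.sum_add_distrib, hs, add_zero, dotProduct]
    have h3 : h ω * h ω + h ω ≤ ∑ ν, (h ν * h ν + h ν) := by
      refine Finset.single_le_sum (f := fun ν => h ν * h ν + h ν) (fun ν _ => ?_)
        (Finset.mem_univ ω)
      rcases hv ν with h4 | h4 | h4 <;> simp only [h4] <;> norm_num
    rw [h2]
    refine le_trans ?_ h3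
    rw [h1]
    norm_num

/-- The norm of an odd function with the values `0`, `1`, `-1` is an even number. -/
private theorem nr_even {Ω : Type*} [Fintype Ω] [DecidableEq Ω] {bar : Ω → Ω}
    (hbar : ∀ a, bar (bar a) = a) {h : Ω → ℚ}
    (hv : ∀ ω, h ω = -1 ∨ h ω = 0 ∨ h ω = 1) (ho : ∀ ω, h (bar ω) = -h ω) :
    ∃ m : ℕ, h ⬝ᵥ h = 2 * m := by
  have hE : ∀ f : Ω → ℚ, ∑ ω, f (bar ω) = ∑ ω, f ω := fun f =>
    Equiv.sum_comp (Function.Involutive.toPerm bar hbar) f
  have h1 : h ⬝ᵥ h = ∑ ω, ((if h ω = 1 then 1 else 0) + (if h ω = -1 then 1 else 0) : ℚ) := by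
    rw [dotProduct]
    refine Finset.sum_congr rfl fun ω _ => ?_
    rcases hv ω with h4 | h4 | h4 <;> rw [h4] <;> norm_num
  have h2 : ∑ ω, (if h ω = -1 then 1 else 0 : ℚ) = ∑ ω, (if h ω = 1 then 1 else 0 : ℚ) := by
    rw [← hE]
    refine Finset.sum_congr rfl fun ω _ => ?_
    rw [ho ω]
    congr 1
    exact propext ⟨fun h3 => by linarith, fun h3 => by linarith⟩
  refine ⟨(Finset.univ.filter fun ω => h ω = 1).card, ?_⟩
  rw [h1, Finset.sum_add_distrib, h2, Finset.sum_boole]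
  ring

theorem pd_nr [DecidableEq Ω] [DecidableEq Ω'] (D : PD N J)
    (hb : ∃ h h', J h h' ∧ h ≠ 0 ∧ h' ≠ 0)
    (hs : ∀ h h', J h h' → ∑ ω, h ω = 0)
    (hv : ∀ h h', J h h' → (∀ ω, h ω = -1 ∨ h ω = 0 ∨ h ω = 1) ∧
      ∀ ω, h' ω = -1 ∨ h' ω = 0 ∨ h' ω = 1)
    {bar : Ω' → Ω'} (hbar : ∀ a, bar (bar a) = a) (hfix : ∀ a, bar a ≠ a)
    (hodd : ∀ h h', J h h' → ∀ ω, h' (bar ω) = -h' ω)
    (h1 : ∀ h, StSl h → ∃ h', J h h')
    (h2 : (∀ h', StSp bar h' → ∃ h, J h h') ∨ ((∀ h', StSo bar h' → ∃ h, J h h') ∧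
      6 ≤ Fintype.card Ω' ∧ Fintype.card Ω' ≠ 8)) (β : Ω') :
    (∃ a, PCon N β a) ∨ ((¬ ∀ h', StSp bar h' → ∃ h, J h h') ∧ Fintype.card Ω = 4 ∧
      Fintype.card Ω' = 6 ∧ ∃ A : Finset Ω, ∀ f ∈ N, f.2 β - (∑ ω, f.2 ω) / Fintype.card Ω' = ∑ ω ∈ A, f.1 ω - (∑ ω, f.1 ω) / 2) := by
  have hb' : ∃ h' h, J h h' ∧ h' ≠ 0 ∧ h ≠ 0 := by
    obtain ⟨h, h', hJ, hn, hn'⟩ := hb
    exact ⟨h', h, hJ, hn', hn⟩
  obtain ⟨t, ht, htn, hW⟩ := D.weights2 hb
  obtain ⟨t', ht', htn', hW'⟩ := D.swap.weights2 hb'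
  obtain ⟨h₀, h₀', hJ₀, hn₀, hn₀'⟩ := hb
  have htt : t * t' = 1 := by
    have e1 := htn h₀ h₀' hJ₀
    have e2 := htn' h₀' h₀ hJ₀
    have e3 := (nr_pos hn₀).ne'
    apply mul_right_cancel₀ e3
    rw [e1] at e2
    linear_combination -e2
  -- two elements
  have hcard : 1 < Fintype.card Ω := by
    by_contra hcon
    have hsub : Subsingleton Ω := Fintype.card_le_one_iff_subsingleton.1 (by omega)
    apply hn₀
    funext ω
    have e1 := hs h₀ h₀' hJ₀
    rw [Fintype.sum_subsingleton _ ω] at e1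
    exact e1
  obtain ⟨a₀, b₀, hab⟩ := Fintype.one_lt_card_iff.1 hcard
  have hn2 : 2 ≤ Fintype.card Ω := hcard
  have hnq : (2 : ℚ) ≤ (Fintype.card Ω : ℚ) := by exact_mod_cast hn2
  have hn'0 : (0 : ℚ) < (Fintype.card Ω' : ℚ) := by
    have : Nonempty Ω' := ⟨β⟩
    exact_mod_cast Fintype.card_pos
  -- `t` is a natural number
  obtain ⟨m, hm⟩ : ∃ m : ℕ, t = m := by
    obtain ⟨h', hJ⟩ := h1 _ ⟨a₀, b₀, hab, rfl⟩
    obtain ⟨m, hm⟩ := nr_even hbar (hv _ _ hJ).2 (hodd _ _ hJ)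
    refine ⟨m, ?_⟩
    have e1 := htn _ _ hJ
    rw [hm, sub_dotProduct, single_one_dotProduct, single_one_dotProduct, Pi.sub_apply,
      Pi.sub_apply, Pi.single_eq_same, Pi.single_eq_same, Pi.single_eq_of_ne hab,
      Pi.single_eq_of_ne hab.symm] at e1
    linarith
  -- the span of the first components
  have hUs : ∀ x ∈ Submodule.span ℚ {h : Ω → ℚ | ∃ h', J h h'}, ∑ ω, x ω = 0 := by
    intro x hx
    induction hx using Submodule.span_induction with
    | mem x hx =>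
      obtain ⟨h', hJ⟩ := hx
      exact hs x h' hJ
    | zero => simp
    | add x y _ _ hx hy => simp only [Pi.add_apply, Finset.sum_add_distrib, hx, hy, add_zero]
    | smul c x _ hx => simp only [Pi.smul_apply, smul_eq_mul, ← Finset.mul_sum, hx, mul_zero]
  have hUsl : Submodule.span ℚ {h : Ω → ℚ | StSl h} ≤
      Submodule.span ℚ {h : Ω → ℚ | ∃ h', J h h'} := Submodule.span_mono fun h hh => h1 h hh
  have hU0 : ∀ x : Ω → ℚ, ∑ ω, x ω = 0 → x ∈ Submodule.span ℚ {h : Ω → ℚ | StSl h} :=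
    fun x hx => (knd_sl hn2).span x hx
  -- the span of the second components
  have hUo : ∀ x ∈ Submodule.span ℚ {h' : Ω' → ℚ | ∃ h, J h h'}, ∀ ω, x (bar ω) = -x ω := by
    intro x hx
    induction hx using Submodule.span_induction with
    | mem x hx =>
      obtain ⟨h, hJ⟩ := hx
      exact hodd h x hJ
    | zero => simp
    | add x y _ _ hx hy =>
      intro ω
      rw [Pi.add_apply, Pi.add_apply, hx, hy]
      ring
    | smul c x _ hx =>
      intro ω
      rw [Pi.smul_apply, Pi.smul_apply, hx, smul_neg]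
  have hU' : ∀ f : Ω' → ℚ, f ∈ Submodule.span ℚ {h' : Ω' → ℚ | ∃ h, J h h'} ↔
      ∀ a, f (bar a) = -f a := by
    intro f
    refine ⟨hUo f, fun hf => ?_⟩
    rcases h2 with h2 | ⟨h2, h6, -⟩
    · exact Submodule.span_mono (fun h hh => h2 h hh) (odd_span_sp hbar hf)
    · exact Submodule.span_mono (fun h hh => h2 h hh) (odd_span_so hbar h6 hf)
  -- the weights
  obtain ⟨w, hwU, hw1, hw2, hw3⟩ := hW β
  obtain ⟨w', hwU', hw1', hw2', -⟩ := hW' a₀
  obtain ⟨u, hu, hu1, hu2⟩ := sl_rep a₀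
  have e1 : (Fintype.card Ω' : ℚ) * (w ⬝ᵥ w) = t * (Fintype.card Ω - 1) := by
    rw [hw1 a₀ u (hUsl hu) fun s hs => hu1 s (hU0 s (hUs s hs)), mul_assoc, hu2]
  obtain ⟨u', hu', hu1', hu2'⟩ := real_rep hbar hfix hU' β
  have e2 : (Fintype.card Ω : ℚ) * (w' ⬝ᵥ w') = t' * Fintype.card Ω' * (1 / 2) := by
    rw [hw1' β u' hu' fun s hs => hu1' s hs, hu2']
  have hw0 : w ≠ 0 := by
    rintro rfl
    rw [zero_dotProduct, mul_zero] at e1
    have : 0 < t * ((Fintype.card Ω : ℚ) - 1) := mul_pos ht (by linarith)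
    linarith
  have hw0' : w' ≠ 0 := by
    rintro rfl
    rw [zero_dotProduct, mul_zero] at e2
    have : 0 < t' * (Fintype.card Ω' : ℚ) := mul_pos ht' hn'0
    linarith
  obtain ⟨A, hA0, hA1, hA2, hA3⟩ := sl_fin (hUs w hwU) hw0 fun k hk => by
    obtain ⟨h', hJ⟩ := h1 k hk
    rw [← hw2 k h' hJ]
    exact (hv k h' hJ).2 β
  have hstar : (Fintype.card Ω' : ℚ) * (A.card * (Fintype.card Ω - A.card)) =
      t * Fintype.card Ω * (Fintype.card Ω - 1) := by
    rw [← hA3]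
    linear_combination (Fintype.card Ω : ℚ) * e1
  have hval : ∀ k : Ω' → ℚ, (∃ h, J h k) → w' ⬝ᵥ k = -1 ∨ w' ⬝ᵥ k = 0 ∨ w' ⬝ᵥ k = 1 := by
    rintro k ⟨h, hJ⟩
    rw [← hw2' k h hJ]
    exact (hv h k hJ).1 a₀
  -- the main dichotomy
  have hdich : (Fintype.card Ω' : ℚ) = t * Fintype.card Ω ∨
      ((¬ ∀ h', StSp bar h' → ∃ h, J h h') ∧ (∀ h', StSo bar h' → ∃ h, J h h') ∧
        6 ≤ Fintype.card Ω' ∧ Fintype.card Ω' ≠ 8 ∧ (Fintype.card Ω : ℚ) * t = 8) := by
    have hhalf : w' ⬝ᵥ w' = 1 / 2 → (Fintype.card Ω' : ℚ) = t * Fintype.card Ω := by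
      intro h3
      rw [h3] at e2
      linear_combination (-2 * t) * e2 - (Fintype.card Ω' : ℚ) * htt
    by_cases hsp : ∀ h', StSp bar h' → ∃ h, J h h'
    · exact Or.inl (hhalf (sp_nrm hbar hfix (hUo w' hwU') hw0' fun k hk => hval k (hsp k hk)))
    · obtain ⟨h2, h6, h8⟩ := h2.resolve_left hsp
      rcases so_nrm hbar hfix h6 (hUo w' hwU') hw0' fun k hk => hval k (h2 k hk) with h3 | h3
      · exact Or.inl (hhalf h3)
      · refine Or.inr ⟨hsp, h2, h6, h8, ?_⟩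
        apply mul_left_cancel₀ hn'0.ne'
        rw [← h3] at e2 ⊢
        have h4 : w' ⬝ᵥ w' ≠ 0 := (nr_pos hw0').ne'
        have h5 : (Fintype.card Ω : ℚ) = 8 * t' := by
          apply mul_right_cancel₀ h4
          linear_combination e2
        rw [h5]
        linear_combination (128 * (w' ⬝ᵥ w')) * htt
  have hsum0 : ∀ f : (Ω → ℚ) × (Ω' → ℚ),
      ∑ ω, (f.1 ω - (∑ ω, f.1 ω) / Fintype.card Ω) = 0 := by
    intro f
    rw [Finset.sum_sub_distrib, Finset.sum_const, Finset.card_univ, nsmul_eq_mul,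
      mul_div_cancel₀ _ (by linarith : (Fintype.card Ω : ℚ) ≠ 0), sub_self]
  have hfin : ∀ f ∈ N, f.2 β - (∑ ω, f.2 ω) / Fintype.card Ω' =
      ∑ b ∈ A, (f.1 b - (∑ ω, f.1 ω) / Fintype.card Ω) := by
    intro f hf
    rw [hw3 f hf (hUsl (hU0 _ (hsum0 f))), sl_dot hA2 (hsum0 f)]
  have hAq : (A.card : ℚ) < Fintype.card Ω := by exact_mod_cast hA1
  have hA0q : (0 : ℚ) < A.card := by exact_mod_cast hA0
  rcases hdich with h3 | ⟨hsp, h3, h6, h8, h9⟩
  · left
    have h4 : (A.card : ℚ) * (Fintype.card Ω - A.card) = Fintype.card Ω - 1 := by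
      rw [h3] at hstar hn'0
      apply mul_left_cancel₀ hn'0.ne'
      linear_combination hstar
    obtain ⟨a, h5 | h5⟩ := sl_min hA0 hA1 h4
    · exact ⟨a, Or.inl fun f hf => by rw [hfin f hf, h5 _ (hsum0 f)]⟩
    · exact ⟨a, Or.inr fun f hf => by rw [hfin f hf, h5 _ (hsum0 f)]⟩
  · right
    -- `t ≤ 2`
    have ht2 : t ≤ 2 := by
      obtain ⟨b, hb1, hb2⟩ : ∃ b, b ≠ β ∧ b ≠ bar β := by
        by_contra hcon
        push Not at hcon
        have h10 : (Finset.univ : Finset Ω') ⊆ {β, bar β} := fun b _ => by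
          rw [Finset.mem_insert, Finset.mem_singleton]
          by_cases h11 : b = β
          · exact Or.inl h11
          · exact Or.inr (hcon b h11)
        have h12 := Finset.card_le_card h10
        rw [Finset.card_univ] at h12
        have h13 : ({β, bar β} : Finset Ω').card ≤ 2 := Finset.card_le_two
        omega
      obtain ⟨h, hJ⟩ := h3 _ ⟨β, b, hb1, hb2, rfl⟩
      have h10 := htn _ _ hJ
      have h11 : bar b ≠ β := fun h12 => hb2 (by rw [← h12, hbar])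
      have h12 : bar b ≠ bar β := fun h13 => hb1 (by rw [← hbar b, h13, hbar])
      have h13 := hfix β
      have h14 := hfix b
      have h15 : (Pi.single β 1 + Pi.single b 1 - Pi.single (bar β) 1 - Pi.single (bar b) 1 :
          Ω' → ℚ) ⬝ᵥ (Pi.single β 1 + Pi.single b 1 - Pi.single (bar β) 1 -
            Pi.single (bar b) 1 : Ω' → ℚ) = 4 := by
        rw [sub_dotProduct, sub_dotProduct, add_dotProduct, single_one_dotProduct,
          single_one_dotProduct, single_one_dotProduct, single_one_dotProduct]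
        simp only [Pi.sub_apply, Pi.add_apply, Pi.single_apply]
        simp only [if_true, if_neg hb1, if_neg hb1.symm, if_neg hb2, if_neg hb2.symm,
          if_neg h11, if_neg h11.symm, if_neg h12, if_neg h12.symm, if_neg h13,
          if_neg h13.symm, if_neg h14, if_neg h14.symm]
        norm_num
      rw [h15] at h10
      have h16 : h ≠ 0 := by
        rintro rfl
        rw [zero_dotProduct, mul_zero] at h10
        norm_num at h10
      have h17 := nr_two (hv _ _ hJ).1 (hs _ _ hJ) h16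
      nlinarith
    have hm2 : m ≤ 2 := by
      rw [hm] at ht2
      exact_mod_cast ht2
    have hm0 : 0 < m := by
      rw [hm] at ht
      exact_mod_cast ht
    have h9' : Fintype.card Ω * m = 8 := by
      rw [hm] at h9
      exact_mod_cast h9
    have hstar' : Fintype.card Ω' * (A.card * (Fintype.card Ω - A.card)) =
        m * Fintype.card Ω * (Fintype.card Ω - 1) := by
      have h10 : ((Fintype.card Ω' * (A.card * (Fintype.card Ω - A.card)) : ℕ) : ℚ) =
          ((m * Fintype.card Ω * (Fintype.card Ω - 1) : ℕ) : ℚ) := by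
        push_cast [Nat.cast_sub hA1.le, Nat.cast_sub (by omega : 1 ≤ Fintype.card Ω)]
        rw [← hm]
        exact hstar
      exact_mod_cast h10
    have hmain : Fintype.card Ω = 4 ∧ Fintype.card Ω' = 6 ∧ A.card = 2 := by
      have hmc : m = 1 ∨ m = 2 := by omega
      clear hstar
      generalize Fintype.card Ω' = n' at *
      generalize hk : A.card = k at *
      rcases hmc with rfl | rfl
      · have h10 : Fintype.card Ω = 8 := by omega
        rw [h10] at hstar' hA1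
        interval_cases k <;> omega
      · have h10 : Fintype.card Ω = 4 := by omega
        rw [h10] at hstar' hA1
        refine ⟨h10, ?_⟩
        interval_cases k <;> omega
    obtain ⟨h10, h11, h12⟩ := hmain
    refine ⟨hsp, h10, h11, A, fun f hf => ?_⟩
    rw [hfin f hf, Finset.sum_sub_distrib, Finset.sum_const, h12, nsmul_eq_mul, h10]
    push_cast
    ring

end Pool.Agent.FQV
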