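import Pool.Agent.FQV.KindEx
import Pool.Agent.FQV.Pair2
import Pool.Agent.FQV.PairNR
import Pool.Agent.FQV.HW

/-!
# A root vector acts on one eigenspace and its conjugate only

Let `Ω = Om R Φ σ`, `Ω' = Om R Φ σ'`, `N` the space of the pairs `(f, f')` of rational functions for which there is
`x ∈ tor Φ` which acts on the eigenspaces of `Φ` as the scalars `d μ` with `d μ = f μ` for `μ ∈ Ω`, `d μ = f' μ` for
`μ ∈ Ω'`, and `J` the set of the pairs of the restrictions of a coroot. If both restrictions are not zero for some coroot,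
the values at a point `β ∈ Ω'` agree up to the sign and the averages with those at a point `a ∈ Ω`
(`pd_nn`, `pd_nr`, `PD.weights`), so `β = a` or `β = conj a`, and `σ' = σ` or `σ' = conj σ`.
-/

set_option autoImplicit false
set_option linter.unusedSectionVars false

namespace Pool.Agent.FQV

open Module
open Pool.Agent.CoprimeSig (ratM)

variable {ι : Type} [Fintype ι] [DecidableEq ι] {E : Type} [CommRing E]
  {R : E →+* Matrix ι ι ℚ} {Φ : Matrix ι ι ℚ} {σ σ' : E →+* ℂ} {c : E → E}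
  {g : Submodule ℂ (Matrix ι ι ℂ)} {ψ : Matrix ι ι ℂ} {r : (E →+* ℂ) → ℕ}
  {sp : (E →+* ℂ) → Prop}

private theorem gou_conn {Ω Ω' : Type*} [Fintype Ω] [DecidableEq Ω] {Ad St : (Ω → ℚ) → Prop}
    (K : Knd Ad St) {J : (Ω → ℚ) → (Ω' → ℚ) → Prop} (hlift : ∀ h, St h → ∃ h', J h h')
    (had : ∀ h h', J h h' → Ad h) (P : (Ω → ℚ) → (Ω' → ℚ) → Prop)
    (h0 : ∃ h h', J h h' ∧ h ≠ 0 ∧ P h h')
    (hst : ∀ h h' k k', J h h' → J k k' → P h h' → h ⬝ᵥ k ≠ 0 → P k k') :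
    ∀ h h', J h h' → h ≠ 0 → P h h' := by
  obtain ⟨h₀, h₀', hJ, hne, hP⟩ := h0
  obtain ⟨s, hs, hs0⟩ := K.exists_dot (had _ _ hJ) hne
  have h1 := K.conn (fun s => ∀ s', J s s' → P s s')
    ⟨s, hs, fun s' hs' => hst _ _ _ _ hJ hs' hP hs0⟩ (by
      intro h k hh _ hQ hk k' hk'
      obtain ⟨h', hh'⟩ := hlift h hh
      exact hst _ _ _ _ hh' hk' (hQ h' hh') hk)
  intro k k' hk hk0
  obtain ⟨s, hs, hs0⟩ := K.exists_dot (had _ _ hk) hk0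
  obtain ⟨s', hs'⟩ := hlift s hs
  refine hst _ _ _ _ hs' hk (h1 s hs s' hs') ?_
  rw [dotProduct_comm]
  exact hs0

/-- The pairs of the rational scalars of the elements of the Lie algebra of the torus. -/
private def gouN (R : E →+* Matrix ι ι ℚ) (Φ : Matrix ι ι ℚ) (σ σ' : E →+* ℂ) :
    Submodule ℚ ((Om R Φ σ → ℚ) × (Om R Φ σ' → ℚ)) where
  carrier := {f | ∃ x ∈ tor Φ, ∃ d : ℂ → ℂ,
    (∀ μ v, (ratM Φ).mulVec v = μ • v → x.mulVec v = d μ • v) ∧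
    (∀ ω : Om R Φ σ, d ω = f.1 ω) ∧ ∀ ω : Om R Φ σ', d ω = f.2 ω}
  add_mem' := by
    rintro f f' ⟨x, hx, d, h1, h2, h3⟩ ⟨x', hx', d', h1', h2', h3'⟩
    refine ⟨x + x', (tor Φ).add_mem hx hx', fun μ => d μ + d' μ, fun μ v hv => ?_, fun ω => ?_,
      fun ω => ?_⟩
    · rw [Matrix.add_mulVec, h1 μ v hv, h1' μ v hv, add_smul]
    · beta_reduce
      rw [h2, h2', Prod.fst_add, Pi.add_apply, Rat.cast_add]
    · beta_reduce
      rw [h3, h3', Prod.snd_add, Pi.add_apply, Rat.cast_add]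
  zero_mem' := by
    refine ⟨0, (tor Φ).zero_mem, fun _ => 0, fun μ v _ => ?_, fun ω => ?_, fun ω => ?_⟩
    · rw [Matrix.zero_mulVec, zero_smul]
    · rw [Prod.fst_zero, Pi.zero_apply, Rat.cast_zero]
    · rw [Prod.snd_zero, Pi.zero_apply, Rat.cast_zero]
  smul_mem' := by
    rintro q f ⟨x, hx, d, h1, h2, h3⟩
    refine ⟨(q : ℂ) • x, (tor Φ).smul_mem _ hx, fun μ => (q : ℂ) * d μ, fun μ v hv => ?_,
      fun ω => ?_, fun ω => ?_⟩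
    · rw [Matrix.smul_mulVec, h1 μ v hv, mul_smul]
    · beta_reduce
      rw [h2, Prod.smul_fst, Pi.smul_apply, smul_eq_mul, Rat.cast_mul]
    · beta_reduce
      rw [h3, Prod.smul_snd, Pi.smul_apply, smul_eq_mul, Rat.cast_mul]

/-- The pairs of coroots. -/
private def gouJ (R : E →+* Matrix ι ι ℚ) (Φ : Matrix ι ι ℚ) (g : Submodule ℂ (Matrix ι ι ℂ))
    (σ σ' : E →+* ℂ) (h : Om R Φ σ → ℚ) (h' : Om R Φ σ' → ℚ) : Prop :=
  ∃ (z y : Matrix ι ι ℂ) (G : ℂ → ℚ) (π : ℂ → ℂ), Jrt R Φ g z y G π ∧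
    rs R Φ σ G = h ∧ rs R Φ σ' G = h'

private theorem gou_prf {z y : Matrix ι ι ℂ} {G : ℂ → ℚ} {π : ℂ → ℂ}
    (J : Jrt R Φ g z y G π) (σ σ' : E →+* ℂ) :
    ∃ (π₁ : Equiv.Perm (Om R Φ σ)) (π₂ : Equiv.Perm (Om R Φ σ')),
      PRf (gouN R Φ σ σ') (rs R Φ σ G) (rs R Φ σ' G) π₁ π₂ ∧
      (∀ μ, ((π₁ μ : Om R Φ σ) : ℂ) = π μ) ∧ ∀ μ, ((π₂ μ : Om R Φ σ') : ℂ) = π μ := by
  obtain ⟨π₁, hπ₁⟩ := J.equiv σ
  obtain ⟨π₂, hπ₂⟩ := J.equiv σ'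
  refine ⟨π₁, π₂, ⟨fun ω => ?_, fun ω => ?_, ?_⟩, hπ₁, hπ₂⟩
  · rw [rs_apply, rs_apply, hπ₁, J.neg σ ω ω.2]
  · rw [rs_apply, rs_apply, hπ₂, J.neg σ' ω ω.2]
  · rintro f ⟨x, hx, d, h1, h2, h3⟩
    obtain ⟨s, hs, -⟩ := J.root x hx
    have hr := J.refl x hx d h1 s hs
    have e1 : ∀ ω : Om R Φ σ, ((f.1 (π₁ ω) : ℚ) : ℂ) = f.1 ω - s * G ω := by
      intro ω
      rw [← h2, ← h2, hπ₁, hr σ ω ω.2]
    have e2 : ∀ ω : Om R Φ σ', ((f.2 (π₂ ω) : ℚ) : ℂ) = f.2 ω - s * G ω := by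
      intro ω
      rw [← h3, ← h3, hπ₂, hr σ' ω ω.2]
    have key : (∃ a : ℚ, (a : ℂ) = s) ∨ ((∀ ω : Om R Φ σ, G ω = 0) ∧
        ∀ ω : Om R Φ σ', G ω = 0) := by
      by_cases c1 : ∀ ω : Om R Φ σ, G ω = 0
      · by_cases c2 : ∀ ω : Om R Φ σ', G ω = 0
        · exact Or.inr ⟨c1, c2⟩
        · left
          push Not at c2
          obtain ⟨ω, hω⟩ := c2
          refine ⟨(f.2 ω - f.2 (π₂ ω)) / G ω, ?_⟩
          rw [Rat.cast_div, Rat.cast_sub, e2, div_eq_iff (by exact_mod_cast hω)]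
          ring
      · left
        push Not at c1
        obtain ⟨ω, hω⟩ := c1
        refine ⟨(f.1 ω - f.1 (π₁ ω)) / G ω, ?_⟩
        rw [Rat.cast_div, Rat.cast_sub, e1, div_eq_iff (by exact_mod_cast hω)]
        ring
    rcases key with ⟨a, ha⟩ | ⟨c1, c2⟩
    · refine ⟨a, fun ω => ?_, fun ω => ?_⟩
      · have h4 := e1 ω
        rw [← ha] at h4
        rw [rs_apply]
        exact_mod_cast h4
      · have h4 := e2 ω
        rw [← ha] at h4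
        rw [rs_apply]
        exact_mod_cast h4
    · refine ⟨0, fun ω => ?_, fun ω => ?_⟩
      · have h4 := e1 ω
        rw [c1 ω, Rat.cast_zero, mul_zero, sub_zero] at h4
        rw [zero_mul, sub_zero]
        exact_mod_cast h4
      · have h4 := e2 ω
        rw [c2 ω, Rat.cast_zero, mul_zero, sub_zero] at h4
        rw [zero_mul, sub_zero]
        exact_mod_cast h4

private theorem gou_pd [Algebra ℚ E] [Module.Finite ℚ E] [IsReduced E] (M : Mono R c Φ g ψ)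
    (H : IsFrob R Φ) (hI : Idem Φ) {Ad St : (Om R Φ σ → ℚ) → Prop}
    (K : KindAt R Φ g σ Ad St) {Ad' St' : (Om R Φ σ' → ℚ) → Prop}
    (K' : KindAt R Φ g σ' Ad' St') : PD (gouN R Φ σ σ') (gouJ R Φ g σ σ') where
  mem := by
    rintro _ _ ⟨z, y, G, π, J, rfl, rfl⟩
    exact ⟨_, J.cor, fun μ => (G μ : ℂ), J.val, fun _ => rfl, fun _ => rfl⟩
  refl := by
    rintro _ _ ⟨z, y, G, π, J, rfl, rfl⟩
    obtain ⟨π₁, π₂, h, -, -⟩ := gou_prf J σ σ'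
    exact ⟨π₁, π₂, h⟩
  tr := by
    intro A hA hst
    refine jrt_tr M H hI σ A hA ?_
    intro z y F π J μ hμ ν hν
    obtain ⟨π₁, π₂, h, h1, h2⟩ := gou_prf J σ σ'
    have h3 := hst _ _ π₁ π₂ ⟨z, y, F, π, J, rfl, rfl⟩ h μ hμ
    have h4 : ν = π₁ μ := Subtype.ext (by rw [hν, h1])
    rw [h4]
    exact h3
  tr' := by
    intro A hA hst
    refine jrt_tr M H hI σ' A hA ?_
    intro z y F π J μ hμ ν hν
    obtain ⟨π₁, π₂, h, h1, h2⟩ := gou_prf J σ σ'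
    have h3 := hst _ _ π₁ π₂ ⟨z, y, F, π, J, rfl, rfl⟩ h μ hμ
    have h4 : ν = π₂ μ := Subtype.ext (by rw [hν, h2])
    rw [h4]
    exact h3
  conn := by
    refine gou_conn K.knd ?_ ?_
    · intro h hh
      obtain ⟨z, y, G, π, J, rfl⟩ := K.lift h hh
      exact ⟨_, z, y, G, π, J, rfl, rfl⟩
    · rintro _ _ ⟨z, y, G, π, J, rfl, rfl⟩
      exact K.ad z y G π J
  conn' := by
    intro P h0 hst h h' hJ hh'
    refine gou_conn (J := fun h' h => gouJ R Φ g σ σ' h h') K'.knd ?_ ?_ (fun h' h => P h h')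
      ?_ ?_ h' h hJ hh'
    · intro h hh
      obtain ⟨z, y, G, π, J, rfl⟩ := K'.lift h hh
      exact ⟨_, z, y, G, π, J, rfl, rfl⟩
    · rintro _ _ ⟨z, y, G, π, J, rfl, rfl⟩
      exact K'.ad z y G π J
    · obtain ⟨h, h', h1, h2, h3⟩ := h0
      exact ⟨h', h, h1, h2, h3⟩
    · intro h' h k' k h1 h2 h3 h4
      exact hst h h' k k' h1 h2 h3 h4

private theorem gou_sub [Algebra ℚ E] [Module.Finite ℚ E] [IsReduced E] (M : Mono R c Φ g ψ)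
    (H : IsFrob R Φ) (hI : Idem Φ) {σ₁ σ₂ : E →+* ℂ} {β : ℂ} (h1 : β ∈ Om R Φ σ₁)
    (h2 : β ∈ Om R Φ σ₂) : Om R Φ σ₁ ⊆ Om R Φ σ₂ := by
  have h3 := jrt_tr M H hI σ₁ {μ | (μ : ℂ) ∈ Om R Φ σ₂} ⟨⟨β, h1⟩, h2⟩ (by
    intro z y F π J μ hμ ν hν
    rw [Set.mem_ofPred_eq] at hμ ⊢
    rw [hν]
    exact J.pm σ₂ μ hμ)
  intro μ hμ
  have h4 : (⟨μ, hμ⟩ : Om R Φ σ₁) ∈ {μ : Om R Φ σ₁ | (μ : ℂ) ∈ Om R Φ σ₂} := by
    rw [h3]
    exact Set.mem_univ _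
  exact h4

private theorem gou_eq [Algebra ℚ E] [Module.Finite ℚ E] [IsReduced E] (M : Mono R c Φ g ψ)
    (H : IsFrob R Φ) (hI : Idem Φ) {σ₁ σ₂ : E →+* ℂ} {β : ℂ} (h1 : β ∈ Om R Φ σ₁)
    (h2 : β ∈ Om R Φ σ₂) : σ₁ = σ₂ :=
  iso_of_om M H hI (Set.Subset.antisymm (gou_sub M H hI h1 h2) (gou_sub M H hI h2 h1))

/-- The idempotents of `Rk`. -/
private def gouS (R : E →+* Matrix ι ι ℚ) (Φ : Matrix ι ι ℚ) (r : (E →+* ℂ) → ℕ) :
    Set (Matrix ι ι ℂ) :=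
  {e : Matrix ι ι ℂ | e ∈ tor Φ ∧ e * e = e ∧ 2 * e.trace = Fintype.card ι ∧
    ∃ γ : ℂ ≃+* ℂ, ∀ σ, sm R Φ σ (ev Φ e) = r (cp γ σ)}

/-- The values at `β` and `a` agree up to the sign and the averages. -/
private def gouC (R : E →+* Matrix ι ι ℚ) (Φ : Matrix ι ι ℚ) (r : (E →+* ℂ) → ℕ)
    (σ σ' : E →+* ℂ) (β a : ℂ) : Prop :=
  (∀ e ∈ gouS R Φ r, ev Φ e β - sm R Φ σ' (ev Φ e) / Fintype.card (Om R Φ σ') =
    ev Φ e a - sm R Φ σ (ev Φ e) / Fintype.card (Om R Φ σ)) ∨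
  ∀ e ∈ gouS R Φ r, ev Φ e β - sm R Φ σ' (ev Φ e) / Fintype.card (Om R Φ σ') =
    -(ev Φ e a - sm R Φ σ (ev Φ e) / Fintype.card (Om R Φ σ))

/-- The ranks of `σ` and `σ'` agree up to exchanging `0` and the dimension. -/
private def gouT (R : E →+* Matrix ι ι ℚ) (Φ : Matrix ι ι ℚ) (r : (E →+* ℂ) → ℕ)
    (σ σ' : E →+* ℂ) : Prop :=
  (∀ e ∈ gouS R Φ r, sm R Φ σ' (ev Φ e) / Fintype.card (Om R Φ σ') =
      sm R Φ σ (ev Φ e) / Fintype.card (Om R Φ σ) ∨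
    (sm R Φ σ (ev Φ e) / Fintype.card (Om R Φ σ) = 0 ∧
      sm R Φ σ' (ev Φ e) / Fintype.card (Om R Φ σ') = 1) ∨
    (sm R Φ σ (ev Φ e) / Fintype.card (Om R Φ σ) = 1 ∧
      sm R Φ σ' (ev Φ e) / Fintype.card (Om R Φ σ') = 0)) →
  ∀ e ∈ gouS R Φ r, sm R Φ σ' (ev Φ e) / Fintype.card (Om R Φ σ') =
      sm R Φ σ (ev Φ e) / Fintype.card (Om R Φ σ)

private theorem gou_frac (F : ℂ → ℚ) (hF : ∀ μ, F μ = 0 ∨ F μ = 1) (τ : E →+* ℂ) :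
    0 ≤ sm R Φ τ F / Fintype.card (Om R Φ τ) ∧ sm R Φ τ F / Fintype.card (Om R Φ τ) ≤ 1 := by
  have h0 : 0 ≤ sm R Φ τ F := by
    refine Finset.sum_nonneg fun μ _ => ?_
    rcases hF μ with h | h <;> rw [rs_apply, h]
    exact zero_le_one
  have h1 : sm R Φ τ F ≤ Fintype.card (Om R Φ τ) := by
    have h2 : sm R Φ τ F ≤ ∑ _μ : Om R Φ τ, (1 : ℚ) := by
      refine Finset.sum_le_sum fun μ _ => ?_
      rcases hF μ with h | h <;> rw [rs_apply, h]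
      exact zero_le_one
    rwa [Finset.sum_const, Finset.card_univ, nsmul_eq_mul, mul_one] at h2
  have h3 : (0 : ℚ) ≤ Fintype.card (Om R Φ τ) := h0.trans h1
  exact ⟨div_nonneg h0 h3, div_le_one_of_le₀ h1 h3⟩

private theorem gou_plus [Algebra ℚ E] [Module.Finite ℚ E] [IsReduced E] (M : Mono R c Φ g ψ)
    (H : IsFrob R Φ) (hR : Rk R Φ r) (hT : gouT R Φ r σ σ')
    {β a : ℂ} (hβ : β ∈ Om R Φ σ') (ha : a ∈ Om R Φ σ)
    (hC : ∀ e ∈ gouS R Φ r, ev Φ e β - sm R Φ σ' (ev Φ e) / Fintype.card (Om R Φ σ') =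
      ev Φ e a - sm R Φ σ (ev Φ e) / Fintype.card (Om R Φ σ)) : σ' = σ := by
  have hI : Idem Φ := hR.tr.idem
  have key := hT (by
    intro e he
    have h4 := hC e he
    obtain ⟨h5, h6⟩ := gou_frac (R := R) (Φ := Φ) (ev Φ e) (ev_or Φ e) σ
    obtain ⟨h7, h8⟩ := gou_frac (R := R) (Φ := Φ) (ev Φ e) (ev_or Φ e) σ'
    rcases ev_or Φ e β with h9 | h9 <;> rcases ev_or Φ e a with h10 | h10 <;>
      rw [h9, h10] at h4
    · left; linarith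
    · right; right; constructor <;> linarith
    · right; left; constructor <;> linarith
    · left; linarith)
  have h3 : β = a := by
    refine sep_idem H hR.span (fun e he => ⟨he.1, he.2.1⟩) (hasEigenvalue_of_mem hβ)
      (hasEigenvalue_of_mem ha) fun e he => ?_
    have h4 := hC e he
    rw [key e he] at h4
    exact sub_left_inj.1 h4
  exact gou_eq M H hI hβ (h3 ▸ ha)

private theorem gou_end [Algebra ℚ E] [Module.Finite ℚ E] [IsReduced E] (M : Mono R c Φ g ψ)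
    (H : IsFrob R Φ) (hR : Rk R Φ r) (hT : gouT R Φ r σ σ')
    (hT' : gouT R Φ r (cp starRingAut σ) σ') (h0 : (Fintype.card (Om R Φ σ) : ℚ) ≠ 0)
    (h1 : σ' ≠ σ) (h2 : σ' ≠ cp starRingAut σ) {β a : ℂ} (hβ : β ∈ Om R Φ σ')
    (ha : a ∈ Om R Φ σ) (hC : gouC R Φ r σ σ' β a) : False := by
  rcases hC with hC | hC
  · exact h1 (gou_plus M H hR hT hβ ha hC)
  · have hac := mem_Om_cp (starRingAut : ℂ ≃+* ℂ) ha
    refine h2 (gou_plus M H hR hT' hβ hac fun e he => ?_)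
    have h11 : ev Φ e ((starRingAut : ℂ ≃+* ℂ) a) = 1 - ev Φ e a :=
      ev_conj H he.1 he.2.1 he.2.2.1 (hasEigenvalue_of_mem ha)
    have h12 := sm_dual H he.1 he.2.1 he.2.2.1 σ
    have h13 : sm R Φ (cp starRingAut σ) (ev Φ e) =
        Fintype.card (Om R Φ σ) - sm R Φ σ (ev Φ e) := by linarith
    rw [hC e he, h11, card_cp, h13, sub_div, div_self h0]
    ring

private theorem gou_mem {e : Matrix ι ι ℂ} (he : e ∈ tor Φ) (hee : e * e = e)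
    (σ σ' : E →+* ℂ) : ((rs R Φ σ (ev Φ e), rs R Φ σ' (ev Φ e)) :
      (Om R Φ σ → ℚ) × (Om R Φ σ' → ℚ)) ∈ gouN R Φ σ σ' :=
  ⟨e, he, fun μ => (ev Φ e μ : ℂ), fun _ _ hv => ev_apply he hee hv, fun _ => rfl, fun _ => rfl⟩

private theorem gou_of_pcon {β : Om R Φ σ'} {a : Om R Φ σ}
    (h : PCon (gouN R Φ σ σ') β a) : gouC R Φ r σ σ' β a := by
  rcases h with h | h
  · exact Or.inl fun e he => h _ (gou_mem he.1 he.2.1 σ σ')
  · exact Or.inr fun e he => h _ (gou_mem he.1 he.2.1 σ σ')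

private theorem gou_half (H : IsFrob R Φ) (hr : ∀ a, starRingEnd ℂ (σ a) = σ a)
    {e : Matrix ι ι ℂ} (he : e ∈ tor Φ) (hee : e * e = e)
    (htr : 2 * e.trace = Fintype.card ι) :
    2 * sm R Φ σ (ev Φ e) = Fintype.card (Om R Φ σ) := by
  have h1 := sm_dual H he hee htr σ
  have h2 : cp starRingAut σ = σ := RingHom.ext fun a => hr a
  rw [h2] at h1
  rw [two_mul, h1]

/-- If the ranks of `σ` and `σ'` agree up to exchanging `0` and the dimension, they agree. -/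
def NoTw (R : E →+* Matrix ι ι ℚ) (Φ : Matrix ι ι ℚ) (r : (E →+* ℂ) → ℕ)
    (σ σ' : E →+* ℂ) : Prop :=
  Fintype.card (Om R Φ σ') = Fintype.card (Om R Φ σ) →
  (∀ γ : ℂ ≃+* ℂ, r (cp γ σ') = r (cp γ σ) ∨
    (r (cp γ σ) = 0 ∧ r (cp γ σ') = Fintype.card (Om R Φ σ)) ∨
    (r (cp γ σ) = Fintype.card (Om R Φ σ) ∧ r (cp γ σ') = 0)) →
  ∀ γ : ℂ ≃+* ℂ, r (cp γ σ') = r (cp γ σ)

private theorem gou_tw (hR : Rk R Φ r) (h : NoTw R Φ r σ σ')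
    (hc : Fintype.card (Om R Φ σ') = Fintype.card (Om R Φ σ))
    (h0 : (Fintype.card (Om R Φ σ) : ℚ) ≠ 0) : gouT R Φ r σ σ' := by
  intro h1
  have h2 := h hc (by
    intro γ
    obtain ⟨e, he, hee, htr, hs⟩ := hR.ex γ
    have h3 := h1 e ⟨he, hee, htr, γ, hs⟩
    rw [hs, hs, hc] at h3
    rcases h3 with h3 | ⟨h3, h4⟩ | ⟨h3, h4⟩
    · left
      rw [div_left_inj' h0] at h3
      exact_mod_cast h3
    · right; left
      rw [div_eq_iff h0, zero_mul] at h3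
      rw [div_eq_iff h0, one_mul] at h4
      exact ⟨by exact_mod_cast h3, by exact_mod_cast h4⟩
    · right; right
      rw [div_eq_iff h0, one_mul] at h3
      rw [div_eq_iff h0, zero_mul] at h4
      exact ⟨by exact_mod_cast h3, by exact_mod_cast h4⟩)
  rintro e ⟨-, -, -, γ, hγ⟩
  rw [hγ, hγ, h2 γ, hc]

private theorem gou_rl (H : IsFrob R Φ) (hr : ∀ a, starRingEnd ℂ (σ' a) = σ' a)
    (h0 : (Fintype.card (Om R Φ σ') : ℚ) ≠ 0) (τ : E →+* ℂ) : gouT R Φ r τ σ' := by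
  intro h1 e he
  have h2 : sm R Φ σ' (ev Φ e) / Fintype.card (Om R Φ σ') = 1 / 2 := by
    rw [div_eq_iff h0, ← gou_half H hr he.1 he.2.1 he.2.2.1]
    ring
  rcases h1 e he with h3 | ⟨-, h3⟩ | ⟨-, h3⟩
  · exact h3
  · rw [h2] at h3
    norm_num at h3
  · rw [h2] at h3
    norm_num at h3

private theorem gou_ne {τ : E →+* ℂ} {β : ℂ} (hβ : β ∈ Om R Φ τ) :
    (Fintype.card (Om R Φ τ) : ℚ) ≠ 0 := by
  have h1 : 0 < Fintype.card (Om R Φ τ) := Fintype.card_pos_iff.2 ⟨⟨β, hβ⟩⟩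
  exact_mod_cast h1.ne'

/-- The exceptional isomorphism of the types `A₃` and `D₃` does not occur. -/
def NoEx (R : E →+* Matrix ι ι ℚ) (Φ : Matrix ι ι ℚ) (r : (E →+* ℂ) → ℕ)
    (sp : (E →+* ℂ) → Prop) (σ σ' : E →+* ℂ) : Prop :=
  (∃ a, starRingEnd ℂ (σ a) ≠ σ a) → (∀ a, starRingEnd ℂ (σ' a) = σ' a) → ¬ sp σ' →
    Fintype.card (Om R Φ σ) = 4 → Fintype.card (Om R Φ σ') = 6 →
    ∃ σ'' : E →+* ℂ, SK σ σ'' ∧ r σ'' ≠ 1 ∧ r σ'' ≠ 3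

private theorem gou_nn [Algebra ℚ E] [Module.Finite ℚ E] [IsReduced E] (M : Mono R c Φ g ψ)
    (H : IsFrob R Φ) (hR : Rk R Φ r)
    (K : KindAt R Φ g σ (fun f => ∑ a, f a = 0) StSl)
    (K' : KindAt R Φ g σ' (fun f => ∑ a, f a = 0) StSl)
    (hT : NoTw R Φ r σ σ') (hT' : NoTw R Φ r (cp starRingAut σ) σ')
    (h1 : σ' ≠ σ) (h2 : σ' ≠ cp starRingAut σ)
    (hb : ∃ h h', gouJ R Φ g σ σ' h h' ∧ h ≠ 0 ∧ h' ≠ 0) {β : ℂ} (hβ : β ∈ Om R Φ σ') :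
    False := by
  have D : PD (gouN R Φ σ σ') (gouJ R Φ g σ σ') := gou_pd M H hR.tr.idem K K'
  obtain ⟨hcd, a, ha⟩ := pd_nn D hb (by
    rintro _ _ ⟨z, y, G, π, J, rfl, rfl⟩
    exact ⟨J.sum σ, J.sum σ'⟩) (by
    rintro _ _ ⟨z, y, G, π, J, rfl, rfl⟩
    exact ⟨fun ω => J.v01 σ ω ω.2, fun ω => J.v01 σ' ω ω.2⟩) (by
    intro h hh
    obtain ⟨z, y, G, π, J, rfl⟩ := K.lift h hh
    exact ⟨_, z, y, G, π, J, rfl, rfl⟩) (by
    intro h hh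
    obtain ⟨z, y, G, π, J, rfl⟩ := K'.lift h hh
    exact ⟨_, z, y, G, π, J, rfl, rfl⟩) ⟨β, hβ⟩
  have h0 := gou_ne a.2
  exact gou_end M H hR (gou_tw hR hT hcd.symm h0)
    (gou_tw hR hT' (by rw [card_cp]; exact hcd.symm) (by rw [card_cp]; exact h0)) h0 h1 h2 hβ a.2
    (gou_of_pcon ha)

private theorem gou_nr [Algebra ℚ E] [Module.Finite ℚ E] [IsReduced E] (M : Mono R c Φ g ψ)
    (H : IsFrob R Φ) (hR : Rk R Φ r) (hn : ∃ a, starRingEnd ℂ (σ a) ≠ σ a)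
    (K : KindAt R Φ g σ (fun f => ∑ a, f a = 0) StSl)
    (hr : ∀ a, starRingEnd ℂ (σ' a) = σ' a) {bar : Om R Φ σ' → Om R Φ σ'}
    (hbar : ∀ μ, bar (bar μ) = μ) (hfix : ∀ μ, bar μ ≠ μ)
    (K' : KindAt R Φ g σ' (fun f => ∀ a, f (bar a) = -f a) (StSp bar) ∨
      (¬ sp σ' ∧ KindAt R Φ g σ' (fun f => ∀ a, f (bar a) = -f a) (StSo bar) ∧
        6 ≤ Fintype.card (Om R Φ σ') ∧ Fintype.card (Om R Φ σ') ≠ 8))
    (hx : NoEx R Φ r sp σ σ') (h1 : σ' ≠ σ) (h2 : σ' ≠ cp starRingAut σ)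
    (hb : ∃ h h', gouJ R Φ g σ σ' h h' ∧ h ≠ 0 ∧ h' ≠ 0) {β : ℂ} (hβ : β ∈ Om R Φ σ') :
    False := by
  have D : PD (gouN R Φ σ σ') (gouJ R Φ g σ σ') := by
    rcases K' with K' | ⟨-, K', -⟩
    · exact gou_pd M H hR.tr.idem K K'
    · exact gou_pd M H hR.tr.idem K K'
  rcases pd_nr D hb (by
    rintro _ _ ⟨z, y, G, π, J, rfl, rfl⟩
    exact J.sum σ) (by
    rintro _ _ ⟨z, y, G, π, J, rfl, rfl⟩
    exact ⟨fun ω => J.v01 σ ω ω.2, fun ω => J.v01 σ' ω ω.2⟩) hbar hfix (by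
    rintro _ _ ⟨z, y, G, π, J, rfl, rfl⟩
    rcases K' with K' | ⟨-, K', -⟩
    · exact K'.ad z y G π J
    · exact K'.ad z y G π J) (by
    intro h hh
    obtain ⟨z, y, G, π, J, rfl⟩ := K.lift h hh
    exact ⟨_, z, y, G, π, J, rfl, rfl⟩) (by
    rcases K' with K' | ⟨-, K', h3, h4⟩
    · left
      intro h hh
      obtain ⟨z, y, G, π, J, rfl⟩ := K'.lift h hh
      exact ⟨_, z, y, G, π, J, rfl, rfl⟩
    · right
      refine ⟨fun h hh => ?_, h3, h4⟩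
      obtain ⟨z, y, G, π, J, rfl⟩ := K'.lift h hh
      exact ⟨_, z, y, G, π, J, rfl, rfl⟩) ⟨β, hβ⟩ with ⟨a, ha⟩ | ⟨hnsp, h4, h6, A, hA⟩
  · exact gou_end M H hR (gou_rl H hr (gou_ne hβ) σ) (gou_rl H hr (gou_ne hβ) _) (gou_ne a.2)
      h1 h2 hβ a.2 (gou_of_pcon ha)
  · have hsp' : ¬ sp σ' := by
      rcases K' with K' | ⟨h3, -⟩
      · refine absurd (fun h hh => ?_) hnsp
        obtain ⟨z, y, G, π, J, rfl⟩ := K'.lift h hh
        exact ⟨_, z, y, G, π, J, rfl, rfl⟩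
      · exact h3
    obtain ⟨σ'', hsk, hr1, hr3⟩ := hx hn hr hsp' h4 h6
    obtain ⟨γ, rfl⟩ := hsk.exists_cp
    obtain ⟨e, he, hee, htr, hs⟩ := hR.ex γ
    have h3 := hA _ (gou_mem he hee σ σ')
    have hr4 : r (cp γ σ) ≤ 4 := by
      have h5 := (gou_frac (R := R) (Φ := Φ) (ev Φ e) (ev_or Φ e) σ).2
      rw [h4, hs, div_le_one (by norm_num)] at h5
      exact_mod_cast h5
    obtain ⟨m, hm⟩ : ∃ m : ℤ, (r (cp γ σ) : ℤ) = 2 * m := by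
      have h5 : r (cp γ σ) = 0 ∨ r (cp γ σ) = 2 ∨ r (cp γ σ) = 4 := by omega
      rcases h5 with h5 | h5 | h5
      · exact ⟨0, by rw [h5]; rfl⟩
      · exact ⟨1, by rw [h5]; rfl⟩
      · exact ⟨2, by rw [h5]; rfl⟩
    have e1 : ∑ ω, rs R Φ σ (ev Φ e) ω = 2 * m := by
      have h5 := hs σ
      have h6 : ((r (cp γ σ) : ℤ) : ℚ) = 2 * m := by rw [hm]; push_cast; ring
      rw [Int.cast_natCast] at h6
      rw [← h6]
      exact h5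
    have e2 : ∑ ω, rs R Φ σ' (ev Φ e) ω = 3 := by
      have h5 := gou_half H hr he hee htr
      rw [h6] at h5
      have h7 : 2 * ∑ ω, rs R Φ σ' (ev Φ e) ω = 6 := by exact_mod_cast h5
      linarith
    have e3 : ∃ k : ℤ, ∑ ω ∈ A, rs R Φ σ (ev Φ e) ω = k := by
      have h5 : ∀ ω : Om R Φ σ, ∃ k : ℤ, rs R Φ σ (ev Φ e) ω = k := by
        intro ω
        rcases ev_or Φ e ω with h7 | h7
        · exact ⟨0, by rw [rs_apply, h7, Int.cast_zero]⟩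
        · exact ⟨1, by rw [rs_apply, h7, Int.cast_one]⟩
      choose k hk using h5
      refine ⟨∑ ω ∈ A, k ω, ?_⟩
      rw [Int.cast_sum]
      exact Finset.sum_congr rfl fun ω _ => hk ω
    obtain ⟨k, hk⟩ := e3
    simp only at h3
    rw [e1, e2, hk, h6, rs_apply] at h3
    have h7 : ∃ l : ℤ, ev Φ e β = l := by
      rcases ev_or Φ e β with h7 | h7
      · exact ⟨0, by rw [h7, Int.cast_zero]⟩
      · exact ⟨1, by rw [h7, Int.cast_one]⟩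
    obtain ⟨l, hl⟩ := h7
    rw [hl] at h3
    have h8 : (2 * l - 1 : ℤ) = 2 * (k - m) := by
      have h9 : ((2 * l - 1 : ℤ) : ℚ) = ((2 * (k - m) : ℤ) : ℚ) := by
        push_cast at h3 ⊢
        linarith
      exact_mod_cast h9
    omega

private theorem gou_rr [Algebra ℚ E] [Module.Finite ℚ E] [IsReduced E] (M : Mono R c Φ g ψ)
    (H : IsFrob R Φ) (hR : Rk R Φ r) (hr : ∀ a, starRingEnd ℂ (σ a) = σ a)
    (hr' : ∀ a, starRingEnd ℂ (σ' a) = σ' a) {Ad St : (Om R Φ σ → ℚ) → Prop}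
    (K : KindAt R Φ g σ Ad St) {Ad' St' : (Om R Φ σ' → ℚ) → Prop}
    (K' : KindAt R Φ g σ' Ad' St')
    (h1 : σ' ≠ σ) (h2 : σ' ≠ cp starRingAut σ)
    (hb : ∃ h h', gouJ R Φ g σ σ' h h' ∧ h ≠ 0 ∧ h' ≠ 0) {β : ℂ} (hβ : β ∈ Om R Φ σ') :
    False := by
  have D : PD (gouN R Φ σ σ') (gouJ R Φ g σ σ') := gou_pd M H hR.tr.idem K K'
  have hone : ((fun _ => 1, fun _ => 1) : (Om R Φ σ → ℚ) × (Om R Φ σ' → ℚ)) ∈
      gouN R Φ σ σ' :=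
    ⟨1, one_mem_tor M, fun _ => 1, fun μ v _ => by rw [Matrix.one_mulVec, one_smul],
      fun _ => by rw [Rat.cast_one], fun _ => by rw [Rat.cast_one]⟩
  have hc0 : (Fintype.card (Om R Φ σ) : ℚ) ≠ 0 := by
    obtain ⟨h, h', -, hn, -⟩ := hb
    obtain ⟨ω, -⟩ := Function.ne_iff.1 hn
    exact gou_ne ω.2
  have hc0' : (Fintype.card (Om R Φ σ') : ℚ) ≠ 0 := gou_ne hβ
  have hh : ∀ e ∈ gouS R Φ r, sm R Φ σ (ev Φ e) / Fintype.card (Om R Φ σ) = 1 / 2 := by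
    intro e he
    rw [div_eq_iff hc0, ← gou_half H hr he.1 he.2.1 he.2.2.1]
    ring
  have hh' : ∀ e ∈ gouS R Φ r, sm R Φ σ' (ev Φ e) / Fintype.card (Om R Φ σ') = 1 / 2 := by
    intro e he
    rw [div_eq_iff hc0', ← gou_half H hr' he.1 he.2.1 he.2.2.1]
    ring
  have hStJ : {h | St h} ⊆ {h | ∃ h', gouJ R Φ g σ σ' h h'} := by
    intro h hh
    obtain ⟨z, y, G, π, J, rfl⟩ := K.lift h hh
    exact ⟨_, z, y, G, π, J, rfl, rfl⟩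
  have hUeq : Submodule.span ℚ {h | ∃ h', gouJ R Φ g σ σ' h h'} =
      Submodule.span ℚ {h | St h} := by
    refine le_antisymm (Submodule.span_le.2 ?_) (Submodule.span_mono hStJ)
    rintro _ ⟨_, z, y, G, π, J, rfl, rfl⟩
    exact K.knd.span _ (K.ad z y G π J)
  have hSU : ∀ e ∈ gouS R Φ r, (fun ω => rs R Φ σ (ev Φ e) ω - 1 / 2) ∈
      Submodule.span ℚ {h | ∃ h', gouJ R Φ g σ σ' h h'} := by
    intro e he
    rw [hUeq]
    have h3 := K.knd.span _ (K.idem e he.1 he.2.1 he.2.2.1)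
    rwa [hh e he] at h3
  obtain ⟨e₀, he₀, hee₀, htr₀, hs₀⟩ := hR.ex 1
  have hS₀ : e₀ ∈ gouS R Φ r := ⟨he₀, hee₀, htr₀, 1, hs₀⟩
  obtain ⟨w, hwU, hw1, hw2, hw3⟩ := D.weights hb hone (gou_mem he₀ hee₀ σ σ')
    (fun ω => ev_or Φ e₀ ω) (fun ω => ev_or Φ e₀ ω) (gou_half H hr he₀ hee₀ htr₀)
    (gou_half H hr' he₀ hee₀ htr₀) (hSU e₀ hS₀) ⟨β, hβ⟩
  rw [hUeq] at hwU hw1
  obtain ⟨a, ha⟩ := K.knd.fin w hwU (by
    intro h hh
    obtain ⟨z, y, G, π, J, rfl⟩ := K.lift h hh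
    rw [← hw2 _ _ ⟨z, y, G, π, J, rfl, rfl⟩, rs_apply]
    exact J.v01 σ' β hβ) hw1
  have hw4 : ∀ e ∈ gouS R Φ r, ev Φ e β - 1 / 2 = w ⬝ᵥ fun ω => rs R Φ σ (ev Φ e) ω - 1 / 2 := by
    intro e he
    refine hw3 _ (gou_mem he.1 he.2.1 σ σ') 1 ?_ ?_ (hSU e he)
    · rw [one_mul]
      exact gou_half H hr he.1 he.2.1 he.2.2.1
    · rw [one_mul]
      exact gou_half H hr' he.1 he.2.1 he.2.2.1
  refine gou_end M H hR (gou_rl H hr' hc0' σ) (gou_rl H hr' hc0' _) hc0 h1 h2 hβ a.2 ?_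
  rcases ha with ha | ha
  · left
    intro e he
    have h4 := hSU e he
    rw [hUeq] at h4
    rw [hh e he, hh' e he, hw4 e he, ha _ h4, rs_apply]
  · right
    intro e he
    have h4 := hSU e he
    rw [hUeq] at h4
    rw [hh e he, hh' e he, hw4 e he, ha _ h4, rs_apply]

/-- **A root vector acts on one eigenspace and its conjugate only.** -/
theorem goursat [Algebra ℚ E] [Module.Finite ℚ E] [IsReduced E] (M : Mono R c Φ g ψ)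
    (H : IsFrob R Φ) (hR : Rk R Φ r) (K : Kd R Φ g sp σ) (K' : Kd R Φ g sp σ')
    (hT : NoTw R Φ r σ σ') (hT' : NoTw R Φ r (cp starRingAut σ) σ')
    (hx : NoEx R Φ r sp σ σ') (hx' : NoEx R Φ r sp σ' σ)
    (h1 : σ' ≠ σ) (h2 : σ' ≠ cp starRingAut σ)
    {z y : Matrix ι ι ℂ} {G : ℂ → ℚ} {π : ℂ → ℂ} (J : Jrt R Φ g z y G π)
    (hσ : ∃ μ ∈ Om R Φ σ, G μ ≠ 0) : ∀ μ ∈ Om R Φ σ', G μ = 0 := by
  intro β hβ
  by_contra hGβ
  obtain ⟨μ₀, hμ₀, hGμ⟩ := hσ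
  have hb : ∃ h h', gouJ R Φ g σ σ' h h' ∧ h ≠ 0 ∧ h' ≠ 0 :=
    ⟨_, _, ⟨z, y, G, π, J, rfl, rfl⟩, fun h0 => hGμ (congrFun h0 ⟨μ₀, hμ₀⟩),
      fun h0 => hGβ (congrFun h0 ⟨β, hβ⟩)⟩
  have hb' : ∃ h h', gouJ R Φ g σ' σ h h' ∧ h ≠ 0 ∧ h' ≠ 0 :=
    ⟨_, _, ⟨z, y, G, π, J, rfl, rfl⟩, fun h0 => hGβ (congrFun h0 ⟨β, hβ⟩),
      fun h0 => hGμ (congrFun h0 ⟨μ₀, hμ₀⟩)⟩
  have h2' : σ ≠ cp starRingAut σ' := by
    intro h3
    apply h2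
    rw [h3]
    refine RingHom.ext fun a => ?_
    exact (star_star (σ' a)).symm
  rcases K with ⟨hn, K⟩ | ⟨hr, bar, -, hbar, hfix, K⟩
  · rcases K' with ⟨hn', K'⟩ | ⟨hr', bar', -, hbar', hfix', K'⟩
    · exact gou_nn M H hR K K' hT hT' h1 h2 hb hβ
    · exact gou_nr M H hR hn K hr' hbar' hfix' K' hx h1 h2 hb hβ
  · rcases K' with ⟨hn', K'⟩ | ⟨hr', bar', -, hbar', hfix', K'⟩
    · exact gou_nr M H hR hn' K' hr hbar hfix K hx' h1.symm h2' hb' hμ₀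
    · rcases K with K | ⟨-, K, -⟩ <;> rcases K' with K' | ⟨-, K', -⟩
      · exact gou_rr M H hR hr hr' K K' h1 h2 hb hβ
      · exact gou_rr M H hR hr hr' K K' h1 h2 hb hβ
      · exact gou_rr M H hR hr hr' K K' h1 h2 hb hβ
      · exact gou_rr M H hR hr hr' K K' h1 h2 hb hβ

end Pool.Agent.FQV
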