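import Pool.Agent.FQV.Irrs

/-!
# The eigenvalues of `Φ` on an irreducible subspace of an isotypic space (PACKAGE FT3)

Proof. Suppose that no nonzero `w ∈ W` satisfies `Φ w = μ w`. `W` is stable under `Φ` (`frob_mem`), so
`Φ - μ` is injective on `W`, so `(Φ - μ) W = W` (finite dimension). Let `U` be the span of the vectors
`Z.mulVec w`, where `w ∈ W` and `Z` is a matrix which commutes with `g` and preserves `HS R σ`.
`U ≤ HS R σ`; `U` contains `W` (`Z = 1`), so it is not zero; it is stable under `g` (`x Z w = Z x w`)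
and under all matrices which commute with `g` and preserve `HS R σ` (products of such matrices are
such matrices). So `U = HS R σ` by `M.iso σ`. Every `Z` as above commutes with `Φ` (`comm_frob`, as
`tor Φ ≤ g`). So for `w ∈ W`, `w = (Φ - μ) w'` with `w' ∈ W`: `Z w = (Φ - μ) Z w'`. So `(Φ - μ)` maps `U`
onto `U` (the image contains the generators; and `U` is stable under `Φ - μ` because
`Φ Z w = Z Φ w`), so it is injective on `U = HS R σ` (finite dimension,
`LinearMap.injective_iff_surjective`), but `hμ` gives a nonzero vector of `HS R σ` in the kernel,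
a contradiction. -/

set_option autoImplicit false
set_option linter.unusedSectionVars false

namespace Pool.Agent.FQV

open Module
open Pool.Agent.CoprimeSig (ratM endo mem_endo)

variable {ι : Type} [Fintype ι] [DecidableEq ι] {E : Type} [CommRing E]
  {R : E →+* Matrix ι ι ℚ} {Φ : Matrix ι ι ℚ} {σ : E →+* ℂ} {c : E → E}
  {g : Submodule ℂ (Matrix ι ι ℂ)} {ψ : Matrix ι ι ℂ} {W U : Submodule ℂ (ι → ℂ)}

theorem exists_eig (M : Mono R c Φ g ψ) (H : IsFrob R Φ) (hW : Irr g W) (hσ : W ≤ HS R σ) {μ : ℂ}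
    (hμ : μ ∈ Om R Φ σ) : ∃ w ∈ W, w ≠ 0 ∧ (ratM Φ).mulVec w = μ • w := by
  by_contra hno
  push Not at hno
  set T : (ι → ℂ) →ₗ[ℂ] (ι → ℂ) := Matrix.toLin' (ratM Φ) - μ • LinearMap.id with hT
  have hTa : ∀ v, T v = (ratM Φ).mulVec v - μ • v := by
    intro v
    rw [hT, LinearMap.sub_apply, Matrix.toLin'_apply, LinearMap.smul_apply, LinearMap.id_apply]
  have hTW : ∀ w ∈ W, T w ∈ W := by
    intro w hw
    rw [hTa]
    exact W.sub_mem (frob_mem M H hW.1 w hw) (W.smul_mem μ hw)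
  have hTWs : ∀ w ∈ W, ∃ w' ∈ W, T w' = w := by
    have h1 : Function.Injective (T.restrict hTW) := by
      rw [← LinearMap.ker_eq_bot, LinearMap.ker_eq_bot']
      intro w h2
      by_contra h3
      have h4 : T w = 0 := congrArg Subtype.val h2
      rw [hTa, sub_eq_zero] at h4
      exact hno w w.2 (fun h5 => h3 (Subtype.ext h5)) h4
    have h2 := LinearMap.injective_iff_surjective.1 h1
    intro w hw
    obtain ⟨w', hw'⟩ := h2 ⟨w, hw⟩
    exact ⟨w', w'.2, congrArg Subtype.val hw'⟩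
  set S : Set (ι → ℂ) := {v | ∃ Z : Matrix ι ι ℂ, ((∀ x ∈ g, x * Z = Z * x) ∧
    ∀ w ∈ HS R σ, Z.mulVec w ∈ HS R σ) ∧ ∃ w ∈ W, v = Z.mulVec w} with hS
  have hWU : W ≤ Submodule.span ℂ S := by
    intro w hw
    exact Submodule.subset_span ⟨1, ⟨fun x _ => by rw [mul_one, one_mul],
      fun w hw => by rwa [Matrix.one_mulVec]⟩, w, hw, (Matrix.one_mulVec w).symm⟩
  have hU1 : Submodule.span ℂ S ≤ HS R σ := by
    refine Submodule.span_le.2 ?_
    rintro _ ⟨Z, hZ, w, hw, rfl⟩
    exact hZ.2 w (hσ hw)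
  have hU2 : ∀ x ∈ g, ∀ u ∈ Submodule.span ℂ S, x.mulVec u ∈ Submodule.span ℂ S := by
    intro x hx u hu
    induction hu using Submodule.span_induction with
    | mem v hv =>
      obtain ⟨Z, hZ, w, hw, rfl⟩ := hv
      rw [Matrix.mulVec_mulVec, hZ.1 x hx, ← Matrix.mulVec_mulVec]
      exact Submodule.subset_span ⟨Z, hZ, _, hW.1 x hx w hw, rfl⟩
    | zero => rw [Matrix.mulVec_zero]; exact Submodule.zero_mem _
    | add u v _ _ h1 h2 => rw [Matrix.mulVec_add]; exact Submodule.add_mem _ h1 h2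
    | smul c u _ h1 => rw [Matrix.mulVec_smul]; exact Submodule.smul_mem _ c h1
  have hU3 : ∀ Z : Matrix ι ι ℂ, (∀ x ∈ g, x * Z = Z * x) →
      (∀ w ∈ HS R σ, Z.mulVec w ∈ HS R σ) →
      ∀ u ∈ Submodule.span ℂ S, Z.mulVec u ∈ Submodule.span ℂ S := by
    intro Y hY1 hY2 u hu
    induction hu using Submodule.span_induction with
    | mem v hv =>
      obtain ⟨Z, hZ, w, hw, rfl⟩ := hv
      rw [Matrix.mulVec_mulVec]
      refine Submodule.subset_span ⟨Y * Z, ⟨fun x hx => ?_, fun w hw => ?_⟩, w, hw, rfl⟩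
      · rw [← Matrix.mul_assoc, hY1 x hx, Matrix.mul_assoc, hZ.1 x hx, Matrix.mul_assoc]
      · rw [← Matrix.mulVec_mulVec]
        exact hY2 _ (hZ.2 w hw)
    | zero => rw [Matrix.mulVec_zero]; exact Submodule.zero_mem _
    | add u v _ _ h1 h2 => rw [Matrix.mulVec_add]; exact Submodule.add_mem _ h1 h2
    | smul c u _ h1 => rw [Matrix.mulVec_smul]; exact Submodule.smul_mem _ c h1
  have hU4 : Submodule.span ℂ S = HS R σ := by
    rcases M.iso σ _ hU1 hU2 hU3 with h1 | h1
    · exact absurd (le_bot_iff.1 (h1 ▸ hWU)) hW.2.1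
    · exact h1
  have hZT : ∀ Z : Matrix ι ι ℂ, (∀ x ∈ g, x * Z = Z * x) → ∀ w,
      T (Z.mulVec w) = Z.mulVec (T w) := by
    intro Z hZ w
    have h1 := comm_frob H (Z := Z) fun x hx => hZ x (M.le hx)
    rw [hTa, hTa, Matrix.mulVec_mulVec, h1, Matrix.mulVec_sub, Matrix.mulVec_mulVec,
      Matrix.mulVec_smul]
  have hTU : ∀ u ∈ Submodule.span ℂ S, T u ∈ Submodule.span ℂ S := by
    intro u hu
    induction hu using Submodule.span_induction with
    | mem v hv =>
      obtain ⟨Z, hZ, w, hw, rfl⟩ := hv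
      rw [hZT Z hZ.1]
      exact Submodule.subset_span ⟨Z, hZ, _, hTW w hw, rfl⟩
    | zero => rw [map_zero]; exact Submodule.zero_mem _
    | add u v _ _ h1 h2 => rw [map_add]; exact Submodule.add_mem _ h1 h2
    | smul c u _ h1 => rw [map_smul]; exact Submodule.smul_mem _ c h1
  have hTUs : ∀ u ∈ Submodule.span ℂ S, ∃ u' ∈ Submodule.span ℂ S, T u' = u := by
    intro u hu
    induction hu using Submodule.span_induction with
    | mem v hv =>
      obtain ⟨Z, hZ, w, hw, rfl⟩ := hv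
      obtain ⟨w', hw', hww⟩ := hTWs w hw
      exact ⟨Z.mulVec w', Submodule.subset_span ⟨Z, hZ, w', hw', rfl⟩, by rw [hZT Z hZ.1, hww]⟩
    | zero => exact ⟨0, Submodule.zero_mem _, map_zero _⟩
    | add u v _ _ h1 h2 =>
      obtain ⟨u', hu', h3⟩ := h1
      obtain ⟨v', hv', h4⟩ := h2
      exact ⟨u' + v', Submodule.add_mem _ hu' hv', by rw [map_add, h3, h4]⟩
    | smul c u _ h1 =>
      obtain ⟨u', hu', h3⟩ := h1
      exact ⟨c • u', Submodule.smul_mem _ c hu', by rw [map_smul, h3]⟩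
  have hsur : Function.Surjective (T.restrict hTU) := by
    rintro ⟨u, hu⟩
    obtain ⟨u', hu', h1⟩ := hTUs u hu
    exact ⟨⟨u', hu'⟩, Subtype.ext h1⟩
  have hinj := LinearMap.injective_iff_surjective.2 hsur
  obtain ⟨w, hw, hw0, hw1⟩ := hμ
  rw [← hU4] at hw
  apply hw0
  have h1 : T.restrict hTU ⟨w, hw⟩ = T.restrict hTU 0 := by
    rw [map_zero]
    apply Subtype.ext
    change T w = 0
    rw [hTa, hw1, sub_self]
  exact congrArg Subtype.val (hinj h1)

end Pool.Agent.FQV
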