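import Pool.Agent.FQV.Kinds

/-!
# The system of type D (PACKAGE FU12, Mathlib only)

Proof of `knd_so` (`n ≥ 6`, `n ≠ 8`). Write `ee a = δ_a - δ_(bar a)` and
`h a b = ee a + ee b`. `span`: `ee a = (h a b + h a (bar b)) / 2` for any `b ≠ a, bar a`. `conn`:
`h a b ⬝ h a c = 2` if `b, c ∉ {a, bar a}`, `c ∉ {b, bar b}`, and `= 4` if `c = b`; from `h a b`
one comes to `h c d` by such steps (change one index at a time; to come from `h a b` to
`h a (bar b)` use a third pair, which exists because `n ≥ 6`). `fin`: `w (bar a) = -w a` (`w` is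
in the span); `u = ee a / 2` is in the span and represents the evaluation at `a`, so
`w ⬝ w = u ⬝ u = 1 / 2`. Let `z a = 2 w a`; `z a + z b = w ⬝ h a b` and `z a - z b` are in
`{0, 1, -1}` for `b ≠ a, bar a`, so all `z a` are in `{0, 1 / 2, -1 / 2, 1, -1}`. If `z a = ± 1`
then `z b = 0` for `b ≠ a, bar a` and `w = ± ee a / 2`. Otherwise some `z a = ± 1 / 2`, then all
`z b = ± 1 / 2` and `1 / 2 = w ⬝ w = n / 16`, `n = 8`, a contradiction.
-/

set_option autoImplicit false
set_option linter.unusedSectionVars false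

namespace Pool.Agent.FQV

variable {Ω : Type*} [Fintype Ω] [DecidableEq Ω]

/-- The vector with two entries. -/
private def ee (bar : Ω → Ω) (a : Ω) : Ω → ℚ := Pi.single a 1 - Pi.single (bar a) 1

private theorem ee_bar {bar : Ω → Ω} (hbar : ∀ a, bar (bar a) = a) (a : Ω) :
    ee bar (bar a) = -ee bar a := by
  unfold ee
  rw [hbar a, neg_sub]

private theorem stSo_iff {bar : Ω → Ω} {h : Ω → ℚ} :
    StSo bar h ↔ ∃ a b : Ω, b ≠ a ∧ b ≠ bar a ∧ h = ee bar a + ee bar b := by
  unfold StSo ee
  refine exists_congr fun a => exists_congr fun b => and_congr_right fun _ =>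
    and_congr_right fun _ => ?_
  rw [show (Pi.single a 1 - Pi.single (bar a) 1 + (Pi.single b 1 - Pi.single (bar b) 1) :
    Ω → ℚ) = Pi.single a 1 + Pi.single b 1 - Pi.single (bar a) 1 - Pi.single (bar b) 1 by ring]

private theorem dot_ee {bar : Ω → Ω} {w : Ω → ℚ} (hw : ∀ a, w (bar a) = -w a) (a : Ω) :
    w ⬝ᵥ ee bar a = 2 * w a := by
  unfold ee
  rw [dotProduct_sub, dotProduct_single, dotProduct_single, hw a]
  ring

private theorem ee_apply {bar : Ω → Ω} (hbar : ∀ a, bar (bar a) = a) (a c : Ω) :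
    ee bar a (bar c) = -ee bar a c := by
  have h1 : bar c = a ↔ c = bar a :=
    ⟨fun h => by rw [← h, hbar], fun h => by rw [h, hbar]⟩
  have h2 : bar c = bar a ↔ c = a :=
    ⟨fun h => by rw [← hbar c, h, hbar], fun h => by rw [h]⟩
  unfold ee
  simp only [Pi.sub_apply, Pi.single_apply, h1, h2, neg_sub]

private theorem ee_self {bar : Ω → Ω} (hfix : ∀ a, bar a ≠ a) (a : Ω) : ee bar a a = 1 := by
  unfold ee
  rw [Pi.sub_apply, Pi.single_eq_same, Pi.single_eq_of_ne (hfix a).symm, sub_zero]

private theorem ee_other {bar : Ω → Ω} {a c : Ω} (h1 : c ≠ a) (h2 : c ≠ bar a) :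
    ee bar a c = 0 := by
  unfold ee
  rw [Pi.sub_apply, Pi.single_eq_of_ne h1, Pi.single_eq_of_ne h2, sub_zero]

private theorem bar_ne {bar : Ω → Ω} (hbar : ∀ a, bar (bar a) = a) {a b : Ω} (h : b ≠ bar a) :
    bar b ≠ a := fun h1 => h (by rw [← h1, hbar])

private theorem bar_ne_bar {bar : Ω → Ω} (hbar : ∀ a, bar (bar a) = a) {a b : Ω} (h : b ≠ a) :
    bar b ≠ bar a := fun h1 => h (by rw [← hbar b, h1, hbar])

private theorem exists_third (bar : Ω → Ω) (hn : 6 ≤ Fintype.card Ω) (a c : Ω) :
    ∃ b : Ω, b ≠ a ∧ b ≠ bar a ∧ b ≠ c ∧ b ≠ bar c := by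
  by_contra hcon
  push Not at hcon
  have h1 : (Finset.univ : Finset Ω) ⊆ {a, bar a, c, bar c} := by
    intro b _
    simp only [Finset.mem_insert, Finset.mem_singleton]
    by_contra h2
    push Not at h2
    exact h2.2.2.2 (hcon b h2.1 h2.2.1 h2.2.2.1)
  have h2 := Finset.card_le_card h1
  have h3 : ({a, bar a, c, bar c} : Finset Ω).card ≤ 4 := Finset.card_le_four
  rw [Finset.card_univ] at h2
  omega

/-- One step: change the second index. -/
private theorem step {bar : Ω → Ω} (hbar : ∀ a, bar (bar a) = a) (hfix : ∀ a, bar a ≠ a)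
    (hn : 6 ≤ Fintype.card Ω) {P : (Ω → ℚ) → Prop}
    (hP : ∀ h k, StSo bar h → StSo bar k → P h → h ⬝ᵥ k ≠ 0 → P k) {a b c : Ω}
    (hb1 : b ≠ a) (hb2 : b ≠ bar a) (hc1 : c ≠ a) (hc2 : c ≠ bar a)
    (h : P (ee bar a + ee bar b)) : P (ee bar a + ee bar c) := by
  have key : ∀ b c : Ω, b ≠ a → b ≠ bar a → c ≠ a → c ≠ bar a → c ≠ bar b →
      P (ee bar a + ee bar b) → P (ee bar a + ee bar c) := by
    intro b c hb1 hb2 hc1 hc2 hcb h
    refine hP _ _ (stSo_iff.2 ⟨a, b, hb1, hb2, rfl⟩) (stSo_iff.2 ⟨a, c, hc1, hc2, rfl⟩) h ?_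
    have hw : ∀ x, (ee bar a + ee bar b) (bar x) = -(ee bar a + ee bar b) x := by
      intro x
      rw [Pi.add_apply, Pi.add_apply, ee_apply hbar, ee_apply hbar, neg_add]
    rw [dotProduct_add, dot_ee hw, dot_ee hw, Pi.add_apply, Pi.add_apply, ee_self hfix,
      ee_other hc1 hc2, ee_other hb1.symm (bar_ne hbar hb2).symm]
    by_cases hbc : c = b
    · rw [hbc, ee_self hfix]
      norm_num
    · rw [ee_other hbc hcb]
      norm_num
  by_cases hcb : c = bar b
  · obtain ⟨d, hd1, hd2, hd3, hd4⟩ := exists_third bar hn a b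
    refine key d c hd1 hd2 hc1 hc2 ?_ (key b d hb1 hb2 hd1 hd2 hd4 h)
    rw [hcb]
    exact (bar_ne_bar hbar hd3).symm
  · exact key b c hb1 hb2 hc1 hc2 hcb h

theorem knd_so (bar : Ω → Ω) (hbar : ∀ a, bar (bar a) = a) (hfix : ∀ a, bar a ≠ a)
    (hn : 6 ≤ Fintype.card Ω) (h8 : Fintype.card Ω ≠ 8) :
    Knd (fun f : Ω → ℚ => ∀ a, f (bar a) = -f a) (StSo bar) := by
  have had : ∀ h, StSo bar h → ∀ c, h (bar c) = -h c := by
    intro h hh c
    obtain ⟨a, b, -, -, rfl⟩ := stSo_iff.1 hh
    rw [Pi.add_apply, Pi.add_apply, ee_apply hbar, ee_apply hbar, neg_add]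
  have hee : ∀ a, ee bar a ∈ Submodule.span ℚ {h | StSo bar h} := by
    intro a
    obtain ⟨b, hb1, hb2, -⟩ := exists_third bar hn a a
    have h1 : ee bar a + ee bar b ∈ Submodule.span ℚ {h | StSo bar h} :=
      Submodule.subset_span (stSo_iff.2 ⟨a, b, hb1, hb2, rfl⟩)
    have h2 : ee bar a + ee bar (bar b) ∈ Submodule.span ℚ {h | StSo bar h} :=
      Submodule.subset_span (stSo_iff.2 ⟨a, bar b, bar_ne hbar hb2, bar_ne_bar hbar hb1, rfl⟩)
    have h3 : ee bar a = (1 / 2 : ℚ) • ((ee bar a + ee bar b) + (ee bar a + ee bar (bar b))) := by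
      rw [ee_bar hbar]
      module
    rw [h3]
    exact Submodule.smul_mem _ _ (Submodule.add_mem _ h1 h2)
  have hspan : ∀ x ∈ Submodule.span ℚ {h | StSo bar h}, ∀ c, x (bar c) = -x c := by
    intro x hx
    induction hx using Submodule.span_induction with
    | mem x hx => exact had x hx
    | zero => intro c; simp
    | add x y _ _ hx hy =>
      intro c
      rw [Pi.add_apply, Pi.add_apply, hx c, hy c, neg_add]
    | smul r x _ hx =>
      intro c
      rw [Pi.smul_apply, Pi.smul_apply, hx c, smul_neg]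
  constructor
  · exact had
  · intro f hf
    have h1 : f = ∑ a, (f a / 2) • ee bar a := by
      funext c
      rw [Finset.sum_apply]
      have h2 : ∀ a, ((f a / 2) • ee bar a) c =
          (if c = a then f a / 2 else 0) - (if c = bar a then f a / 2 else 0) := by
        intro a
        unfold ee
        rw [Pi.smul_apply, Pi.sub_apply, Pi.single_apply, Pi.single_apply, smul_eq_mul]
        split_ifs <;> ring
      have h3 : ∀ a, (if c = bar a then f a / 2 else 0) = if bar c = a then f a / 2 else 0 := by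
        intro a
        have h4 : c = bar a ↔ bar c = a :=
          ⟨fun h => by rw [h, hbar], fun h => by rw [← h, hbar]⟩
        simp only [h4]
      rw [Finset.sum_congr rfl fun a _ => h2 a, Finset.sum_sub_distrib,
        Finset.sum_congr rfl fun a _ => h3 a, Finset.sum_ite_eq, Finset.sum_ite_eq]
      simp only [Finset.mem_univ, if_true]
      rw [hf c]
      ring
    rw [h1]
    exact Submodule.sum_mem _ fun a _ => Submodule.smul_mem _ _ (hee a)
  · rintro P ⟨h, hh, hPh⟩ hP k hk
    obtain ⟨a, b, hb1, hb2, rfl⟩ := stSo_iff.1 hh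
    obtain ⟨c, d, hd1, hd2, rfl⟩ := stSo_iff.1 hk
    obtain ⟨e, he1, he2, he3, he4⟩ := exists_third bar hn a c
    have h1 : P (ee bar a + ee bar e) := step hbar hfix hn hP hb1 hb2 he1 he2 hPh
    rw [add_comm] at h1
    have h2 : P (ee bar e + ee bar c) :=
      step hbar hfix hn hP he1.symm (bar_ne hbar he2).symm he3.symm (bar_ne hbar he4).symm h1
    rw [add_comm] at h2
    exact step hbar hfix hn hP he3 he4 hd1 hd2 h2
  · intro w hw hw1 hw2
    have hwb := hspan w hw
    have hne : Nonempty Ω := Fintype.card_pos_iff.1 (by omega)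
    have hu : ∀ a, ∀ s ∈ Submodule.span ℚ {h | StSo bar h},
        s a = ((1 / 2 : ℚ) • ee bar a) ⬝ᵥ s := by
      intro a s hs
      rw [smul_dotProduct, dotProduct_comm, dot_ee (hspan s hs), smul_eq_mul]
      ring
    have hww : w ⬝ᵥ w = 1 / 2 := by
      obtain ⟨a⟩ := hne
      rw [hw2 a _ (Submodule.smul_mem _ _ (hee a)) (hu a), smul_dotProduct, dotProduct_smul,
        dot_ee (ee_apply hbar a), ee_self hfix, smul_eq_mul, smul_eq_mul]
      norm_num
    have hpq : ∀ a b, b ≠ a → b ≠ bar a →
        (2 * w a + 2 * w b = -1 ∨ 2 * w a + 2 * w b = 0 ∨ 2 * w a + 2 * w b = 1) ∧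
        (2 * w a - 2 * w b = -1 ∨ 2 * w a - 2 * w b = 0 ∨ 2 * w a - 2 * w b = 1) := by
      intro a b h1 h2
      have h3 := hw1 _ (stSo_iff.2 ⟨a, b, h1, h2, rfl⟩)
      have h4 := hw1 _ (stSo_iff.2 ⟨a, bar b, bar_ne hbar h2, bar_ne_bar hbar h1, rfl⟩)
      rw [dotProduct_add, dot_ee hwb, dot_ee hwb] at h3 h4
      rw [hwb b, mul_neg, ← sub_eq_add_neg] at h4
      exact ⟨h3, h4⟩
    by_cases hA : ∃ a, 2 * w a = 1 ∨ 2 * w a = -1
    · obtain ⟨a, ha⟩ := hA
      have h0 : ∀ b, b ≠ a → b ≠ bar a → w b = 0 := by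
        intro b h1 h2
        obtain ⟨h3, h4⟩ := hpq a b h1 h2
        rcases ha with ha | ha <;> rw [ha] at h3 h4 <;>
          rcases h3 with h3 | h3 | h3 <;> rcases h4 with h4 | h4 | h4 <;> linarith
      have h5 : w = (w a) • ee bar a := by
        funext c
        rw [Pi.smul_apply, smul_eq_mul]
        by_cases h1 : c = a
        · rw [h1, ee_self hfix, mul_one]
        · by_cases h2 : c = bar a
          · rw [h2, hwb a, ee_apply hbar, ee_self hfix]
            ring
          · rw [h0 c h1 h2, ee_other h1 h2, mul_zero]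
      refine ⟨a, ?_⟩
      rcases ha with ha | ha
      · left
        intro x hx
        rw [h5, smul_dotProduct, dotProduct_comm, dot_ee (hspan x hx), smul_eq_mul]
        linear_combination x a * ha
      · right
        intro x hx
        rw [h5, smul_dotProduct, dotProduct_comm, dot_ee (hspan x hx), smul_eq_mul]
        linear_combination x a * ha
    · exfalso
      push Not at hA
      have h1 : ∃ a, w a ≠ 0 := by
        by_contra hcon
        push Not at hcon
        have h2 : w = 0 := funext hcon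
        rw [h2, zero_dotProduct] at hww
        norm_num at hww
      obtain ⟨a, ha⟩ := h1
      have hsq : ∀ c, w c * w c = 1 / 16 := by
        have ha1 : 2 * w a = 1 / 2 ∨ 2 * w a = -(1 / 2) := by
          obtain ⟨b, hb1, hb2, -⟩ := exists_third bar hn a a
          obtain ⟨h3, h4⟩ := hpq a b hb1 hb2
          have h5 := hA a
          rcases h3 with h3 | h3 | h3 <;> rcases h4 with h4 | h4 | h4
          · exact absurd (by linarith) h5.2
          · exact Or.inr (by linarith)
          · exact absurd (by linarith) ha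
          · exact Or.inr (by linarith)
          · exact absurd (by linarith) ha
          · exact Or.inl (by linarith)
          · exact absurd (by linarith) ha
          · exact Or.inl (by linarith)
          · exact absurd (by linarith) h5.1
        have ha2 : w a * w a = 1 / 16 := by
          rcases ha1 with h | h
          · rw [show w a = 1 / 4 by linarith]; norm_num
          · rw [show w a = -(1 / 4) by linarith]; norm_num
        intro c
        by_cases h1 : c = a
        · rw [h1, ha2]
        · by_cases h2 : c = bar a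
          · rw [h2, hwb a, neg_mul_neg, ha2]
          · obtain ⟨h3, h4⟩ := hpq a c h1 h2
            have h6 : w c = 1 / 4 ∨ w c = -(1 / 4) := by
              rcases ha1 with h | h <;> rw [h] at h3 h4 <;>
                rcases h3 with h3 | h3 | h3 <;> rcases h4 with h4 | h4 | h4 <;>
                first
                  | (exact Or.inl (by linarith))
                  | (exact Or.inr (by linarith))
            rcases h6 with h | h <;> rw [h] <;> norm_num
      have h2 : w ⬝ᵥ w = Fintype.card Ω * (1 / 16) := by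
        unfold dotProduct
        rw [Finset.sum_congr rfl fun c _ => hsq c, Finset.sum_const, Finset.card_univ,
          nsmul_eq_mul]
      rw [hww] at h2
      have h3 : (Fintype.card Ω : ℚ) = 8 := by linarith
      exact h8 (by exact_mod_cast h3)

end Pool.Agent.FQV
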