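import Pool.Agent.FQV.StdSl
import Pool.Agent.FQV.StdSo
import Pool.Agent.FQV.KindSl
import Pool.Agent.FQV.KindSp
import Pool.Agent.FQV.KindSo
import Pool.Agent.FQA.Kind

/-!
# Every embedding has one of the three standard systems
-/

set_option autoImplicit false
set_option linter.unusedSectionVars false

namespace Pool.Agent.FQV

open Module
open Pool.Agent.CoprimeSig (ratM)

variable {ι : Type} [Fintype ι] [DecidableEq ι] {E : Type} [CommRing E]
  {R : E →+* Matrix ι ι ℚ} {Φ : Matrix ι ι ℚ} {σ : E →+* ℂ} {c : E → E}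
  {g : Submodule ℂ (Matrix ι ι ℂ)} {ψ : Matrix ι ι ℂ} {W : Submodule ℂ (ι → ℂ)}
  {p : (ι → ℂ) →ₗ[ℂ] W} {v : Basis (Om R Φ σ) ℂ W}

/-- A standard system of coroots for `σ`. -/
structure KindAt (R : E →+* Matrix ι ι ℚ) (Φ : Matrix ι ι ℚ) (g : Submodule ℂ (Matrix ι ι ℂ))
    (σ : E →+* ℂ) (Ad St : (Om R Φ σ → ℚ) → Prop) : Prop where
  knd : Knd Ad St
  lift : ∀ h, St h → ∃ (z y : Matrix ι ι ℂ) (G : ℂ → ℚ) (π : ℂ → ℂ), Jrt R Φ g z y G π ∧
    rs R Φ σ G = h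
  ad : ∀ (z y : Matrix ι ι ℂ) (G : ℂ → ℚ) (π : ℂ → ℂ), Jrt R Φ g z y G π → Ad (rs R Φ σ G)
  idem : ∀ e ∈ tor Φ, e * e = e → 2 * e.trace = Fintype.card ι →
    Ad fun μ => rs R Φ σ (ev Φ e) μ - sm R Φ σ (ev Φ e) / Fintype.card (Om R Φ σ)

private theorem ke_bal (M : Mono R c Φ g ψ) (hTr : Tr Φ) {w : ι → ℂ} (hw : w ≠ 0) :
    ∃ e : Matrix ι ι ℂ, e ∈ tor Φ ∧ e * e = e ∧ 2 * e.trace = Fintype.card ι := by
  by_contra hne
  have h2 := hTr (one_mem_tor M)
  have h3 : {e : Matrix ι ι ℂ | e ∈ tor Φ ∧ e * e = e ∧ 2 * e.trace = Fintype.card ι} = ∅ := by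
    rw [Set.eq_empty_iff_forall_notMem]
    intro e he
    exact hne ⟨e, he⟩
  rw [h3, Submodule.span_empty, Submodule.mem_bot] at h2
  apply hw
  rw [← Matrix.one_mulVec w, h2, Matrix.zero_mulVec]

private theorem ke_sm (e : Matrix ι ι ℂ) : ∃ k : ℕ, sm R Φ σ (ev Φ e) = k := by
  have h1 : ∀ μ : Om R Φ σ, ∃ k : ℕ, rs R Φ σ (ev Φ e) μ = k := by
    intro μ
    rcases ev_or Φ e μ with h | h
    · exact ⟨0, by rw [rs_apply, h, Nat.cast_zero]⟩
    · exact ⟨1, by rw [rs_apply, h, Nat.cast_one]⟩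
  choose k hk using h1
  refine ⟨∑ μ, k μ, ?_⟩
  unfold sm
  rw [Nat.cast_sum]
  exact Finset.sum_congr rfl fun μ _ => hk μ

/-- the coroots are odd -/
private theorem ke_odd (H : IsFrob R Φ) (hTr : Tr Φ)
    (F : Frame R Φ g σ W p v) {bar : Om R Φ σ → Om R Φ σ}
    (hbar : ∀ μ, ((bar μ : Om R Φ σ) : ℂ) = starRingEnd ℂ μ) {z y : Matrix ι ι ℂ} {G : ℂ → ℚ}
    {π : ℂ → ℂ} (J : Jrt R Φ g z y G π) (a : Om R Φ σ) :
    rs R Φ σ G (bar a) = -rs R Φ σ G a := by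
  have h0 : ∀ μ, (v μ : ι → ℂ) ≠ 0 := fun μ h => v.ne_zero μ (Subtype.ext h)
  have h1 := F.bas (bar a)
  have h2 := J.val _ _ h1
  rw [hbar] at h1
  have h3 := tor_conj H hTr J.cor (h0 a) (F.bas a) (J.val _ _ (F.bas a)) (h0 (bar a)) h1 h2
  rw [Matrix.trace_sub, Matrix.trace_mul_comm z y, sub_self, mul_zero] at h3
  have hne : Nonempty ι := by
    by_contra h
    rw [not_nonempty_iff] at h
    exact h0 a (Subsingleton.elim _ _)
  have h4 : (Fintype.card ι : ℂ) ≠ 0 := by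
    rw [Nat.cast_ne_zero]
    exact Fintype.card_ne_zero
  have h5 : (G a : ℂ) + (G (bar a) : ℂ) = 0 := (mul_eq_zero.1 h3).resolve_right h4
  have h6 : G a + G (bar a) = 0 := by exact_mod_cast h5
  rw [rs_apply, rs_apply]
  linarith

private theorem ke_two (M : Mono R c Φ g ψ) (H : IsFrob R Φ) (hTr : Tr Φ)
    (F : Frame R Φ g σ W p v) {φ : W →ₗ[ℂ] W →ₗ[ℂ] ℂ} (hφ : IsForm g ψ p φ)
    (hs : ∀ x y, φ x y = φ y x) {e : Matrix ι ι ℂ} (he : e ∈ tor Φ) (hee : e * e = e)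
    (htr : 2 * e.trace = Fintype.card ι) (hne : Nonempty ι) : finrank ℂ W ≠ 2 := by
  intro h2
  have hnt : Nontrivial W := F.nontrivial
  obtain ⟨h3, h4, -⟩ := rm_val F M he hee
  have h5 : rm p e ∈ res p g := rm_mem (M.le he)
  have h6 : ∀ u w, φ (rm p e u) w + φ u (rm p e w) = φ u w := by
    intro u w
    have h7 := hφ.mult e (M.le he) 1 (by rw [one_smul]; exact mult_of_trace M (M.le he) htr) u w
    rwa [one_mul] at h7
  refine (td M H hTr.idem F.irr F.prj).pow_sym hs hφ.nd (hφ.sim M) ?_ h5 h4 h6 1 ?_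
  · intro m hm h7
    rw [h2] at h7
    have h8 : 2 ^ 2 ≤ 2 ^ m := Nat.pow_le_pow_right (by norm_num) hm
    omega
  · rw [h2, pow_one]

/-- The kind of `σ`: `σ` is not real and the coroots are those of the system `A`, or `σ` is real and they
are those of the system `C` or `D`, and of the system `C` if `sp σ`. -/
def Kd (R : E →+* Matrix ι ι ℚ) (Φ : Matrix ι ι ℚ) (g : Submodule ℂ (Matrix ι ι ℂ))
    (sp : (E →+* ℂ) → Prop) (σ : E →+* ℂ) : Prop :=
  ((∃ a, starRingEnd ℂ (σ a) ≠ σ a) ∧ KindAt R Φ g σ (fun f => ∑ a, f a = 0) StSl) ∨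
  ((∀ a, starRingEnd ℂ (σ a) = σ a) ∧ ∃ bar : Om R Φ σ → Om R Φ σ,
    (∀ μ, ((bar μ : Om R Φ σ) : ℂ) = starRingEnd ℂ μ) ∧ (∀ μ, bar (bar μ) = μ) ∧
    (∀ μ, bar μ ≠ μ) ∧
    (KindAt R Φ g σ (fun f => ∀ a, f (bar a) = -f a) (StSp bar) ∨
      (¬ sp σ ∧ KindAt R Φ g σ (fun f => ∀ a, f (bar a) = -f a) (StSo bar) ∧
        6 ≤ Fintype.card (Om R Φ σ) ∧ Fintype.card (Om R Φ σ) ≠ 8)))

theorem exists_kind [Algebra ℚ E] [Module.Finite ℚ E] [IsReduced E] (M : Mono R c Φ g ψ)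
    (H : IsFrob R Φ) (hTr : Tr Φ) (hc : ∀ (σ : E →+* ℂ) a, σ (c a) = starRingEnd ℂ (σ a))
    (F : Frame R Φ g σ W p v) (hfull : FullW g ψ p) (h2 : 2 ≤ Fintype.card (Om R Φ σ))
    (hn : ∀ φ : W →ₗ[ℂ] W →ₗ[ℂ] ℂ, IsForm g ψ p φ → (∀ x y, φ x y = φ y x) →
      Fintype.card (Om R Φ σ) ≠ 4 ∧ Fintype.card (Om R Φ σ) ≠ 8) {sp : (E →+* ℂ) → Prop}
    (hsp : sp σ → ∀ φ : W →ₗ[ℂ] W →ₗ[ℂ] ℂ, IsForm g ψ p φ → ∀ x, φ x x = 0) :
    Kd R Φ g sp σ := by
  have hnt : Nontrivial W := F.nontrivial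
  obtain ⟨x₀, hx₀⟩ := exists_ne (0 : W)
  have hx₀' : (x₀ : ι → ℂ) ≠ 0 := fun h => hx₀ (Subtype.ext h)
  have hne : Nonempty ι := by
    by_contra h
    rw [not_nonempty_iff] at h
    exact hx₀' (Subsingleton.elim _ _)
  by_cases hr : ∀ a, starRingEnd ℂ (σ a) = σ a
  · right
    refine ⟨hr, ?_⟩
    obtain ⟨bar, hbar, hinv, hfix⟩ := exists_bar M H hTr hr
    refine ⟨bar, hbar, hinv, hfix, ?_⟩
    obtain ⟨φ, hφ, hsa⟩ := exists_isForm M hc F.irr F.prj F.le hr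
    have hhalf : ∀ e ∈ tor Φ, e * e = e → 2 * e.trace = Fintype.card ι →
        2 * sm R Φ σ (ev Φ e) = Fintype.card (Om R Φ σ) := by
      intro e he hee htr
      have h1 := sm_dual H he hee htr σ
      have h3 : cp starRingAut σ = σ := RingHom.ext fun a => hr a
      rw [h3] at h1
      rw [two_mul, h1]
    obtain ⟨e, he, hee, htr⟩ := ke_bal M hTr hx₀'
    obtain ⟨k, hk⟩ := ke_sm (R := R) (Φ := Φ) (σ := σ) e
    have hcard : 2 * k = Fintype.card (Om R Φ σ) := by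
      have h1 := hhalf e he hee htr
      rw [hk] at h1
      exact_mod_cast h1
    have hid : ∀ e ∈ tor Φ, e * e = e → 2 * e.trace = Fintype.card ι →
        ∀ a, rs R Φ σ (ev Φ e) (bar a) - sm R Φ σ (ev Φ e) / Fintype.card (Om R Φ σ) =
          -(rs R Φ σ (ev Φ e) a - sm R Φ σ (ev Φ e) / Fintype.card (Om R Φ σ)) := by
      intro e he hee htr a
      have h3 : sm R Φ σ (ev Φ e) / Fintype.card (Om R Φ σ) = 1 / 2 := by
        have h4 : (Fintype.card (Om R Φ σ) : ℚ) ≠ 0 := by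
          have : Fintype.card (Om R Φ σ) ≠ 0 := by omega
          exact_mod_cast this
        rw [div_eq_iff h4, ← hhalf e he hee htr]
        ring
      rw [h3, rs_apply, rs_apply, hbar, ev_conj H he hee htr (hasEigenvalue_of_mem a.2)]
      ring
    rcases hsa with hs | hs
    · left
      refine ⟨knd_sp bar hinv hfix h2, ?_, fun z y G π J a => ke_odd H hTr F hbar J a, hid⟩
      rintro h (⟨a, rfl⟩ | ⟨a, b, hab, hab', rfl⟩)
      · exact std_sp M H hTr F hfull hφ hs hbar hinv hfix a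
      · exact std_so M H hTr F hfull hφ (Or.inl hs) hbar hinv hfix hab hab'
    · right
      obtain ⟨h4, h8⟩ := hn φ hφ hs
      have h2' := ke_two M H hTr F hφ hs he hee htr hne
      rw [← F.card] at h2'
      have h6 : 6 ≤ Fintype.card (Om R Φ σ) := by omega
      have hnsp : ¬ sp σ := by
        intro h
        have halt := hsp h φ hφ
        apply hx₀
        refine hφ.nd x₀ fun y => ?_
        have h1 := halt (x₀ + y)
        rw [map_add, map_add, LinearMap.add_apply, LinearMap.add_apply, halt x₀, halt y,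
          hs y x₀] at h1
        have h3 : 2 * φ x₀ y = 0 := by linear_combination h1
        exact (mul_eq_zero.1 h3).resolve_left two_ne_zero
      refine ⟨hnsp, ⟨knd_so bar hinv hfix h6 h8, ?_,
        fun z y G π J a => ke_odd H hTr F hbar J a, hid⟩, h6, h8⟩
      rintro h ⟨a, b, hab, hab', rfl⟩
      exact std_so M H hTr F hfull hφ (Or.inr hs) hbar hinv hfix hab hab'
  · left
    push Not at hr
    refine ⟨hr, knd_sl h2, ?_, fun z y G π J => J.sum σ, ?_⟩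
    · rintro h ⟨a, b, hab, rfl⟩
      exact std_sl M H hTr hc F hfull hr hab
    · intro e _ _ _
      have h4 : (Fintype.card (Om R Φ σ) : ℚ) ≠ 0 := by
        have : Fintype.card (Om R Φ σ) ≠ 0 := by omega
        exact_mod_cast this
      rw [Finset.sum_sub_distrib, Finset.sum_const, Finset.card_univ, nsmul_eq_mul,
        mul_div_cancel₀ _ h4]
      exact sub_self _

end Pool.Agent.FQV
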