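import Pool.Agent.FQV.KindSl
import Pool.Agent.FQV.KindSp
import Pool.Agent.FQV.KindSo

/-!
# The weights with small scalar products (PACKAGE FV2, Mathlib only, elementary)

`sl_fin` (`n = card Ω`): `w a - w b = w ⬝ (δ_a - δ_b) ∈ {0, 1, -1}` for all `a ≠ b`. `w` is not constant (`∑ w = 0`, `w ≠ 0`). Let `t` be the minimal value; then
all values are `t` or `t + 1`, and both occur. `A = {a | w a = t + 1}`, `k = card A`: `0 = ∑ w = n t + k`, so `t = - k / n`. And
`n * (w ⬝ w) = n * ((n - k) t² + k (t + 1)²) = k (n - k)`. See also the private lemma `fin_sl` in `KindSl.lean`.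

`sl_rep`: `u = δ_a - 1 / n` (in the span by `(knd_sl _).span`, or if `n = 1` `u = 0`), `n * (u ⬝ u) = n - 1`; the elements of the span have sum zero.

`sl_dot`: `w ⬝ x = ∑ b ∈ A, x b - c * ∑ x`. `sl_min`: `(k - 1) (n - 1 - k) = 0`: `k = 1`, `A = {a}`; or `k = n - 1` and the complement of `A` is `{a}`,
`∑ b ∈ A, x b = ∑ x - x a = - x a`.

`real_rep`: `u = (δ_a - δ_(bar a)) / 2`; for `StSo` it is in the span because `card Ω ≥ 6` (`(knd_so ..).span` needs `card ≠ 8`, so copy the private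
lemmas `exists_third` and the lemma `hee` from `KindSo.lean`: `ee a = ((ee a + ee b) + (ee a + ee (bar b))) / 2`); the elements `s` of the span are odd:
`s (bar a) = - s a`. `odd_span_sp`, `odd_span_so`: every odd function is in the span (`f = ∑ a, (f a / 2) • ee a`, see `KindSo.lean`, `KindSp.lean`), where
`odd_span_so` needs `6 ≤ card Ω` only.

`sp_nrm`: `w ⬝ (δ_a - δ_(bar a)) = 2 w a` and `w ⬝ (δ_a + δ_b - δ_(bar a) - δ_(bar b)) = 2 (w a + w b)` for `b ≠ a, bar a`. So `w a ∈ {0, 1/2, -1/2}`; as `w ≠ 0` there is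
`a` with `w a = ± 1/2`, and (replace `a` by `bar a`) we may assume `w a = 1/2`. For `b ≠ a, bar a`: `1/2 + w b` and `1/2 - w b` (use `bar b`) are in
`{0, 1/2, -1/2}`, so `w b = 0`. So `w ⬝ w = w a ^ 2 + w (bar a) ^ 2 = 1 / 2`.

`so_nrm`: now only `2 (w a + w b) ∈ {0, 1, -1}` for `b ≠ a, bar a`, so also `2 (w a - w b) ∈ {0, 1, -1}`; so `4 w a ∈ {0, ±1, ±2}` (there is such a `b` because
`card Ω ≥ 6`). If some `w a = ± 1/2`, all `w b = 0` for `b ≠ a, bar a` and `w ⬝ w = 1/2`. Otherwise some `w a = ± 1/4` (as `w ≠ 0`), and then all `w b = ± 1/4` for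
`b ≠ a, bar a` (`2 w b ∈ {0,1,-1} ∓ 1/2` and `|w b| ≤ 1/4`) and `w ⬝ w = card Ω / 16`. See the last part of the proof of `knd_so`. -/

set_option autoImplicit false
set_option linter.unusedSectionVars false

namespace Pool.Agent.FQV

variable {Ω : Type*} [Fintype Ω] [DecidableEq Ω]

private theorem dot_sub_single (f : Ω → ℚ) (a b : Ω) :
    f ⬝ᵥ (Pi.single a 1 - Pi.single b 1 : Ω → ℚ) = f a - f b := by
  rw [dotProduct_sub, dotProduct_single_one, dotProduct_single_one]

private theorem sum_sub_single (a b : Ω) :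
    ∑ c, (Pi.single a 1 - Pi.single b 1 : Ω → ℚ) c = 0 := by
  simp [Finset.sum_sub_distrib]

private theorem sum_of_span {x : Ω → ℚ} (hx : x ∈ Submodule.span ℚ {h : Ω → ℚ | StSl h}) :
    ∑ a, x a = 0 := by
  induction hx using Submodule.span_induction with
  | mem x hx =>
    obtain ⟨a, b, -, rfl⟩ := hx
    exact sum_sub_single a b
  | zero => simp
  | add x y _ _ hx hy => simp only [Pi.add_apply, Finset.sum_add_distrib, hx, hy, add_zero]
  | smul c x _ hx => simp only [Pi.smul_apply, smul_eq_mul, ← Finset.mul_sum, hx, mul_zero]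

private theorem span_of_sum [Nonempty Ω] {f : Ω → ℚ} (hf : ∑ a, f a = 0) :
    f ∈ Submodule.span ℚ {h : Ω → ℚ | StSl h} := by
  let o : Ω := Classical.arbitrary Ω
  have h1 : f = ∑ a, f a • (Pi.single a 1 - Pi.single o 1 : Ω → ℚ) := by
    funext c
    rw [Finset.sum_apply]
    simp only [Pi.smul_apply, Pi.sub_apply, smul_eq_mul, mul_sub, Finset.sum_sub_distrib]
    rw [← Finset.sum_mul, hf, zero_mul, sub_zero]
    simp [Pi.single_apply]
  rw [h1]
  refine Submodule.sum_mem _ fun a _ => Submodule.smul_mem _ _ ?_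
  by_cases hao : a = o
  · rw [hao, sub_self]
    exact Submodule.zero_mem _
  · exact Submodule.subset_span ⟨a, o, hao, rfl⟩

theorem sl_fin {w : Ω → ℚ} (hs : ∑ a, w a = 0) (h0 : w ≠ 0)
    (h : ∀ k, StSl k → w ⬝ᵥ k = -1 ∨ w ⬝ᵥ k = 0 ∨ w ⬝ᵥ k = 1) :
    ∃ A : Finset Ω, 0 < A.card ∧ A.card < Fintype.card Ω ∧
      (∀ b, w b = (if b ∈ A then 1 else 0) - (A.card : ℚ) / Fintype.card Ω) ∧
      (Fintype.card Ω : ℚ) * (w ⬝ᵥ w) = A.card * (Fintype.card Ω - A.card) := by
  obtain ⟨o₁, ho₁⟩ : ∃ o, w o ≠ 0 := by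
    by_contra hcon
    push Not at hcon
    exact h0 (funext hcon)
  have : Nonempty Ω := ⟨o₁⟩
  obtain ⟨o, ho⟩ := Finite.exists_min w
  obtain ⟨t, ht⟩ : ∃ t, t = w o := ⟨_, rfl⟩
  have hd : ∀ a, w a = t ∨ w a = t + 1 := by
    intro a
    by_cases hao : a = o
    · left
      rw [hao, ht]
    · have h1 := h _ ⟨a, o, hao, rfl⟩
      rw [dot_sub_single, ← ht] at h1
      have h2 := ho a
      rw [← ht] at h2
      rcases h1 with h1 | h1 | h1
      · linarith
      · left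
        linarith
      · right
        linarith
  set A : Finset Ω := Finset.univ.filter fun a => w a = t + 1 with hA
  have hoA : o ∉ A := by
    rw [hA, Finset.mem_filter]
    rintro ⟨-, h'⟩
    linarith
  have hval : ∀ a, w a = t + if a ∈ A then 1 else 0 := by
    intro a
    rcases hd a with h | h
    · have : a ∉ A := by
        rw [hA, Finset.mem_filter]
        rintro ⟨-, h'⟩
        linarith
      rw [if_neg this, h, add_zero]
    · have : a ∈ A := by
        rw [hA, Finset.mem_filter]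
        exact ⟨Finset.mem_univ _, h⟩
      rw [if_pos this, h]
  have hn : 0 < Fintype.card Ω := Fintype.card_pos
  have hn0 : (Fintype.card Ω : ℚ) ≠ 0 := by exact_mod_cast hn.ne'
  have hsumw : (Fintype.card Ω : ℚ) * t + (A.card : ℚ) = 0 := by
    have h1 := hs
    rw [Finset.sum_congr rfl fun b _ => hval b, Finset.sum_add_distrib, Finset.sum_const,
      Finset.sum_ite_mem, Finset.univ_inter, Finset.sum_const, nsmul_eq_mul, nsmul_eq_mul,
      mul_one, Finset.card_univ] at h1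
    exact h1
  have hdot : ∀ x : Ω → ℚ, w ⬝ᵥ x = t * ∑ b, x b + ∑ b ∈ A, x b := by
    intro x
    have h1 : ∀ b, w b * x b = t * x b + if b ∈ A then x b else 0 := by
      intro b
      rw [hval b]
      split_ifs <;> ring
    rw [dotProduct, Finset.sum_congr rfl fun b _ => h1 b, Finset.sum_add_distrib,
      ← Finset.mul_sum, Finset.sum_ite_mem, Finset.univ_inter]
  have hww : w ⬝ᵥ w = (A.card : ℚ) * (t + 1) := by
    rw [hdot w, hs, mul_zero, zero_add]
    have h1 : ∀ b ∈ A, w b = t + 1 := by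
      intro b hb
      rw [hA, Finset.mem_filter] at hb
      exact hb.2
    rw [Finset.sum_congr rfl h1, Finset.sum_const, nsmul_eq_mul]
  refine ⟨A, ?_, ?_, ?_, ?_⟩
  · rw [Nat.pos_iff_ne_zero]
    intro h1
    rw [h1, Nat.cast_zero, add_zero] at hsumw
    have h2 : t = 0 := (mul_eq_zero.1 hsumw).resolve_left hn0
    have h3 : A = ∅ := Finset.card_eq_zero.1 h1
    apply ho₁
    rw [hval o₁, h2, h3]
    simp
  · rw [← Finset.card_univ]
    exact Finset.card_lt_card ⟨Finset.subset_univ _, fun h1 => hoA (h1 (Finset.mem_univ o))⟩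
  · intro b
    have h1 : t = -((A.card : ℚ) / Fintype.card Ω) := by
      field_simp
      linarith
    rw [hval b, h1]
    ring
  · rw [hww]
    linear_combination (A.card : ℚ) * hsumw

theorem sl_rep (a : Ω) : ∃ u ∈ Submodule.span ℚ {h : Ω → ℚ | StSl h},
    (∀ s ∈ Submodule.span ℚ {h : Ω → ℚ | StSl h}, s a = u ⬝ᵥ s) ∧
      (Fintype.card Ω : ℚ) * (u ⬝ᵥ u) = Fintype.card Ω - 1 := by
  have hne : Nonempty Ω := ⟨a⟩
  have hn0 : (Fintype.card Ω : ℚ) ≠ 0 := by exact_mod_cast (Fintype.card_pos (α := Ω)).ne'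
  obtain ⟨u, hu⟩ : ∃ u : Ω → ℚ, u = Pi.single a 1 - fun _ => 1 / (Fintype.card Ω : ℚ) := ⟨_, rfl⟩
  have hu0 : ∑ b, u b = 0 := by
    simp only [hu, Pi.sub_apply, Finset.sum_sub_distrib, Finset.sum_const, Finset.card_univ,
      nsmul_eq_mul, Finset.sum_pi_single', Finset.mem_univ, if_true]
    field_simp
    ring
  have hud : ∀ s : Ω → ℚ, ∑ b, s b = 0 → s a = u ⬝ᵥ s := by
    intro s hs
    have h1 : (fun _ : Ω => 1 / (Fintype.card Ω : ℚ)) ⬝ᵥ s = 0 := by
      rw [dotProduct, ← Finset.mul_sum, hs, mul_zero]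
    rw [hu, sub_dotProduct, h1, sub_zero, single_one_dotProduct]
  refine ⟨u, span_of_sum hu0, fun s hs => hud s (sum_of_span hs), ?_⟩
  rw [← hud u hu0, hu, Pi.sub_apply, Pi.single_eq_same]
  field_simp

theorem sl_dot {A : Finset Ω} {w : Ω → ℚ} {c : ℚ} (hw : ∀ b, w b = (if b ∈ A then 1 else 0) - c)
    {x : Ω → ℚ} (hx : ∑ b, x b = 0) : w ⬝ᵥ x = ∑ b ∈ A, x b := by
  have h1 : ∀ b, w b * x b = (if b ∈ A then x b else 0) - c * x b := by
    intro b
    rw [hw b]
    split_ifs <;> ring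
  rw [dotProduct, Finset.sum_congr rfl fun b _ => h1 b, Finset.sum_sub_distrib,
    ← Finset.mul_sum, hx, Finset.sum_ite_mem, Finset.univ_inter, mul_zero, sub_zero]

theorem sl_min {A : Finset Ω} (h0 : 0 < A.card) (h1 : A.card < Fintype.card Ω)
    (h : (A.card : ℚ) * (Fintype.card Ω - A.card) = Fintype.card Ω - 1) :
    ∃ a : Ω, (∀ x : Ω → ℚ, ∑ b, x b = 0 → ∑ b ∈ A, x b = x a) ∨
      ∀ x : Ω → ℚ, ∑ b, x b = 0 → ∑ b ∈ A, x b = -x a := by
  have hprod : ((A.card : ℚ) - 1) * (Fintype.card Ω - 1 - (A.card : ℚ)) = 0 := by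
    linear_combination h
  rcases mul_eq_zero.1 hprod with h | h
  · have hk : A.card = 1 := by
      have : (A.card : ℚ) = 1 := by linarith
      exact_mod_cast this
    obtain ⟨a, ha⟩ := Finset.card_eq_one.1 hk
    refine ⟨a, Or.inl fun x _ => ?_⟩
    rw [ha, Finset.sum_singleton]
  · have hk : Aᶜ.card = 1 := by
      have h2 : (A.card : ℚ) + 1 = Fintype.card Ω := by linarith
      have h3 : A.card + 1 = Fintype.card Ω := by exact_mod_cast h2
      rw [Finset.card_compl]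
      omega
    obtain ⟨a, ha⟩ := Finset.card_eq_one.1 hk
    refine ⟨a, Or.inr fun x hx => ?_⟩
    have h3 := Finset.sum_add_sum_compl A x
    rw [hx, ha, Finset.sum_singleton] at h3
    linarith

private theorem sp_span {bar : Ω → Ω} (hbar : ∀ a, bar (bar a) = a) {f : Ω → ℚ}
    (hf : ∀ a, f (bar a) = -f a) : f ∈ Submodule.span ℚ {h | StSp bar h} := by
  have h1 : f = ∑ a, (1 / 2 * f a) • ((Pi.single a 1 - Pi.single (bar a) 1 : Ω → ℚ)) := by
    funext x
    have e1 : ∀ y : Ω, (x = bar y) ↔ (bar x = y) := fun y =>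
      ⟨fun h => by rw [h, hbar], fun h => by rw [← h, hbar]⟩
    rw [Finset.sum_apply]
    simp only [Pi.smul_apply, Pi.sub_apply, Pi.single_apply, smul_eq_mul, mul_sub, mul_ite,
      mul_one, mul_zero, e1, Finset.sum_sub_distrib, Finset.sum_ite_eq, Finset.mem_univ, if_true,
      hf]
    ring
  rw [h1]
  exact Submodule.sum_mem _ fun a _ => Submodule.smul_mem _ _ (Submodule.subset_span
    (Or.inl ⟨a, rfl⟩))

/-- The vector with two entries. -/
private def ee (bar : Ω → Ω) (a : Ω) : Ω → ℚ := Pi.single a 1 - Pi.single (bar a) 1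

private theorem ee_bar {bar : Ω → Ω} (hbar : ∀ a, bar (bar a) = a) (a : Ω) :
    ee bar (bar a) = -ee bar a := by
  unfold ee
  rw [hbar a, neg_sub]

private theorem stSo_iff {bar : Ω → Ω} {h : Ω → ℚ} :
    StSo bar h ↔ ∃ a b : Ω, b ≠ a ∧ b ≠ bar a ∧ h = ee bar a + ee bar b := by
  unfold StSo ee
  refine exists_congr fun a => exists_congr fun b => and_congr_right fun _ =>
    and_congr_right fun _ => ?_
  rw [show (Pi.single a 1 - Pi.single (bar a) 1 + (Pi.single b 1 - Pi.single (bar b) 1) :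
    Ω → ℚ) = Pi.single a 1 + Pi.single b 1 - Pi.single (bar a) 1 - Pi.single (bar b) 1 by ring]

private theorem dot_ee {bar : Ω → Ω} {w : Ω → ℚ} (hw : ∀ a, w (bar a) = -w a) (a : Ω) :
    w ⬝ᵥ ee bar a = 2 * w a := by
  unfold ee
  rw [dotProduct_sub, dotProduct_single, dotProduct_single, hw a]
  ring

private theorem ee_apply {bar : Ω → Ω} (hbar : ∀ a, bar (bar a) = a) (a c : Ω) :
    ee bar a (bar c) = -ee bar a c := by
  have h1 : bar c = a ↔ c = bar a :=
    ⟨fun h => by rw [← h, hbar], fun h => by rw [h, hbar]⟩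
  have h2 : bar c = bar a ↔ c = a :=
    ⟨fun h => by rw [← hbar c, h, hbar], fun h => by rw [h]⟩
  unfold ee
  simp only [Pi.sub_apply, Pi.single_apply, h1, h2, neg_sub]

private theorem ee_self {bar : Ω → Ω} (hfix : ∀ a, bar a ≠ a) (a : Ω) : ee bar a a = 1 := by
  unfold ee
  rw [Pi.sub_apply, Pi.single_eq_same, Pi.single_eq_of_ne (hfix a).symm, sub_zero]

private theorem ee_other {bar : Ω → Ω} {a c : Ω} (h1 : c ≠ a) (h2 : c ≠ bar a) :
    ee bar a c = 0 := by
  unfold ee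
  rw [Pi.sub_apply, Pi.single_eq_of_ne h1, Pi.single_eq_of_ne h2, sub_zero]

private theorem bar_ne {bar : Ω → Ω} (hbar : ∀ a, bar (bar a) = a) {a b : Ω} (h : b ≠ bar a) :
    bar b ≠ a := fun h1 => h (by rw [← h1, hbar])

private theorem bar_ne_bar {bar : Ω → Ω} (hbar : ∀ a, bar (bar a) = a) {a b : Ω} (h : b ≠ a) :
    bar b ≠ bar a := fun h1 => h (by rw [← hbar b, h1, hbar])

private theorem exists_third (bar : Ω → Ω) (hn : 6 ≤ Fintype.card Ω) (a c : Ω) :
    ∃ b : Ω, b ≠ a ∧ b ≠ bar a ∧ b ≠ c ∧ b ≠ bar c := by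
  by_contra hcon
  push Not at hcon
  have h1 : (Finset.univ : Finset Ω) ⊆ {a, bar a, c, bar c} := by
    intro b _
    simp only [Finset.mem_insert, Finset.mem_singleton]
    by_contra h2
    push Not at h2
    exact h2.2.2.2 (hcon b h2.1 h2.2.1 h2.2.2.1)
  have h2 := Finset.card_le_card h1
  have h3 : ({a, bar a, c, bar c} : Finset Ω).card ≤ 4 := Finset.card_le_four
  rw [Finset.card_univ] at h2
  omega

variable {bar : Ω → Ω}

theorem odd_span_sp (hbar : ∀ a, bar (bar a) = a) {f : Ω → ℚ} (hf : ∀ a, f (bar a) = -f a) :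
    f ∈ Submodule.span ℚ {h | StSp bar h} := sp_span hbar hf

private theorem sum_ee (hbar : ∀ a, bar (bar a) = a) {f : Ω → ℚ} (hf : ∀ a, f (bar a) = -f a) :
    f = ∑ a, (f a / 2) • ee bar a := by
  funext c
  rw [Finset.sum_apply]
  have h2 : ∀ a, ((f a / 2) • ee bar a) c =
      (if c = a then f a / 2 else 0) - (if c = bar a then f a / 2 else 0) := by
    intro a
    unfold ee
    rw [Pi.smul_apply, Pi.sub_apply, Pi.single_apply, Pi.single_apply, smul_eq_mul]
    split_ifs <;> ring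
  have h3 : ∀ a, (if c = bar a then f a / 2 else 0) = if bar c = a then f a / 2 else 0 := by
    intro a
    have h4 : c = bar a ↔ bar c = a :=
      ⟨fun h => by rw [h, hbar], fun h => by rw [← h, hbar]⟩
    simp only [h4]
  rw [Finset.sum_congr rfl fun a _ => h2 a, Finset.sum_sub_distrib,
    Finset.sum_congr rfl fun a _ => h3 a, Finset.sum_ite_eq, Finset.sum_ite_eq]
  simp only [Finset.mem_univ, if_true]
  rw [hf c]
  ring

theorem odd_span_so (hbar : ∀ a, bar (bar a) = a) (h6 : 6 ≤ Fintype.card Ω) {f : Ω → ℚ}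
    (hf : ∀ a, f (bar a) = -f a) : f ∈ Submodule.span ℚ {h | StSo bar h} := by
  have hee : ∀ a, ee bar a ∈ Submodule.span ℚ {h | StSo bar h} := by
    intro a
    obtain ⟨b, hb1, hb2, -⟩ := exists_third bar h6 a a
    have h1 : ee bar a + ee bar b ∈ Submodule.span ℚ {h | StSo bar h} :=
      Submodule.subset_span (stSo_iff.2 ⟨a, b, hb1, hb2, rfl⟩)
    have h2 : ee bar a + ee bar (bar b) ∈ Submodule.span ℚ {h | StSo bar h} :=
      Submodule.subset_span (stSo_iff.2 ⟨a, bar b, bar_ne hbar hb2, bar_ne_bar hbar hb1, rfl⟩)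
    have h3 : ee bar a = (1 / 2 : ℚ) • ((ee bar a + ee bar b) + (ee bar a + ee bar (bar b))) := by
      rw [ee_bar hbar]
      module
    rw [h3]
    exact Submodule.smul_mem _ _ (Submodule.add_mem _ h1 h2)
  rw [sum_ee hbar hf]
  exact Submodule.sum_mem _ fun a _ => Submodule.smul_mem _ _ (hee a)

theorem real_rep {U : Submodule ℚ (Ω → ℚ)} (hbar : ∀ a, bar (bar a) = a)
    (hfix : ∀ a, bar a ≠ a) (hU : ∀ f : Ω → ℚ, f ∈ U ↔ ∀ a, f (bar a) = -f a) (a : Ω) :
    ∃ u ∈ U, (∀ s ∈ U, s a = u ⬝ᵥ s) ∧ u ⬝ᵥ u = 1 / 2 := by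
  refine ⟨(1 / 2 : ℚ) • ee bar a, U.smul_mem _ ((hU _).2 (ee_apply hbar a)), fun s hs => ?_, ?_⟩
  · rw [smul_dotProduct, dotProduct_comm, dot_ee ((hU s).1 hs), smul_eq_mul]
    ring
  · rw [smul_dotProduct, dotProduct_smul, dot_ee (ee_apply hbar a), ee_self hfix, smul_eq_mul,
      smul_eq_mul]
    norm_num

/-- One coordinate with the absolute value `1 / 2`. -/
private theorem half (hbar : ∀ a, bar (bar a) = a) (hfix : ∀ a, bar a ≠ a) {w : Ω → ℚ}
    (hw : ∀ a, w (bar a) = -w a)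
    (hpq : ∀ a b, b ≠ a → b ≠ bar a →
      (2 * w a + 2 * w b = -1 ∨ 2 * w a + 2 * w b = 0 ∨ 2 * w a + 2 * w b = 1) ∧
        (2 * w a - 2 * w b = -1 ∨ 2 * w a - 2 * w b = 0 ∨ 2 * w a - 2 * w b = 1))
    {a : Ω} (ha : 2 * w a = 1 ∨ 2 * w a = -1) : w ⬝ᵥ w = 1 / 2 := by
  have h0 : ∀ b, b ≠ a → b ≠ bar a → w b = 0 := by
    intro b h1 h2
    obtain ⟨h3, h4⟩ := hpq a b h1 h2
    rcases ha with ha | ha <;> rw [ha] at h3 h4 <;>
      rcases h3 with h3 | h3 | h3 <;> rcases h4 with h4 | h4 | h4 <;> linarith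
  have h5 : w = (w a) • ee bar a := by
    funext c
    rw [Pi.smul_apply, smul_eq_mul]
    by_cases h1 : c = a
    · rw [h1, ee_self hfix, mul_one]
    · by_cases h2 : c = bar a
      · rw [h2, hw a, ee_apply hbar, ee_self hfix]
        ring
      · rw [h0 c h1 h2, ee_other h1 h2, mul_zero]
  have h6 : w ⬝ᵥ w = w a * (2 * w a) := by
    conv_lhs => rw [h5]
    rw [dotProduct_smul, dot_ee fun x => by
      rw [Pi.smul_apply, Pi.smul_apply, ee_apply hbar, smul_neg], Pi.smul_apply, ee_self hfix]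
    simp only [smul_eq_mul, mul_one]
  rw [h6]
  rcases ha with ha | ha
  · linear_combination (w a + 1 / 2) * ha
  · linear_combination (w a - 1 / 2) * ha

private theorem hpq_of (hbar : ∀ a, bar (bar a) = a) {w : Ω → ℚ} (hw : ∀ a, w (bar a) = -w a)
    (h : ∀ k, StSo bar k → w ⬝ᵥ k = -1 ∨ w ⬝ᵥ k = 0 ∨ w ⬝ᵥ k = 1) (a b : Ω) (h1 : b ≠ a)
    (h2 : b ≠ bar a) :
    (2 * w a + 2 * w b = -1 ∨ 2 * w a + 2 * w b = 0 ∨ 2 * w a + 2 * w b = 1) ∧
      (2 * w a - 2 * w b = -1 ∨ 2 * w a - 2 * w b = 0 ∨ 2 * w a - 2 * w b = 1) := by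
  have h3 := h _ (stSo_iff.2 ⟨a, b, h1, h2, rfl⟩)
  have h4 := h _ (stSo_iff.2 ⟨a, bar b, bar_ne hbar h2, bar_ne_bar hbar h1, rfl⟩)
  rw [dotProduct_add, dot_ee hw, dot_ee hw] at h3 h4
  rw [hw b, mul_neg, ← sub_eq_add_neg] at h4
  exact ⟨h3, h4⟩

theorem sp_nrm (hbar : ∀ a, bar (bar a) = a) (hfix : ∀ a, bar a ≠ a) {w : Ω → ℚ}
    (hw : ∀ a, w (bar a) = -w a) (h0 : w ≠ 0)
    (h : ∀ k, StSp bar k → w ⬝ᵥ k = -1 ∨ w ⬝ᵥ k = 0 ∨ w ⬝ᵥ k = 1) : w ⬝ᵥ w = 1 / 2 := by
  obtain ⟨a, ha⟩ : ∃ a, w a ≠ 0 := by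
    by_contra hcon
    push Not at hcon
    exact h0 (funext hcon)
  refine half hbar hfix hw (hpq_of hbar hw fun k hk => h k (Or.inr hk)) (a := a) ?_
  have h1 := h (ee bar a) (Or.inl ⟨a, rfl⟩)
  rw [dot_ee hw] at h1
  rcases h1 with h1 | h1 | h1
  · exact Or.inr h1
  · exact absurd (by linarith) ha
  · exact Or.inl h1

theorem so_nrm (hbar : ∀ a, bar (bar a) = a) (hfix : ∀ a, bar a ≠ a)
    (h6 : 6 ≤ Fintype.card Ω) {w : Ω → ℚ} (hw : ∀ a, w (bar a) = -w a) (h0 : w ≠ 0)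
    (h : ∀ k, StSo bar k → w ⬝ᵥ k = -1 ∨ w ⬝ᵥ k = 0 ∨ w ⬝ᵥ k = 1) :
    w ⬝ᵥ w = 1 / 2 ∨ 16 * (w ⬝ᵥ w) = Fintype.card Ω := by
  have hpq := hpq_of hbar hw h
  by_cases hA : ∃ a, 2 * w a = 1 ∨ 2 * w a = -1
  · obtain ⟨a, ha⟩ := hA
    exact Or.inl (half hbar hfix hw hpq ha)
  · right
    push Not at hA
    have h1 : ∃ a, w a ≠ 0 := by
      by_contra hcon
      push Not at hcon
      exact h0 (funext hcon)
    obtain ⟨a, ha⟩ := h1
    have hsq : ∀ c, w c * w c = 1 / 16 := by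
      have ha1 : 2 * w a = 1 / 2 ∨ 2 * w a = -(1 / 2) := by
        obtain ⟨b, hb1, hb2, -⟩ := exists_third bar h6 a a
        obtain ⟨h3, h4⟩ := hpq a b hb1 hb2
        have h5 := hA a
        rcases h3 with h3 | h3 | h3 <;> rcases h4 with h4 | h4 | h4
        · exact absurd (by linarith) h5.2
        · exact Or.inr (by linarith)
        · exact absurd (by linarith) ha
        · exact Or.inr (by linarith)
        · exact absurd (by linarith) ha
        · exact Or.inl (by linarith)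
        · exact absurd (by linarith) ha
        · exact Or.inl (by linarith)
        · exact absurd (by linarith) h5.1
      have ha2 : w a * w a = 1 / 16 := by
        rcases ha1 with h | h
        · rw [show w a = 1 / 4 by linarith]; norm_num
        · rw [show w a = -(1 / 4) by linarith]; norm_num
      intro c
      by_cases h1 : c = a
      · rw [h1, ha2]
      · by_cases h2 : c = bar a
        · rw [h2, hw a, neg_mul_neg, ha2]
        · obtain ⟨h3, h4⟩ := hpq a c h1 h2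
          have h6 : w c = 1 / 4 ∨ w c = -(1 / 4) := by
            rcases ha1 with h | h <;> rw [h] at h3 h4 <;>
              rcases h3 with h3 | h3 | h3 <;> rcases h4 with h4 | h4 | h4 <;>
              first
                | (exact Or.inl (by linarith))
                | (exact Or.inr (by linarith))
          rcases h6 with h | h <;> rw [h] <;> norm_num
    have h2 : w ⬝ᵥ w = Fintype.card Ω * (1 / 16) := by
      unfold dotProduct
      rw [Finset.sum_congr rfl fun c _ => hsq c, Finset.sum_const, Finset.card_univ,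
        nsmul_eq_mul]
    rw [h2]
    ring

end Pool.Agent.FQV
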