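import Pool.Agent.FQV.Defs

/-!
# The main theorem: the conditions
-/

set_option autoImplicit false

namespace Pool.Agent.FQV

open Module

variable {ι : Type} [Fintype ι] [DecidableEq ι] {E : Type} [CommRing E]

/-- The homomorphism `σ` is real. -/
def Rl (σ : E →+* ℂ) : Prop := ∀ a, starRingEnd ℂ (σ a) = σ a

/-- The Lie algebra `g` of the monodromy group with the Weil pairing `ψ` (`Mono`), and the types: the
irreducible subspaces of the eigenspace for a real homomorphism `σ` are symplectic if `sp σ`, else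
orthogonal. -/
structure MonoT (R : E →+* Matrix ι ι ℚ) (c : E → E) (Φ : Matrix ι ι ℚ) (sp : (E →+* ℂ) → Prop)
    (g : Submodule ℂ (Matrix ι ι ℂ)) (ψ : Matrix ι ι ℂ) : Prop extends Mono R c Φ g ψ where
  typ : ∀ σ : E →+* ℂ, Rl σ → ∀ W ≤ HS R σ, Irr g W →
    (sp σ → SympOn g ψ W) ∧ (¬ sp σ → OrthOn g ψ W)

/-- The powers of `τ` and the complex conjugation permute transitively the embeddings of the factor
of `E` to which `σ` belongs; if `n σ` is a `k`-th power `m ^ k`, `k ≥ 2`, and `m ^ (k - 1)` divides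
`r σ`, then `k` is prime to the degree of `K`. -/
def CondA (K : Subfield ℂ) (τ : ℂ ≃+* ℂ) (n r : (E →+* ℂ) → ℕ) (σ : E →+* ℂ) : Prop :=
  Cyc τ σ ∧ ∀ m k : ℕ, 2 ≤ k → n σ = m ^ k → m ^ (k - 1) ∣ r σ → (finrank ℚ K).Coprime k

/-- There is no twist: if `n σ' = n σ` and, for all `γ`, `r (γ σ')` and `r (γ σ)` are equal or one of
them is `0` and the other one `n σ`, then they are equal for all `γ`; if `n σ = 2` this is required
only if `σ'` is not the complex conjugate of `σ`. -/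
def NoTwist (n r : (E →+* ℂ) → ℕ) (σ : E →+* ℂ) : Prop :=
  ∀ σ' : E →+* ℂ, n σ ≠ 2 ∨ σ' ≠ cp starRingAut σ → n σ' = n σ →
    (∀ γ : ℂ ≃+* ℂ, r (cp γ σ') = r (cp γ σ) ∨
      (r (cp γ σ) = 0 ∧ r (cp γ σ') = n σ) ∨ (r (cp γ σ) = n σ ∧ r (cp γ σ') = 0)) →
    ∀ γ : ℂ ≃+* ℂ, r (cp γ σ') = r (cp γ σ)

/-- There is no factorisation `n σ = a * b`, `a, b > 1`, such that for the embeddings `σ'` of the
factor of `E` to which `σ` belongs all `r σ'` are divisible by `a` or `b`, one of them which is not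
`0` or `n σ` is divisible by `a`, and one by `b`. -/
def CondB (n r : (E →+* ℂ) → ℕ) (σ : E →+* ℂ) : Prop :=
  ∀ a b : ℕ, 1 < a → 1 < b → n σ = a * b → (∀ σ', SK σ σ' → a ∣ r σ' ∨ b ∣ r σ') →
    (∃ σ', SK σ σ' ∧ 0 < r σ' ∧ r σ' < n σ ∧ a ∣ r σ') →
      ¬ ∃ σ', SK σ σ' ∧ 0 < r σ' ∧ r σ' < n σ ∧ b ∣ r σ'

/-- For one of the embeddings `σ'` of the factor of `E` to which `σ` belongs: `0 < r σ' < n σ`,
`2 r σ' ≠ n σ` and `(n σ, r σ')` is not of the form `(N choose k, (N - 1) choose (k - 1))`,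
`2 ≤ k ≤ N - 2`; or `2 r σ' = n σ`, which is not `2 ^ m` with `m` even, `m ≥ 4`. -/
def CondU (n r : (E →+* ℂ) → ℕ) (σ : E →+* ℂ) : Prop :=
  (∃ σ', SK σ σ' ∧ 0 < r σ' ∧ r σ' < n σ ∧ 2 * r σ' ≠ n σ ∧ ∀ N k : ℕ, 2 ≤ k → k + 2 ≤ N →
    n σ = N.choose k → r σ' ≠ (N - 1).choose (k - 1)) ∨
  ((∃ σ', SK σ σ' ∧ 2 * r σ' = n σ) ∧ ∀ m : ℕ, 4 ≤ m → Even m → n σ ≠ 2 ^ m)

/-- The condition for a homomorphism `σ` which is not real. -/
def CondN (K : Subfield ℂ) (τ : ℂ ≃+* ℂ) (n r : (E →+* ℂ) → ℕ) (σ : E →+* ℂ) : Prop :=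
  NoTwist n r σ ∧ (((CondA K τ n r σ ∨ CondB n r σ) ∧ CondU n r σ) ∨
    (n σ = 4 ∧ ∃ σ', SK σ σ' ∧ r σ' = 2))

/-- The condition for a real homomorphism `σ`, of symplectic type if `sp σ`. -/
def CondR (K : Subfield ℂ) (τ : ℂ ≃+* ℂ) (n r : (E →+* ℂ) → ℕ) (sp : (E →+* ℂ) → Prop)
    (σ : E →+* ℂ) : Prop :=
  ((sp σ ∧ n σ = 4) ∨ ((CondA K τ n r σ ∨ ¬ 4 ∣ n σ) ∧ (∀ m : ℕ, 4 ≤ m → n σ ≠ 2 ^ m) ∧
    (sp σ ∨ n σ ≠ 8))) ∧
  ((∀ z ∈ K, starRingEnd ℂ z = z) ∨ ∀ k : ℕ, 3 ≤ k → (Odd k ↔ sp σ) → n σ ≠ (2 * k).choose k)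

/-- The numerical conditions: for every homomorphism `σ`; and if `n σ = 4`, `σ` is not real,
`n σ' = 6`, and `σ'` is real of orthogonal type, then some `r σ''`, for an embedding `σ''` of the
factor of `E` to which `σ` belongs, is not `1` or `3`. -/
def Num (K : Subfield ℂ) (τ : ℂ ≃+* ℂ) (n r : (E →+* ℂ) → ℕ) (sp : (E →+* ℂ) → Prop) : Prop :=
  (∀ σ : E →+* ℂ, n σ = 1 ∨ (¬ Rl σ ∧ CondN K τ n r σ) ∨ (Rl σ ∧ CondR K τ n r sp σ)) ∧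
  ∀ σ σ' : E →+* ℂ, ¬ Rl σ → Rl σ' → ¬ sp σ' → n σ = 4 → n σ' = 6 →
    ∃ σ'', SK σ σ'' ∧ r σ'' ≠ 1 ∧ r σ'' ≠ 3

end Pool.Agent.FQV
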