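import Pool.Agent.FQV.Rk
import Pool.Agent.FQV.Form2
import Pool.Agent.FQV.Spec
import Pool.Agent.FQ.Index

/-!
# Abelian varieties of dimension at most seven over `ℚ`

If `K = ℚ` and the dimension of the abelian variety is at most seven, all numerical conditions of the
main theorem are satisfied.
-/

set_option autoImplicit false
set_option linter.unusedSectionVars false

namespace Pool.Agent.FQV

open Module
open Pool.Agent.CoprimeSig (ratM)
open Pool.Agent.FQ (expG fixG)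

variable {ι : Type} [Fintype ι] [DecidableEq ι] {E : Type} [CommRing E]
  {R : E →+* Matrix ι ι ℚ} {Φ : Matrix ι ι ℚ} {c : E → E} {σ σ' : E →+* ℂ}
  {g : Submodule ℂ (Matrix ι ι ℂ)} {ψ : Matrix ι ι ℂ} {W : Submodule ℂ (ι → ℂ)}
  {r : (E →+* ℂ) → ℕ}

/-- Different eigenspaces are disjoint. -/
theorem sm_disj (h : σ ≠ σ') : Disjoint (HS R σ) (HS R σ') := by
  rw [Submodule.disjoint_def]
  intro v hv hv'
  by_contra h0
  apply h
  refine RingHom.ext fun a => ?_
  have h1 : σ a • v = σ' a • v := by rw [← hv a, ← hv' a]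
  exact smul_left_injective ℂ h0 h1

/-- The dimensions of two eigenspaces. -/
theorem sm_add (h : σ ≠ σ') :
    finrank ℂ (HS R σ) + finrank ℂ (HS R σ') ≤ Fintype.card ι := by
  have h1 := Submodule.finrank_add_finrank_le_of_disjoint (sm_disj (R := R) h)
  rwa [Module.finrank_fintype_fun_eq_card] at h1

private theorem sm_dot (X : Matrix ι ι ℂ) (u w : ι → ℂ) :
    X.mulVec u ⬝ᵥ w = u ⬝ᵥ X.transpose.mulVec w := by
  rw [Matrix.dotProduct_mulVec, Matrix.vecMul_transpose]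

/-- In the orthogonal case the eigenspace is not irreducible. -/
theorem sm_orth [Algebra ℚ E] [Module.Finite ℚ E] [IsReduced E] (M : Mono R c Φ g ψ)
    (hc : ∀ (σ : E →+* ℂ) a, σ (c a) = starRingEnd ℂ (σ a)) (hr : Rl σ)
    (hW : Irr g W) (hσ : W ≤ HS R σ) (ho : OrthOn g ψ W) : W ≠ HS R σ := by
  intro hWσ
  obtain ⟨p, P⟩ := exists_prj M hW.1
  have hnt : Nontrivial W := Submodule.nontrivial_iff_ne_bot.2 hW.2.1
  -- the form given by `ψ`
  let φ : W →ₗ[ℂ] W →ₗ[ℂ] ℂ :=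
    LinearMap.mk₂ ℂ (fun u w => (u : ι → ℂ) ⬝ᵥ ψ.mulVec (w : ι → ℂ))
      (fun a b d => by rw [Submodule.coe_add, add_dotProduct])
      (fun t a b => by rw [Submodule.coe_smul, smul_dotProduct])
      (fun a b d => by rw [Submodule.coe_add, Matrix.mulVec_add, dotProduct_add])
      (fun t a b => by rw [Submodule.coe_smul, Matrix.mulVec_smul, dotProduct_smul])
  have hφa : ∀ u w : W, φ u w = (u : ι → ℂ) ⬝ᵥ ψ.mulVec (w : ι → ℂ) := fun _ _ => rfl
  have halt : ∀ x, φ x x = 0 := by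
    intro x
    have h1 : (x : ι → ℂ) ⬝ᵥ ψ.mulVec (x : ι → ℂ) = -((x : ι → ℂ) ⬝ᵥ ψ.mulVec (x : ι → ℂ)) := by
      conv_lhs => rw [dotProduct_comm, sm_dot, M.alt, Matrix.neg_mulVec, dotProduct_neg]
    rw [hφa]
    linear_combination h1 / 2
  have hmul : Mul g ψ p φ := by
    intro x hx κ hκ u w
    rw [hφa, hφa, hφa, rm_apply P (hW.1 x hx), rm_apply P (hW.1 x hx), sm_dot,
      Matrix.mulVec_mulVec, Matrix.mulVec_mulVec, ← dotProduct_add, ← Matrix.add_mulVec, hκ,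
      Matrix.smul_mulVec, dotProduct_smul, smul_eq_mul]
  have hnd : ∀ x, (∀ y, φ x y = 0) → x = 0 := by
    intro x hx
    have h1 : ∀ w, (x : ι → ℂ) ⬝ᵥ ψ.mulVec w = 0 := by
      let L : (ι → ℂ) →ₗ[ℂ] ℂ :=
        { toFun := fun w => (x : ι → ℂ) ⬝ᵥ ψ.mulVec w
          map_add' := fun v w => by rw [Matrix.mulVec_add, dotProduct_add]
          map_smul' := fun t w => by rw [Matrix.mulVec_smul, dotProduct_smul, RingHom.id_apply] }
      have h2 : (⊤ : Submodule ℂ (ι → ℂ)) ≤ LinearMap.ker L := by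
        rw [← iSup_HS M]
        refine iSup_le fun σ' w hw => ?_
        rw [LinearMap.mem_ker]
        change (x : ι → ℂ) ⬝ᵥ ψ.mulVec w = 0
        by_cases hs : σ' = σ
        · subst hs
          rw [← hWσ] at hw
          exact hx ⟨w, hw⟩
        · by_contra hne
          apply hs
          refine RingHom.ext fun a => ?_
          have e1 : (ratM (R a)).mulVec (x : ι → ℂ) ⬝ᵥ ψ.mulVec w =
              (x : ι → ℂ) ⬝ᵥ ψ.mulVec ((ratM (R (c a))).mulVec w) := by
            rw [sm_dot, Matrix.mulVec_mulVec, Matrix.mulVec_mulVec, M.ros]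
          rw [hσ x.2 a, hw (c a), Matrix.mulVec_smul, smul_dotProduct, dotProduct_smul,
            smul_eq_mul, smul_eq_mul, hc] at e1
          have e2 := mul_right_cancel₀ hne e1
          rw [← hr a, e2, Complex.conj_conj]
      intro w
      exact LinearMap.mem_ker.1 (h2 (Submodule.mem_top : w ∈ ⊤))
    obtain ⟨w, hw⟩ := M.unit
    have hinv : ψ * ((w⁻¹ : (Matrix ι ι ℂ)ˣ) : Matrix ι ι ℂ) = 1 := by
      rw [← hw]
      exact w.mul_inv
    apply Subtype.ext
    refine dotProduct_eq_zero _ fun z => ?_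
    have h3 := h1 (((w⁻¹ : (Matrix ι ι ℂ)ˣ) : Matrix ι ι ℂ).mulVec z)
    rwa [Matrix.mulVec_mulVec, hinv, Matrix.one_mulVec] at h3
  -- the symmetric form
  obtain ⟨θ, hsym, hndθ, hmulθ⟩ := ho
  have hm : Mul g ψ p (θ.compl₁₂ W.subtype W.subtype) := by
    intro y hy κ hκ u w
    simp only [LinearMap.compl₁₂_apply, Submodule.subtype_apply]
    rw [rm_apply P (hW.1 y hy), rm_apply P (hW.1 y hy)]
    exact hmulθ y hy κ hκ u u.2 w w.2
  obtain ⟨t, ht⟩ := IsForm.unique M hW P ⟨hnd, hmul⟩ hm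
  obtain ⟨z, hz⟩ := exists_ne (0 : W)
  apply hz
  apply Subtype.ext
  refine hndθ z z.2 fun y hy => ?_
  -- symmetric and alternating
  have e1 : ∀ u w : W, θ u w = t * φ u w := fun u w => by
    have h1 := LinearMap.congr_fun (LinearMap.congr_fun ht u) w
    exact h1
  have e2 := e1 z ⟨y, hy⟩
  have e3 := e1 ⟨y, hy⟩ z
  have e4 := hsym z z.2 y hy
  have e5 : φ z ⟨y, hy⟩ = -φ ⟨y, hy⟩ z := by
    have h1 := halt (z + ⟨y, hy⟩)
    rw [map_add, map_add, LinearMap.add_apply, LinearMap.add_apply, halt z, halt ⟨y, hy⟩] at h1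
    linear_combination h1
  have e6 : θ z y = -θ z y := by
    have h1 : θ (z : ι → ℂ) y = t * φ z ⟨y, hy⟩ := e2
    have h2 : θ y (z : ι → ℂ) = t * φ ⟨y, hy⟩ z := e3
    rw [h1, e5]
    rw [h1, h2, e5] at e4
    linear_combination e4
  linear_combination e6 / 2

/-- In the orthogonal case the dimension of the eigenspace is at least twice the dimension of the
irreducible subspaces. -/
theorem sm_two [Algebra ℚ E] [Module.Finite ℚ E] [IsReduced E] (M : Mono R c Φ g ψ)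
    (H : IsFrob R Φ) (hc : ∀ (σ : E →+* ℂ) a, σ (c a) = starRingEnd ℂ (σ a)) {n : ℕ}
    (hdim : ∀ W ≤ HS R σ, Irr g W → finrank ℂ W = n) (hr : Rl σ)
    (ho : ∀ W ≤ HS R σ, Irr g W → OrthOn g ψ W) : 2 * n ≤ finrank ℂ (HS R σ) := by
  obtain ⟨W, hWσ, hW⟩ := exists_irr (HS_stable M) (HS_ne_bot H.inj σ)
  have h1 := sm_orth M hc hr hW hWσ (ho W hWσ hW)
  obtain ⟨W', hcp, hW'⟩ := M.ss W hW.1
  have h2 : HS R σ ⊓ W' ≠ ⊥ := by
    intro h3
    apply h1
    refine le_antisymm hWσ fun u hu => ?_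
    have h4 : u ∈ W ⊔ W' := by
      rw [hcp.sup_eq_top]
      exact Submodule.mem_top
    obtain ⟨a, ha, b, hb, rfl⟩ := Submodule.mem_sup.1 h4
    have h5 : b ∈ HS R σ ⊓ W' := by
      refine ⟨?_, hb⟩
      have h6 := (HS R σ).sub_mem hu (hWσ ha)
      rwa [add_sub_cancel_left] at h6
    rw [h3, Submodule.mem_bot] at h5
    rw [h5, add_zero]
    exact ha
  obtain ⟨U, hU, hUi⟩ := exists_irr (g := g) (fun x hx u (hu : u ∈ HS R σ ⊓ W') =>
    (⟨HS_stable M x hx u hu.1, hW' x hx u hu.2⟩ : x.mulVec u ∈ HS R σ ⊓ W')) h2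
  have h3 : Disjoint W U := hcp.disjoint.mono_right (hU.trans inf_le_right)
  have h4 := Submodule.finrank_sup_add_finrank_inf_eq W U
  rw [h3.eq_bot, finrank_bot, add_zero] at h4
  have h5 := hdim W hWσ hW
  have h6 := hdim U (hU.trans inf_le_left) hUi
  have h7 : finrank ℂ (W ⊔ U : Submodule ℂ (ι → ℂ)) ≤ finrank ℂ (HS R σ) :=
    Submodule.finrank_mono (sup_le hWσ (hU.trans inf_le_left))
  omega

/-- The multiplicities are constant on the factors of `E` if `K = ℚ`. -/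
theorem sm_const [Algebra ℚ E] [Module.Finite ℚ E] [IsReduced E] (H : IsFrob R Φ)
    (hI : Idem Φ) {K : Subfield ℂ} (hK : K = ⊥)
    (hHT : ∀ γ ∈ fixG K, ∀ S : Finset ℂ, (∀ x ∈ S, IsAlgebraic ℚ x) →
      ∃ τ : ℂ ≃+* ℂ, (∀ x ∈ S, τ x = γ x) ∧ ∃ (g : Submodule ℂ (Matrix ι ι ℂ))
        (ψ e : Matrix ι ι ℂ), Mono R c Φ g ψ ∧ Coch R Φ r g ψ τ e) (γ : ℂ ≃+* ℂ) (σ : E →+* ℂ) :
    r (cp γ σ) = r σ := by
  have hγ : γ ∈ fixG K := by
    intro x hx
    rw [hK] at hx
    obtain ⟨q, rfl⟩ : ∃ q : ℚ, (q : ℂ) = x := by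
      have h1 : (⊥ : Subfield ℂ) ≤ (algebraMap ℚ ℂ).fieldRange := bot_le
      obtain ⟨q, hq⟩ := h1 hx
      exact ⟨q, hq⟩
    exact map_ratCast γ q
  let b := Module.finBasis ℚ E
  have hfin : (Set.range fun i => σ (b i)).Finite := Set.finite_range _
  obtain ⟨τ, hτ, g, ψ, e, M, C⟩ := hHT γ hγ hfin.toFinset (by
    intro x hx
    rw [Set.Finite.mem_toFinset] at hx
    obtain ⟨i, rfl⟩ := hx
    have h1 : IsAlgebraic ℚ (b i) := Algebra.IsAlgebraic.isAlgebraic _
    exact h1.algHom σ.toRatAlgHom)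
  have hS : cp γ σ = cp τ σ := by
    have h1 : (cp γ σ).toRatAlgHom.toLinearMap = (cp τ σ).toRatAlgHom.toLinearMap := by
      refine b.ext fun i => ?_
      change γ (σ (b i)) = τ (σ (b i))
      refine (hτ _ ?_).symm
      rw [Set.Finite.mem_toFinset]
      exact ⟨i, rfl⟩
    ext a
    exact LinearMap.congr_fun h1 a
  rw [hS]
  exact r_coch M H hI C σ

/-- **The numerical conditions** are satisfied if `K = ℚ` and the dimension is at most seven. -/
theorem small [Algebra ℚ E] [Module.Finite ℚ E] [IsReduced E] (H : IsFrob R Φ)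
    (hI : Idem Φ) (hc : ∀ (σ : E →+* ℂ) a, σ (c a) = starRingEnd ℂ (σ a))
    {K : Subfield ℂ} (hK : K = ⊥) (hι : Fintype.card ι ≤ 14) {n : (E →+* ℂ) → ℕ}
    {sp : (E →+* ℂ) → Prop} (hspk : ∀ σ σ' : E →+* ℂ, SK σ σ' → sp σ → sp σ')
    (hHT : ∀ γ ∈ fixG K, ∀ S : Finset ℂ, (∀ x ∈ S, IsAlgebraic ℚ x) →
      ∃ τ : ℂ ≃+* ℂ, (∀ x ∈ S, τ x = γ x) ∧ ∃ (g : Submodule ℂ (Matrix ι ι ℂ))
        (ψ e : Matrix ι ι ℂ), Mono R c Φ g ψ ∧ Coch R Φ r g ψ τ e)
    {τ : ℂ ≃+* ℂ} {e : Matrix ι ι ℂ} (MT : MonoT R c Φ sp g ψ) (C : Coch R Φ r g ψ τ e)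
    (hdim : ∀ (σ : E →+* ℂ), ∀ W ≤ HS R σ, Irr g W → finrank ℂ W = n σ) :
    Num K τ n r sp := by
  have M : Mono R c Φ g ψ := MT.toMono
  have hK' : ∀ z ∈ K, starRingEnd ℂ z = z := by
    intro z hz
    rw [hK] at hz
    have h1 : (⊥ : Subfield ℂ) ≤ (algebraMap ℚ ℂ).fieldRange := bot_le
    obtain ⟨q, rfl⟩ := h1 hz
    exact map_ratCast (starRingEnd ℂ) q
  have hd : finrank ℚ K = 1 := by
    refine (finrank_eq_one_iff_of_nonzero' (1 : K) one_ne_zero).2 fun w => ?_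
    have h1 : (⊥ : Subfield ℂ) ≤ (algebraMap ℚ ℂ).fieldRange := bot_le
    have h2 : (w : ℂ) ∈ (⊥ : Subfield ℂ) := by
      rw [← hK]
      exact w.2
    obtain ⟨q, hq⟩ := h1 h2
    refine ⟨q, Subtype.ext ?_⟩
    rw [← hq, Rat.smul_def]
    simp
  have hn : ∀ σ : E →+* ℂ, Fintype.card (Om R Φ σ) = n σ := by
    intro σ
    obtain ⟨W, p, v, F⟩ := exists_frame M H hI σ
    rw [F.card, hdim σ W F.le F.irr]
  have hle : ∀ σ : E →+* ℂ, 0 < n σ ∧ n σ ≤ finrank ℂ (HS R σ) := by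
    intro σ
    obtain ⟨W, p, v, F⟩ := exists_frame M H hI σ
    have hnt := F.nontrivial
    have h1 : 0 < finrank ℂ W := finrank_pos
    rw [← hdim σ W F.le F.irr]
    exact ⟨h1, Submodule.finrank_mono F.le⟩
  have hconst := fun (γ : ℂ ≃+* ℂ) (σ : E →+* ℂ) => sm_const (c := c) H hI hK hHT γ σ
  have hhalf : ∀ σ : E →+* ℂ, 2 * r σ = n σ := by
    intro σ
    have h1 := r_dual M H hI C σ
    rw [hconst, hn] at h1
    omega
  have hsk : ∀ σ σ' : E →+* ℂ, SK σ σ' → r σ' = r σ ∧ n σ' = n σ := by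
    intro σ σ' h
    have h1 : r σ' = r σ := by
      obtain ⟨γ, rfl⟩ := h.exists_cp
      exact hconst γ σ
    refine ⟨h1, ?_⟩
    rw [← hhalf, ← hhalf, h1]
  have hnt : ∀ σ : E →+* ℂ, NoTwist n r σ := by
    intro σ σ' _ _ h γ
    have h1 := hhalf σ
    have h2 := (hle σ).1
    have h3 := hconst γ σ
    rcases h γ with h4 | h4 | h4
    · exact h4
    · omega
    · omega
  -- the condition on the factorisations
  have hB : ∀ σ : E →+* ℂ, n σ = 2 ∨ n σ = 6 ∨ n σ = 10 ∨ n σ = 14 → CondB n r σ := by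
    intro σ h a b ha hb hab hdiv hA hB
    obtain ⟨σ₁, hs₁, -, -, h1⟩ := hA
    obtain ⟨σ₂, hs₂, -, -, h2⟩ := hB
    rw [(hsk σ σ₁ hs₁).1] at h1
    rw [(hsk σ σ₂ hs₂).1] at h2
    have h3 := hhalf σ
    obtain ⟨x, hx⟩ := h1
    obtain ⟨y, hy⟩ := h2
    -- `a b = 2 r`, `r = a x = b y`, `r` odd
    have h4 : b = 2 * x := by
      have : a * b = a * (2 * x) := by rw [← hab, ← h3, hx]; ring
      exact Nat.eq_of_mul_eq_mul_left (by omega) this
    have h5 : Odd (r σ) := by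
      rcases h with h | h | h | h <;> rw [h] at h3
      · exact ⟨0, by omega⟩
      · exact ⟨1, by omega⟩
      · exact ⟨2, by omega⟩
      · exact ⟨3, by omega⟩
    rw [hy, h4, mul_assoc] at h5
    exact (Nat.not_odd_iff_even.2 (even_two_mul _)) h5
  have hA : ∀ σ : E →+* ℂ, (∀ σ', SK σ σ' → σ' = σ) → CondA K τ n r σ := by
    intro σ h
    refine ⟨fun σ₁ σ₂ h1 h2 => ⟨0, Or.inl fun a => ?_⟩, fun m k _ _ _ => ?_⟩
    · rw [h σ₁ h1, h σ₂ h2]
      rfl
    · rw [hd]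
      exact Nat.coprime_one_left k
  have hcyc : ∀ σ : E →+* ℂ, 7 < finrank ℂ (HS R σ) → (∀ σ', SK σ σ' → 7 < finrank ℂ (HS R σ')) →
      CondA K τ n r σ := by
    intro σ h1 h2
    refine hA σ fun σ' hs => ?_
    by_contra hne
    have h3 := sm_add (R := R) hne
    have h4 := h2 σ' hs
    omega
  have hev : ∀ σ : E →+* ℂ, n σ % 2 = 0 := fun σ => by
    have := hhalf σ
    omega
  have horth : ∀ σ : E →+* ℂ, Rl σ → ¬ sp σ → 2 * n σ ≤ finrank ℂ (HS R σ) := fun σ hr hs =>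
    sm_two M H hc (hdim σ) hr fun W hW hi => (MT.typ σ hr W hW hi).2 hs
  have htop : ∀ σ : E →+* ℂ, finrank ℂ (HS R σ) ≤ 14 := by
    intro σ
    refine (Submodule.finrank_le _).trans ?_
    rwa [Module.finrank_fintype_fun_eq_card]
  refine ⟨fun σ => ?_, ?_⟩
  · right
    have h0 := (hle σ).1
    have h1 := (hle σ).2
    have h2 := htop σ
    have h3 := hev σ
    by_cases hr : Rl σ
    · right
      refine ⟨hr, ?_, Or.inl hK'⟩
      have h16 : ∀ m : ℕ, 4 ≤ m → n σ ≠ 2 ^ m := by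
        intro m hm h5
        have h6 : 2 ^ 4 ≤ 2 ^ m := Nat.pow_le_pow_right (by norm_num) hm
        omega
      by_cases hs : sp σ
      · by_cases h4 : n σ = 4
        · exact Or.inl ⟨hs, h4⟩
        right
        refine ⟨?_, h16, Or.inl hs⟩
        by_cases h5 : 4 ∣ n σ
        · left
          refine hcyc σ (by omega) fun σ' hs' => ?_
          have h6 := (hsk σ σ' hs').2
          have h7 := (hle σ').2
          omega
        · exact Or.inr h5
      · have h4 := horth σ hr hs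
        right
        refine ⟨?_, h16, Or.inr (by omega)⟩
        by_cases h5 : 4 ∣ n σ
        · left
          refine hcyc σ (by omega) fun σ' hs' => ?_
          have h6 := (hsk σ σ' hs').2
          have hr' : Rl σ' := fun a => by
            have h7 : σ' (c a - a) = 0 := by
              rw [hs', map_sub, hc, hr, sub_self]
            rw [map_sub, hc, sub_eq_zero] at h7
            exact h7
          have h7 := horth σ' hr' fun h8 => hs (hspk σ' σ (fun a => (hs' a).symm) h8)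
          omega
        · exact Or.inr h5
    · left
      refine ⟨hr, hnt σ, ?_⟩
      have hne : cp starRingAut σ ≠ σ := by
        intro h4
        apply hr
        intro a
        exact RingHom.congr_fun h4 a
      have h4 := sm_add (R := R) hne
      have h5 := (hle (cp starRingAut σ)).2
      rw [(hsk σ _ (sk_cp starRingAut σ)).2] at h5
      have h6 : n σ = 2 ∨ n σ = 4 ∨ n σ = 6 := by omega
      have h7 := hhalf σ
      rcases h6 with h6 | h6 | h6
      · left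
        refine ⟨Or.inr (hB σ (Or.inl h6)), Or.inr ⟨⟨σ, fun _ => Iff.rfl, h7⟩, ?_⟩⟩
        intro m hm _ h8
        have h9 : (2 : ℕ) ^ 4 ∣ 2 ^ m := pow_dvd_pow 2 hm
        rw [← h8, h6] at h9
        omega
      · right
        exact ⟨h6, σ, fun _ => Iff.rfl, by omega⟩
      · left
        refine ⟨Or.inr (hB σ (Or.inr (Or.inl h6))), Or.inr ⟨⟨σ, fun _ => Iff.rfl, h7⟩, ?_⟩⟩
        intro m hm _ h8
        have h9 : (2 : ℕ) ^ 4 ∣ 2 ^ m := pow_dvd_pow 2 hm
        rw [← h8, h6] at h9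
        omega
  · intro σ σ' hr hr' hs' h4 h6
    exfalso
    have hne : σ ≠ σ' := by
      rintro rfl
      exact hr hr'
    have h1 := sm_add (R := R) hne
    have h2 := (hle σ).2
    have h3 := horth σ' hr' hs'
    omega

end Pool.Agent.FQV
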