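import Pool.Agent.FQV.Full
import Pool.Agent.FQV.Eight
import Pool.Agent.FQV.Final
import Pool.Agent.FQV.Small

/-!
# The main theorem
-/

set_option autoImplicit false
set_option linter.unusedSectionVars false

namespace Pool.Agent.FQV

open Module
open Pool.Agent.CoprimeSig (ratM)
open Pool.Agent.FQA (TD Cn Fl)
open Pool.Agent.NumRank (Lv)
open Pool.Agent.PrimePow.CC (Rf Rt Lat)
open Pool.Agent.FQ (expG fixG)

variable {ι : Type} [Fintype ι] [DecidableEq ι] {E : Type} [CommRing E]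
  {R : E →+* Matrix ι ι ℚ} {Φ : Matrix ι ι ℚ} {c : E → E}

private theorem mn_alg {μ : ℂ} (hμ : Module.End.HasEigenvalue (Matrix.toLin' (ratM Φ)) μ) :
    IsAlgebraic ℚ μ := by
  rw [Module.End.hasEigenvalue_iff_isRoot_charpoly, Matrix.charpoly_toLin'] at hμ
  refine ⟨Φ.charpoly, Φ.charpoly_monic.ne_zero, ?_⟩
  have h2 : (ratM Φ).charpoly = Φ.charpoly.map (algebraMap ℚ ℂ) := by
    rw [← Matrix.charpoly_map]
    rfl
  rw [h2] at hμ
  rwa [Polynomial.IsRoot.def, Polynomial.eval_map_algebraMap] at hμ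

private theorem SK.symm' {σ σ' : E →+* ℂ} (h : SK σ σ') : SK σ' σ := fun a => (h a).symm

private theorem SK.trans' {σ σ' σ'' : E →+* ℂ} (h : SK σ σ') (h' : SK σ' σ'') : SK σ σ'' :=
  fun a => (h' a).trans (h a)

/-- The restriction of a form to `W`. -/
private noncomputable def rsF (W : Submodule ℂ (ι → ℂ))
    (θ : (ι → ℂ) →ₗ[ℂ] (ι → ℂ) →ₗ[ℂ] ℂ) : W →ₗ[ℂ] W →ₗ[ℂ] ℂ :=
  θ.compl₁₂ W.subtype W.subtype

private theorem rsF_apply (W : Submodule ℂ (ι → ℂ)) (θ : (ι → ℂ) →ₗ[ℂ] (ι → ℂ) →ₗ[ℂ] ℂ)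
    (u w : W) : rsF W θ u w = θ u w := rfl

private theorem rsF_form {σ : E →+* ℂ} {g : Submodule ℂ (Matrix ι ι ℂ)} {ψ : Matrix ι ι ℂ}
    {W : Submodule ℂ (ι → ℂ)} {p : (ι → ℂ) →ₗ[ℂ] W} {v : Basis (Om R Φ σ) ℂ W}
    (F : Frame R Φ g σ W p v) {θ : (ι → ℂ) →ₗ[ℂ] (ι → ℂ) →ₗ[ℂ] ℂ}
    (hnd : ∀ x ∈ W, (∀ y ∈ W, θ x y = 0) → x = 0)
    (hmul : ∀ x ∈ g, ∀ κ : ℂ, x.transpose * ψ + ψ * x = κ • ψ →
      ∀ u ∈ W, ∀ v ∈ W, θ (x.mulVec u) v + θ u (x.mulVec v) = κ * θ u v) :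
    IsForm g ψ p (rsF W θ) := by
  refine ⟨fun x hx => Subtype.ext (hnd x x.2 fun y hy => hx ⟨y, hy⟩), ?_⟩
  intro y hy κ hκ u w
  rw [rsF_apply, rsF_apply, rsF_apply, rm_apply F.prj (F.irr.1 y hy),
    rm_apply F.prj (F.irr.1 y hy)]
  exact hmul y hy κ hκ u u.2 w w.2

/-- **The main theorem.** -/
theorem main [Algebra ℚ E] [Module.Finite ℚ E] [IsReduced E] (H : IsFrob R Φ)
    (hc : ∀ (σ : E →+* ℂ) a, σ (c a) = starRingEnd ℂ (σ a))
    {K : Subfield ℂ} [FiniteDimensional ℚ K] {n r : (E →+* ℂ) → ℕ} {sp : (E →+* ℂ) → Prop}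
    (hsk : ∀ σ σ' : E →+* ℂ, SK σ σ' → sp σ → sp σ')
    (hHT : ∀ γ ∈ fixG K, ∀ S : Finset ℂ, (∀ x ∈ S, IsAlgebraic ℚ x) →
      ∃ τ : ℂ ≃+* ℂ, (∀ x ∈ S, τ x = γ x) ∧ ∃ (g : Submodule ℂ (Matrix ι ι ℂ))
        (ψ e : Matrix ι ι ℂ), MonoT R c Φ sp g ψ ∧ Coch R Φ r g ψ τ e)
    (hNW : ∃ τ ∈ fixG K, ∃ (g : Submodule ℂ (Matrix ι ι ℂ)) (ψ e : Matrix ι ι ℂ),
      MonoT R c Φ sp g ψ ∧ Coch R Φ r g ψ τ e ∧ tor Φ ≤ Submodule.span ℂ (orbit Φ g e) ∧
      (∀ (σ : E →+* ℂ), ∀ W ≤ HS R σ, Irr g W → finrank ℂ W = n σ) ∧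
      ((K = ⊥ ∧ Fintype.card ι ≤ 14) ∨ Num K τ n r sp))
    {g : Submodule ℂ (Matrix ι ι ℂ)} {ψ : Matrix ι ι ℂ}
    (MT : MonoT R c Φ sp g ψ) (N : Matrix ι ι ℂ) :
    N ∈ g ↔ (∀ Z : Matrix ι ι ℂ, (∀ x ∈ g, x * Z = Z * x) → N * Z = Z * N) ∧
      ∃ a : (ℂ ≃+* ℂ) →₀ ℂ, TrC R r g ψ N a := by
  classical
  have M : Mono R c Φ g ψ := MT.toMono
  obtain ⟨τ₀, hτ₀, g₀, ψ₀, e₀, MT₀, C₀, hspan, hdim, hnum⟩ := hNW
  have M₀ : Mono R c Φ g₀ ψ₀ := MT₀.toMono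
  let P : Submodule ℂ (Matrix ι ι ℂ) → Matrix ι ι ℂ → Prop := fun g ψ =>
    ∀ σ : E →+* ℂ, Rl σ → ∀ W ≤ HS R σ, Irr g W → (sp σ → SympOn g ψ W) ∧ (¬ sp σ → OrthOn g ψ W)
  have hP : P g ψ := MT.typ
  have hP₀ : P g₀ ψ₀ := MT₀.typ
  have hHTm : ∀ γ ∈ fixG K, ∀ S : Finset ℂ, (∀ x ∈ S, IsAlgebraic ℚ x) →
      ∃ τ : ℂ ≃+* ℂ, (∀ x ∈ S, τ x = γ x) ∧ ∃ (g : Submodule ℂ (Matrix ι ι ℂ))
        (ψ e : Matrix ι ι ℂ), Mono R c Φ g ψ ∧ Coch R Φ r g ψ τ e := by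
    intro γ hγ S hS
    obtain ⟨τ, h1, g, ψ, e, h2, h3⟩ := hHT γ hγ S hS
    exact ⟨τ, h1, g, ψ, e, h2.toMono, h3⟩
  have hHTp : ∀ γ ∈ fixG K, ∀ S : Finset ℂ, (∀ x ∈ S, IsAlgebraic ℚ x) →
      ∃ τ : ℂ ≃+* ℂ, (∀ x ∈ S, τ x = γ x) ∧ ∃ (g : Submodule ℂ (Matrix ι ι ℂ))
        (ψ e : Matrix ι ι ℂ), Mono R c Φ g ψ ∧ P g ψ ∧ Coch R Φ r g ψ τ e := by
    intro γ hγ S hS
    obtain ⟨τ, h1, g, ψ, e, h2, h3⟩ := hHT γ hγ S hS
    exact ⟨τ, h1, g, ψ, e, h2.toMono, h2.typ, h3⟩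
  have hR : Rk R Φ r := rk_of M₀ H C₀ hspan
  have hI : Idem Φ := hR.tr.idem
  obtain ⟨hcond, hex⟩ : Num K τ₀ n r sp := by
    rcases hnum with ⟨hK, hι⟩ | hnum
    · exact small H hI hc hK hι hsk hHTm MT₀ C₀ hdim
    · exact hnum
  have hn : ∀ σ : E →+* ℂ, Fintype.card (Om R Φ σ) = n σ := by
    intro σ
    obtain ⟨W, p, v, F⟩ := exists_frame M₀ H hI σ
    rw [F.card, hdim σ W F.le F.irr]
  have hn0 : ∀ σ : E →+* ℂ, n σ ≠ 0 := by
    intro σ h0
    obtain ⟨W, p, v, F⟩ := exists_frame M₀ H hI σ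
    have hnt := F.nontrivial
    have h1 : 0 < finrank ℂ W := finrank_pos
    rw [← F.card, hn, h0] at h1
    exact lt_irrefl _ h1
  have hnsk : ∀ σ σ' : E →+* ℂ, SK σ σ' → n σ' = n σ := by
    intro σ σ' h
    rw [← hn, ← hn, h.card]
  have hrl : ∀ σ : E →+* ℂ, Rl σ → 2 * r σ = n σ := by
    intro σ h
    rw [← hn]
    exact r_real M₀ H hI C₀ h
  have hrlsk : ∀ σ σ' : E →+* ℂ, Rl σ → SK σ σ' → Rl σ' := fun σ σ' h h' =>
    real_sk hc h h'
  -- the ranks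
  have hposA : ∀ σ : E →+* ℂ, n σ ≠ 1 → CondA K τ₀ n r σ → ∀ σ', SK σ σ' →
      0 < r σ' ∧ r σ' < n σ := by
    intro σ h1 hA σ' hsk
    have h2 : 2 ≤ Fintype.card (Om R Φ σ) := by
      have := hn0 σ
      rw [hn]
      omega
    have h3 := r_pos M₀ H hR C₀ hA.1 h2 hsk
    rwa [hn, hnsk σ σ' hsk] at h3
  have hpos' : ∀ σ : E →+* ℂ, n σ ≠ 1 → CondA K τ₀ n r σ → ∀ σ', SK σ σ' →
      0 < r σ' ∧ r σ' < Fintype.card (Om R Φ σ') := by
    intro σ h1 hA σ' hsk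
    rw [hn, hnsk σ σ' hsk]
    exact hposA σ h1 hA σ' hsk
  -- no twists
  have hnt : ∀ σ : E →+* ℂ, n σ ≠ 1 → NoTwist n r σ := by
    intro σ h1
    rcases hcond σ with h2 | ⟨-, h2, -⟩ | ⟨hr, -⟩
    · exact absurd h2 h1
    · exact h2
    · intro σ' _ _ h γ
      have h2 := hrl (cp γ σ) (hrlsk σ _ hr (sk_cp γ σ))
      rw [hnsk σ _ (sk_cp γ σ)] at h2
      have := hn0 σ
      rcases h γ with h3 | h3 | h3
      · exact h3
      · omega
      · omega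
  have hself : ∀ σ : E →+* ℂ, n σ ≠ 1 → n σ ≠ 2 → (∀ σ', SK σ σ' → 2 * r σ' = n σ ∨ r σ' = 0 ∨
      r σ' = n σ) → ∀ σ', SK σ σ' → 2 * r σ' = n σ := by
    intro σ h1 h1' h σ' hsk
    have hcj : ∀ γ : ℂ ≃+* ℂ, r (cp γ (cp starRingAut σ)) + r (cp γ σ) = n σ := by
      intro γ
      obtain ⟨e, he, hee, htr, hs⟩ := hR.ex γ
      have h2 := sm_dual H he hee htr σ
      rw [hs, hs, hn] at h2
      exact_mod_cast h2
    have h2 := hnt σ h1 (cp starRingAut σ) (Or.inl h1') (by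
      rw [← hn, ← hn, card_cp]) (by
      intro γ
      have h3 := hcj γ
      rcases h _ (sk_cp γ σ) with h4 | h4 | h4
      · left; omega
      · right; left; omega
      · right; right; omega)
    obtain ⟨γ, rfl⟩ := hsk.exists_cp
    have h3 := hcj γ
    have h4 := h2 γ
    omega
  -- the factorisations in the real case
  have hBr : ∀ σ : E →+* ℂ, Rl σ → ¬ 4 ∣ n σ → CondB n r σ := by
    rintro σ hr h4 a b ha hb hab - ⟨σ₁, hs₁, -, -, x, hx⟩ ⟨σ₂, hs₂, -, -, y, hy⟩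
    have e1 := hrl σ₁ (hrlsk σ σ₁ hr hs₁)
    have e2 := hrl σ₂ (hrlsk σ σ₂ hr hs₂)
    rw [hnsk σ σ₁ hs₁, hx] at e1
    rw [hnsk σ σ₂ hs₂, hy] at e2
    apply h4
    have e3 : b = 2 * x := by
      have : a * b = a * (2 * x) := by rw [← hab, ← e1]; ring
      exact Nat.eq_of_mul_eq_mul_left (by omega) this
    have e4 : a = 2 * y := by
      have : b * a = b * (2 * y) := by rw [mul_comm, ← hab, ← e2]; ring
      exact Nat.eq_of_mul_eq_mul_left (by omega) this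
    refine ⟨y * x, ?_⟩
    rw [hab, e3, e4]
    ring
  -- connectedness
  have hcn : ∀ σ : E →+* ℂ, n σ ≠ 1 → (CondA K τ₀ n r σ ∨ CondB n r σ) →
      ∀ h h', Rt (Ls R Φ σ) h → Rt (Ls R Φ σ) h' → Cn (Ls R Φ σ) h h' := by
    intro σ h1 hAB
    rcases hAB with hA | hB
    · intro h h' hh hh'
      refine all_cn H hI hc K hHTm hτ₀ M₀ C₀ hspan σ hA.1 (hpos' σ h1 hA) ?_ h h' hh hh'
      rw [hn]
      exact hA.2
    · obtain ⟨W, p, v, F⟩ := exists_frame M₀ H hI σ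
      refine cn_num hR M₀ H F ?_
      rw [hn]
      exact hB
  have hAsk : ∀ σ σ' : E →+* ℂ, SK σ σ' → CondA K τ₀ n r σ → CondA K τ₀ n r σ' := by
    intro σ σ' hsk hA
    refine ⟨fun σ₁ σ₂ h1 h2 => hA.1 σ₁ σ₂ (hsk.trans' h1) (hsk.trans' h2), ?_⟩
    intro m k hk hm hd
    rw [hnsk σ σ' hsk] at hm
    refine hA.2 m k hk hm ?_
    have h3 : m ^ (k - 1) ∣ n σ := by
      rw [hm]
      exact pow_dvd_pow m (by omega)
    rcases r_cyc M₀ H hI C₀ hA.1 hsk with h4 | h4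
    · rwa [h4] at hd
    · rw [hn] at h4
      rw [← h4] at h3
      exact (Nat.dvd_add_right hd).1 h3
  -- the types of the forms
  have halt : ∀ σ : E →+* ℂ, Rl σ → sp σ → Alt P R c Φ σ := fun σ hr hs =>
    alt_of_symp fun g ψ _ hP W hW hirr => (hP σ hr W hW hirr).1 hs
  have hspsk : ∀ (g : Submodule ℂ (Matrix ι ι ℂ)) (ψ : Matrix ι ι ℂ), P g ψ →
      ∀ σ : E →+* ℂ, Rl σ → ¬ sp σ → ∀ (W : Submodule ℂ (ι → ℂ)) (p : (ι → ℂ) →ₗ[ℂ] W)
      (v : Basis (Om R Φ σ) ℂ W), Frame R Φ g σ W p v → ∃ φ : W →ₗ[ℂ] W →ₗ[ℂ] ℂ,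
        IsForm g ψ p φ ∧ ∀ x y, φ x y = φ y x := by
    intro g ψ hP σ hr hs W p v F
    obtain ⟨θ, hsym, hnd, hmul⟩ := (hP σ hr W F.le F.irr).2 hs
    exact ⟨rsF W θ, rsF_form F hnd hmul, fun x y => hsym x x.2 y y.2⟩
  -- no roots without zeros
  have hnofl : ∀ σ : E →+* ℂ, n σ ≠ 1 → n σ ≠ 2 → Rl σ → CondA K τ₀ n r σ →
      (∀ (g : Submodule ℂ (Matrix ι ι ℂ)) (ψ : Matrix ι ι ℂ), Mono R c Φ g ψ → P g ψ →
        ∀ σ' : E →+* ℂ, SK σ σ' → (∃ k, Fl (Ls R Φ σ') k) → AllFl R Φ g σ') →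
      (∀ k : ℕ, 2 ≤ k → n σ = 2 ^ k → (finrank ℚ K).Coprime k) →
      ∀ k, ¬ Fl (Ls R Φ σ) k := by
    intro σ h1 h2 hr hA hall hnum
    refine no_fl H hI hc K hHTp hτ₀ M₀ hP₀ C₀ hspan σ hA.1 hr (hpos' σ h1 hA) ?_ hall ?_ ?_
    · intro σ' hsk'
      exact hcn σ' (by rw [hnsk σ σ' hsk']; exact h1) (Or.inl (hAsk σ σ' hsk' hA))
    · rw [hn]
      exact hnum
    · rw [hn]
      exact h2
  have hfl8 : ∀ σ : E →+* ℂ, Rl σ → sp σ → n σ = 8 → CondA K τ₀ n r σ →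
      ∀ k, ¬ Fl (Ls R Φ σ) k := by
    intro σ hr hs h8 hA
    refine hnofl σ (by omega) (by omega) hr hA ?_ ?_
    · intro g ψ M hP σ' hsk' hfl
      have hr' := hrlsk σ σ' hr hsk'
      have hs' := hsk σ σ' hsk' hs
      have h8' : n σ' = 8 := by rw [hnsk σ σ' hsk', h8]
      refine allFl_sp M H hI (hcn σ' (by omega) (Or.inl (hAsk σ σ' hsk' hA)))
        (by rw [hn, h8']) hfl ?_
      intro W p v F
      obtain ⟨φ, hφ, -⟩ := exists_isForm M hc F.irr F.prj F.le hr'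
      exact ⟨φ, halt σ' hr' hs' g ψ M hP W p v F φ hφ, hφ.nd, hφ.sim M⟩
    · intro k hk h9
      refine hA.2 2 k hk h9 ?_
      have h10 := hrl σ hr
      have h11 : k = 3 := by
        have h12 : (2 : ℕ) ^ 3 = 2 ^ k := by rw [← h9, h8]; rfl
        exact (Nat.pow_right_injective le_rfl h12).symm
      rw [h11]
      exact ⟨1, by omega⟩
  have hno4 : ∀ (σ : E →+* ℂ) (g : Submodule ℂ (Matrix ι ι ℂ)) (ψ : Matrix ι ι ℂ),
      Mono R c Φ g ψ → P g ψ → Rl σ → ¬ sp σ → n σ = 4 → CondA K τ₀ n r σ → False := by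
    intro σ g ψ M hP hr hs h4 hA
    have hcn4 := hcn σ (by omega) (Or.inl hA)
    have h5 : ∀ k, ¬ Fl (Ls R Φ σ) k := by
      refine hnofl σ (by omega) (by omega) hr hA ?_ ?_
      · intro g ψ M hP σ' hsk' hfl
        have hr' := hrlsk σ σ' hr hsk'
        have hs' : ¬ sp σ' := fun h => hs (hsk σ' σ hsk'.symm' h)
        have h4' : n σ' = 4 := by rw [hnsk σ σ' hsk', h4]
        refine allFl_so M H hI (hcn σ' (by omega) (Or.inl (hAsk σ σ' hsk' hA)))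
          (by rw [hn, h4']) hfl ?_
        intro W p v F
        obtain ⟨φ, hφ, hsym⟩ := hspsk g ψ hP σ' hr' hs' W p v F
        exact ⟨φ, hsym, hφ.nd, hφ.sim M⟩
      · intro k hk h9
        refine hA.2 2 k hk h9 ?_
        have h10 := hrl σ hr
        have h11 : k = 2 := by
          have h12 : (2 : ℕ) ^ 2 = 2 ^ k := by rw [← h9, h4]; rfl
          exact (Nat.pow_right_injective le_rfl h12).symm
        rw [h11]
        exact ⟨1, by omega⟩
    obtain ⟨W, p, v, F⟩ := exists_frame M H hI σ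
    have hnt := F.nontrivial
    have hne : Nonempty ι := by
      by_contra hcon
      rw [not_nonempty_iff] at hcon
      obtain ⟨w, hw⟩ := exists_ne (0 : W)
      exact hw (Subtype.ext (funext fun i => hcon.elim i))
    obtain ⟨φ, hφ, hsym⟩ := hspsk g ψ hP σ hr hs W p v F
    have T := td M H hI F.irr F.prj
    have htr := trace_of_mult M₀ C₀.mult
    have hm := mult_of_trace M (M.le C₀.mem) htr
    obtain ⟨e1, e2, -⟩ := rm_val F M C₀.mem C₀.idem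
    have h6 : ∀ a b, φ (rm p e₀ a) b + φ a (rm p e₀ b) = φ a b := by
      intro a b
      have h7 := hφ.mult e₀ (M.le C₀.mem) 1 (by rw [one_smul]; exact hm) a b
      rwa [one_mul] at h7
    obtain ⟨k, hk⟩ := T.exists_fl_so v (F.hv M) (by rw [F.lv M]; exact hcn4) hsym hφ.nd
      (hφ.sim M) (by rw [← F.card, hn, h4]) e1 e2 h6
    rw [F.lv M] at hk
    exact h5 k hk
  -- the place at infinity
  have hHTc : (∀ z ∈ K, starRingEnd ℂ z = z) → HTc P R c Φ r := by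
    intro hK
    have hfin := Module.End.finite_hasEigenvalue (Matrix.toLin' (ratM Φ))
    obtain ⟨τ, h1, g₁, ψ₁, e₁, M₁, P₁, C₁⟩ := hHTp starRingAut (fun x hx => hK x hx) hfin.toFinset
      fun x hx => mn_alg ((Set.Finite.mem_toFinset hfin).1 hx)
    exact ⟨τ, g₁, ψ₁, e₁, fun μ hμ => h1 μ ((Set.Finite.mem_toFinset hfin).2 hμ), M₁, P₁, C₁⟩
  -- the induced operators
  have hfull : ∀ (σ : E →+* ℂ) (W : Submodule ℂ (ι → ℂ)) (p : (ι → ℂ) →ₗ[ℂ] W)
      (v : Basis (Om R Φ σ) ℂ W), Frame R Φ g σ W p v → Fintype.card (Om R Φ σ) ≠ 1 →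
      FullW g ψ p := by
    intro σ W p v F h1
    rw [hn] at h1
    rcases hcond σ with h2 | ⟨hr, hT, h2⟩ | ⟨hr, h2, h3⟩
    · exact absurd h2 h1
    · have hnr : ∃ a, starRingEnd ℂ (σ a) ≠ σ a := by
        unfold Rl at hr
        push Not at hr
        exact hr
      rcases h2 with ⟨hAB, hU⟩ | ⟨h4, h7⟩
      · refine full_nr H hR hc M F hnr (hcn σ h1 hAB) ?_
        rw [hn]
        rcases hU with hU | ⟨hU, hU'⟩
        · exact Or.inl hU
        · refine Or.inr ⟨hU, hU', ?_⟩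
          by_cases h5 : n σ = 2
          · exact Or.inl h5
          · exact Or.inr (hself σ h1 h5)
      · refine full_nr4 H hR hc M F hnr ?_ (by rw [hn, h4]) h7
        rw [hn]
        exact hself σ h1 (by omega)
    · by_cases hs : sp σ
      · have hA' := halt σ hr hs
        rcases h2 with ⟨-, h4⟩ | ⟨hAB, h4, -⟩
        · exact full_alt4 H hI hc M F hr (by rw [hn, h4]) (hA' g ψ M hP W p v F)
        · refine full_real hP H hR hc M F hr (hcn σ h1 (hAB.imp_right (hBr σ hr))) ?_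
            (Or.inl hA') ?_
          · unfold TyA
            rw [hn]
            refine ⟨fun m hm _ => h4 m (by omega), fun m hm h7 => ?_⟩
            rcases Nat.eq_or_lt_of_le hm with h5 | h5
            · rw [← h5] at h7
              refine hfl8 σ hr hs h7 (hAB.resolve_right fun h6 => h6 ⟨2, ?_⟩)
              rw [h7]
              rfl
            · exact absurd h7 (h4 m h5)
          · rcases h3 with h3 | h3
            · exact Or.inl (hHTc h3)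
            · right
              rw [hn]
              exact ⟨Or.inr fun k hk hk3 => h3 k hk3 ⟨fun _ => hs, fun _ => hk⟩, Or.inl hA'⟩
      · rcases h2 with ⟨h4, -⟩ | ⟨hAB, h4, h8⟩
        · exact absurd h4 hs
        have h8' := h8.resolve_left hs
        by_cases h5 : n σ = 4
        · exact (hno4 σ g ψ M hP hr hs h5 (hAB.resolve_right fun h6 => h6 (by rw [h5]))).elim
        have h6 : ∀ m : ℕ, 2 ≤ m → n σ ≠ 2 ^ m := by
          intro m hm h7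
          rcases (by omega : m = 2 ∨ m = 3 ∨ 4 ≤ m) with h9 | h9 | h9
          · exact h5 (by rw [h7, h9]; rfl)
          · exact h8' (by rw [h7, h9]; rfl)
          · exact h4 m h9 h7
        refine full_real hP H hR hc M F hr (hcn σ h1 (hAB.imp_right (hBr σ hr))) ?_
          (Or.inr ?_) ?_
        · unfold TyA
          rw [hn]
          exact ⟨fun m hm _ => h6 m (by omega), fun m hm h7 => absurd h7 (h6 m (by omega))⟩
        · unfold TyS
          rw [hn]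
          exact ⟨fun m hm => h6 m (by omega), fun h7 => absurd h7 h5⟩
        · rcases h3 with h3 | h3
          · exact Or.inl (hHTc h3)
          · right
            rw [hn]
            refine ⟨Or.inl (syp_of_orth fun g ψ _ hP W hW hirr => (hP σ hr W hW hirr).2 hs),
              Or.inr fun k hk hk4 => h3 k (by omega) ⟨fun h9 => ?_, fun h9 => absurd h9 hs⟩⟩
            exact absurd h9 (Nat.not_odd_iff_even.2 hk)
  -- the kinds
  have hkd : ∀ σ : E →+* ℂ, Fintype.card (Om R Φ σ) = 1 ∨ Kd R Φ g sp σ := by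
    intro σ
    by_cases h1 : n σ = 1
    · left
      rw [hn, h1]
    · right
      obtain ⟨W, p, v, F⟩ := exists_frame M H hI σ
      have hφ0 : ∀ φ : W →ₗ[ℂ] W →ₗ[ℂ] ℂ, (∀ x, (∀ y, φ x y = 0) → x = 0) → φ ≠ 0 := by
        intro φ hnd h0
        have hnt := F.nontrivial
        obtain ⟨x, hx⟩ := exists_ne (0 : W)
        exact hx (hnd x fun y => by rw [h0]; rfl)
      refine exists_kind M H hR.tr hc F (hfull σ W p v F (by rw [hn]; exact h1)) ?_ ?_ ?_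
      · have := hn0 σ
        rw [hn]
        omega
      · intro φ hφ hsym
        have hnt := F.nontrivial
        have hr : Rl σ := by
          by_contra hcon
          unfold Rl at hcon
          push Not at hcon
          obtain ⟨a, ha⟩ := hcon
          exact ha (real_of_form M hc F.irr F.prj F.le hφ.mult (hφ0 φ hφ.nd) a)
        have hs : ¬ sp σ := fun hs =>
          not_alt_symm hφ.nd (halt σ hr hs g ψ M hP W p v F φ hφ) hsym
        rcases hcond σ with h2 | ⟨h2, -⟩ | ⟨-, ⟨h2, -⟩ | ⟨hAB, -, h8⟩, -⟩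
        · exact absurd h2 h1
        · exact absurd hr h2
        · exact absurd h2 hs
        · rw [hn]
          refine ⟨fun h5 => ?_, fun h5 => h8.resolve_left hs (by rw [h5])⟩
          have h5' : n σ = 4 := by rw [h5]
          exact hno4 σ g ψ M hP hr hs h5' (hAB.resolve_right fun h6 => h6 (by rw [h5']))
      · intro hs φ hφ
        have hr : Rl σ := by
          by_contra hcon
          unfold Rl at hcon
          push Not at hcon
          obtain ⟨a, ha⟩ := hcon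
          exact ha (real_of_form M hc F.irr F.prj F.le hφ.mult (hφ0 φ hφ.nd) a)
        exact halt σ hr hs g ψ M hP W p v F φ hφ
  refine mem_iff M H hR hc hkd (fun σ σ' h1 h0 h2 h3 => ?_) ?_ hfull N
  · rw [hn] at h1
    rw [hn, hn] at h2
    rw [hn] at h3
    exact hnt σ h1 σ' (Or.inr h0) h2 h3
  intro σ σ' hnr hr' hs' h4 h6
  rw [hn] at h4 h6
  refine hex σ σ' ?_ hr' hs' h4 h6
  intro h
  obtain ⟨a, ha⟩ := hnr
  exact ha (h a)

end Pool.Agent.FQV
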