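import Pool.Agent.FQV.Pair

/-!
# Pairs of lattices with common reflections: the general form of the norms (PACKAGE FV1, pure)

This is the generalisation of `PD.weights` (`Pair2.lean`) without the balanced pair `e` and without the constants in `N`; the proof of
`PD.weights` is the model (its private lemmas `eq_of_dot`, `norm_eq_of_refl`, `exists_rep`, `exists_w`, `coef_eq` may be copied to this file; do
not import `Pair2.lean`, or import it and copy the private lemmas under other names).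

`swap`: all fields of `PD` for `(N, J)` are symmetric; `(h', h)` is in the `comap` iff `(h, h') ∈ N`; a `PRf` for the swapped pairs is a `PRf` for `N` with
`π`, `π'` exchanged.

`weights2`: let `t` be as in `PD.link`, `S = PS J ≤ N`, `U = span {h | ∃ h', J h h'}`, the image of `S` under the first projection. The second claim
(`h' ⬝ h' = t (h ⬝ h)`) is `link` for `f = (h, h')`.

(a) for `f ∈ N`, `y ∈ S`: `f.2 ⬝ y.2 = t (f.1 ⬝ y.1)`; so for `x ∈ S` `x.1 = 0` implies `x.2 = 0`. (b) for `β ∈ Ω'` there is `w β ∈ U` with `x.2 β = w β ⬝ x.1` for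
all `x ∈ S`; for `a ∈ Ω` there is `u a ∈ U` with `x a = u a ⬝ x` for all `x ∈ U`; they are unique. (c) `∑ β, w β ⬝ w β = t * ∑ a, u a ⬝ u a`. (d) `w β ⬝ w β` does
not depend on `β`, and `u a ⬝ u a` does not depend on `a`. All this is in the proof of `PD.weights`. So
`card Ω' * (w β ⬝ w β) = t * card Ω * (u a ⬝ u a)`: the third claim (the `u` of the statement is `u a` by uniqueness). `h' β = w β ⬝ h` by (b), `(h, h') ∈ S`.

The last claim: let `f ∈ N`, `c = (∑ f.1) / card Ω` and `x ∈ S` with `x.1 = f.1 - c`. Let `z = f - x ∈ N`; `z.1` is the constant `c`. For `J h h'` with the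
reflections `π`, `π'` and the coefficient `a` of `z`: `a * (h ⬝ h) = 2 * (z.1 ⬝ h) = 2 * c * ∑ h = 0` because `∑ h = 0` (`h (π ω) = - h ω`). So `a = 0` if
`h ≠ 0`; if `h = 0` then `h' = 0` by `link`. In both cases `z.2 (π' ω) = z.2 ω`. So `z.2` is constant by `D.tr'` (the set of the `ω` with `z.2 ω = z.2 β`).
`∑ x.2 = 0` (`∑ h' = 0` for all `J h h'`), so `card Ω' * z.2 β = ∑ z.2 = ∑ f.2` and
`f.2 β = z.2 β + x.2 β = (∑ f.2) / card Ω' + w ⬝ x.1`. -/

set_option autoImplicit false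

namespace Pool.Agent.FQV

variable {Ω Ω' : Type*} [Fintype Ω] [Fintype Ω']
  {N : Submodule ℚ ((Ω → ℚ) × (Ω' → ℚ))} {J : (Ω → ℚ) → (Ω' → ℚ) → Prop}

private theorem prf_swap {h : Ω → ℚ} {h' : Ω' → ℚ} {π : Equiv.Perm Ω} {π' : Equiv.Perm Ω'}
    (R : PRf N h h' π π') :
    PRf (N.comap (LinearEquiv.prodComm ℚ (Ω' → ℚ) (Ω → ℚ)).toLinearMap) h' h π' π where
  neg := R.neg'
  neg' := R.neg
  refl f hf := by
    obtain ⟨a, h1, h2⟩ := R.refl (f.2, f.1) hf
    exact ⟨a, h2, h1⟩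

theorem PD.swap (D : PD N J) :
    PD (N.comap (LinearEquiv.prodComm ℚ (Ω' → ℚ) (Ω → ℚ)).toLinearMap) (fun h' h => J h h') := by
  refine ⟨fun h' h hJ => D.mem h h' hJ, fun h' h hJ => ?_, fun A hA H => ?_, fun A hA H => ?_,
    fun P hP H => ?_, fun P hP H => ?_⟩
  · obtain ⟨π, π', R⟩ := D.refl h h' hJ
    exact ⟨π', π, prf_swap R⟩
  · exact D.tr' A hA fun h h' π π' hJ R => H h' h π' π hJ (prf_swap R)
  · exact D.tr A hA fun h h' π π' hJ R => H h' h π' π hJ (prf_swap R)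
  · obtain ⟨h', h, hJ, hn, hp⟩ := hP
    intro k' k
    exact D.conn' (fun h h' => P h' h) ⟨h, h', hJ, hn, hp⟩ (fun h h' k k' => H h' h k' k) k k'
  · obtain ⟨h', h, hJ, hn, hp⟩ := hP
    intro k' k
    exact D.conn (fun h h' => P h' h) ⟨h, h', hJ, hn, hp⟩ (fun h h' k k' => H h' h k' k) k k'

private theorem eq_of_dot3 {U : Submodule ℚ (Ω → ℚ)} {w w' : Ω → ℚ} (hw : w ∈ U) (hw' : w' ∈ U)
    (h : ∀ s ∈ U, w' ⬝ᵥ s = w ⬝ᵥ s) : w' = w := by
  have h1 := h (w' - w) (U.sub_mem hw' hw)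
  have h2 : (w' - w) ⬝ᵥ (w' - w) = 0 := by rw [sub_dotProduct, h1, sub_self]
  exact sub_eq_zero.1 (dotProduct_self_eq_zero.1 h2)

/-- Reflected vectors have the same norm. -/
private theorem norm_eq_of_refl3 {U : Submodule ℚ (Ω → ℚ)} {h w w' : Ω → ℚ} (hh : h ∈ U)
    (hw : w ∈ U) (hw' : w' ∈ U)
    (H : ∀ s ∈ U, ∃ a : ℚ, a * (h ⬝ᵥ h) = 2 * (s ⬝ᵥ h) ∧ w' ⬝ᵥ s = w ⬝ᵥ s - a * (w ⬝ᵥ h)) :
    w' ⬝ᵥ w' = w ⬝ᵥ w := by
  by_cases h0 : h = 0
  · have h1 : w' = w := eq_of_dot3 hw hw' fun s hs => by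
      obtain ⟨a, -, h2⟩ := H s hs
      rw [h2, h0, dotProduct_zero, mul_zero, sub_zero]
    rw [h1]
  · have hhh : h ⬝ᵥ h ≠ 0 := fun h1 => h0 (dotProduct_self_eq_zero.1 h1)
    obtain ⟨k, hk⟩ : ∃ k : ℚ, k * (h ⬝ᵥ h) = 2 * (w ⬝ᵥ h) :=
      ⟨2 * (w ⬝ᵥ h) / (h ⬝ᵥ h), div_mul_cancel₀ _ hhh⟩
    have h1 : w' = w - k • h := by
      refine eq_of_dot3 (U.sub_mem hw (U.smul_mem k hh)) hw' fun s hs => ?_
      obtain ⟨a, h2, h3⟩ := H s hs
      rw [h3, sub_dotProduct, smul_dotProduct, smul_eq_mul, dotProduct_comm h s]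
      have h4 : a * (w ⬝ᵥ h) = k * (s ⬝ᵥ h) := by
        apply mul_right_cancel₀ hhh
        linear_combination (w ⬝ᵥ h) * h2 - (s ⬝ᵥ h) * hk
      rw [h4]
    rw [h1, sub_dotProduct, dotProduct_sub, dotProduct_sub, smul_dotProduct, dotProduct_smul,
      smul_dotProduct, dotProduct_smul, smul_eq_mul, smul_eq_mul, smul_eq_mul, smul_eq_mul,
      dotProduct_comm h w]
    linear_combination k * hk

/-- Linear functionals are represented by elements of a subspace. -/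
private theorem exists_rep3 (U : Submodule ℚ (Ω → ℚ)) (F : (Ω → ℚ) →ₗ[ℚ] ℚ) :
    ∃ g ∈ U, ∀ s ∈ U, F s = g ⬝ᵥ s := by
  let T : U →ₗ[ℚ] Module.Dual ℚ U :=
    { toFun := fun g =>
        { toFun := fun s => (g : Ω → ℚ) ⬝ᵥ (s : Ω → ℚ)
          map_add' := fun a b => by rw [Submodule.coe_add, dotProduct_add]
          map_smul' := fun c a => by
            rw [Submodule.coe_smul, dotProduct_smul, RingHom.id_apply] }
      map_add' := fun a b => by
        ext s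
        change ((a + b : U) : Ω → ℚ) ⬝ᵥ (s : Ω → ℚ) = _
        rw [Submodule.coe_add, add_dotProduct]
        rfl
      map_smul' := fun c a => by
        ext s
        change ((c • a : U) : Ω → ℚ) ⬝ᵥ (s : Ω → ℚ) = _
        rw [Submodule.coe_smul, smul_dotProduct]
        rfl }
  have hinj : Function.Injective T := by
    rw [injective_iff_map_eq_zero]
    intro g hg
    have h1 : (g : Ω → ℚ) ⬝ᵥ (g : Ω → ℚ) = 0 := LinearMap.congr_fun hg g
    exact Subtype.ext (dotProduct_self_eq_zero.1 h1)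
  have hsurj : Function.Surjective T := by
    have hfr : Module.finrank ℚ U = Module.finrank ℚ (Module.Dual ℚ U) :=
      Subspace.dual_finrank_eq.symm
    exact (LinearMap.injective_iff_surjective_of_finrank_eq_finrank hfr).1 hinj
  obtain ⟨g, hg⟩ := hsurj (F.comp U.subtype)
  exact ⟨g, g.2, fun s hs => (LinearMap.congr_fun hg ⟨s, hs⟩).symm⟩

private theorem exists_w3 {S : Submodule ℚ ((Ω → ℚ) × (Ω' → ℚ))}
    (h0 : ∀ x ∈ S, x.1 = 0 → x.2 = 0) (U : Submodule ℚ (Ω → ℚ)) (hU : ∀ x ∈ S, x.1 ∈ U)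
    (β : Ω') : ∃ w ∈ U, ∀ x ∈ S, x.2 β = w ⬝ᵥ x.1 := by
  let φ : S →ₗ[ℚ] (Ω → ℚ) := (LinearMap.fst ℚ (Ω → ℚ) (Ω' → ℚ)).comp S.subtype
  have hφ : LinearMap.ker φ = ⊥ := by
    rw [LinearMap.ker_eq_bot']
    rintro ⟨x, hx⟩ h1
    have h2 : x.1 = 0 := h1
    exact Subtype.ext (Prod.ext h2 (h0 x hx h2))
  obtain ⟨ψ, hψ⟩ := LinearMap.exists_leftInverse_of_injective φ hφ
  let F : (Ω → ℚ) →ₗ[ℚ] ℚ := (LinearMap.proj β).comp
    ((LinearMap.snd ℚ (Ω → ℚ) (Ω' → ℚ)).comp (S.subtype.comp ψ))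
  obtain ⟨w, hw, h1⟩ := exists_rep3 U F
  refine ⟨w, hw, fun x hx => ?_⟩
  rw [← h1 x.1 (hU x hx)]
  have h3 : ψ x.1 = ⟨x, hx⟩ := LinearMap.congr_fun hψ ⟨x, hx⟩
  change x.2 β = ((ψ x.1 : S) : (Ω → ℚ) × (Ω' → ℚ)).2 β
  rw [h3]

private theorem coef_eq3 {h f : Ω → ℚ} {π : Equiv.Perm Ω} {a : ℚ} (hneg : ∀ ω, h (π ω) = -h ω)
    (hf : ∀ ω, f (π ω) = f ω - a * h ω) : a * (h ⬝ᵥ h) = 2 * (f ⬝ᵥ h) := by
  have h1 : f ⬝ᵥ h = ∑ ω, f (π ω) * h (π ω) := (Equiv.sum_comp π fun ω => f ω * h ω).symm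
  have h2 : ∑ ω, f (π ω) * h (π ω) = a * (h ⬝ᵥ h) - f ⬝ᵥ h := by
    rw [dotProduct, dotProduct, Finset.mul_sum, ← Finset.sum_sub_distrib]
    refine Finset.sum_congr rfl fun ω _ => ?_
    rw [hneg, hf]
    ring
  linarith

theorem PD.weights2 (D : PD N J) (hb : ∃ h h', J h h' ∧ h ≠ 0 ∧ h' ≠ 0) :
    ∃ t : ℚ, 0 < t ∧ (∀ h h', J h h' → h' ⬝ᵥ h' = t * (h ⬝ᵥ h)) ∧
      ∀ β : Ω', ∃ w ∈ Submodule.span ℚ {h | ∃ h', J h h'},
        (∀ a, ∀ u ∈ Submodule.span ℚ {h | ∃ h', J h h'},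
          (∀ s ∈ Submodule.span ℚ {h | ∃ h', J h h'}, s a = u ⬝ᵥ s) →
          Fintype.card Ω' * (w ⬝ᵥ w) = t * Fintype.card Ω * (u ⬝ᵥ u)) ∧
        (∀ h h', J h h' → h' β = w ⬝ᵥ h) ∧
        ∀ f ∈ N, (fun ω => f.1 ω - (∑ ω, f.1 ω) / Fintype.card Ω) ∈
            Submodule.span ℚ {h | ∃ h', J h h'} →
          f.2 β - (∑ ω, f.2 ω) / Fintype.card Ω' =
            w ⬝ᵥ fun ω => f.1 ω - (∑ ω, f.1 ω) / Fintype.card Ω := by
  classical
  obtain ⟨t, ht, hne, hlink⟩ := D.link hb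
  obtain ⟨U, hUdef⟩ : ∃ U, U = Submodule.span ℚ {h : Ω → ℚ | ∃ h', J h h'} := ⟨_, rfl⟩
  rw [← hUdef]
  have hJU : ∀ h h', J h h' → h ∈ U := fun h h' hJ => by
    rw [hUdef]
    exact Submodule.subset_span ⟨h', hJ⟩
  have hJS : ∀ h h', J h h' → (h, h') ∈ PS J := fun h h' hJ => Submodule.subset_span hJ
  have hUm : U = (PS J).map (LinearMap.fst ℚ (Ω → ℚ) (Ω' → ℚ)) := by
    rw [hUdef, PS, Submodule.map_span]
    congr 1
    ext h
    constructor
    · rintro ⟨h', hJ⟩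
      exact ⟨(h, h'), hJ, rfl⟩
    · rintro ⟨x, hx, rfl⟩
      exact ⟨x.2, hx⟩
  have hSU : ∀ x ∈ PS J, x.1 ∈ U := fun x hx => by
    rw [hUm]
    exact ⟨x, hx, rfl⟩
  have hUS : ∀ s ∈ U, ∃ x ∈ PS J, x.1 = s := fun s hs => by
    rw [hUm] at hs
    exact hs
  have hSN : PS J ≤ N := Submodule.span_le.2 fun x hx => D.mem x.1 x.2 hx
  -- (a)
  have ha : ∀ f ∈ N, ∀ y ∈ PS J, f.2 ⬝ᵥ y.2 = t * (f.1 ⬝ᵥ y.1) := by
    intro f hf y hy
    rw [PS] at hy
    induction hy using Submodule.span_induction with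
    | mem x hx => exact hlink f hf x.1 x.2 hx
    | zero => simp
    | add x y _ _ hx hy =>
      rw [Prod.snd_add, Prod.fst_add, dotProduct_add, dotProduct_add, hx, hy, mul_add]
    | smul c x _ hx =>
      rw [Prod.smul_snd, Prod.smul_fst, dotProduct_smul, dotProduct_smul, hx, smul_eq_mul,
        smul_eq_mul]
      ring
  have ha0 : ∀ x ∈ PS J, x.1 = 0 → x.2 = 0 := fun x hx h0 => by
    have h1 := ha x (hSN hx) x hx
    rw [h0, zero_dotProduct, mul_zero] at h1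
    exact dotProduct_self_eq_zero.1 h1
  -- (b)
  have hbw := fun β' : Ω' => exists_w3 ha0 U hSU β'
  choose w hwU hw using hbw
  have hbu := fun a : Ω => exists_rep3 U (LinearMap.proj a)
  choose u huU hu using hbu
  have hu' : ∀ a, ∀ s ∈ U, s a = u a ⬝ᵥ s := fun a s hs => hu a s hs
  have hwJ : ∀ h h', J h h' → ∀ β', h' β' = w β' ⬝ᵥ h := fun h h' hJ β' =>
    hw β' (h, h') (hJS h h' hJ)
  -- (c)
  have hc : ∑ β', w β' ⬝ᵥ w β' = t * ∑ a, u a ⬝ᵥ u a := by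
    have h1 : ∀ β' : Ω', w β' ⬝ᵥ w β' = ∑ a, (w β' ⬝ᵥ u a) * (w β' ⬝ᵥ u a) := by
      intro β'
      rw [dotProduct]
      refine Finset.sum_congr rfl fun a _ => ?_
      rw [hu' a (w β') (hwU β'), dotProduct_comm]
    have h2 : ∀ a : Ω, ∑ β', (w β' ⬝ᵥ u a) * (w β' ⬝ᵥ u a) = t * (u a ⬝ᵥ u a) := by
      intro a
      obtain ⟨x, hx, hx1⟩ := hUS (u a) (huU a)
      have h3 := ha x (hSN hx) x hx
      rw [hx1] at h3
      rw [← h3, dotProduct]
      refine Finset.sum_congr rfl fun β' _ => ?_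
      rw [hw β' x hx, hx1]
    rw [Finset.sum_congr rfl fun β' _ => h1 β', Finset.sum_comm, Finset.mul_sum]
    exact Finset.sum_congr rfl fun a _ => h2 a
  -- (d)
  have hdw : ∀ β β', w β' ⬝ᵥ w β' = w β ⬝ᵥ w β := by
    intro β
    have h1 := D.tr' {β' | w β' ⬝ᵥ w β' = w β ⬝ᵥ w β} ⟨β, rfl⟩ (by
      intro h h' π π' hJ hP β' hβ'
      refine Eq.trans ?_ hβ'
      refine norm_eq_of_refl3 (hJU h h' hJ) (hwU β') (hwU (π' β')) fun s hs => ?_
      obtain ⟨x, hx, rfl⟩ := hUS s hs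
      obtain ⟨a, h2, h3⟩ := hP.refl x (hSN hx)
      refine ⟨a, coef_eq3 hP.neg h2, ?_⟩
      rw [← hw _ x hx, ← hw _ x hx, h3, hwJ h h' hJ])
    intro β'
    have h2 : β' ∈ (Set.univ : Set Ω') := Set.mem_univ β'
    rw [← h1] at h2
    exact h2
  have hdu : ∀ a a', u a' ⬝ᵥ u a' = u a ⬝ᵥ u a := by
    intro a
    have h1 := D.tr {a' | u a' ⬝ᵥ u a' = u a ⬝ᵥ u a} ⟨a, rfl⟩ (by
      intro h h' π π' hJ hP a' ha'
      refine Eq.trans ?_ ha'
      refine norm_eq_of_refl3 (hJU h h' hJ) (huU a') (huU (π a')) fun s hs => ?_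
      obtain ⟨x, hx, rfl⟩ := hUS s hs
      obtain ⟨c, h2, h3⟩ := hP.refl x (hSN hx)
      refine ⟨c, coef_eq3 hP.neg h2, ?_⟩
      rw [← hu' _ _ hs, ← hu' _ _ hs, h2, ← hu' _ _ (hJU h h' hJ)])
    intro a'
    have h2 : a' ∈ (Set.univ : Set Ω) := Set.mem_univ a'
    rw [← h1] at h2
    exact h2
  refine ⟨t, ht, fun h h' hJ => hlink (h, h') (D.mem h h' hJ) h h' hJ, fun β => ?_⟩
  have hn' : (Fintype.card Ω' : ℚ) ≠ 0 := by
    have : Nonempty Ω' := ⟨β⟩
    exact_mod_cast Fintype.card_ne_zero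
  refine ⟨w β, hwU β, ?_, fun h h' hJ => hwJ h h' hJ β, ?_⟩
  · intro a v hv h1
    have h2 : v = u a := eq_of_dot3 (huU a) hv fun s hs => by rw [← h1 s hs, ← hu' a s hs]
    rw [h2]
    rw [Finset.sum_congr rfl fun β' _ => hdw β β', Finset.sum_congr rfl fun a' _ => hdu a a',
      Finset.sum_const, Finset.sum_const, Finset.card_univ, Finset.card_univ, nsmul_eq_mul,
      nsmul_eq_mul, ← mul_assoc] at hc
    exact hc
  · intro f hf hfU
    obtain ⟨x, hx, hx1⟩ := hUS _ hfU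
    have hzN : f - x ∈ N := N.sub_mem hf (hSN hx)
    have hz1 : ∀ ω, (f - x).1 ω = (∑ ω, f.1 ω) / Fintype.card Ω := by
      intro ω
      rw [Prod.fst_sub, Pi.sub_apply, hx1]
      ring
    have hinv : ∀ h h' π π', J h h' → PRf N h h' π π' →
        ∀ ω, (f - x).2 (π' ω) = (f - x).2 ω := by
      intro h h' π π' hJ R ω
      obtain ⟨a, h1, h2⟩ := R.refl (f - x) hzN
      rw [h2]
      by_cases h0 : a = 0
      · rw [h0, zero_mul, sub_zero]
      · have hh : h = 0 := by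
          funext ν
          have h3 := h1 ν
          rw [hz1, hz1] at h3
          have h4 : a * h ν = 0 := by linarith
          exact (mul_eq_zero.1 h4).resolve_left h0
        have hh' : h' = 0 := by
          by_contra h3
          exact (hne h h' hJ).2 h3 hh
        rw [hh', Pi.zero_apply, mul_zero, sub_zero]
    have hcst : ∀ ω, (f - x).2 ω = (f - x).2 β := by
      have h3 := D.tr' {ω | (f - x).2 ω = (f - x).2 β} ⟨β, rfl⟩ (by
        intro h h' π π' hJ R ω hω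
        rw [Set.mem_ofPred_eq] at hω ⊢
        rw [hinv h h' π π' hJ R ω, hω])
      intro ω
      have h4 : ω ∈ {ω | (f - x).2 ω = (f - x).2 β} := by rw [h3]; exact Set.mem_univ _
      exact h4
    have hsx : ∑ ω, x.2 ω = 0 := by
      clear hx1 hzN hz1 hinv hcst
      rw [PS] at hx
      induction hx using Submodule.span_induction with
      | mem y hy =>
        obtain ⟨π, π', R⟩ := D.refl y.1 y.2 hy
        have e1 : ∑ ω, y.2 ω = ∑ ω, y.2 (π' ω) := (Equiv.sum_comp π' _).symm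
        have e2 : ∑ ω, y.2 (π' ω) = -∑ ω, y.2 ω := by
          rw [← Finset.sum_neg_distrib]
          exact Finset.sum_congr rfl fun ω _ => R.neg' ω
        linarith
      | zero => simp
      | add y z _ _ hy hz =>
        rw [Prod.snd_add]
        simp only [Pi.add_apply, Finset.sum_add_distrib, hy, hz, add_zero]
      | smul c y _ hy =>
        rw [Prod.smul_snd]
        simp only [Pi.smul_apply, smul_eq_mul, ← Finset.mul_sum, hy, mul_zero]
    have hsz : ∑ ω, f.2 ω = Fintype.card Ω' * (f - x).2 β := by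
      have h3 : ∑ ω, (f - x).2 ω = ∑ ω, f.2 ω := by
        rw [Prod.snd_sub]
        simp only [Pi.sub_apply, Finset.sum_sub_distrib, hsx, sub_zero]
      rw [← h3, Finset.sum_congr rfl fun ω _ => hcst ω, Finset.sum_const, Finset.card_univ,
        nsmul_eq_mul]
    rw [← hx1, ← hw β x hx, hsz, mul_div_cancel_left₀ _ hn', Prod.snd_sub, Pi.sub_apply]
    ring

end Pool.Agent.FQV
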