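import Pool.Agent.FQV.Pair3
import Pool.Agent.FQV.KindFin

/-!
# Pairs of systems of type A (PACKAGE FV3, pure)

`n = card Ω`, `n' = card Ω'`. `t` from `D.weights2 hb`, `t'` from `D.swap.weights2`; by the pair from `hb` (`h ⬝ h > 0`, `h' ⬝ h' = t (h ⬝ h)`, `h ⬝ h = t' (h' ⬝ h')`)
`t * t' = 1`. `n, n' ≥ 2` because there is `h ≠ 0` with `∑ h = 0`.

(a) If `J h h'` and `h' ≠ 0` then `2 ≤ h' ⬝ h'`: the values are `0, 1, -1` and the sum is zero, so `1` and `-1` both occur. Take `a ≠ b` in `Ω` and `h = δ_a - δ_b`,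
`h ⬝ h = 2`, and `h'` with `J h h'` from `h1`: `h' ⬝ h' = 2 t > 0`, so `h' ≠ 0` and `2 t ≥ 2`, `t ≥ 1`. In the same way `t' ≥ 1` (`h2`). So `t = t' = 1`.

(b) `U = span {h | ∃ h', J h h'}` contains `span {h | StSl h}` (`h1`), which is the space of all functions with sum zero (`(knd_sl _).span`), and is
contained in it (`hs`). Let `w` be the vector for `β`, `w a - w b = w ⬝ (δ_a - δ_b) = h' β ∈ {0, 1, -1}`. By `sl_rep` `n' * (w ⬝ w) = n * (u ⬝ u) = n - 1 > 0`, so `w ≠ 0`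
and by `sl_fin` `w = 1_A - k / n`, `k = card A`, `n * (w ⬝ w) = k (n - k)`. So `n' * k * (n - k) = n * (n - 1)`. Since `k * (n - k) ≥ n - 1` (`(k - 1) (n - k - 1) ≥ 0`),
`n' ≤ n`. The same for `D.swap` and any point of `Ω` gives `n ≤ n'`. So `n = n'` and `k * (n - k) = n - 1`; `sl_min` gives `a`. For `f ∈ N` the function
`f.1 - (∑ f.1) / n` has sum zero, so it is in `U`, and `w ⬝ (f.1 - ..) = ∑ b ∈ A, (f.1 b - ..) = ± (f.1 a - ..)` (`sl_dot`, `sl_min`). -/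

set_option autoImplicit false

namespace Pool.Agent.FQV

variable {Ω Ω' : Type*} [Fintype Ω] [Fintype Ω']
  {N : Submodule ℚ ((Ω → ℚ) × (Ω' → ℚ))} {J : (Ω → ℚ) → (Ω' → ℚ) → Prop}

/-- The values at `β` and `a` agree up to the sign and the averages. -/
def PCon (N : Submodule ℚ ((Ω → ℚ) × (Ω' → ℚ))) (β : Ω') (a : Ω) : Prop :=
  (∀ f ∈ N, f.2 β - (∑ ω, f.2 ω) / Fintype.card Ω' =
    f.1 a - (∑ ω, f.1 ω) / Fintype.card Ω) ∨
  ∀ f ∈ N, f.2 β - (∑ ω, f.2 ω) / Fintype.card Ω' =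
    -(f.1 a - (∑ ω, f.1 ω) / Fintype.card Ω)

private theorem nn_card {h : Ω → ℚ} (h0 : h ≠ 0) (hs : ∑ ω, h ω = 0) :
    2 ≤ Fintype.card Ω := by
  by_contra hcon
  obtain ⟨a, ha⟩ := Function.ne_iff.1 h0
  have h1 : Subsingleton Ω := Fintype.card_le_one_iff_subsingleton.1 (by omega)
  rw [Fintype.sum_subsingleton _ a] at hs
  exact ha hs

omit [Fintype Ω'] in
private theorem nn_mem [DecidableEq Ω] (hn : 2 ≤ Fintype.card Ω)
    (hs : ∀ h h', J h h' → ∑ ω, h ω = 0) (h1 : ∀ h, StSl h → ∃ h', J h h') {f : Ω → ℚ} :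
    f ∈ Submodule.span ℚ {h | ∃ h', J h h'} ↔ ∑ ω, f ω = 0 := by
  constructor
  · intro hf
    induction hf using Submodule.span_induction with
    | mem x hx =>
      obtain ⟨h', hJ⟩ := hx
      exact hs _ _ hJ
    | zero => simp
    | add x y _ _ hx hy => simp only [Pi.add_apply, Finset.sum_add_distrib, hx, hy, add_zero]
    | smul c x _ hx => simp only [Pi.smul_apply, smul_eq_mul, ← Finset.mul_sum, hx, mul_zero]
  · intro hf
    exact Submodule.span_mono (fun h hh => h1 h hh) ((knd_sl hn).span f hf)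

private theorem nn_two {h : Ω → ℚ} (hv : ∀ ω, h ω = -1 ∨ h ω = 0 ∨ h ω = 1)
    (hs : ∑ ω, h ω = 0) (h0 : 0 < h ⬝ᵥ h) : 2 ≤ h ⬝ᵥ h := by
  classical
  have h1 : h ⬝ᵥ h = 2 * ((Finset.univ.filter fun ω => h ω = 1).card : ℚ) := by
    have h2 : ∀ ω, h ω * h ω = 2 * (if h ω = 1 then 1 else 0) - h ω := by
      intro ω
      rcases hv ω with e | e | e <;> rw [e] <;> norm_num
    rw [dotProduct, Finset.sum_congr rfl fun ω _ => h2 ω, Finset.sum_sub_distrib, hs, sub_zero,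
      ← Finset.mul_sum, Finset.sum_boole]
  rw [h1] at h0 ⊢
  have h3 : 0 < (Finset.univ.filter fun ω => h ω = 1).card := by
    have h4 : (0 : ℚ) < ((Finset.univ.filter fun ω => h ω = 1).card : ℚ) := by linarith
    exact_mod_cast h4
  have h5 : (1 : ℚ) ≤ ((Finset.univ.filter fun ω => h ω = 1).card : ℚ) := by exact_mod_cast h3
  linarith

private theorem nn_one_le [DecidableEq Ω] (hn : 2 ≤ Fintype.card Ω) {t : ℚ} (ht : 0 < t)
    (hJ : ∀ h h', J h h' → h' ⬝ᵥ h' = t * (h ⬝ᵥ h))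
    (hs : ∀ h h', J h h' → ∑ ω, h' ω = 0)
    (hv : ∀ h h', J h h' → ∀ ω, h' ω = -1 ∨ h' ω = 0 ∨ h' ω = 1)
    (h1 : ∀ h, StSl h → ∃ h', J h h') : 1 ≤ t := by
  obtain ⟨a, b, hab⟩ := Fintype.one_lt_card_iff.1 (show 1 < Fintype.card Ω by omega)
  obtain ⟨h', h2⟩ := h1 _ ⟨a, b, hab, rfl⟩
  have h3 : (Pi.single a 1 - Pi.single b 1 : Ω → ℚ) ⬝ᵥ (Pi.single a 1 - Pi.single b 1) = 2 := by
    rw [dotProduct_sub, dotProduct_single_one, dotProduct_single_one]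
    simp only [Pi.sub_apply, Pi.single_apply, if_true, if_neg hab, if_neg (Ne.symm hab)]
    norm_num
  have h4 := hJ _ _ h2
  rw [h3] at h4
  have h5 := nn_two (hv _ _ h2) (hs _ _ h2) (by rw [h4]; positivity)
  rw [h4] at h5
  linarith

private theorem nn_side [DecidableEq Ω] (hn : 2 ≤ Fintype.card Ω) (hn' : 2 ≤ Fintype.card Ω')
    (hs : ∀ h h', J h h' → ∑ ω, h ω = 0)
    (hv : ∀ h h', J h h' → ∀ ω, h' ω = -1 ∨ h' ω = 0 ∨ h' ω = 1)
    (h1 : ∀ h, StSl h → ∃ h', J h h') {t : ℚ} (ht : t = 1) (β : Ω')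
    (hw : ∃ w ∈ Submodule.span ℚ {h | ∃ h', J h h'},
        (∀ a, ∀ u ∈ Submodule.span ℚ {h | ∃ h', J h h'},
          (∀ s ∈ Submodule.span ℚ {h | ∃ h', J h h'}, s a = u ⬝ᵥ s) →
          Fintype.card Ω' * (w ⬝ᵥ w) = t * Fintype.card Ω * (u ⬝ᵥ u)) ∧
        (∀ h h', J h h' → h' β = w ⬝ᵥ h) ∧
        ∀ f ∈ N, (fun ω => f.1 ω - (∑ ω, f.1 ω) / Fintype.card Ω) ∈
            Submodule.span ℚ {h | ∃ h', J h h'} →
          f.2 β - (∑ ω, f.2 ω) / Fintype.card Ω' =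
            w ⬝ᵥ fun ω => f.1 ω - (∑ ω, f.1 ω) / Fintype.card Ω) :
    ∃ A : Finset Ω, 0 < A.card ∧ A.card < Fintype.card Ω ∧
      (Fintype.card Ω' : ℚ) * (A.card * (Fintype.card Ω - A.card)) =
        Fintype.card Ω * (Fintype.card Ω - 1) ∧
      ∀ f ∈ N, ∑ ω, (f.1 ω - (∑ ω, f.1 ω) / Fintype.card Ω) = 0 ∧
        f.2 β - (∑ ω, f.2 ω) / Fintype.card Ω' =
          ∑ b ∈ A, (f.1 b - (∑ ω, f.1 ω) / Fintype.card Ω) := by
  obtain ⟨w, hwU, hw1, hw2, hw3⟩ := hw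
  subst ht
  have hne : Nonempty Ω := Fintype.card_pos_iff.1 (by omega)
  obtain ⟨a⟩ := hne
  obtain ⟨u, hu, hu1, hu2⟩ := sl_rep a
  have hUS : ∀ f : Ω → ℚ, f ∈ Submodule.span ℚ {h | ∃ h', J h h'} ↔
      f ∈ Submodule.span ℚ {h : Ω → ℚ | StSl h} := by
    intro f
    rw [nn_mem hn hs h1]
    constructor
    · exact (knd_sl hn).span f
    · intro hf
      rw [← nn_mem hn hs h1]
      exact Submodule.span_mono (fun h hh => h1 h hh) hf
  have hn2 : (2 : ℚ) ≤ (Fintype.card Ω : ℚ) := by exact_mod_cast hn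
  have hn2' : (2 : ℚ) ≤ (Fintype.card Ω' : ℚ) := by exact_mod_cast hn'
  have e1 := hw1 a u ((hUS u).2 hu) fun s hs => hu1 s ((hUS s).1 hs)
  rw [one_mul, hu2] at e1
  have hw0 : w ≠ 0 := by
    rintro rfl
    rw [zero_dotProduct, mul_zero] at e1
    linarith
  have hws : ∑ ω, w ω = 0 := (nn_mem hn hs h1).1 hwU
  obtain ⟨A, hA1, hA2, hA3, hA4⟩ := sl_fin hws hw0 fun k hk => by
    obtain ⟨k', hk'⟩ := h1 k hk
    rw [← hw2 k k' hk']
    exact hv k k' hk' β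
  refine ⟨A, hA1, hA2, ?_, fun f hf => ?_⟩
  · rw [← hA4, ← e1]
    ring
  · have hn0 : (Fintype.card Ω : ℚ) ≠ 0 := by linarith
    have e2 : ∑ ω, (f.1 ω - (∑ ω, f.1 ω) / Fintype.card Ω) = 0 := by
      rw [Finset.sum_sub_distrib, Finset.sum_const, Finset.card_univ, nsmul_eq_mul]
      field_simp
      ring
    refine ⟨e2, ?_⟩
    rw [hw3 f hf ((nn_mem hn hs h1).2 e2)]
    exact sl_dot hA3 e2

private theorem nn_le {k n n' : ℕ} (hk : 0 < k) (hkn : k < n) (hn : 2 ≤ n)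
    (h : (n' : ℚ) * (k * (n - k)) = n * (n - 1)) : n' ≤ n := by
  have h1 : (1 : ℚ) ≤ k := by exact_mod_cast hk
  have h2 : (k : ℚ) + 1 ≤ n := by exact_mod_cast hkn
  have h3 : (2 : ℚ) ≤ n := by exact_mod_cast hn
  have h4 : (n : ℚ) - 1 ≤ k * (n - k) := by nlinarith
  have h5 : (n' : ℚ) * (n - 1) ≤ n * (n - 1) := by
    rw [← h]
    exact mul_le_mul_of_nonneg_left h4 (Nat.cast_nonneg _)
  have h6 : (n' : ℚ) ≤ n := le_of_mul_le_mul_right h5 (by linarith)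
  exact_mod_cast h6

theorem pd_nn [DecidableEq Ω] [DecidableEq Ω'] (D : PD N J)
    (hb : ∃ h h', J h h' ∧ h ≠ 0 ∧ h' ≠ 0)
    (hs : ∀ h h', J h h' → ∑ ω, h ω = 0 ∧ ∑ ω, h' ω = 0)
    (hv : ∀ h h', J h h' → (∀ ω, h ω = -1 ∨ h ω = 0 ∨ h ω = 1) ∧
      ∀ ω, h' ω = -1 ∨ h' ω = 0 ∨ h' ω = 1)
    (h1 : ∀ h, StSl h → ∃ h', J h h') (h2 : ∀ h', StSl h' → ∃ h, J h h') (β : Ω') :
    Fintype.card Ω = Fintype.card Ω' ∧ ∃ a, PCon N β a := by
  obtain ⟨t, ht0, hJ, hw⟩ := D.weights2 hb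
  obtain ⟨h₀, h₀', hJ₀, hne, hne'⟩ := hb
  obtain ⟨t', ht0', hJ', hw'⟩ := D.swap.weights2 ⟨h₀', h₀, hJ₀, hne', hne⟩
  have hn := nn_card hne (hs _ _ hJ₀).1
  have hn' := nn_card hne' (hs _ _ hJ₀).2
  have e1 : 1 ≤ t := nn_one_le hn ht0 hJ (fun h h' hh => (hs h h' hh).2)
    (fun h h' hh => (hv h h' hh).2) h1
  have e2 : 1 ≤ t' := nn_one_le (J := fun h' h => J h h') hn' ht0' hJ'
    (fun h' h hh => (hs h h' hh).1) (fun h' h hh => (hv h h' hh).1) h2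
  have e3 : t * t' = 1 := by
    have e4 := hJ _ _ hJ₀
    have e5 := hJ' _ _ hJ₀
    have e6 : h₀ ⬝ᵥ h₀ ≠ 0 := fun e => hne (dotProduct_self_eq_zero.1 e)
    rw [e4] at e5
    apply mul_right_cancel₀ e6
    linear_combination -e5
  have ht : t = 1 := by nlinarith
  have ht' : t' = 1 := by nlinarith
  obtain ⟨A, hA1, hA2, hA3, hA4⟩ := nn_side hn hn' (fun h h' hh => (hs h h' hh).1)
    (fun h h' hh => (hv h h' hh).2) h1 ht β (hw β)
  obtain ⟨α⟩ : Nonempty Ω := Fintype.card_pos_iff.1 (by omega)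
  obtain ⟨B, hB1, hB2, hB3, -⟩ := nn_side (J := fun h' h => J h h') hn' hn
    (fun h' h hh => (hs h h' hh).2) (fun h' h hh => (hv h h' hh).1) h2 ht' α (hw' α)
  have hle : Fintype.card Ω' ≤ Fintype.card Ω := nn_le hA1 hA2 hn hA3
  have hle' : Fintype.card Ω ≤ Fintype.card Ω' := nn_le hB1 hB2 hn' hB3
  have heq : Fintype.card Ω = Fintype.card Ω' := le_antisymm hle' hle
  refine ⟨heq, ?_⟩
  have hn0 : (Fintype.card Ω : ℚ) ≠ 0 := by
    have : (2 : ℚ) ≤ (Fintype.card Ω : ℚ) := by exact_mod_cast hn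
    linarith
  rw [← heq] at hA3
  have hmin := mul_left_cancel₀ hn0 hA3
  obtain ⟨a, ha⟩ := sl_min hA1 hA2 hmin
  refine ⟨a, ?_⟩
  rcases ha with ha | ha
  · refine Or.inl fun f hf => ?_
    obtain ⟨e7, e8⟩ := hA4 f hf
    rw [e8]
    exact ha (fun ω => f.1 ω - (∑ ω, f.1 ω) / Fintype.card Ω) e7
  · refine Or.inr fun f hf => ?_
    obtain ⟨e7, e8⟩ := hA4 f hf
    rw [e8]
    exact ha (fun ω => f.1 ω - (∑ ω, f.1 ω) / Fintype.card Ω) e7

end Pool.Agent.FQV
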