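import Pool.Agent.FQV.Rk
import Pool.Agent.FQV.CardCl2

/-!
# The number of the eigenvalues is a power, and the ranks (PACKAGE FV6)

The first claim is `card_pow` in `PowK.lean`; the proof of `card_pow` (with its private lemmas `fin_cmp`, `card_cls_mv`) is the model and should be copied
and extended. Let `k = {c // IsCmp R Φ σ c}`, `P c f := ∃ F ∈ c.1, rs R Φ σ F = f`; the properties `h1`, `h2`, `h3` of `card_classes` are proved there. All classes have the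
same number `m` of elements: `Nat.card (Quotient (cls (P c))) = m` for all `c` (take `m` for one component, if there is one, otherwise `m = 1` and the second claim
is about no `e`, see below). So `card Ω = ∏ c, m = m ^ card k`.

The second claim: let `e` be given, `f = rs R Φ σ (ev Φ e)`. `f ∈ Ls R Φ σ` (`ev_mem`), the values are `0` or `1` (`ev_or`), and `tch R Φ σ (ev Φ e)` is a component `j`
(`tch_isCmp`). Let `c ≠ j` be another component and `F ∈ c`; then `f ⬝ rs R Φ σ F = 0`, because otherwise `F ∈ tch R Φ σ (ev Φ e)` (`F` itself, `Cns.refl`; `Rts R Φ σ F` because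
`F ∈ c`), and so `c = j` (`cmp_eq_of_mem` for both). So `sum_classes` gives `s` with `sm R Φ σ (ev Φ e) = ∑ f = (∏ c ∈ univ.erase j, m) * s = m ^ (card k - 1) * s`
(`Finset.prod_const`, `Finset.card_erase_of_mem`). -/

set_option autoImplicit false
set_option linter.unusedSectionVars false

namespace Pool.Agent.FQV

open Module
open Pool.Agent.PrimePow.CC (Rf Rt Lat)

variable {ι : Type} [Fintype ι] [DecidableEq ι] {E : Type} [CommRing E]
  {R : E →+* Matrix ι ι ℚ} {Φ : Matrix ι ι ℚ} {σ : E →+* ℂ} {c : E → E}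
  {g : Submodule ℂ (Matrix ι ι ℂ)} {ψ : Matrix ι ι ℂ}

private theorem fin_cmp (R : E →+* Matrix ι ι ℚ) (Φ : Matrix ι ι ℚ) (σ : E →+* ℂ) :
    Finite {c : Set (ℂ → ℚ) // IsCmp R Φ σ c} := by
  have h1 : {c | IsCmp R Φ σ c}.Finite := by
    refine ((finite_rts R Φ σ).image (cmp R Φ σ)).subset ?_
    rintro c ⟨F, hF, rfl⟩
    exact ⟨F, hF, rfl⟩
  exact h1.to_subtype

/-- The numbers of the classes for conjugate components are equal. -/
private theorem card_cls_mv (R : E →+* Matrix ι ι ℚ) (Φ : Matrix ι ι ℚ) (γ : ℂ ≃+* ℂ)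
    {σ σ' : E →+* ℂ} (h : cp γ σ = σ') (c : Set (ℂ → ℚ)) :
    Nat.card (Quotient (cls fun f : Om R Φ σ → ℚ => ∃ F ∈ c, rs R Φ σ F = f)) =
      Nat.card (Quotient (cls fun f : Om R Φ σ' → ℚ => ∃ F ∈ mv γ '' c, rs R Φ σ' F = f)) := by
  subst h
  have h2 : ∀ (F : ℂ → ℚ) (ω : Om R Φ σ),
      rs R Φ (cp γ σ) (mv γ F) (omE R Φ γ σ ω) = rs R Φ σ F ω := fun F ω => congrFun rs_mv ω
  refine Nat.card_congr (Quotient.congr (omE R Φ γ σ) fun ω ω' => ?_)
  constructor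
  · rintro H _ ⟨_, ⟨F, hF, rfl⟩, rfl⟩
    rw [h2, h2]
    exact H _ ⟨F, hF, rfl⟩
  · rintro H _ ⟨F, hF, rfl⟩
    have h1 := H _ ⟨mv γ F, ⟨F, hF, rfl⟩, rfl⟩
    rwa [h2, h2] at h1

private theorem rts_of_mem {c : Set (ℂ → ℚ)} (hc : IsCmp R Φ σ c) {F : ℂ → ℚ} (hF : F ∈ c) :
    Rts R Φ σ F := by
  obtain ⟨F₀, hF₀, h1⟩ := hc
  rw [h1] at hF
  exact hF.1

theorem card_pow2 [Algebra ℚ E] [Module.Finite ℚ E] [IsReduced E] (M : Mono R c Φ g ψ)
    (H : IsFrob R Φ) (hI : Idem Φ) (σ : E →+* ℂ)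
    (htr : ∀ c c' : Set (ℂ → ℚ), IsCmp R Φ σ c → IsCmp R Φ σ c' →
      ∃ γ : ℂ ≃+* ℂ, cp γ σ = σ ∧ mv γ '' c = c') :
    ∃ m : ℕ, Fintype.card (Om R Φ σ) = m ^ Nat.card {c : Set (ℂ → ℚ) // IsCmp R Φ σ c} ∧
      ∀ e ∈ tor Φ, e * e = e → Ns R Φ e σ → ∃ s : ℕ, sm R Φ σ (ev Φ e) =
        ((m ^ (Nat.card {c : Set (ℂ → ℚ) // IsCmp R Φ σ c} - 1) * s : ℕ) : ℚ) := by
  classical
  have hfin := fin_cmp R Φ σ
  have : Fintype {c : Set (ℂ → ℚ) // IsCmp R Φ σ c} := Fintype.ofFinite _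
  have hne : Nonempty (Om R Φ σ) := by
    obtain ⟨W, p, v, F⟩ := exists_frame M H hI σ
    have := F.nontrivial
    exact v.index_nonempty
  obtain ⟨P, hP⟩ : ∃ P : {c : Set (ℂ → ℚ) // IsCmp R Φ σ c} → (Om R Φ σ → ℚ) → Prop,
      P = fun c f => ∃ F ∈ c.1, rs R Φ σ F = f := ⟨_, rfl⟩
  have h1 : ∀ i h, P i h → Rt (Ls R Φ σ) h := by
    rw [hP]
    rintro c f ⟨F, hF, rfl⟩
    exact (rts_of_mem c.2 hF).rt
  have h2 : ∀ h, Rt (Ls R Φ σ) h → ∃ i, P i h := by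
    rw [hP]
    intro f hf
    obtain ⟨F, hF, rfl⟩ := exists_rts hf
    exact ⟨⟨cmp R Φ σ F, F, hF, rfl⟩, F, ⟨hF, Cns.refl⟩, rfl⟩
  have h3 : ∀ i j h h', i ≠ j → P i h → P j h' → h ⬝ᵥ h' = 0 := by
    rw [hP]
    rintro c c' f f' hne ⟨F, hF, rfl⟩ ⟨F', hF', rfl⟩
    by_contra h0
    apply hne
    apply Subtype.ext
    rw [← cmp_eq_of_mem c.2 hF]
    refine cmp_eq_of_mem c'.2 hF' ▸ ?_
    have hmem : F' ∈ cmp R Φ σ F := by
      refine ⟨rts_of_mem c'.2 hF', ?_⟩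
      exact Relation.ReflTransGen.single ⟨(rts_of_mem c'.2 hF').rt, h0⟩
    have hFc : IsCmp R Φ σ (cmp R Φ σ F) := by
      rw [cmp_eq_of_mem c.2 hF]
      exact c.2
    exact (cmp_eq_of_mem hFc hmem).symm
  have h := card_classes (lat M H hI σ) P h1 h2 h3
  have hk : Nat.card {c : Set (ℂ → ℚ) // IsCmp R Φ σ c} =
      Fintype.card {c : Set (ℂ → ℚ) // IsCmp R Φ σ c} := Nat.card_eq_fintype_card
  rcases isEmpty_or_nonempty {c : Set (ℂ → ℚ) // IsCmp R Φ σ c} with he | ⟨⟨c₀⟩⟩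
  · refine ⟨1, ?_, fun e he1 hee hns => ?_⟩
    · rw [h, one_pow]
      exact Finset.prod_eq_one fun c _ => (he.false c).elim
    · exact (he.false ⟨_, tch_isCmp M H hI he1 hee hns⟩).elim
  · have hm : ∀ c, Nat.card (Quotient (cls (P c))) = Nat.card (Quotient (cls (P c₀))) := by
      intro c
      obtain ⟨γ, g1, g2⟩ := htr c₀.1 c.1 c₀.2 c.2
      rw [hP]
      change Nat.card (Quotient (cls fun f : Om R Φ σ → ℚ => ∃ F ∈ c.1, rs R Φ σ F = f)) =
        Nat.card (Quotient (cls fun f : Om R Φ σ → ℚ => ∃ F ∈ c₀.1, rs R Φ σ F = f))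
      rw [card_cls_mv R Φ γ g1 c₀.1, g2]
    refine ⟨Nat.card (Quotient (cls (P c₀))), ?_, fun e he hee hns => ?_⟩
    · rw [h, Finset.prod_congr rfl (fun c _ => hm c), Finset.prod_const, Finset.card_univ, hk]
    · have hj := tch_isCmp M H hI he hee hns
      obtain ⟨s, hs⟩ := sum_classes (lat M H hI σ) P h1 h2 h3 ⟨_, hj⟩
        (ev_mem (σ := σ) he hee) (fun ω => ev_or Φ e ω) (by
          rw [hP]
          rintro c _ hcj ⟨F, hF, rfl⟩
          by_contra h0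
          apply hcj
          apply Subtype.ext
          have hFr := rts_of_mem c.2 hF
          have hmem : F ∈ tch R Φ σ (ev Φ e) := ⟨hFr, F, hFr, h0, Cns.refl⟩
          exact (cmp_eq_of_mem c.2 hF).symm.trans (cmp_eq_of_mem hj hmem))
      refine ⟨s, ?_⟩
      unfold sm
      rw [hs, Finset.prod_congr rfl (fun c _ => hm c), Finset.prod_const,
        Finset.card_erase_of_mem (Finset.mem_univ _), Finset.card_univ, hk]

end Pool.Agent.FQV
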