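import Pool.Agent.FQV.Trans
import Pool.Agent.FQV.RealT

/-!
# The ranks of the idempotents on the irreducible subspaces

`sm R Φ σ F` is the sum of the values of `F` on `Om R Φ σ`; for an idempotent `e` of the torus it
is the trace of `e` on an irreducible subspace of `HS R σ`.
-/

set_option autoImplicit false
set_option linter.unusedSectionVars false

namespace Pool.Agent.FQV

open Module
open Pool.Agent.CoprimeSig (ratM)
open Pool.Agent.FQ (expG)

variable {ι : Type} [Fintype ι] [DecidableEq ι] {E : Type} [CommRing E]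
  {R : E →+* Matrix ι ι ℚ} {Φ : Matrix ι ι ℚ} {σ σ' : E →+* ℂ} {c : E → E}
  {g : Submodule ℂ (Matrix ι ι ℂ)} {ψ : Matrix ι ι ℂ} {W : Submodule ℂ (ι → ℂ)}
  {p : (ι → ℂ) →ₗ[ℂ] W} {v : Basis (Om R Φ σ) ℂ W} {r : (E →+* ℂ) → ℕ}

/-- The sum of the values. -/
noncomputable def sm (R : E →+* Matrix ι ι ℚ) (Φ : Matrix ι ι ℚ) (σ : E →+* ℂ) (F : ℂ → ℚ) : ℚ :=
  ∑ μ : Om R Φ σ, rs R Φ σ F μ

/-- The Lie algebra of the torus is spanned by idempotents which have the multiplier one. -/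
def Tr (Φ : Matrix ι ι ℚ) : Prop :=
  tor Φ ≤ Submodule.span ℂ {e : Matrix ι ι ℂ | e ∈ tor Φ ∧ e * e = e ∧
    2 * e.trace = Fintype.card ι}

/-- The Lie algebra of the torus is spanned by idempotents which have the multiplier one and, up
to conjugation, the ranks `r`, and all conjugates of `r` occur. -/
structure Rk (R : E →+* Matrix ι ι ℚ) (Φ : Matrix ι ι ℚ) (r : (E →+* ℂ) → ℕ) : Prop where
  span : tor Φ ≤ Submodule.span ℂ {e : Matrix ι ι ℂ | e ∈ tor Φ ∧ e * e = e ∧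
    2 * e.trace = Fintype.card ι ∧ ∃ γ : ℂ ≃+* ℂ, ∀ σ, sm R Φ σ (ev Φ e) = r (cp γ σ)}
  ex : ∀ γ : ℂ ≃+* ℂ, ∃ e ∈ tor Φ, e * e = e ∧ 2 * e.trace = Fintype.card ι ∧
    ∀ σ, sm R Φ σ (ev Φ e) = r (cp γ σ)

theorem Rk.tr (hR : Rk R Φ r) : Tr Φ :=
  hR.span.trans (Submodule.span_mono fun _ he => ⟨he.1, he.2.1, he.2.2.1⟩)

theorem Tr.idem (hT : Tr Φ) : Idem Φ :=
  hT.trans (Submodule.span_mono fun _ he => ⟨he.1, he.2.1⟩)

theorem sm_mv (γ : ℂ ≃+* ℂ) (F : ℂ → ℚ) : sm R Φ (cp γ σ) (mv γ F) = sm R Φ σ F := by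
  unfold sm
  rw [← Equiv.sum_comp (omE R Φ γ σ)]
  exact Finset.sum_congr rfl fun μ _ => congrFun rs_mv μ

theorem card_cp (γ : ℂ ≃+* ℂ) :
    Fintype.card (Om R Φ (cp γ σ)) = Fintype.card (Om R Φ σ) :=
  Fintype.card_congr (omE R Φ γ σ).symm

theorem trace_rm (F : Frame R Φ g σ W p v) (M : Mono R c Φ g ψ) {e : Matrix ι ι ℂ}
    (he : e ∈ tor Φ) (hee : e * e = e) :
    LinearMap.trace ℂ W (rm p e) = ((sm R Φ σ (ev Φ e) : ℚ) : ℂ) :=
  FQA.trace_dg v (rm_val F M he hee).2.2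

/-- The multiplier is determined by the trace. -/
theorem mult_of_trace [Nonempty ι] (M : Mono R c Φ g ψ) {e : Matrix ι ι ℂ} (he : e ∈ g)
    (htr : 2 * e.trace = Fintype.card ι) : e.transpose * ψ + ψ * e = ψ := by
  obtain ⟨κ, hκ⟩ := M.sim e he
  have h1 := trace_mult M.unit hκ
  rw [htr] at h1
  have h2 : ((Fintype.card ι : ℕ) : ℂ) ≠ 0 := by
    rw [Nat.cast_ne_zero]
    exact Fintype.card_ne_zero
  have h3 : κ = 1 := by
    have h4 : (κ - 1) * (Fintype.card ι : ℂ) = 0 := by linear_combination -h1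
    rcases mul_eq_zero.1 h4 with h5 | h5
    · exact sub_eq_zero.1 h5
    · exact absurd h5 h2
  rw [hκ, h3, one_smul]

theorem trace_of_mult (M : Mono R c Φ g ψ) {e : Matrix ι ι ℂ}
    (h : e.transpose * ψ + ψ * e = ψ) : 2 * e.trace = Fintype.card ι := by
  have h1 := trace_mult (κ := 1) M.unit (by rw [one_smul]; exact h)
  rwa [one_mul] at h1

theorem ev_conj (H : IsFrob R Φ) {e : Matrix ι ι ℂ} (he : e ∈ tor Φ) (hee : e * e = e)
    (htr : 2 * e.trace = Fintype.card ι) {μ : ℂ}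
    (hμ : Module.End.HasEigenvalue (Matrix.toLin' (ratM Φ)) μ) :
    ev Φ e (starRingEnd ℂ μ) = 1 - ev Φ e μ := by
  have h1 : e.map (starRingAut : ℂ ≃+* ℂ) = 1 - e :=
    map_eq_one_sub H he hee htr (τ := starRingAut) fun _ _ => rfl
  have h2 : (starRingAut : ℂ ≃+* ℂ).symm μ = starRingEnd ℂ μ := by
    apply (starRingAut : ℂ ≃+* ℂ).injective
    rw [RingEquiv.apply_symm_apply]
    exact (star_star μ).symm
  have h3 := ev_map Φ e (starRingAut : ℂ ≃+* ℂ) μ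
  rw [h2, h1] at h3
  rw [← h3]
  have h4 : (1 - e) ∈ tor Φ := by
    rw [← h1]
    exact map_mem_tor he _ H.diag
  have h5 : (1 - e) * (1 - e) = 1 - e := by
    rw [mul_sub, sub_mul, sub_mul, one_mul, mul_one, one_mul, hee, sub_self, sub_zero]
  obtain ⟨v, hv, hv0⟩ := hμ.exists_hasEigenvector
  have h6 : (ratM Φ).mulVec v = μ • v := by
    have := Module.End.mem_eigenspace_iff.1 hv
    rwa [Matrix.toLin'_apply] at this
  have h7 := ev_apply h4 h5 h6
  have h8 := ev_apply he hee h6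
  rw [Matrix.sub_mulVec, Matrix.one_mulVec, h8] at h7
  have h9 : ((1 : ℂ) - (ev Φ e μ : ℂ) - (ev Φ (1 - e) μ : ℂ)) • v = 0 := by
    rw [sub_smul, sub_smul, one_smul, h7, sub_self]
  have h10 := (smul_eq_zero.1 h9).resolve_right hv0
  have h11 : ((ev Φ (1 - e) μ : ℚ) : ℂ) = ((1 - ev Φ e μ : ℚ) : ℂ) := by
    push_cast
    linear_combination -h10
  exact_mod_cast h11

theorem sm_dual (H : IsFrob R Φ) {e : Matrix ι ι ℂ} (he : e ∈ tor Φ) (hee : e * e = e)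
    (htr : 2 * e.trace = Fintype.card ι) (σ : E →+* ℂ) :
    sm R Φ (cp starRingAut σ) (ev Φ e) + sm R Φ σ (ev Φ e) = Fintype.card (Om R Φ σ) := by
  unfold sm
  rw [← Equiv.sum_comp (omE R Φ starRingAut σ), ← Finset.sum_add_distrib]
  have h1 : ∀ μ : Om R Φ σ, rs R Φ (cp starRingAut σ) (ev Φ e) (omE R Φ starRingAut σ μ) +
      rs R Φ σ (ev Φ e) μ = 1 := by
    intro μ
    have h2 := ev_conj H he hee htr (hasEigenvalue_of_mem μ.2)
    rw [rs_apply, rs_apply, omE_apply]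
    have h3 : (starRingAut : ℂ ≃+* ℂ) (μ : ℂ) = starRingEnd ℂ μ := rfl
    rw [h3, h2]
    ring
  rw [Finset.sum_congr rfl fun μ _ => h1 μ]
  simp

variable [Algebra ℚ E] [Module.Finite ℚ E] [IsReduced E]

theorem sm_conj (M : Mono R c Φ g ψ) (H : IsFrob R Φ) (hI : Idem Φ) (σ : E →+* ℂ)
    {e e' : Matrix ι ι ℂ} (he : e ∈ tor Φ) (hee : e * e = e) (he' : e' ∈ tor Φ)
    {u : (Matrix ι ι ℂ)ˣ} (hu : u ∈ expG ℂ g)
    (hue : e' = (u : Matrix ι ι ℂ) * e * ((u⁻¹ : (Matrix ι ι ℂ)ˣ) : Matrix ι ι ℂ)) :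
    sm R Φ σ (ev Φ e') = sm R Φ σ (ev Φ e) := by
  obtain ⟨W, p, v, F⟩ := exists_frame M H hI σ
  obtain ⟨u', -, hconj⟩ := exp_res F.prj F.irr.1 hu
  have h1 := hconj e (M.le he)
  rw [← hue] at h1
  have h2 := trace_rm F M he hee
  have h3 := trace_rm F M he' (conj_idem hee hue)
  have h4 : LinearMap.trace ℂ W (rm p e') = LinearMap.trace ℂ W (rm p e) := by
    rw [h1, LinearMap.trace_mul_comm, ← mul_assoc]
    have h5 : ((u'⁻¹ : (End ℂ W)ˣ) : End ℂ W) * (u' : End ℂ W) = 1 := u'.inv_mul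
    rw [h5, one_mul]
  rw [h2, h3] at h4
  exact_mod_cast h4

/-- The rank of an idempotent of a decomposition of Hodge and Tate. -/
theorem sm_coch (M : Mono R c Φ g ψ) (H : IsFrob R Φ) (hI : Idem Φ) {τ : ℂ ≃+* ℂ}
    {e : Matrix ι ι ℂ} (C : Coch R Φ r g ψ τ e) (σ : E →+* ℂ) : sm R Φ σ (ev Φ e) = r σ := by
  obtain ⟨W, p, v, F⟩ := exists_frame M H hI σ
  have h1 := C.rk σ W F.le F.irr (rm p e) fun w => rm_apply F.prj (F.irr.1 e (M.le C.mem)) w
  rw [trace_rm F M C.mem C.idem] at h1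
  exact_mod_cast h1

/-- The rank for the conjugate homomorphism. -/
theorem r_dual (M : Mono R c Φ g ψ) (H : IsFrob R Φ) (hI : Idem Φ) {τ : ℂ ≃+* ℂ}
    {e : Matrix ι ι ℂ} (C : Coch R Φ r g ψ τ e) (σ : E →+* ℂ) :
    r (cp starRingAut σ) + r σ = Fintype.card (Om R Φ σ) := by
  have h1 := sm_dual H C.mem C.idem (trace_of_mult M C.mult) σ
  rw [sm_coch M H hI C, sm_coch M H hI C] at h1
  exact_mod_cast h1

/-- The ranks are stable under the Frobenius automorphism. -/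
theorem r_coch (M : Mono R c Φ g ψ) (H : IsFrob R Φ) (hI : Idem Φ) {τ : ℂ ≃+* ℂ}
    {e : Matrix ι ι ℂ} (C : Coch R Φ r g ψ τ e) (σ : E →+* ℂ) : r (cp τ σ) = r σ := by
  obtain ⟨u, hu, hue⟩ := C.conj
  have h2 := sm_conj M H hI (cp τ σ) C.mem C.idem (map_mem_tor C.mem τ H.diag) hu hue
  have h3 : ev Φ (e.map τ) = mv τ (ev Φ e) := funext fun μ => ev_map Φ e τ μ
  rw [h3, sm_mv, sm_coch M H hI C, sm_coch M H hI C] at h2
  exact_mod_cast h2.symm

theorem sk_cp (γ : ℂ ≃+* ℂ) (σ : E →+* ℂ) : SK σ (cp γ σ) := fun a => by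
  rw [cp_apply]
  exact map_eq_zero_iff γ γ.injective

theorem SK.exists_cp (h : SK σ σ') : ∃ γ : ℂ ≃+* ℂ, σ' = cp γ σ := by
  obtain ⟨γ, hγ⟩ := exists_aut_comp σ σ' fun a => (h a).symm
  exact ⟨γ, RingHom.ext fun a => (hγ a).symm⟩

theorem SK.card (h : SK σ σ') : Fintype.card (Om R Φ σ') = Fintype.card (Om R Φ σ) := by
  obtain ⟨γ, rfl⟩ := h.exists_cp
  exact card_cp γ

private theorem bl_pow (τ : ℂ ≃+* ℂ) (k : ℕ) (z : ℂ) : (τ ^ k) z = (τ ^[k]) z := by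
  induction k generalizing z with
  | zero => rfl
  | succ k ih =>
    rw [pow_succ, Function.iterate_succ_apply, ← ih]
    rfl

/-- The ranks if the embeddings are permuted transitively. -/
theorem r_cyc (M : Mono R c Φ g ψ) (H : IsFrob R Φ) (hI : Idem Φ) {τ : ℂ ≃+* ℂ}
    {e : Matrix ι ι ℂ} (C : Coch R Φ r g ψ τ e) (hcyc : Cyc τ σ) (h : SK σ σ') :
    r σ' = r σ ∨ r σ' + r σ = Fintype.card (Om R Φ σ) := by
  have h2 : ∀ (k : ℕ) (σ' : E →+* ℂ), r (cp (τ ^ k) σ') = r σ' := by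
    intro k
    induction k with
    | zero =>
      intro σ'
      rw [pow_zero, cp_one]
    | succ k ih =>
      intro σ'
      rw [pow_succ, cp_mul, ih, r_coch M H hI C]
  obtain ⟨k, hk | hk⟩ := hcyc σ σ' (fun _ => Iff.rfl) h
  · left
    have h3 : σ' = cp (τ ^ k) σ := by
      ext a
      rw [hk a, cp_apply, bl_pow]
    rw [h3, h2]
  · right
    have h3 : σ' = cp starRingAut (cp (τ ^ k) σ) := by
      ext a
      rw [hk a, cp_apply, cp_apply, bl_pow]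
      rfl
    have h4 := r_dual M H hI C (cp (τ ^ k) σ)
    rw [card_cp] at h4
    rw [h3, ← h4, h2]

private theorem bl_orbit (hΦ : ⨆ μ, Module.End.eigenspace (Matrix.toLin' (ratM Φ)) μ = ⊤)
    {e x : Matrix ι ι ℂ} (hee : e * e = e) (hx : x ∈ orbit Φ g e) :
    x ∈ tor Φ ∧ x * x = x ∧ (2 * e.trace = Fintype.card ι → 2 * x.trace = Fintype.card ι) := by
  obtain ⟨e', he', ⟨u, -, hu⟩, γ, rfl⟩ := hx
  have h1 : e' * e' = e' := conj_idem hee hu
  have hmap : ∀ A B : Matrix ι ι ℂ, (A * B).map γ = A.map γ * B.map γ := fun A B =>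
    Matrix.map_mul (f := (γ : ℂ →+* ℂ))
  refine ⟨map_mem_tor he' γ hΦ, by rw [← hmap, h1], fun htr => ?_⟩
  have h2 : e'.trace = e.trace := by
    rw [hu, Matrix.trace_mul_comm, ← mul_assoc, Units.inv_mul, one_mul]
  have h3 : (e'.map γ).trace = γ e'.trace := by
    rw [Matrix.trace, Matrix.trace, map_sum]
    rfl
  rw [h3, h2]
  have h4 := congrArg γ htr
  rw [map_mul, map_natCast] at h4
  have h5 : γ 2 = 2 := by
    have := map_natCast γ 2
    exact_mod_cast this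
  rwa [h5] at h4

theorem idem_of_span (H : IsFrob R Φ) {e : Matrix ι ι ℂ} (hee : e * e = e)
    (hspan : tor Φ ≤ Submodule.span ℂ (orbit Φ g e)) : Idem Φ := by
  refine hspan.trans (Submodule.span_mono fun x hx => ?_)
  obtain ⟨h1, h2, -⟩ := bl_orbit H.diag hee hx
  exact ⟨h1, h2⟩

/-- The idempotents of the orbit have the ranks `r` up to conjugation. -/
theorem rk_of (M : Mono R c Φ g ψ) (H : IsFrob R Φ) {τ : ℂ ≃+* ℂ} {e : Matrix ι ι ℂ}
    (C : Coch R Φ r g ψ τ e) (hspan : tor Φ ≤ Submodule.span ℂ (orbit Φ g e)) : Rk R Φ r := by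
  have hI : Idem Φ := idem_of_span H C.idem hspan
  have key : ∀ x ∈ orbit Φ g e, x ∈ tor Φ ∧ x * x = x ∧ 2 * x.trace = Fintype.card ι := by
    intro x hx
    obtain ⟨h1, h2, h3⟩ := bl_orbit H.diag C.idem hx
    exact ⟨h1, h2, h3 (trace_of_mult M C.mult)⟩
  have key2 : ∀ e' ∈ tor Φ, (∃ u ∈ expG ℂ g,
      e' = (u : Matrix ι ι ℂ) * e * ((u⁻¹ : (Matrix ι ι ℂ)ˣ) : Matrix ι ι ℂ)) →
      ∀ (γ : ℂ ≃+* ℂ) (σ : E →+* ℂ), sm R Φ σ (ev Φ (e'.map γ)) = r (cp γ.symm σ) := by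
    rintro e' he' ⟨u, hu, hue⟩ γ σ
    have h4 : ev Φ (e'.map γ) = mv γ (ev Φ e') := funext fun μ => ev_map Φ e' γ μ
    have h5 : cp γ (cp γ.symm σ) = σ := by
      ext a
      simp [cp_apply]
    have h6 : sm R Φ σ (mv γ (ev Φ e')) = sm R Φ (cp γ.symm σ) (ev Φ e') := by
      have h7 := sm_mv (R := R) (Φ := Φ) (σ := cp γ.symm σ) γ (ev Φ e')
      rwa [h5] at h7
    rw [h4, h6, sm_conj M H hI (cp γ.symm σ) C.mem C.idem he' hu hue, sm_coch M H hI C]
  refine ⟨hspan.trans (Submodule.span_mono fun x hx => ?_), fun γ => ?_⟩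
  · obtain ⟨h1, h2, h3⟩ := key x hx
    obtain ⟨e', he', hu, γ, rfl⟩ := hx
    exact ⟨h1, h2, h3, γ.symm, key2 e' he' hu γ⟩
  · have hu : ∃ u ∈ expG ℂ g,
        e = (u : Matrix ι ι ℂ) * e * ((u⁻¹ : (Matrix ι ι ℂ)ˣ) : Matrix ι ι ℂ) :=
      ⟨1, one_mem _, by simp⟩
    obtain ⟨h1, h2, h3⟩ := key (e.map γ.symm) ⟨e, C.mem, hu, γ.symm, rfl⟩
    exact ⟨_, h1, h2, h3, key2 e C.mem hu γ.symm⟩

/-- An idempotent is not a scalar if its rank is not `0` or the dimension. -/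
theorem ns_of_sm {e : Matrix ι ι ℂ} (h0 : 0 < sm R Φ σ (ev Φ e))
    (h1 : sm R Φ σ (ev Φ e) < Fintype.card (Om R Φ σ)) : Ns R Φ e σ := by
  have h2 : ∃ ν : Om R Φ σ, ev Φ e ν = 1 := by
    by_contra hcon
    push Not at hcon
    have h3 : sm R Φ σ (ev Φ e) = 0 :=
      Finset.sum_eq_zero fun μ _ => (ev_or Φ e μ).resolve_right (hcon μ)
    rw [h3] at h0
    exact lt_irrefl _ h0
  have h3 : ∃ μ : Om R Φ σ, ev Φ e μ = 0 := by
    by_contra hcon
    push Not at hcon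
    have h3 : sm R Φ σ (ev Φ e) = Fintype.card (Om R Φ σ) := by
      have h4 : ∀ μ : Om R Φ σ, rs R Φ σ (ev Φ e) μ = 1 := fun μ =>
        (ev_or Φ e μ).resolve_left (hcon μ)
      unfold sm
      rw [Finset.sum_congr rfl fun μ _ => h4 μ, Finset.sum_const, nsmul_eq_mul, mul_one,
        Finset.card_univ]
    rw [h3] at h1
    exact lt_irrefl _ h1
  obtain ⟨ν, hν⟩ := h2
  obtain ⟨μ, hμ⟩ := h3
  exact ⟨μ, μ.2, ν, ν.2, hμ, hν⟩

theorem ns_of_r (M : Mono R c Φ g ψ) (H : IsFrob R Φ) (hI : Idem Φ) {τ : ℂ ≃+* ℂ}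
    {e : Matrix ι ι ℂ} (C : Coch R Φ r g ψ τ e)
    (h : 0 < r σ ∧ r σ < Fintype.card (Om R Φ σ)) : Ns R Φ e σ := by
  have h1 := sm_coch M H hI C σ
  refine ns_of_sm ?_ ?_
  · rw [h1]
    exact_mod_cast h.1
  · rw [h1]
    exact_mod_cast h.2

/-- Eigenvalues with the same values for all idempotents of a spanning set are equal. -/
theorem sep_idem (H : IsFrob R Φ) {S : Set (Matrix ι ι ℂ)} (hS : tor Φ ≤ Submodule.span ℂ S)
    (hS1 : ∀ e ∈ S, e ∈ tor Φ ∧ e * e = e) {μ ν : ℂ}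
    (hμ : Module.End.HasEigenvalue (Matrix.toLin' (ratM Φ)) μ)
    (hν : Module.End.HasEigenvalue (Matrix.toLin' (ratM Φ)) ν)
    (h : ∀ e ∈ S, ev Φ e μ = ev Φ e ν) : μ = ν := by
  by_contra hne
  obtain ⟨x, hx, c, d, hcd, hc, hd⟩ := sep H hμ hν hne
  obtain ⟨u, hu, hu0⟩ := hμ.exists_hasEigenvector
  obtain ⟨w, hw, hw0⟩ := hν.exists_hasEigenvector
  have hu1 := Module.End.mem_eigenspace_iff.1 hu
  have hw1 := Module.End.mem_eigenspace_iff.1 hw
  rw [Matrix.toLin'_apply] at hu1 hw1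
  have key : ∀ y ∈ Submodule.span ℂ S, ∃ t : ℂ, y.mulVec u = t • u ∧ y.mulVec w = t • w := by
    intro y hy
    induction hy using Submodule.span_induction with
    | mem e he =>
      refine ⟨(ev Φ e μ : ℂ), ev_apply (hS1 e he).1 (hS1 e he).2 hu1, ?_⟩
      rw [h e he]
      exact ev_apply (hS1 e he).1 (hS1 e he).2 hw1
    | zero => exact ⟨0, by simp, by simp⟩
    | add a b _ _ ha hb =>
      obtain ⟨s, h1, h2⟩ := ha
      obtain ⟨t, h3, h4⟩ := hb
      refine ⟨s + t, ?_, ?_⟩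
      · rw [Matrix.add_mulVec, h1, h3, add_smul]
      · rw [Matrix.add_mulVec, h2, h4, add_smul]
    | smul q a _ ha =>
      obtain ⟨s, h1, h2⟩ := ha
      refine ⟨q * s, ?_, ?_⟩
      · rw [Matrix.smul_mulVec, h1, mul_smul]
      · rw [Matrix.smul_mulVec, h2, mul_smul]
  obtain ⟨t, h1, h2⟩ := key x (hS hx)
  rw [hc u hu1] at h1
  rw [hd w hw1] at h2
  have h3 : c = t := smul_left_injective ℂ hu0 h1
  have h4 : d = t := smul_left_injective ℂ hw0 h2
  exact hcd (h3.trans h4.symm)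

/-- If the embeddings are permuted transitively, the ranks are not `0` or the dimension. -/
theorem r_pos (M : Mono R c Φ g ψ) (H : IsFrob R Φ) (hR : Rk R Φ r) {τ : ℂ ≃+* ℂ}
    {e : Matrix ι ι ℂ} (C : Coch R Φ r g ψ τ e) (hcyc : Cyc τ σ)
    (h2 : 2 ≤ Fintype.card (Om R Φ σ)) (h : SK σ σ') :
    0 < r σ' ∧ r σ' < Fintype.card (Om R Φ σ') := by
  have hI := hR.tr.idem
  have hle : r σ ≤ Fintype.card (Om R Φ σ) := by
    have h3 := r_dual M H hI C σ
    omega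
  have key : 0 < r σ ∧ r σ < Fintype.card (Om R Φ σ) := by
    by_contra hcon
    have h3 : r σ = 0 ∨ r σ = Fintype.card (Om R Φ σ) := by omega
    obtain ⟨μ, ν, hμν⟩ := Fintype.one_lt_card_iff.1 (show 1 < Fintype.card (Om R Φ σ) by omega)
    apply hμν
    refine Subtype.ext (sep_idem H hR.span (fun e he => ⟨he.1, he.2.1⟩)
      (hasEigenvalue_of_mem μ.2) (hasEigenvalue_of_mem ν.2) ?_)
    rintro x ⟨-, -, -, γ, hγ⟩
    have h4 : sm R Φ σ (ev Φ x) = 0 ∨ sm R Φ σ (ev Φ x) = Fintype.card (Om R Φ σ) := by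
      rw [hγ σ]
      have h5 : r (cp γ σ) = 0 ∨ r (cp γ σ) = Fintype.card (Om R Φ σ) := by
        rcases r_cyc M H hI C hcyc (sk_cp γ σ) with h6 | h6 <;> omega
      rcases h5 with h5 | h5
      · left
        exact_mod_cast h5
      · right
        exact_mod_cast h5
    by_contra hne
    have h5 : ev Φ x μ + ev Φ x ν = 1 := by
      rcases ev_or Φ x μ with h6 | h6 <;> rcases ev_or Φ x ν with h7 | h7
      · exact absurd (h6.trans h7.symm) hne
      · rw [h6, h7, zero_add]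
      · rw [h6, h7, add_zero]
      · exact absurd (h6.trans h7.symm) hne
    rcases h4 with h4 | h4
    · have h6 : ∀ ω : Om R Φ σ, ev Φ x ω = 0 := by
        have h7 := (Finset.sum_eq_zero_iff_of_nonneg (s := Finset.univ)
          (f := fun ω : Om R Φ σ => rs R Φ σ (ev Φ x) ω) fun ω _ => by
            rcases ev_or Φ x ω with h8 | h8 <;> rw [rs_apply, h8]
            exact zero_le_one).1 h4
        exact fun ω => h7 ω (Finset.mem_univ _)
      rw [h6, h6] at h5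
      norm_num at h5
    · have h6 : ∀ ω : Om R Φ σ, ev Φ x ω = 1 := by
        have h8 : ∑ ω : Om R Φ σ, (1 - rs R Φ σ (ev Φ x) ω) = 0 := by
          rw [Finset.sum_sub_distrib, Finset.sum_const, nsmul_eq_mul, mul_one, Finset.card_univ]
          unfold sm at h4
          rw [h4, sub_self]
        have h7 := (Finset.sum_eq_zero_iff_of_nonneg (s := Finset.univ)
          (f := fun ω : Om R Φ σ => 1 - rs R Φ σ (ev Φ x) ω) fun ω _ => by
            rcases ev_or Φ x ω with h8 | h8 <;> rw [rs_apply, h8]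
            · norm_num
            · norm_num).1 h8
        intro ω
        have h9 := h7 ω (Finset.mem_univ _)
        rw [rs_apply] at h9
        linarith
      rw [h6, h6] at h5
      norm_num at h5
  rw [h.card]
  rcases r_cyc M H hI C hcyc h with h3 | h3 <;> omega

end Pool.Agent.FQV
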