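import Pool.Agent.FQV.Rk

/-!
# The complex conjugation commutes with all automorphisms (PACKAGE FV7)

`conj_comm`. Let `N = Fintype.card ι`, `N ≠ 0` because there is an eigenvector. Let `r` be the absolute value of all eigenvalues (`H.abs`) and `d = Φ.det ∈ ℚ`.
The determinant of `ratM Φ` (`= (d : ℂ)`, `RingHom.map_det`) is the product of the eigenvalues with multiplicities (`Matrix.det_eq_prod_roots_charpoly`, `N` roots:
`IsAlgClosed.card_roots_eq_natDegree` or `Matrix.charpoly_natDegree_eq_dim`), so `|d| = r ^ N`. So for every eigenvalue `ν`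
`ν ^ N * (conj ν) ^ N = (‖ν‖ ^ 2) ^ N = r ^ (2 * N) = d ^ 2` (`Complex.mul_conj`, `Complex.normSq_eq_norm_sq`). Let `μ` be an eigenvalue. `conj μ`, `γ μ`, `γ (conj μ)`, `conj (γ μ)` are
eigenvalues (use `conj_eig` from `Mv.lean` with `starRingAut : ℂ ≃+* ℂ` and with `γ`; `Module.End.HasEigenvalue.exists_hasEigenvector`). Apply `γ` to
`μ ^ N * (conj μ) ^ N = d ^ 2` (`γ` fixes `ℚ`): `(γ μ) ^ N * (γ (conj μ)) ^ N = d ^ 2 = (γ μ) ^ N * (conj (γ μ)) ^ N`, and `γ μ ≠ 0` (its absolute value is `r > 0`). So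
`(γ (conj μ)) ^ N = (conj (γ μ)) ^ N`, and `H.neat` gives the claim.

`cp_star`: `γ (conj (σ a)) = γ (σ (c a)) = cp γ σ (c a) = conj (cp γ σ a)` by `hc`.

`mv_star`: `mv γ (mv starRingAut F) ν = F (starRingAut.symm (γ.symm ν))`, `mv starRingAut (mv γ F) ν = F (γ.symm (starRingAut.symm ν))`, and `starRingAut.symm = starRingAut` as
functions (`star_star`). `F` is zero outside of `Om R Φ σ`. If one of `conj (γ.symm ν)`, `γ.symm (conj ν)` is in `Om R Φ σ`, then it is an eigenvalue, so `ν` is an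
eigenvalue (`conj_eig`), and both are equal by `conj_comm` for `γ.symm` and `ν`; otherwise both values of `F` are zero (`hF.supp`).

`tch_star`: by `tch_mv H.diag` the left side is `tch R Φ (cp starRingAut σ) (mv starRingAut (ev Φ e))`. For `ν ∈ Om R Φ (cp starRingAut σ)`
`mv starRingAut (ev Φ e) ν = ev Φ e (conj ν) = 1 - ev Φ e ν` (`ev_conj`). For a root `F'` (`Rts`) the sum of the values of `rs R Φ _ F'` is zero (`h (π ω) = - h ω` for a
permutation `π`: `H.neg`, `Equiv.sum_comp`), so `(1 - f) ⬝ F' = - f ⬝ F'` and both sides of the equation are defined by the same condition. -/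

set_option autoImplicit false
set_option linter.unusedSectionVars false

namespace Pool.Agent.FQV

open Module
open Pool.Agent.CoprimeSig (ratM)
open Pool.Agent.PrimePow.CC (Rf Rt Lat)

variable {ι : Type} [Fintype ι] [DecidableEq ι] {E : Type} [CommRing E]
  {R : E →+* Matrix ι ι ℚ} {Φ : Matrix ι ι ℚ} {σ : E →+* ℂ} {c : E → E}

private theorem Star_eig (γ : ℂ ≃+* ℂ) {μ : ℂ}
    (hμ : Module.End.HasEigenvalue (Matrix.toLin' (ratM Φ)) μ) :
    Module.End.HasEigenvalue (Matrix.toLin' (ratM Φ)) (γ μ) := by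
  obtain ⟨v, hv, hv0⟩ := hμ.exists_hasEigenvector
  have h1 : (ratM Φ).mulVec v = μ • v := by
    have := Module.End.mem_eigenspace_iff.1 hv
    rwa [Matrix.toLin'_apply] at this
  refine Module.End.hasEigenvalue_of_hasEigenvector (x := fun i => γ (v i))
    ⟨Module.End.mem_eigenspace_iff.2 (by rw [Matrix.toLin'_apply, conj_eig γ h1]), ?_⟩
  intro h0
  apply hv0
  funext i
  exact (map_eq_zero_iff γ γ.injective).1 (congrFun h0 i)

private theorem Star_conj {μ : ℂ}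
    (hμ : Module.End.HasEigenvalue (Matrix.toLin' (ratM Φ)) μ) :
    Module.End.HasEigenvalue (Matrix.toLin' (ratM Φ)) (starRingEnd ℂ μ) :=
  Star_eig (starRingAut : ℂ ≃+* ℂ) hμ

private theorem Star_det (H : IsFrob R Φ) {μ : ℂ}
    (hμ : Module.End.HasEigenvalue (Matrix.toLin' (ratM Φ)) μ) :
    μ ^ Fintype.card ι * (starRingEnd ℂ μ) ^ Fintype.card ι = ((Φ.det : ℚ) : ℂ) ^ 2 := by
  obtain ⟨r, hr, habs⟩ := H.abs
  have h1 : ((Φ.det : ℚ) : ℂ) = (ratM Φ).det := (algebraMap ℚ ℂ).map_det Φ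
  have h2 : ‖(ratM Φ).det‖ = r ^ Fintype.card ι := by
    rw [Matrix.det_eq_prod_roots_charpoly]
    have h3 : ‖(ratM Φ).charpoly.roots.prod‖ =
        ((ratM Φ).charpoly.roots.map (fun z => ‖z‖)).prod :=
      map_multiset_prod (normHom : ℂ →*₀ ℝ) _
    have h7 : ∀ x ∈ (ratM Φ).charpoly.roots.map (fun z => ‖z‖), x = r := by
      intro x hx
      obtain ⟨z, hz, rfl⟩ := Multiset.mem_map.1 hx
      apply habs
      rw [Module.End.hasEigenvalue_iff_isRoot_charpoly, Matrix.charpoly_toLin']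
      exact (Polynomial.mem_roots'.1 hz).2
    rw [h3, Multiset.eq_replicate_card.2 h7, Multiset.prod_replicate, Multiset.card_map,
      IsAlgClosed.card_roots_eq_natDegree, Matrix.charpoly_natDegree_eq_dim]
  rw [← h1] at h2
  generalize Φ.det = d at h1 h2 ⊢
  have h4 : (Complex.normSq μ) ^ Fintype.card ι = (d : ℝ) ^ 2 := by
    have h5 : ‖(d : ℂ)‖ = |(d : ℝ)| := by
      rw [← Complex.ofReal_ratCast, Complex.norm_real, Real.norm_eq_abs]
    rw [Complex.normSq_eq_norm_sq, habs μ hμ, ← sq_abs (d : ℝ), ← h5, h2]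
    ring
  rw [← mul_pow, Complex.mul_conj]
  exact_mod_cast h4

theorem conj_comm (H : IsFrob R Φ) {μ : ℂ}
    (hμ : Module.End.HasEigenvalue (Matrix.toLin' (ratM Φ)) μ) (γ : ℂ ≃+* ℂ) :
    γ (starRingEnd ℂ μ) = starRingEnd ℂ (γ μ) := by
  have hN : Fintype.card ι ≠ 0 := by
    obtain ⟨v, hv, hv0⟩ := hμ.exists_hasEigenvector
    obtain ⟨i, hi⟩ := Function.ne_iff.1 hv0
    exact (Fintype.card_pos_iff.2 ⟨i⟩).ne'
  have h1 := congrArg γ (Star_det H hμ)
  rw [map_mul, map_pow, map_pow, map_pow, map_ratCast] at h1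
  have h2 := Star_det H (Star_eig γ hμ)
  rw [← h2] at h1
  have h3 : γ μ ≠ 0 := by
    intro h0
    obtain ⟨r, hr, habs⟩ := H.abs
    have h4 := habs _ (Star_eig γ hμ)
    rw [h0, norm_zero] at h4
    exact hr.ne h4
  exact H.neat _ _ (Star_eig γ (Star_conj hμ)) (Star_conj (Star_eig γ hμ)) _ hN
    (mul_left_cancel₀ (pow_ne_zero _ h3) h1)

theorem cp_star (hc : ∀ (σ : E →+* ℂ) a, σ (c a) = starRingEnd ℂ (σ a)) (γ : ℂ ≃+* ℂ)
    (σ : E →+* ℂ) : cp γ (cp starRingAut σ) = cp starRingAut (cp γ σ) := by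
  ext a
  change γ (starRingEnd ℂ (σ a)) = starRingEnd ℂ (cp γ σ a)
  rw [← hc, ← hc]
  rfl

private theorem Star_symm (z : ℂ) : (starRingAut : ℂ ≃+* ℂ).symm z = starRingEnd ℂ z := by
  apply (starRingAut : ℂ ≃+* ℂ).injective
  rw [RingEquiv.apply_symm_apply]
  exact (star_star z).symm

theorem mv_star (H : IsFrob R Φ) (γ : ℂ ≃+* ℂ) {F : ℂ → ℚ} (hF : Rts R Φ σ F) :
    mv γ (mv starRingAut F) = mv starRingAut (mv γ F) := by
  funext ν
  change F ((starRingAut : ℂ ≃+* ℂ).symm (γ.symm ν)) =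
    F (γ.symm ((starRingAut : ℂ ≃+* ℂ).symm ν))
  rw [Star_symm, Star_symm]
  have key : Module.End.HasEigenvalue (Matrix.toLin' (ratM Φ)) ν →
      F (starRingEnd ℂ (γ.symm ν)) = F (γ.symm (starRingEnd ℂ ν)) := by
    intro hν
    rw [conj_comm H hν γ.symm]
  by_cases h1 : starRingEnd ℂ (γ.symm ν) ∈ Om R Φ σ
  · apply key
    have h2 := Star_eig γ (Star_conj (hasEigenvalue_of_mem h1))
    rwa [Complex.conj_conj, RingEquiv.apply_symm_apply] at h2
  · by_cases h3 : γ.symm (starRingEnd ℂ ν) ∈ Om R Φ σ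
    · apply key
      have h2 := Star_conj (Star_eig γ (hasEigenvalue_of_mem h3))
      rwa [RingEquiv.apply_symm_apply, Complex.conj_conj] at h2
    · rw [hF.supp _ h1, hF.supp _ h3]

private theorem Star_sum {F : ℂ → ℚ} (hF : Rts R Φ σ F) : ∑ ω : Om R Φ σ, rs R Φ σ F ω = 0 := by
  obtain ⟨π, hπ⟩ := hF.rt
  have h1 : ∑ ω : Om R Φ σ, rs R Φ σ F (π ω) = ∑ ω : Om R Φ σ, rs R Φ σ F ω :=
    Equiv.sum_comp π _
  have h2 : ∑ ω : Om R Φ σ, rs R Φ σ F (π ω) = -∑ ω : Om R Φ σ, rs R Φ σ F ω := by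
    rw [← Finset.sum_neg_distrib]
    exact Finset.sum_congr rfl fun ω _ => hπ.neg ω
  linarith

theorem tch_star (H : IsFrob R Φ) {e : Matrix ι ι ℂ} (he : e ∈ tor Φ) (hee : e * e = e)
    (htr : 2 * e.trace = Fintype.card ι) (σ : E →+* ℂ) :
    mv starRingAut '' tch R Φ σ (ev Φ e) = tch R Φ (cp starRingAut σ) (ev Φ e) := by
  rw [← tch_mv H.diag]
  have key : ∀ F' : ℂ → ℚ, Rts R Φ (cp starRingAut σ) F' →
      rs R Φ (cp starRingAut σ) (mv starRingAut (ev Φ e)) ⬝ᵥ rs R Φ (cp starRingAut σ) F' =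
        -(rs R Φ (cp starRingAut σ) (ev Φ e) ⬝ᵥ rs R Φ (cp starRingAut σ) F') := by
    intro F' hF'
    have h1 := Star_sum hF'
    have h2 : ∀ ω : Om R Φ (cp starRingAut σ), rs R Φ (cp starRingAut σ)
        (mv starRingAut (ev Φ e)) ω = 1 - rs R Φ (cp starRingAut σ) (ev Φ e) ω := by
      intro ω
      rw [rs_apply, rs_apply]
      change ev Φ e ((starRingAut : ℂ ≃+* ℂ).symm ω) = _
      rw [Star_symm, ev_conj H he hee htr (hasEigenvalue_of_mem ω.2)]
    simp only [dotProduct, h2, sub_mul, one_mul, Finset.sum_sub_distrib]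
    rw [h1, zero_sub]
  ext F
  constructor
  · rintro ⟨h1, F', h2, h3, h4⟩
    refine ⟨h1, F', h2, ?_, h4⟩
    rw [key F' h2] at h3
    exact neg_ne_zero.1 h3
  · rintro ⟨h1, F', h2, h3, h4⟩
    refine ⟨h1, F', h2, ?_, h4⟩
    rw [key F' h2]
    exact neg_ne_zero.2 h3

end Pool.Agent.FQV
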