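import Pool.Agent.FQV.Lift
import Pool.Agent.FQV.Joint2
import Pool.Agent.FQV.FullW

/-!
# The complex conjugation of the eigenvalues and the form
-/

set_option autoImplicit false
set_option linter.unusedSectionVars false

namespace Pool.Agent.FQV

open Module
open Pool.Agent.CoprimeSig (ratM)

variable {ι : Type} [Fintype ι] [DecidableEq ι] {E : Type} [CommRing E]
  {R : E →+* Matrix ι ι ℚ} {Φ : Matrix ι ι ℚ} {σ : E →+* ℂ} {c : E → E}
  {g : Submodule ℂ (Matrix ι ι ℂ)} {ψ : Matrix ι ι ℂ} {W : Submodule ℂ (ι → ℂ)}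
  {p : (ι → ℂ) →ₗ[ℂ] W} {v : Basis (Om R Φ σ) ℂ W}

private theorem hasEv {μ : ℂ} {w : ι → ℂ} (hw0 : w ≠ 0) (hw : (ratM Φ).mulVec w = μ • w) :
    Module.End.HasEigenvalue (Matrix.toLin' (ratM Φ)) μ :=
  Module.End.hasEigenvalue_of_hasEigenvector (x := w)
    ⟨Module.End.mem_eigenspace_iff.2 (by rw [Matrix.toLin'_apply, hw]), hw0⟩

theorem tor_conj (H : IsFrob R Φ) (hTr : Tr Φ) {x : Matrix ι ι ℂ} (hx : x ∈ tor Φ) {μ a b : ℂ}
    {w w' : ι → ℂ} (hw0 : w ≠ 0) (hw : (ratM Φ).mulVec w = μ • w) (hxw : x.mulVec w = a • w)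
    (hw0' : w' ≠ 0) (hw' : (ratM Φ).mulVec w' = starRingEnd ℂ μ • w') (hxw' : x.mulVec w' = b • w') :
    (a + b) * Fintype.card ι = 2 * x.trace := by
  have key : ∃ a b : ℂ, x.mulVec w = a • w ∧ x.mulVec w' = b • w' ∧
      (a + b) * Fintype.card ι = 2 * x.trace := by
    have h1 := hTr hx
    clear hxw hxw' hx
    induction h1 using Submodule.span_induction with
    | mem e he =>
      obtain ⟨h1, h2, h3⟩ := he
      refine ⟨ev Φ e μ, ev Φ e (starRingEnd ℂ μ), ev_apply h1 h2 hw, ev_apply h1 h2 hw', ?_⟩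
      rw [ev_conj H h1 h2 h3 (hasEv hw0 hw), h3]
      push_cast
      ring
    | zero => exact ⟨0, 0, by simp, by simp, by simp⟩
    | add x y _ _ hx hy =>
      obtain ⟨a, b, h1, h2, h3⟩ := hx
      obtain ⟨a', b', h1', h2', h3'⟩ := hy
      refine ⟨a + a', b + b', ?_, ?_, ?_⟩
      · rw [Matrix.add_mulVec, h1, h1', add_smul]
      · rw [Matrix.add_mulVec, h2, h2', add_smul]
      · rw [Matrix.trace_add]
        linear_combination h3 + h3'
    | smul r x _ hx =>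
      obtain ⟨a, b, h1, h2, h3⟩ := hx
      refine ⟨r * a, r * b, ?_, ?_, ?_⟩
      · rw [Matrix.smul_mulVec, h1, mul_smul]
      · rw [Matrix.smul_mulVec, h2, mul_smul]
      · rw [Matrix.trace_smul, smul_eq_mul]
        linear_combination r * h3
  obtain ⟨a', b', h1, h2, h3⟩ := key
  rw [h1] at hxw
  rw [h2] at hxw'
  rw [← smul_left_injective ℂ hw0 hxw, ← smul_left_injective ℂ hw0' hxw']
  exact h3

theorem exists_bar (M : Mono R c Φ g ψ) (H : IsFrob R Φ) (hTr : Tr Φ)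
    (hr : ∀ a, starRingEnd ℂ (σ a) = σ a) :
    ∃ bar : Om R Φ σ → Om R Φ σ, (∀ μ, ((bar μ : Om R Φ σ) : ℂ) = starRingEnd ℂ μ) ∧
      (∀ μ, bar (bar μ) = μ) ∧ ∀ μ, bar μ ≠ μ := by
  have hcp : cp (starRingAut : ℂ ≃+* ℂ) σ = σ := RingHom.ext fun a => hr a
  have hm : ∀ μ : Om R Φ σ, starRingEnd ℂ (μ : ℂ) ∈ Om R Φ σ := by
    intro μ
    have h1 := mem_Om_cp (starRingAut : ℂ ≃+* ℂ) μ.2
    rw [hcp] at h1
    exact h1
  refine ⟨fun μ => ⟨starRingEnd ℂ μ, hm μ⟩, fun _ => rfl, fun μ => Subtype.ext ?_,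
    fun μ h => ?_⟩
  · exact Complex.conj_conj (μ : ℂ)
  · have h1 : starRingEnd ℂ (μ : ℂ) = μ := congrArg Subtype.val h
    obtain ⟨w, -, hw0, hw⟩ := μ.2
    obtain ⟨e, he⟩ : ({e : Matrix ι ι ℂ | e ∈ tor Φ ∧ e * e = e ∧
        2 * e.trace = Fintype.card ι}).Nonempty := by
      by_contra hne
      have h2 := hTr (one_mem_tor M)
      rw [Set.not_nonempty_iff_eq_empty.1 hne, Submodule.span_empty, Submodule.mem_bot] at h2
      apply hw0
      rw [← Matrix.one_mulVec w, h2, Matrix.zero_mulVec]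
    have h3 := ev_conj H he.1 he.2.1 he.2.2 (hasEv hw0 hw)
    rw [h1] at h3
    rcases ev_or Φ e μ with h4 | h4 <;> rw [h4] at h3 <;> norm_num at h3

theorem form_val (M : Mono R c Φ g ψ) (H : IsFrob R Φ) (hTr : Tr Φ)
    (F : Frame R Φ g σ W p v) {φ : W →ₗ[ℂ] W →ₗ[ℂ] ℂ} (hφ : IsForm g ψ p φ)
    {bar : Om R Φ σ → Om R Φ σ} (hbar : ∀ μ, ((bar μ : Om R Φ σ) : ℂ) = starRingEnd ℂ μ)
    (a b : Om R Φ σ) : φ (v a) (v b) ≠ 0 ↔ b = bar a := by
  have hv0 : ∀ μ, (v μ : ι → ℂ) ≠ 0 := fun μ h => v.ne_zero μ (Subtype.ext h)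
  have hdir : ∀ b, φ (v a) (v b) ≠ 0 → b = bar a := by
    intro b hne
    by_contra hab
    have hab' : (b : ℂ) ≠ (bar a : ℂ) := fun h => hab (Subtype.ext h)
    obtain ⟨x, hx, s, t, hst, h1, h2⟩ := sep H (hasEigenvalue_of_mem b.2)
      (hasEigenvalue_of_mem (bar a).2) hab'
    obtain ⟨d, hd⟩ := exists_scalar hx
    obtain ⟨κ, hκ⟩ := M.sim x (M.le hx)
    have h3 := hφ.mult x (M.le hx) κ hκ (v a) (v b)
    have h4 : ∀ μ, rm p x (v μ) = d μ • v μ := fun μ => Subtype.ext (by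
      rw [rm_apply F.prj (F.irr.1 x (M.le hx)), hd _ _ (F.bas μ)]
      rfl)
    rw [h4, h4, map_smul, map_smul, LinearMap.smul_apply, smul_eq_mul, smul_eq_mul] at h3
    have h5 : d a + d b = κ := by
      have h6 : (d a + d b - κ) * φ (v a) (v b) = 0 := by linear_combination h3
      rcases mul_eq_zero.1 h6 with h7 | h7
      · exact sub_eq_zero.1 h7
      · exact absurd h7 hne
    have h6 := trace_mult M.unit hκ
    have h7 : (ratM Φ).mulVec (v (bar a) : ι → ℂ) =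
        starRingEnd ℂ (a : ℂ) • (v (bar a) : ι → ℂ) := by
      rw [F.bas, hbar]
    have h8 := tor_conj H hTr hx (hv0 a) (F.bas a) (hd _ _ (F.bas a)) (hv0 (bar a)) h7
      (hd _ _ (F.bas (bar a)))
    have hne' : Nonempty ι := by
      by_contra hι
      rw [not_nonempty_iff] at hι
      exact hv0 a (Subsingleton.elim _ _)
    have h9 : ((Fintype.card ι : ℕ) : ℂ) ≠ 0 := by
      rw [Nat.cast_ne_zero]
      exact Fintype.card_ne_zero
    have h10 : d a + d (bar a) = κ := mul_right_cancel₀ h9 (h8.trans h6)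
    have h11 : d b = d (bar a) := add_left_cancel (h5.trans h10.symm)
    have h12 : s = d b := smul_left_injective ℂ (hv0 b)
      ((h1 _ (F.bas b)).symm.trans (hd _ _ (F.bas b)))
    have h13 : t = d (bar a) := smul_left_injective ℂ (hv0 (bar a))
      ((h2 _ (F.bas (bar a))).symm.trans (hd _ _ (F.bas (bar a))))
    exact hst (by rw [h12, h13, h11])
  refine ⟨hdir b, ?_⟩
  rintro rfl h0
  apply v.ne_zero a
  refine hφ.nd _ fun y => ?_
  have h1 : φ (v a) = 0 := by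
    refine v.ext fun b => ?_
    rw [LinearMap.zero_apply]
    by_contra h2
    have h3 := hdir b h2
    rw [h3] at h2
    exact h2 h0
  rw [h1, LinearMap.zero_apply]

end Pool.Agent.FQV
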