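import Pool.Agent.FQV.Base

/-!
# Monodromy groups of abelian varieties: the definitions used in the statements

The basic definitions are in `Pool/Agent/FQV/Base.lean`.
-/

set_option autoImplicit false

namespace Pool.Agent.FQV.Stmt

variable {ι : Type} [Fintype ι] [DecidableEq ι] {E : Type} [CommRing E]

/-- `E` acts faithfully and commutes with `Φ`, which is diagonalisable over `ℂ` with eigenvalues
`μ i`; these have the same absolute value `ρ > 0` and no quotient of two of them is a root of unity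
other than `1`. -/
structure Frob (R : E →+* Matrix ι ι ℚ) (Φ : Matrix ι ι ℚ) : Prop where
  inj : Function.Injective R
  comm : ∀ a, R a * Φ = Φ * R a
  diag : ∃ (U : (Matrix ι ι ℂ)ˣ) (μ : ι → ℂ) (ρ : ℝ), cm Φ * U = U * Matrix.diagonal μ ∧
    0 < ρ ∧ (∀ i, ‖μ i‖ = ρ) ∧ ∀ i j, ∀ k : ℕ, k ≠ 0 → μ i ^ k = μ j ^ k → μ i = μ j

/-- The powers of `τ` and the complex conjugation permute transitively the embeddings of the factor
of `E` to which `σ` belongs; if `n σ` is a `k`-th power `m ^ k`, `k ≥ 2`, and `m ^ (k - 1)` divides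
`r σ`, then `k` is prime to the degree of `K`. -/
def CondA (K : Subfield ℂ) (τ : ℂ ≃+* ℂ) (n r : (E →+* ℂ) → ℕ) (σ : E →+* ℂ) : Prop :=
  (∀ σ₁ σ₂ : E →+* ℂ, SK σ σ₁ → SK σ σ₂ →
    ∃ k : ℕ, (∀ a, σ₂ a = (τ ^[k]) (σ₁ a)) ∨ ∀ a, σ₂ a = starRingEnd ℂ ((τ ^[k]) (σ₁ a))) ∧
  ∀ m k : ℕ, 2 ≤ k → n σ = m ^ k → m ^ (k - 1) ∣ r σ → (Module.finrank ℚ K).Coprime k

/-- There is no factorisation `n σ = a * b`, `a, b > 1`, such that for the embeddings `σ'` of the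
factor of `E` to which `σ` belongs all `r σ'` are divisible by `a` or `b`, one of them which is not
`0` or `n σ` is divisible by `a`, and one by `b`. -/
def CondB (n r : (E →+* ℂ) → ℕ) (σ : E →+* ℂ) : Prop :=
  ∀ a b : ℕ, 1 < a → 1 < b → n σ = a * b → (∀ σ', SK σ σ' → a ∣ r σ' ∨ b ∣ r σ') →
    (∃ σ', SK σ σ' ∧ 0 < r σ' ∧ r σ' < n σ ∧ a ∣ r σ') →
      ¬ ∃ σ', SK σ σ' ∧ 0 < r σ' ∧ r σ' < n σ ∧ b ∣ r σ'

/-- The condition for a homomorphism `σ` which is not real. -/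
def CondN (K : Subfield ℂ) (τ : ℂ ≃+* ℂ) (n r : (E →+* ℂ) → ℕ) (σ : E →+* ℂ) : Prop :=
  NoTwist n r σ ∧ (((CondA K τ n r σ ∨ CondB n r σ) ∧ CondU n r σ) ∨
    (n σ = 4 ∧ ∃ σ', SK σ σ' ∧ r σ' = 2))

/-- The condition for a real homomorphism `σ`, of symplectic type if `sp σ`. -/
def CondR (K : Subfield ℂ) (τ : ℂ ≃+* ℂ) (n r : (E →+* ℂ) → ℕ) (sp : (E →+* ℂ) → Prop)
    (σ : E →+* ℂ) : Prop :=
  ((sp σ ∧ n σ = 4) ∨ ((CondA K τ n r σ ∨ ¬ 4 ∣ n σ) ∧ (∀ m : ℕ, 4 ≤ m → n σ ≠ 2 ^ m) ∧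
    (sp σ ∨ n σ ≠ 8))) ∧
  ((∀ z ∈ K, starRingEnd ℂ z = z) ∨ ∀ k : ℕ, 3 ≤ k → (Odd k ↔ sp σ) → n σ ≠ (2 * k).choose k)

/-- The numerical conditions: for every homomorphism `σ`; and if `n σ = 4`, `σ` is not real,
`n σ' = 6`, and `σ'` is real of orthogonal type, then some `r σ''`, for an embedding `σ''` of the
factor of `E` to which `σ` belongs, is not `1` or `3`. -/
def Num (K : Subfield ℂ) (τ : ℂ ≃+* ℂ) (n r : (E →+* ℂ) → ℕ) (sp : (E →+* ℂ) → Prop) : Prop :=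
  (∀ σ : E →+* ℂ, n σ = 1 ∨ (¬ Rl σ ∧ CondN K τ n r σ) ∨ (Rl σ ∧ CondR K τ n r sp σ)) ∧
  ∀ σ σ' : E →+* ℂ, ¬ Rl σ → Rl σ' → ¬ sp σ' → n σ = 4 → n σ' = 6 →
    ∃ σ'', SK σ σ'' ∧ r σ'' ≠ 1 ∧ r σ'' ≠ 3

/-- The data of a place of degree one for which `τ` is the Frobenius automorphism. -/
def Place (R : E →+* Matrix ι ι ℚ) (c : E → E) (Φ : Matrix ι ι ℚ) (sp : (E →+* ℂ) → Prop)
    (r : (E →+* ℂ) → ℕ) (τ : ℂ ≃+* ℂ) : Prop :=
  ∃ (g : Submodule ℂ (Matrix ι ι ℂ)) (ψ e : Matrix ι ι ℂ), Mono R c Φ sp g ψ ∧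
    Coch R Φ r g ψ τ e

/-- The data of the place of degree one at which `Φ` is the Frobenius element and `τ` the Frobenius
automorphism; `n σ` is the dimension of the irreducible subspaces of the eigenspace for `σ`. -/
def Good (R : E →+* Matrix ι ι ℚ) (c : E → E) (Φ : Matrix ι ι ℚ) (sp : (E →+* ℂ) → Prop)
    (n r : (E →+* ℂ) → ℕ) (τ : ℂ ≃+* ℂ) : Prop :=
  ∃ (g : Submodule ℂ (Matrix ι ι ℂ)) (ψ e : Matrix ι ι ℂ), Mono R c Φ sp g ψ ∧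
    Coch R Φ r g ψ τ e ∧ Spans Φ g e ∧
      ∀ (σ : E →+* ℂ) (P : Matrix ι ι ℂ), On R σ P → Irr g P → P.trace = n σ

end Pool.Agent.FQV.Stmt
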