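import Pool.Agent.FQV.Stmt
import Pool.Agent.FQV.Main

/-!
# Comparison of the definitions with those of `Stmt.lean`
-/

set_option autoImplicit false
set_option linter.unusedSectionVars false

namespace Pool.Agent.FQV

open Module
open Pool.Agent.CoprimeSig (ratM)
open Pool.Agent.FQ (expG fixG)

variable {ι : Type} [Fintype ι] [DecidableEq ι] {E : Type} [CommRing E]
  {R : E →+* Matrix ι ι ℚ} {Φ : Matrix ι ι ℚ} {c : E → E} {σ : E →+* ℂ}
  {g : Submodule ℂ (Matrix ι ι ℂ)} {ψ P Q e : Matrix ι ι ℂ} {W : Submodule ℂ (ι → ℂ)}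
  {r : (E →+* ℂ) → ℕ} {sp : (E →+* ℂ) → Prop}

/-- The image of a matrix. -/
def rg (P : Matrix ι ι ℂ) : Submodule ℂ (ι → ℂ) := LinearMap.range (Matrix.toLin' P)

theorem mulVec_mem_rg (P : Matrix ι ι ℂ) (v : ι → ℂ) : P.mulVec v ∈ rg P :=
  ⟨v, Matrix.toLin'_apply P v⟩

theorem mem_rg (hP : P * P = P) {v : ι → ℂ} : v ∈ rg P ↔ P.mulVec v = v := by
  constructor
  · rintro ⟨w, rfl⟩
    rw [Matrix.toLin'_apply, Matrix.mulVec_mulVec, hP]
  · intro h
    rw [← h]
    exact mulVec_mem_rg P v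

theorem mx_ext {A B : Matrix ι ι ℂ} (h : ∀ v, A.mulVec v = B.mulVec v) : A = B := by
  apply Matrix.toLin'.injective
  apply LinearMap.ext
  intro v
  rw [Matrix.toLin'_apply, Matrix.toLin'_apply, h v]

/-- The projection on a subspace with a complement. -/
theorem exists_mx {W W' : Submodule ℂ (ι → ℂ)} (h : IsCompl W W') : ∃ Q : Matrix ι ι ℂ,
    Q * Q = Q ∧ rg Q = W ∧ (∀ v ∈ W', Q.mulVec v = 0) ∧ ∀ x : Matrix ι ι ℂ,
      (∀ w ∈ W, x.mulVec w ∈ W) → (∀ w ∈ W', x.mulVec w ∈ W') → x * Q = Q * x := by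
  set Q := LinearMap.toMatrix' (W.subtype.comp (W.projectionOnto W' h)) with hQ
  have h1 : ∀ v, Q.mulVec v = W.projectionOnto W' h v := by
    intro v
    rw [← Matrix.toLin'_apply, hQ, Matrix.toLin'_toMatrix']
    rfl
  have h2 : ∀ v, Q.mulVec v ∈ W := fun v => by
    rw [h1]
    exact (W.projectionOnto W' h v).2
  have h3 : ∀ v ∈ W, Q.mulVec v = v := fun v hv => by
    rw [h1]
    exact congrArg Subtype.val (Submodule.projectionOnto_apply_left h ⟨v, hv⟩)
  have h4 : ∀ v ∈ W', Q.mulVec v = 0 := fun v hv => by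
    rw [h1, (Submodule.projectionOnto_apply_eq_zero_iff h).2 hv]
    rfl
  have h5 : Q * Q = Q := mx_ext fun v => by rw [← Matrix.mulVec_mulVec, h3 _ (h2 v)]
  refine ⟨Q, h5, ?_, h4, fun x hx hx' => mx_ext fun v => ?_⟩
  · ext v
    rw [mem_rg h5]
    exact ⟨fun h => h ▸ h2 v, h3 v⟩
  · obtain ⟨w, hw, w', hw', rfl⟩ := Submodule.mem_sup.1
      (show v ∈ W ⊔ W' by rw [h.sup_eq_top]; exact Submodule.mem_top)
    rw [← Matrix.mulVec_mulVec, ← Matrix.mulVec_mulVec, Matrix.mulVec_add Q, h3 w hw, h4 w' hw',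
      add_zero, Matrix.mulVec_add x, Matrix.mulVec_add Q, h3 _ (hx w hw), h4 _ (hx' w' hw'),
      add_zero]

theorem on_iff (hP : P * P = P) : Stmt.On R σ P ↔ rg P ≤ HS R σ := by
  constructor
  · intro h v hv a
    have h1 := (mem_rg hP).1 hv
    have h2 : ratM (R a) * P = σ a • P := h a
    calc (ratM (R a)).mulVec v = (ratM (R a)).mulVec (P.mulVec v) := by rw [h1]
      _ = σ a • P.mulVec v := by rw [Matrix.mulVec_mulVec, h2, Matrix.smul_mulVec]
      _ = σ a • v := by rw [h1]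
  · intro h a
    apply mx_ext
    intro v
    rw [← Matrix.mulVec_mulVec, Matrix.smul_mulVec]
    exact h (mulVec_mem_rg P v) a

/-- Semisimplicity. -/
def Ss (g : Submodule ℂ (Matrix ι ι ℂ)) : Prop :=
  ∀ W : Submodule ℂ (ι → ℂ), (∀ x ∈ g, ∀ w ∈ W, x.mulVec w ∈ W) →
    ∃ W' : Submodule ℂ (ι → ℂ), IsCompl W W' ∧ ∀ x ∈ g, ∀ w ∈ W', x.mulVec w ∈ W'

theorem ss_of (h : ∀ P : Matrix ι ι ℂ, P * P = P → (∀ x ∈ g, P * x * P = x * P) →
    ∃ Q : Matrix ι ι ℂ, P * Q = Q ∧ Q * P = P ∧ ∀ x ∈ g, x * Q = Q * x) : Ss g := by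
  intro W hW
  obtain ⟨W₁, h1⟩ := W.exists_isCompl
  obtain ⟨P, hP, rfl, -, -⟩ := exists_mx h1
  obtain ⟨Q, h2, h3, h4⟩ := h P hP fun x hx => mx_ext fun v => by
    rw [← Matrix.mulVec_mulVec, ← Matrix.mulVec_mulVec, ← Matrix.mulVec_mulVec]
    exact (mem_rg hP).1 (hW x hx _ (mulVec_mem_rg P v))
  have h5 : Q * Q = Q := by
    calc Q * Q = Q * (P * Q) := by rw [h2]
      _ = Q := by rw [← mul_assoc, h3, h2]
  refine ⟨LinearMap.ker (Matrix.toLin' Q), ⟨?_, ?_⟩, ?_⟩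
  · rw [Submodule.disjoint_def]
    intro v hv hv'
    rw [LinearMap.mem_ker, Matrix.toLin'_apply] at hv'
    have h6 := (mem_rg hP).1 hv
    have h7 : P.mulVec v = 0 := by
      rw [← h3, ← Matrix.mulVec_mulVec, h6, hv']
    rw [← h6, h7]
  · rw [codisjoint_iff, eq_top_iff]
    intro v _
    rw [Submodule.mem_sup]
    refine ⟨Q.mulVec v, ?_, v - Q.mulVec v, ?_, add_sub_cancel _ _⟩
    · rw [mem_rg hP, Matrix.mulVec_mulVec, h2]
    · rw [LinearMap.mem_ker, Matrix.toLin'_apply, Matrix.mulVec_sub, Matrix.mulVec_mulVec, h5,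
        sub_self]
  · intro x hx w hw
    rw [LinearMap.mem_ker, Matrix.toLin'_apply] at hw ⊢
    rw [Matrix.mulVec_mulVec, ← h4 x hx, ← Matrix.mulVec_mulVec, hw, Matrix.mulVec_zero]

theorem exists_irrP (hs : Ss g) (hW : Irr g W) : ∃ P, Stmt.Irr g P ∧ rg P = W := by
  obtain ⟨W', h1, h2⟩ := hs W hW.1
  obtain ⟨P, hP, h3, h4, h5⟩ := exists_mx h1
  refine ⟨P, ⟨hP, ?_, fun x hx => h5 x (hW.1 x hx) (h2 x hx), ?_⟩, h3⟩
  · rintro rfl
    apply hW.2.1
    rw [← h3, eq_bot_iff]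
    rintro v ⟨w, rfl⟩
    rw [Matrix.toLin'_apply, Matrix.zero_mulVec]
    exact Submodule.zero_mem _
  · intro Q hQ h6 h7 h8
    have h9 : rg Q ≤ W := by
      intro v hv
      rw [← h3, mem_rg hP]
      rw [← (mem_rg hQ).1 hv, Matrix.mulVec_mulVec, h6]
    rcases hW.2.2 (rg Q) h9 (fun x hx u hu => by
      rw [mem_rg hQ, Matrix.mulVec_mulVec, ← h8 x hx, ← Matrix.mulVec_mulVec,
        (mem_rg hQ).1 hu]) with h10 | h10
    · left
      apply mx_ext
      intro v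
      rw [Matrix.zero_mulVec]
      have := mulVec_mem_rg Q v
      rwa [h10, Submodule.mem_bot] at this
    · right
      rw [← h7]
      apply mx_ext
      intro v
      rw [← Matrix.mulVec_mulVec]
      apply (mem_rg hQ).1
      rw [h10, ← h3]
      exact mulVec_mem_rg P v

theorem irr_rg (hs : Ss g) (h : Stmt.Irr g P) : Irr g (rg P) := by
  refine ⟨fun x hx w hw => ?_, fun h0 => h.ne (mx_ext fun v => ?_), fun U hU hst => ?_⟩
  · rw [mem_rg h.idem, Matrix.mulVec_mulVec, ← h.comm x hx, ← Matrix.mulVec_mulVec,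
      (mem_rg h.idem).1 hw]
  · rw [Matrix.zero_mulVec]
    have := mulVec_mem_rg P v
    rwa [h0, Submodule.mem_bot] at this
  · obtain ⟨U', h1, h2⟩ := hs U hst
    obtain ⟨Q, hQ, h3, h4, h5⟩ := exists_mx h1
    have h6 : ∀ x ∈ g, x * Q = Q * x := fun x hx => h5 x (hst x hx) (h2 x hx)
    have h7 : P * (Q * P) = Q * P := mx_ext fun v => by
      rw [← Matrix.mulVec_mulVec, ← Matrix.mulVec_mulVec]
      apply (mem_rg h.idem).1
      apply hU
      rw [← h3]
      exact mulVec_mem_rg Q _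
    have h8 : Q * P * (Q * P) = Q * P := by
      rw [mul_assoc, h7, ← mul_assoc, hQ]
    rcases h.min (Q * P) h8 h7 (by rw [mul_assoc, h.idem]) (fun x hx => by
      rw [← mul_assoc, h6 x hx, mul_assoc, h.comm x hx, mul_assoc]) with h9 | h9
    · left
      rw [eq_bot_iff]
      intro u hu
      have h10 : P.mulVec u = u := (mem_rg h.idem).1 (hU hu)
      have h11 : Q.mulVec u = u := (mem_rg hQ).1 (h3 ▸ hu)
      have h12 : (Q * P).mulVec u = u := by rw [← Matrix.mulVec_mulVec, h10, h11]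
      rw [h9, Matrix.zero_mulVec] at h12
      rw [← h12]
      exact Submodule.zero_mem _
    · right
      refine le_antisymm hU ?_
      rintro v hv
      have h10 : P.mulVec v = v := (mem_rg h.idem).1 hv
      rw [← h9, ← Matrix.mulVec_mulVec] at h10
      rw [← h10, ← h3]
      exact mulVec_mem_rg Q _

theorem tr_rg (h : Stmt.Irr g P) {x : Matrix ι ι ℂ} (hx : x * P = P * x) (A : End ℂ (rg P))
    (hA : ∀ w, (A w : ι → ℂ) = x.mulVec w) : LinearMap.trace ℂ (rg P) A = (x * P).trace := by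
  have h1 : ∀ v, Matrix.toLin' (x * P) v ∈ rg P := fun v => by
    rw [hx, Matrix.toLin'_apply, ← Matrix.mulVec_mulVec]
    exact mulVec_mem_rg P _
  have h2 : A = (Matrix.toLin' (x * P)).restrict (p := rg P) (q := rg P) fun v _ => h1 v := by
    apply LinearMap.ext
    intro w
    apply Subtype.ext
    rw [hA, LinearMap.restrict_apply]
    show x.mulVec w = Matrix.toLin' (x * P) w
    rw [Matrix.toLin'_apply, ← Matrix.mulVec_mulVec, (mem_rg h.idem).1 w.2]
  rw [h2, LinearMap.trace_restrict_eq_of_forall_mem _ _ h1, Matrix.trace_toLin'_eq]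

theorem finrank_rg (h : Stmt.Irr g P) : (finrank ℂ (rg P) : ℂ) = P.trace := by
  have h1 := tr_rg h (x := 1) (by rw [one_mul, mul_one]) 1 fun w => by
    rw [Matrix.one_mulVec]
    rfl
  rw [one_mul, LinearMap.trace_one] at h1
  exact h1

theorem mem_tor {x : Matrix ι ι ℂ} : x ∈ Stmt.tor Φ ↔ x ∈ tor Φ := by
  have hev : ∀ μ : ℂ, (∃ v : ι → ℂ, v ≠ 0 ∧ (ratM Φ).mulVec v = μ • v) ↔
      Module.End.HasEigenvalue (Matrix.toLin' (ratM Φ)) μ := by
    intro μ
    constructor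
    · rintro ⟨v, h1, h2⟩
      exact Module.End.hasEigenvalue_of_hasEigenvector
        ⟨Module.End.mem_eigenspace_iff.2 (by rw [Matrix.toLin'_apply]; exact h2), h1⟩
    · intro h
      obtain ⟨v, hv⟩ := h.exists_hasEigenvector
      refine ⟨v, hv.2, ?_⟩
      have := Module.End.mem_eigenspace_iff.1 hv.1
      rwa [Matrix.toLin'_apply] at this
  constructor
  · rintro ⟨d, h1, h2⟩
    refine ⟨d, fun μ v hv => ?_, fun s hs k hk => h2 s k (fun μ hμ => (hev μ).2 (hs μ hμ)) hk⟩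
    rw [Matrix.toLin'_apply]
    refine h1 μ v ?_
    have := Module.End.mem_eigenspace_iff.1 hv
    rwa [Matrix.toLin'_apply] at this
  · rintro ⟨d, h1, h2⟩
    refine ⟨d, fun μ v hv => ?_, fun s k hs hk => h2 s (fun μ hμ => (hev μ).1 (hs μ hμ)) k hk⟩
    rw [← Matrix.toLin'_apply]
    exact h1 μ v (Module.End.mem_eigenspace_iff.2 (by rw [Matrix.toLin'_apply]; exact hv))

theorem isFrob_of (H : Stmt.Frob R Φ) : IsFrob R Φ := by
  obtain ⟨U, μ, ρ, h1, h2, h3, h4⟩ := H.diag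
  have h1' : ratM Φ * (U : Matrix ι ι ℂ) = U * Matrix.diagonal μ := h1
  have hcol : ∀ i, (ratM Φ).mulVec ((U : Matrix ι ι ℂ).mulVec (Pi.single i 1)) =
      μ i • (U : Matrix ι ι ℂ).mulVec (Pi.single i 1) := by
    intro i
    rw [Matrix.mulVec_mulVec, h1', ← Matrix.mulVec_mulVec, Matrix.diagonal_mulVec_single, mul_one,
      ← Matrix.mulVec_smul, ← Pi.single_smul, smul_eq_mul, mul_one]
  have hev : ∀ ν : ℂ, Module.End.HasEigenvalue (Matrix.toLin' (ratM Φ)) ν → ∃ i, ν = μ i := by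
    intro ν hν
    obtain ⟨v, hv⟩ := hν.exists_hasEigenvector
    have h5 := Module.End.mem_eigenspace_iff.1 hv.1
    rw [Matrix.toLin'_apply] at h5
    set z := ((U⁻¹ : (Matrix ι ι ℂ)ˣ) : Matrix ι ι ℂ).mulVec v with hz
    have h6 : (U : Matrix ι ι ℂ).mulVec z = v := by
      rw [hz, Matrix.mulVec_mulVec, Units.mul_inv, Matrix.one_mulVec]
    have h7 : (Matrix.diagonal μ).mulVec z = ν • z := by
      have h8 : (U : Matrix ι ι ℂ).mulVec ((Matrix.diagonal μ).mulVec z) =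
          (U : Matrix ι ι ℂ).mulVec (ν • z) := by
        rw [Matrix.mulVec_mulVec, ← h1', ← Matrix.mulVec_mulVec, h6, h5, Matrix.mulVec_smul, h6]
      have h9 := congrArg (fun y => ((U⁻¹ : (Matrix ι ι ℂ)ˣ) : Matrix ι ι ℂ).mulVec y) h8
      simpa only [Matrix.mulVec_mulVec, ← mul_assoc, Units.inv_mul, Matrix.one_mulVec,
        one_mul] using h9
    have h10 : z ≠ 0 := by
      rintro h0
      apply hv.2
      rw [← h6, h0, Matrix.mulVec_zero]
    obtain ⟨i, hi⟩ := Function.ne_iff.1 h10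
    refine ⟨i, ?_⟩
    have h11 := congrFun h7 i
    rw [Matrix.mulVec_diagonal, Pi.smul_apply, smul_eq_mul] at h11
    exact (mul_right_cancel₀ hi h11).symm
  refine ⟨H.inj, H.comm, ?_, ⟨ρ, h2, fun ν hν => ?_⟩, fun ν ν' hν hν' k hk h5 => ?_⟩
  · rw [eq_top_iff]
    intro v _
    set z := ((U⁻¹ : (Matrix ι ι ℂ)ˣ) : Matrix ι ι ℂ).mulVec v with hz
    have h6 : (U : Matrix ι ι ℂ).mulVec z = v := by
      rw [hz, Matrix.mulVec_mulVec, Units.mul_inv, Matrix.one_mulVec]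
    have h7 : v = ∑ i, z i • (U : Matrix ι ι ℂ).mulVec (Pi.single i 1) := by
      have h8 : z = ∑ i, z i • Pi.single i (1 : ℂ) := by
        conv_lhs => rw [← Finset.univ_sum_single z]
        refine Finset.sum_congr rfl fun i _ => ?_
        rw [← Pi.single_smul, smul_eq_mul, mul_one]
      calc v = Matrix.toLin' (U : Matrix ι ι ℂ) z := by rw [Matrix.toLin'_apply, h6]
        _ = Matrix.toLin' (U : Matrix ι ι ℂ) (∑ i, z i • Pi.single i (1 : ℂ)) := by
          rw [← h8]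
        _ = _ := by
          rw [map_sum]
          refine Finset.sum_congr rfl fun i _ => ?_
          rw [map_smul, Matrix.toLin'_apply]
    rw [h7]
    refine Submodule.sum_mem _ fun i _ => Submodule.smul_mem _ _ ?_
    refine Submodule.mem_iSup_of_mem (μ i) (Module.End.mem_eigenspace_iff.2 ?_)
    rw [Matrix.toLin'_apply]
    exact hcol i
  · obtain ⟨i, rfl⟩ := hev ν hν
    exact h3 i
  · obtain ⟨i, rfl⟩ := hev ν hν
    obtain ⟨j, rfl⟩ := hev ν' hν'
    exact h4 i j k hk h5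

end Pool.Agent.FQV
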