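import Pool.Agent.FQV.StmtA

/-!
# Comparison of the definitions with those of `Stmt.lean`, II, and the main theorem
-/

set_option autoImplicit false
set_option linter.unusedSectionVars false

namespace Pool.Agent.FQV

open Module
open Pool.Agent.CoprimeSig (ratM)
open Pool.Agent.FQ (expG fixG)

variable {ι : Type} [Fintype ι] [DecidableEq ι] {E : Type} [CommRing E]
  {R : E →+* Matrix ι ι ℚ} {Φ : Matrix ι ι ℚ} {c : E → E} {σ : E →+* ℂ}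
  {g : Submodule ℂ (Matrix ι ι ℂ)} {ψ P Q e : Matrix ι ι ℂ} {W : Submodule ℂ (ι → ℂ)}
  {r n : (E →+* ℂ) → ℕ} {sp : (E →+* ℂ) → Prop}

/-- The bilinear form with the matrix `B`. -/
noncomputable def bf (B : Matrix ι ι ℂ) : (ι → ℂ) →ₗ[ℂ] (ι → ℂ) →ₗ[ℂ] ℂ := Matrix.toLinearMap₂' ℂ B

theorem bf_apply (B : Matrix ι ι ℂ) (u v : ι → ℂ) : bf B u v = dotProduct u (B.mulVec v) :=
  Matrix.toLinearMap₂'_apply' B u v

theorem bf_symm {B : Matrix ι ι ℂ} {s : ℂ} (h : B.transpose = s • B) (u v : ι → ℂ) :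
    bf B v u = s * bf B u v := by
  rw [bf_apply, bf_apply, Matrix.dotProduct_mulVec, ← Matrix.mulVec_transpose, h,
    Matrix.smul_mulVec, smul_dotProduct, smul_eq_mul, dotProduct_comm]

theorem form_of {s : ℂ} (hs : s ≠ 0) (hP : P * P = P) (h : Stmt.HasForm g ψ P s) :
    ∃ φ : (ι → ℂ) →ₗ[ℂ] (ι → ℂ) →ₗ[ℂ] ℂ, (∀ u v, φ v u = s * φ u v) ∧
      (∀ x ∈ rg P, (∀ y ∈ rg P, φ x y = 0) → x = 0) ∧
      ∀ x ∈ g, ∀ κ : ℂ, x.transpose * ψ + ψ * x = κ • ψ →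
        ∀ u ∈ rg P, ∀ v ∈ rg P, φ (x.mulVec u) v + φ u (x.mulVec v) = κ * φ u v := by
  obtain ⟨B, C, h1, h2, h3, h4⟩ := h
  refine ⟨bf B, bf_symm h1, fun x hx h5 => ?_, fun x hx κ hκ u _ v _ => ?_⟩
  · have h6 := (mem_rg hP).1 hx
    have h7 : ∀ y, bf B x y = 0 := by
      intro y
      have h8 := h5 (P.mulVec y) (mulVec_mem_rg P y)
      rw [bf_apply] at h8 ⊢
      rw [← h2, ← Matrix.mulVec_mulVec, ← Matrix.mulVec_mulVec, Matrix.dotProduct_mulVec,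
        Matrix.vecMul_transpose, h6]
      exact h8
    have h9 : B.mulVec x = 0 := by
      funext i
      have h10 := h7 (Pi.single i 1)
      have h11 := bf_symm h1 (Pi.single i 1) x
      rw [h10] at h11
      have h12 := (mul_eq_zero.1 h11.symm).resolve_left hs
      rw [bf_apply, single_one_dotProduct] at h12
      exact h12
    rw [← h6, ← h3, ← Matrix.mulVec_mulVec, h9, Matrix.mulVec_zero]
  · have h5 := h4 x hx κ hκ
    have h6 : dotProduct u ((x.transpose * B + B * x).mulVec v) = κ * dotProduct u (B.mulVec v) := by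
      rw [h5, Matrix.smul_mulVec, dotProduct_smul, smul_eq_mul]
    rw [Matrix.add_mulVec, dotProduct_add, ← Matrix.mulVec_mulVec, ← Matrix.mulVec_mulVec,
      Matrix.dotProduct_mulVec, Matrix.vecMul_transpose] at h6
    rw [bf_apply, bf_apply, bf_apply]
    exact h6

theorem sympOn_of (hP : P * P = P) (h : Stmt.HasForm g ψ P (-1)) : SympOn g ψ (rg P) := by
  obtain ⟨φ, h1, h2, h3⟩ := form_of (neg_ne_zero.2 one_ne_zero) hP h
  refine ⟨φ, fun x _ => ?_, h2, h3⟩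
  have := h1 x x
  linear_combination (1 / 2 : ℂ) * this

theorem orthOn_of (hP : P * P = P) (h : Stmt.HasForm g ψ P 1) : OrthOn g ψ (rg P) := by
  obtain ⟨φ, h1, h2, h3⟩ := form_of one_ne_zero hP h
  refine ⟨φ, fun x _ y _ => ?_, h2, h3⟩
  have := h1 y x
  linear_combination this

theorem isotypic_of (hs : Ss g) (hW : ∀ x ∈ g, ∀ w ∈ W, x.mulVec w ∈ W)
    (h : ∀ P Q : Matrix ι ι ℂ, rg P ≤ W → rg Q ≤ W → Stmt.Irr g P → Stmt.Irr g Q →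
      ∃ Z : Matrix ι ι ℂ, (∀ x ∈ g, x * Z = Z * x) ∧ Q * Z * P ≠ 0) : Isotypic g W := by
  intro U hU hst hZ
  by_contra hcon
  push Not at hcon
  obtain ⟨h1, h2⟩ := hcon
  obtain ⟨U₁, c1, s1⟩ := hs U hst
  have hne : U₁ ⊓ W ≠ ⊥ := by
    intro h0
    apply h2
    refine le_antisymm hU fun w hw => ?_
    obtain ⟨u, hu, u₁, hu₁, rfl⟩ := Submodule.mem_sup.1
      (show w ∈ U ⊔ U₁ by rw [c1.sup_eq_top]; exact Submodule.mem_top)
    have h3 : u₁ ∈ U₁ ⊓ W := ⟨hu₁, by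
      have h4 := Submodule.sub_mem W hw (hU hu)
      rwa [add_sub_cancel_left] at h4⟩
    rw [h0, Submodule.mem_bot] at h3
    rw [h3, add_zero]
    exact hu
  obtain ⟨A, hA, iA⟩ := exists_irr hst h1
  obtain ⟨B, hB, iB⟩ := exists_irr
    (fun x hx u hu => ⟨s1 x hx u hu.1, hW x hx u hu.2⟩ : ∀ x ∈ g, ∀ u ∈ U₁ ⊓ W,
      x.mulVec u ∈ U₁ ⊓ W) hne
  obtain ⟨P, iP, rfl⟩ := exists_irrP hs iA
  obtain ⟨Q, iQ, rfl⟩ := exists_irrP hs iB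
  obtain ⟨Z, h3, h4⟩ := h P Q (hA.trans hU) (hB.trans inf_le_right) iP iQ
  apply h4
  have h5 : ∀ v, (Q * Z * P).mulVec v ∈ U₁ ⊓ W := fun v => hB (by
    rw [mul_assoc, ← Matrix.mulVec_mulVec]
    exact mulVec_mem_rg Q _)
  have h6 : ∀ u ∈ U, (Q * Z * P).mulVec u ∈ U := by
    refine hZ (Q * Z * P) (fun x hx => ?_) fun w _ => (h5 w).2
    rw [mul_assoc Q Z P, ← mul_assoc x Q, iQ.comm x hx, mul_assoc Q x, ← mul_assoc x Z, h3 x hx,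
      mul_assoc Z x, iP.comm x hx, mul_assoc Q, mul_assoc Z]
  apply mx_ext
  intro v
  rw [Matrix.zero_mulVec]
  have h7 : (Q * Z * P).mulVec v = (Q * Z * P).mulVec (P.mulVec v) := by
    rw [Matrix.mulVec_mulVec, mul_assoc (Q * Z), iP.idem]
  have h8 : (Q * Z * P).mulVec v ∈ U ⊓ U₁ := ⟨by
    rw [h7]
    exact h6 _ (hA (mulVec_mem_rg P v)), (h5 v).1⟩
  rwa [c1.inf_eq_bot, Submodule.mem_bot] at h8

theorem ldata_of (M : Stmt.Mono R c Φ sp g ψ) : EllSig.LData g ψ :=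
  ⟨M.lie, M.one, M.sim, M.alt, M.unit, M.nd, ss_of M.ss⟩

theorem mono_of (M : Stmt.Mono R c Φ sp g ψ) : MonoT R c Φ sp g ψ := by
  have hs : Ss g := ss_of M.ss
  refine ⟨⟨ldata_of M, M.comm, M.center, fun σ => ?_, M.ros, fun x hx => M.le x (mem_tor.2 hx),
    fun x hx h => mem_tor.1 (M.cent x hx fun y hy => h y (mem_tor.1 hy))⟩, fun σ hσ W hW hi => ?_⟩
  · refine isotypic_of hs ?_ ?_
    · intro x hx w hw a
      rw [Matrix.mulVec_mulVec, show ratM (R a) * x = x * ratM (R a) from (M.comm a x hx).symm,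
        ← Matrix.mulVec_mulVec, hw a, Matrix.mulVec_smul]
    · intro P Q hP hQ h1 h2
      exact M.iso σ P Q ((on_iff h1.idem).2 hP) ((on_iff h2.idem).2 hQ) h1 h2
  · obtain ⟨P, h1, rfl⟩ := exists_irrP hs hi
    have h2 := M.type σ P hσ ((on_iff h1.idem).2 hW) h1
    exact ⟨fun h => sympOn_of h1.idem (h2.1 h), fun h => orthOn_of h1.idem (h2.2 h)⟩

theorem coch_of {τ : ℂ ≃+* ℂ} (M : Stmt.Mono R c Φ sp g ψ) (C : Stmt.Coch R Φ r g ψ τ e) :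
    Coch R Φ r g ψ τ e := by
  refine ⟨mem_tor.1 C.mem, C.idem, C.mult, C.conj, fun σ W hW hi A hA => ?_⟩
  obtain ⟨P, h1, rfl⟩ := exists_irrP (ss_of M.ss) hi
  rw [tr_rg h1 (h1.comm e (M.le e C.mem)) A hA, C.rk σ P ((on_iff h1.idem).2 hW) h1]

theorem spans_of (h : Stmt.Spans Φ g e) : tor Φ ≤ Submodule.span ℂ (orbit Φ g e) := by
  intro x hx
  refine Submodule.span_mono ?_ (h x (mem_tor.2 hx))
  rintro y ⟨e', h1, h2, h3⟩
  exact ⟨e', mem_tor.1 h1, h2, h3⟩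

theorem num_of {K : Subfield ℂ} {τ : ℂ ≃+* ℂ} (h : Stmt.Num K τ n r sp) : Num K τ n r sp := h

theorem trC_of (M : Stmt.Mono R c Φ sp g ψ) {N : Matrix ι ι ℂ} {a : (ℂ ≃+* ℂ) →₀ ℂ}
    (hN : ∀ Z : Matrix ι ι ℂ, (∀ x ∈ g, x * Z = Z * x) → N * Z = Z * N)
    (h : Stmt.TrC R r g ψ N a) : TrC R r g ψ N a := by
  refine ⟨h.1, fun σ W hW hi A hA => ?_⟩
  obtain ⟨P, h1, rfl⟩ := exists_irrP (ss_of M.ss) hi
  rw [tr_rg h1 (hN P h1.comm) A hA]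
  exact h.2 σ P ((on_iff h1.idem).2 hW) h1

theorem trC_to (M : Stmt.Mono R c Φ sp g ψ) {N : Matrix ι ι ℂ} {a : (ℂ ≃+* ℂ) →₀ ℂ}
    (hN : N ∈ g) (h : TrC R r g ψ N a) : Stmt.TrC R r g ψ N a := by
  refine ⟨h.1, fun σ P hP hi => ?_⟩
  have h1 := irr_rg (ss_of M.ss) hi
  have h2 : ∀ w ∈ rg P, Matrix.toLin' N w ∈ rg P := fun w hw => by
    rw [Matrix.toLin'_apply]
    exact h1.1 N hN w hw
  have h3 : ∀ w : rg P, (((Matrix.toLin' N).restrict h2) w : ι → ℂ) = N.mulVec w := fun w => by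
    rw [← Matrix.toLin'_apply]
    rfl
  rw [← tr_rg hi (hi.comm N hN) _ h3]
  exact h.2 σ (rg P) ((on_iff hi.idem).1 hP) h1 _ h3

/-- The Mumford–Tate conjecture for abelian varieties over number fields. -/
theorem main' [Algebra ℚ E] [Module.Finite ℚ E] [IsReduced E] (H : Stmt.Frob R Φ)
    (hc : ∀ (σ : E →+* ℂ) a, σ (c a) = starRingEnd ℂ (σ a))
    {K : Subfield ℂ} [FiniteDimensional ℚ K]
    (hsk : ∀ σ σ' : E →+* ℂ, Stmt.SK σ σ' → sp σ → sp σ')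
    (hHT : ∀ γ : ℂ ≃+* ℂ, (∀ x ∈ K, γ x = x) → ∀ S : Finset ℂ, (∀ x ∈ S, IsAlgebraic ℚ x) →
      ∃ τ : ℂ ≃+* ℂ, (∀ x ∈ S, τ x = γ x) ∧ Stmt.Place R c Φ sp r τ)
    (hNW : ∃ τ : ℂ ≃+* ℂ, (∀ x ∈ K, τ x = x) ∧ Stmt.Good R c Φ sp n r τ ∧
      ((K = ⊥ ∧ Fintype.card ι ≤ 14) ∨ Stmt.Num K τ n r sp))
    (M : Stmt.Mono R c Φ sp g ψ) (N : Matrix ι ι ℂ) :
    N ∈ g ↔ (∀ Z : Matrix ι ι ℂ, (∀ x ∈ g, x * Z = Z * x) → N * Z = Z * N) ∧
      ∃ a : (ℂ ≃+* ℂ) →₀ ℂ, Stmt.TrC R r g ψ N a := by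
  have key := main (K := K) (n := n) (isFrob_of H) hc hsk (fun γ hγ S hS => by
    obtain ⟨τ, h1, g, ψ, e, h2, h3⟩ := hHT γ hγ S hS
    exact ⟨τ, h1, g, ψ, e, mono_of h2, coch_of h2 h3⟩) (by
    obtain ⟨τ, h1, ⟨g, ψ, e, h2, h3, h4, h5⟩, h6⟩ := hNW
    refine ⟨τ, h1, g, ψ, e, mono_of h2, coch_of h2 h3, spans_of h4, fun σ W hW hi => ?_,
      h6.imp_right num_of⟩
    obtain ⟨P, h7, rfl⟩ := exists_irrP (ss_of h2.ss) hi
    have h8 := finrank_rg h7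
    rw [h5 σ P ((on_iff h7.idem).2 hW) h7] at h8
    exact_mod_cast h8) (mono_of M) N
  rw [key]
  constructor
  · rintro ⟨h1, a, h2⟩
    exact ⟨h1, a, trC_to M (key.2 ⟨h1, a, h2⟩) h2⟩
  · rintro ⟨h1, a, h2⟩
    exact ⟨h1, a, trC_of M h1 h2⟩

end Pool.Agent.FQV
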