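import Pool.Agent.FQV.Base

/-!
# Tate classes on the powers: the definitions used in the statement

The elements of the `N`-th power of the Tate module `V` are the matrices `w` with `N` rows, the
rows are vectors in `V`; the matrix `x` acts by `w ↦ w * xᵀ`.
-/

set_option autoImplicit false

namespace Pool.Agent.FQV.Stmt

variable {ι : Type} [Fintype ι] [DecidableEq ι] {E : Type} [CommRing E]

/-- Tate classes of degree `2 j` on the `N`-th power: alternating forms `f` on `V ^ N` with `2 j`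
arguments such that every `x` in `g` acts as `j` times its multiplier. -/
def IsTate (g : Submodule ℂ (Matrix ι ι ℂ)) (ψ : Matrix ι ι ℂ) (N j : ℕ)
    (f : Matrix (Fin N) ι ℂ [⋀^Fin (2 * j)]→ₗ[ℂ] ℂ) : Prop :=
  ∀ x ∈ g, ∀ κ : ℂ, x.transpose * ψ + ψ * x = κ • ψ → ∀ w : Fin (2 * j) → Matrix (Fin N) ι ℂ,
    ∑ i, f (Function.update w i (w i * x.transpose)) = j * κ * f w

/-- The linear combinations of products of `j` Tate classes of degree two. -/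
def products (g : Submodule ℂ (Matrix ι ι ℂ)) (ψ : Matrix ι ι ℂ) (N j : ℕ) :
    Submodule ℂ (Matrix (Fin N) ι ℂ [⋀^Fin (2 * j)]→ₗ[ℂ] ℂ) :=
  Submodule.span ℂ {η | ∃ ω : Fin j → Matrix (Fin N) ι ℂ [⋀^Fin (2 * 1)]→ₗ[ℂ] ℂ,
    (∀ i, IsTate g ψ N 1 (ω i)) ∧ ∀ w : Fin (2 * j) → Matrix (Fin N) ι ℂ,
      η w = ∑ σ : Equiv.Perm (Fin (2 * j)), ((Equiv.Perm.sign σ : ℤ) : ℂ) *
        ∏ i : Fin j, ω i ![w (σ ⟨2 * i, by omega⟩), w (σ ⟨2 * i + 1, by omega⟩)]}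

/-- `s 1, ..., s m` are homomorphisms, no two of them conjugate and none of them real, such that
all conjugates of the multiplicities have the mean value. -/
def Balanced (n r : (E →+* ℂ) → ℕ) (m : ℕ) (s : Fin m → (E →+* ℂ)) : Prop :=
  (∀ a b, ∃ t, s a t ≠ starRingEnd ℂ (s b t)) ∧
    ∀ γ : ℂ ≃+* ℂ, 2 * ∑ a, r (cp γ (s a)) = ∑ a, n (s a)

/-- Weil classes of degree `d` on the `N`-th power: pullbacks of alternating forms of degree
`d = dim (W 1 ⊕ ... ⊕ W m)` by `g`-equivariant linear maps `h : V ^ N → W 1 ⊕ ... ⊕ W m ⊆ V ^ m`,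
where `W a`, the image of `P a`, is an irreducible subspace of the eigenspace for `s a` and `s` is
balanced. -/
def IsWeil (R : E →+* Matrix ι ι ℚ) (n r : (E →+* ℂ) → ℕ) (g : Submodule ℂ (Matrix ι ι ℂ))
    (N d : ℕ) (θ : Matrix (Fin N) ι ℂ [⋀^Fin d]→ₗ[ℂ] ℂ) : Prop :=
  ∃ (m : ℕ) (s : Fin m → (E →+* ℂ)) (P : Fin m → Matrix ι ι ℂ)
    (h : Matrix (Fin N) ι ℂ →ₗ[ℂ] Matrix (Fin m) ι ℂ)
    (vol : Matrix (Fin m) ι ℂ [⋀^Fin d]→ₗ[ℂ] ℂ),
    Balanced n r m s ∧ d = ∑ a, n (s a) ∧ (∀ a, On R (s a) (P a) ∧ Irr g (P a)) ∧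
      (∀ w a, (P a).mulVec (h w a) = h w a) ∧
      (∀ x ∈ g, ∀ w, h (w * x.transpose) = h w * x.transpose) ∧
      θ = vol.compLinearMap h

/-- The linear combinations of products of some Tate classes of degree two and one Weil class. -/
def weilProducts (R : E →+* Matrix ι ι ℚ) (n r : (E →+* ℂ) → ℕ)
    (g : Submodule ℂ (Matrix ι ι ℂ)) (ψ : Matrix ι ι ℂ) (N j : ℕ) :
    Submodule ℂ (Matrix (Fin N) ι ℂ [⋀^Fin (2 * j)]→ₗ[ℂ] ℂ) :=
  Submodule.span ℂ {η | ∃ (l d : ℕ) (_ : 2 * l + d = 2 * j)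
    (ω : Fin l → Matrix (Fin N) ι ℂ [⋀^Fin (2 * 1)]→ₗ[ℂ] ℂ)
    (θ : Matrix (Fin N) ι ℂ [⋀^Fin d]→ₗ[ℂ] ℂ),
    (∀ i, IsTate g ψ N 1 (ω i)) ∧ IsWeil R n r g N d θ ∧
      ∀ w : Fin (2 * j) → Matrix (Fin N) ι ℂ,
      η w = ∑ σ : Equiv.Perm (Fin (2 * j)), ((Equiv.Perm.sign σ : ℤ) : ℂ) *
        ((∏ i : Fin l, ω i ![w (σ ⟨2 * i, by omega⟩), w (σ ⟨2 * i + 1, by omega⟩)]) *
          θ fun i : Fin d => w (σ ⟨2 * l + i, by omega⟩))}

end Pool.Agent.FQV.Stmt
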