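import Pool.Agent.FQV.TateF
import Pool.Agent.FQV.Main

/-!
# The Tate classes on the powers of abelian varieties over number fields
-/

set_option autoImplicit false
set_option linter.unusedSectionVars false

namespace Pool.Agent.FQV

open Module
open Pool.Agent.CoprimeSig (ratM)
open Pool.Agent.FQ (expG fixG)

variable {ι : Type} [Fintype ι] [DecidableEq ι] {E : Type} [CommRing E]
  {R : E →+* Matrix ι ι ℚ} {Φ : Matrix ι ι ℚ} {c : E → E}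

/-- The irreducible subspaces of the eigenspaces for real homomorphisms are symplectic. -/
def Sym (R : E →+* Matrix ι ι ℚ) (g : Submodule ℂ (Matrix ι ι ℂ)) (ψ : Matrix ι ι ℂ) : Prop :=
  ∀ σ : E →+* ℂ, Rl σ → ∀ W ≤ HS R σ, Irr g W → SympOn g ψ W

theorem Sym.typ {g : Submodule ℂ (Matrix ι ι ℂ)} {ψ : Matrix ι ι ℂ} (h : Sym R g ψ)
    (M : Mono R c Φ g ψ) : MonoT R c Φ (fun _ => True) g ψ :=
  ⟨M, fun σ hσ W hW hirr => ⟨fun _ => h σ hσ W hW hirr, fun hn => absurd trivial hn⟩⟩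

/-- **The main theorem.** -/
theorem tate_main [Algebra ℚ E] [Module.Finite ℚ E] [IsReduced E] (H : IsFrob R Φ)
    (hc : ∀ (σ : E →+* ℂ) a, σ (c a) = starRingEnd ℂ (σ a))
    {K : Subfield ℂ} [FiniteDimensional ℚ K] {n r : (E →+* ℂ) → ℕ}
    (hHT : ∀ γ ∈ fixG K, ∀ S : Finset ℂ, (∀ x ∈ S, IsAlgebraic ℚ x) →
      ∃ τ : ℂ ≃+* ℂ, (∀ x ∈ S, τ x = γ x) ∧ ∃ (g : Submodule ℂ (Matrix ι ι ℂ))
        (ψ e : Matrix ι ι ℂ), Sym R g ψ ∧ Mono R c Φ g ψ ∧ Coch R Φ r g ψ τ e)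
    (hNW : ∃ τ ∈ fixG K, ∃ (g : Submodule ℂ (Matrix ι ι ℂ)) (ψ e : Matrix ι ι ℂ),
      Sym R g ψ ∧ Mono R c Φ g ψ ∧ Coch R Φ r g ψ τ e ∧
      tor Φ ≤ Submodule.span ℂ (orbit Φ g e) ∧
      (∀ (σ : E →+* ℂ), ∀ W ≤ HS R σ, Irr g W → finrank ℂ W = n σ) ∧
      ((K = ⊥ ∧ Fintype.card ι ≤ 14) ∨ Num K τ n r fun _ => True))
    {g : Submodule ℂ (Matrix ι ι ℂ)} {ψ : Matrix ι ι ℂ} (hS : Sym R g ψ)
    (M : Mono R c Φ g ψ) :
    (∀ N j f, IsTate g ψ N j f ↔ f ∈ weilProducts R n r g ψ N j) ∧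
      ((∀ N j f, IsTate g ψ N j f → f ∈ products g ψ N j) ↔
        ¬ ∃ (m : ℕ) (s : Fin m → (E →+* ℂ)), 0 < m ∧ Balanced n r m s) := by
  have key := hNW
  obtain ⟨τ₀, -, g₀, ψ₀, e₀, -, M₀, C₀, hspan, hdim, -⟩ := key
  have hR : Rk R Φ r := rk_of M₀ H C₀ hspan
  have hn : ∀ (σ : E →+* ℂ), ∀ W ≤ HS R σ, Irr g W → finrank ℂ W = n σ := by
    intro σ W hσ hW
    obtain ⟨q, P⟩ := exists_prj M hW.1
    obtain ⟨v, F⟩ := exists_basis M H hR.tr.idem hW P hσ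
    obtain ⟨W₀, p₀, v₀, F₀⟩ := exists_frame M₀ H hR.tr.idem σ
    rw [← F.card, F₀.card, hdim σ W₀ F₀.le F₀.irr]
  refine tate_structure M H hR hc hn hS fun N h1 h2 => ?_
  refine (main (K := K) (n := n) (r := r) (sp := fun _ => True) H hc (fun _ _ _ _ => trivial) ?_ ?_
    (hS.typ M) N).2 ⟨h1, 0, h2⟩
  · intro γ hγ S hS'
    obtain ⟨τ, h3, g, ψ, e, h4, h5, h6⟩ := hHT γ hγ S hS'
    exact ⟨τ, h3, g, ψ, e, h4.typ h5, h6⟩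
  · obtain ⟨τ, h3, g, ψ, e, h4, h5, h6, h7, h8, h9⟩ := hNW
    exact ⟨τ, h3, g, ψ, e, h4.typ h5, h6, h7, h8, h9⟩

end Pool.Agent.FQV
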