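import Pool.Agent.FQV.StmtB
import Pool.Agent.FQV.StmtT
import Pool.Agent.FQV.TateMain
import Mathlib.LinearAlgebra.Alternating.Curry

/-!
# Tate classes on the powers: comparison with the definitions of `StmtT.lean`
-/

set_option autoImplicit false
set_option linter.unusedSectionVars false

namespace Pool.Agent.FQV

open Module
open Pool.Agent.CoprimeSig (ratM)
open Pool.Agent.FQ (expG fixG)

variable {ι : Type} [Fintype ι] [DecidableEq ι] {E : Type} [CommRing E]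
  {R : E →+* Matrix ι ι ℚ} {Φ : Matrix ι ι ℚ} {c : E → E} {σ : E →+* ℂ}
  {g : Submodule ℂ (Matrix ι ι ℂ)} {ψ P Q e : Matrix ι ι ℂ} {W : Submodule ℂ (ι → ℂ)}
  {r n : (E →+* ℂ) → ℕ} {sp : (E →+* ℂ) → Prop} {N j d : ℕ}

/-- The vectors of the `N`-th power as matrices. -/
abbrev lq (ι : Type) (N : ℕ) : (Fin N → ι → ℂ) ≃ₗ[ℂ] Matrix (Fin N) ι ℂ := Matrix.ofLinearEquiv ℂ

/-- Forms on matrices as forms on the `N`-th power. -/
noncomputable def fb (ι : Type) (N d : ℕ) : (Matrix (Fin N) ι ℂ [⋀^Fin d]→ₗ[ℂ] ℂ) ≃ₗ[ℂ]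
    ((Fin N → ι → ℂ) [⋀^Fin d]→ₗ[ℂ] ℂ) :=
  AlternatingMap.domLCongr ℂ ℂ (Fin d) ℂ (lq ι N).symm

theorem fb_apply (f : Matrix (Fin N) ι ℂ [⋀^Fin d]→ₗ[ℂ] ℂ) (w : Fin d → Fin N → ι → ℂ) :
    fb ι N d f w = f w := rfl

theorem fb_symm_apply (f : (Fin N → ι → ℂ) [⋀^Fin d]→ₗ[ℂ] ℂ) (w : Fin d → Matrix (Fin N) ι ℂ) :
    (fb ι N d).symm f w = f w := rfl

theorem act_eq (x : Matrix ι ι ℂ) (w : Matrix (Fin N) ι ℂ) :
    w * x.transpose = fun a => x.mulVec (w a) := by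
  funext a b
  rw [Matrix.mul_apply]
  show _ = dotProduct _ _
  rw [dotProduct]
  exact Finset.sum_congr rfl fun i _ => by rw [Matrix.transpose_apply, mul_comm]

theorem tate_iff (f : Matrix (Fin N) ι ℂ [⋀^Fin (2 * j)]→ₗ[ℂ] ℂ) :
    Stmt.IsTate g ψ N j f ↔ IsTate g ψ N j (fb ι N (2 * j) f) := by
  have key : ∀ (x : Matrix ι ι ℂ) (w : Fin (2 * j) → Matrix (Fin N) ι ℂ) (i : Fin (2 * j)),
      f (Function.update w i (w i * x.transpose)) =
        fb ι N (2 * j) f (Function.update w i fun a => x.mulVec (w i a)) := by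
    intro x w i
    rw [fb_apply, act_eq]
    rfl
  constructor
  · intro h x hx κ hκ w
    have h1 := h x hx κ hκ w
    rw [fb_apply, ← h1]
    exact Finset.sum_congr rfl fun i _ => (key x w i).symm
  · intro h x hx κ hκ w
    exact (Finset.sum_congr rfl fun i _ => key x w i).trans (h x hx κ hκ w)

theorem fin2_eta {V : Type} (w : Fin 2 → V) : ![w 0, w 1] = w := by
  funext i
  fin_cases i <;> rfl

theorem upd0 {V : Type} (u v z : V) : Function.update ![u, v] 0 z = ![z, v] := by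
  funext i
  fin_cases i <;> rfl

theorem upd1 {V : Type} (u v z : V) : Function.update ![u, v] 1 z = ![u, z] := by
  funext i
  fin_cases i <;> rfl

/-- The alternating form in two arguments given by a bilinear form. -/
noncomputable def ab {V : Type} [AddCommGroup V] [Module ℂ V] (ω : V →ₗ[ℂ] V →ₗ[ℂ] ℂ)
    (h : ∀ v, ω v v = 0) : V [⋀^Fin 2]→ₗ[ℂ] ℂ :=
  { toFun := fun w => ω (w 0) (w 1)
    map_update_add' := by
      intro I w i x y
      fin_cases i
      · simp [Function.update_of_ne, map_add]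
      · simp [Function.update_of_ne, map_add]
    map_update_smul' := by
      intro I w i x y
      fin_cases i
      · simp [Function.update_of_ne]
      · simp [Function.update_of_ne]
    map_eq_zero_of_eq' := by
      intro v i j hv hij
      fin_cases i <;> fin_cases j
      · exact absurd rfl hij
      · have : v 0 = v 1 := hv
        show ω (v 0) (v 1) = 0
        rw [this, h]
      · have : v 1 = v 0 := hv
        show ω (v 0) (v 1) = 0
        rw [this, h]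
      · exact absurd rfl hij }

theorem ab_apply {V : Type} [AddCommGroup V] [Module ℂ V] (ω : V →ₗ[ℂ] V →ₗ[ℂ] ℂ)
    (h : ∀ v, ω v v = 0) (w : Fin 2 → V) : ab ω h w = ω (w 0) (w 1) := rfl

/-- The bilinear form given by an alternating form in two arguments. -/
noncomputable def b2 {V : Type} [AddCommGroup V] [Module ℂ V] (f : V [⋀^Fin 2]→ₗ[ℂ] ℂ) :
    V →ₗ[ℂ] V →ₗ[ℂ] ℂ :=
  LinearMap.mk₂ ℂ (fun u v => f ![u, v])
    (fun u u' v => by
      have h := congrArg (fun F => F ![v]) (map_add f.curryLeft u u')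
      exact h)
    (fun t u v => by
      have h := congrArg (fun F => F ![v]) (map_smul f.curryLeft t u)
      exact h)
    (fun u v v' => by
      have h := congrArg (fun F => F ![]) (map_add (f.curryLeft u).curryLeft v v')
      exact h)
    (fun t u v => by
      have h := congrArg (fun F => F ![]) (map_smul (f.curryLeft u).curryLeft t v)
      exact h)

theorem b2_apply {V : Type} [AddCommGroup V] [Module ℂ V] (f : V [⋀^Fin 2]→ₗ[ℂ] ℂ) (u v : V) :
    b2 f u v = f ![u, v] := rfl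

theorem div_of_tate {f : Matrix (Fin N) ι ℂ [⋀^Fin (2 * 1)]→ₗ[ℂ] ℂ} (h : Stmt.IsTate g ψ N 1 f) :
    IsDivisor g ψ N (b2 (fb ι N 2 f)) := by
  refine ⟨fun v => ?_, fun x hx κ hκ u v => ?_⟩
  · rw [b2_apply]
    exact AlternatingMap.map_eq_zero_of_eq _ _ (i := (0 : Fin 2)) (j := 1) rfl (by decide)
  · have h1 := (tate_iff f).1 h x hx κ hκ ![u, v]
    have h2 : ∑ i : Fin 2, fb ι N 2 f (Function.update ![u, v] i fun a => x.mulVec (![u, v] i a)) =
        ((1 : ℕ) : ℂ) * κ * fb ι N 2 f ![u, v] := h1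
    rw [Fin.sum_univ_two, upd0, upd1, Nat.cast_one, one_mul] at h2
    exact h2

theorem tate_of_div {ω : (Fin N → ι → ℂ) →ₗ[ℂ] (Fin N → ι → ℂ) →ₗ[ℂ] ℂ}
    (h : IsDivisor g ψ N ω) : Stmt.IsTate g ψ N 1 ((fb ι N 2).symm (ab ω h.1)) := by
  rw [tate_iff]
  intro x hx κ hκ w
  have h1 := h.2 x hx κ hκ (w 0) (w 1)
  have h2 : ∑ i : Fin 2, ab ω h.1 (Function.update w i fun a => x.mulVec (w i a)) =
      ((1 : ℕ) : ℂ) * κ * ab ω h.1 w := by
    rw [Fin.sum_univ_two, ab_apply, ab_apply, ab_apply, Function.update_self,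
      Function.update_self, Function.update_of_ne (by decide), Function.update_of_ne (by decide),
      Nat.cast_one, one_mul]
    exact h1
  exact h2

theorem products_eq : products g ψ N j =
    (Stmt.products g ψ N j).map (fb ι N (2 * j)).toLinearMap := by
  unfold products Stmt.products
  rw [Submodule.map_span]
  congr 1
  ext η
  constructor
  · rintro ⟨ω, h1, h2⟩
    exact ⟨(fb ι N (2 * j)).symm η, ⟨fun i => (fb ι N 2).symm (ab (ω i) (h1 i).1),
      fun i => tate_of_div (h1 i), fun w => h2 w⟩, LinearEquiv.apply_symm_apply _ _⟩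
  · rintro ⟨η', ⟨ω, h1, h2⟩, rfl⟩
    exact ⟨fun i => b2 (fb ι N 2 (ω i)), fun i => div_of_tate (h1 i), fun w => h2 w⟩

theorem weil_iff (hs : Ss g) (θ : Matrix (Fin N) ι ℂ [⋀^Fin d]→ₗ[ℂ] ℂ) :
    Stmt.IsWeil R n r g N d θ ↔ IsWeil R n r g N d (fb ι N d θ) := by
  constructor
  · rintro ⟨m, s, P, h, vol, hb, hd, hP, h1, h2, rfl⟩
    refine ⟨m, s, fun a => rg (P a), (lq ι m).symm.toLinearMap ∘ₗ h ∘ₗ (lq ι N).toLinearMap,
      fb ι m d vol, hb, hd, fun a => ⟨(on_iff (hP a).2.idem).1 (hP a).1, irr_rg hs (hP a).2⟩,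
      fun w a => (mem_rg (hP a).2.idem).2 (h1 w a), fun x hx w a => ?_, rfl⟩
    have h3 := h2 x hx (lq ι N w)
    rw [act_eq, act_eq] at h3
    exact congrFun h3 a
  · rintro ⟨m, s, W, h, vol, hb, hd, hW, h1, h2, h3⟩
    choose P hP hP' using fun a => exists_irrP hs (hW a).2
    refine ⟨m, s, P, (lq ι m).toLinearMap ∘ₗ h ∘ₗ (lq ι N).symm.toLinearMap,
      (fb ι m d).symm vol, hb, hd, fun a => ⟨(on_iff (hP a).idem).2 ((hP' a).le.trans (hW a).1),
      hP a⟩, fun w a => (mem_rg (hP a).idem).1 ?_, fun x hx w => ?_, ?_⟩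
    · rw [hP' a]
      exact h1 w a
    · rw [act_eq, act_eq]
      funext a
      exact h2 x hx w a
    · apply (fb ι N d).injective
      rw [h3]
      rfl

theorem weilProducts_eq (hs : Ss g) : weilProducts R n r g ψ N j =
    (Stmt.weilProducts R n r g ψ N j).map (fb ι N (2 * j)).toLinearMap := by
  unfold weilProducts Stmt.weilProducts
  rw [Submodule.map_span]
  congr 1
  ext η
  constructor
  · rintro ⟨l, d, hld, ω, θ, h1, h2, h3⟩
    exact ⟨(fb ι N (2 * j)).symm η, ⟨l, d, hld, fun i => (fb ι N 2).symm (ab (ω i) (h1 i).1),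
      (fb ι N d).symm θ, fun i => tate_of_div (h1 i), (weil_iff hs _).2 h2, fun w => h3 w⟩,
      LinearEquiv.apply_symm_apply _ _⟩
  · rintro ⟨η', ⟨l, d, hld, ω, θ, h1, h2, h3⟩, rfl⟩
    exact ⟨l, d, hld, fun i => b2 (fb ι N 2 (ω i)), fb ι N d θ, fun i => div_of_tate (h1 i),
      (weil_iff hs θ).1 h2, fun w => h3 w⟩

theorem mem_map_fb {S : Submodule ℂ (Matrix (Fin N) ι ℂ [⋀^Fin d]→ₗ[ℂ] ℂ)}
    {f : Matrix (Fin N) ι ℂ [⋀^Fin d]→ₗ[ℂ] ℂ} :
    fb ι N d f ∈ S.map (fb ι N d).toLinearMap ↔ f ∈ S := by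
  constructor
  · rintro ⟨f', h1, h2⟩
    rwa [← (fb ι N d).injective h2]
  · exact fun h => ⟨f, h, rfl⟩

/-- The Tate classes on the powers of abelian varieties over number fields. -/
theorem tate_main' [Algebra ℚ E] [Module.Finite ℚ E] [IsReduced E] (H : Stmt.Frob R Φ)
    (hc : ∀ (σ : E →+* ℂ) a, σ (c a) = starRingEnd ℂ (σ a))
    {K : Subfield ℂ} [FiniteDimensional ℚ K]
    (hHT : ∀ γ : ℂ ≃+* ℂ, (∀ x ∈ K, γ x = x) → ∀ S : Finset ℂ, (∀ x ∈ S, IsAlgebraic ℚ x) →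
      ∃ τ : ℂ ≃+* ℂ, (∀ x ∈ S, τ x = γ x) ∧ Stmt.Place R c Φ (fun _ => True) r τ)
    (hNW : ∃ τ : ℂ ≃+* ℂ, (∀ x ∈ K, τ x = x) ∧ Stmt.Good R c Φ (fun _ => True) n r τ ∧
      ((K = ⊥ ∧ Fintype.card ι ≤ 14) ∨ Stmt.Num K τ n r fun _ => True))
    (M : Stmt.Mono R c Φ (fun _ => True) g ψ) :
    (∀ N j f, Stmt.IsTate g ψ N j f ↔ f ∈ Stmt.weilProducts R n r g ψ N j) ∧
      ((∀ N j f, Stmt.IsTate g ψ N j f → f ∈ Stmt.products g ψ N j) ↔
        ¬ ∃ (m : ℕ) (s : Fin m → (E →+* ℂ)), 0 < m ∧ Stmt.Balanced n r m s) := by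
  have hsym : ∀ {g ψ}, Stmt.Mono R c Φ (fun _ => True) g ψ → Sym R g ψ :=
    fun M σ hσ W hW hi => ((mono_of M).typ σ hσ W hW hi).1 trivial
  have key := tate_main (K := K) (n := n) (isFrob_of H) hc (fun γ hγ S hS => by
    obtain ⟨τ, h1, g, ψ, e, h2, h3⟩ := hHT γ hγ S hS
    exact ⟨τ, h1, g, ψ, e, hsym h2, (mono_of h2).toMono, coch_of h2 h3⟩) (by
    obtain ⟨τ, h1, ⟨g, ψ, e, h2, h3, h4, h5⟩, h6⟩ := hNW
    refine ⟨τ, h1, g, ψ, e, hsym h2, (mono_of h2).toMono, coch_of h2 h3, spans_of h4,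
      fun σ W hW hi => ?_, h6.imp_right num_of⟩
    obtain ⟨P, h7, rfl⟩ := exists_irrP (ss_of h2.ss) hi
    have h8 := finrank_rg h7
    rw [h5 σ P ((on_iff h7.idem).2 hW) h7] at h8
    exact_mod_cast h8) (hsym M) (mono_of M).toMono
  refine ⟨fun N j f => ?_, ?_⟩
  · rw [tate_iff, key.1, weilProducts_eq (ss_of M.ss), mem_map_fb]
  · rw [← show (_ ↔ ¬ ∃ (m : ℕ) (s : Fin m → (E →+* ℂ)), 0 < m ∧ Stmt.Balanced n r m s) from key.2]
    constructor
    · intro h N j f hf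
      obtain ⟨f, rfl⟩ := (fb ι N (2 * j)).surjective f
      rw [products_eq, mem_map_fb]
      exact h N j f ((tate_iff f).2 hf)
    · intro h N j f hf
      have h1 := h N j _ ((tate_iff f).1 hf)
      rwa [products_eq, mem_map_fb] at h1

end Pool.Agent.FQV
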