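import Pool.Agent.FQV.Cart
import Pool.Agent.TateOdd.E5

/-!
# The idempotents of multiplier one generate the Lie algebra

`g` is a Lie algebra of similitudes with a torus `t` which is its own centraliser and is spanned by
idempotents of multiplier one. Then `g` is spanned by idempotents of multiplier one, and an element of `g`
which is orthogonal to the centre is a sum of commutators.
-/

set_option autoImplicit false
set_option linter.unusedSectionVars false

universe u

namespace Pool.Agent.FQV

open Module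
open Pool.Agent.CoprimeSig (Cartan IsRoot mem_span_roots)

variable {V : Type u} [AddCommGroup V] [Module ℂ V] [FiniteDimensional ℂ V]
  {B : V →ₗ[ℂ] V →ₗ[ℂ] ℂ} {g t : Submodule ℂ (End ℂ V)}

/-- The idempotents of multiplier one in `g`. -/
def Gs (B : V →ₗ[ℂ] V →ₗ[ℂ] ℂ) (g : Submodule ℂ (End ℂ V)) : Set (End ℂ V) :=
  {e | e ∈ g ∧ e * e = e ∧ ∀ x y, B (e x) y + B x (e y) = B x y}

/-- A root vector is the difference of two idempotents. -/
theorem root_diff {e z : End ℂ V} (he : e ∈ Gs B g) (hz : z ∈ g)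
    (hsim : ∃ κ : ℂ, ∀ x y, B (z x) y + B x (z y) = κ * B x y) {a : ℂ} (ha : a ≠ 0) (hz0 : z ≠ 0)
    (hr : e * z - z * e = a • z) : e + z ∈ Gs B g := by
  obtain ⟨κ, hκ⟩ := hsim
  obtain ⟨heg, hee, hm⟩ := he
  have hcase : (e * z = z ∧ z * e = 0) ∨ (e * z = 0 ∧ z * e = z) := by
    have h2 : e * z * e = 0 := by
      have h3 := congrArg (fun y => e * y * e) hr
      simp only [mul_sub, sub_mul, mul_smul_comm, smul_mul_assoc] at h3
      have h4 : e * (e * z) * e = e * z * e := by rw [← mul_assoc, hee]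
      have h5 : e * (z * e) * e = e * z * e := by
        rw [← mul_assoc, mul_assoc (e * z) e e, hee]
      rw [h4, h5, sub_self] at h3
      exact (smul_eq_zero.1 h3.symm).resolve_left ha
    have h4 : e * z = a • (e * z) := by
      have h3 := congrArg (fun y => e * y) hr
      simp only [mul_sub, mul_smul_comm] at h3
      rwa [← mul_assoc, hee, ← mul_assoc, h2, sub_zero] at h3
    have h5 : -(z * e) = a • (z * e) := by
      have h3 := congrArg (fun y => y * e) hr
      simp only [sub_mul, smul_mul_assoc] at h3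
      rwa [h2, mul_assoc, hee, zero_sub] at h3
    by_cases h6 : e * z = 0
    · right
      refine ⟨h6, ?_⟩
      have h7 : z * e ≠ 0 := by
        intro h8
        rw [h6, h8, sub_zero] at hr
        exact (smul_ne_zero ha hz0) hr.symm
      have h8 : a = -1 := by
        have h9 : (a + 1) • (z * e) = 0 := by rw [add_smul, one_smul, ← h5, neg_add_cancel]
        exact eq_neg_of_add_eq_zero_left ((smul_eq_zero.1 h9).resolve_right h7)
      rw [h6, zero_sub, h8, neg_smul, one_smul, neg_inj] at hr
      exact hr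
    · left
      have h8 : a = 1 := by
        have h9 : (a - 1) • (e * z) = 0 := by rw [sub_smul, one_smul, ← h4, sub_self]
        exact sub_eq_zero.1 ((smul_eq_zero.1 h9).resolve_right h6)
      have h10 : z * e = 0 := by
        rw [h8, one_smul] at h5
        have h11 : (2 : ℂ) • (z * e) = 0 := by
          rw [two_smul]
          nth_rewrite 1 [← h5]
          exact neg_add_cancel _
        exact (smul_eq_zero.1 h11).resolve_left two_ne_zero
      rw [h10, sub_zero, h8, one_smul] at hr
      exact ⟨hr, h10⟩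
  have hzz : z * z = 0 := by
    rcases hcase with ⟨a, b⟩ | ⟨a, b⟩
    · nth_rewrite 2 [← a]
      rw [← mul_assoc, b, zero_mul]
    · nth_rewrite 1 [← b]
      rw [mul_assoc, a, mul_zero]
  have hskew : ∀ x y, B (z x) y + B x (z y) = 0 := by
    intro x y
    have h1 : z = e * z - z * e ∨ z = -(e * z - z * e) := by
      rcases hcase with ⟨a, b⟩ | ⟨a, b⟩
      · left
        rw [a, b, sub_zero]
      · right
        rw [a, b, zero_sub, neg_neg]
    have h2 : B ((e * z - z * e) x) y + B x ((e * z - z * e) y) = 0 := by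
      simp only [LinearMap.sub_apply, Module.End.mul_apply, map_sub]
      linear_combination hm (z x) y + hm x (z y) - hκ (e x) y - hκ x (e y) + hκ x y - κ * hm x y
    rcases h1 with h1 | h1
    · rw [h1]
      exact h2
    · rw [h1]
      simp only [LinearMap.neg_apply, map_neg]
      linear_combination -h2
  refine ⟨g.add_mem heg hz, ?_, fun x y => ?_⟩
  · rw [mul_add, add_mul, add_mul, hee, hzz, add_zero]
    rcases hcase with ⟨a, b⟩ | ⟨a, b⟩
    · rw [a, b, add_zero]
    · rw [a, b, add_zero]
  · simp only [LinearMap.add_apply, map_add]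
    linear_combination hm x y + hskew x y

open Pool.Agent.OddRank (Stable Irreducible Semisimple exists_proj lieSpan subset_lieSpan
  lieSpan_lie lieSpan_le stable_of_comm) in
/-- An operator in the double commutant has trace zero if its traces on the irreducible subspaces are
zero. -/
theorem trace_zero_of_irr {G : Set (End ℂ V)} (hss : Semisimple G) {X : End ℂ V}
    (hX : ∀ T : End ℂ V, (∀ e ∈ G, e * T = T * e) → X * T = T * X)
    (h : ∀ W, Irreducible G W → ∀ A : End ℂ W, (∀ w, (A w : V) = X w) →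
      LinearMap.trace ℂ W A = 0) : LinearMap.trace ℂ V X = 0 := by
  have key : ∀ (n : ℕ) (q : End ℂ V), q * q = q → (∀ e ∈ G, e * q = q * e) →
      finrank ℂ (LinearMap.range q) = n → LinearMap.trace ℂ V (X * q) = 0 := by
    intro n
    induction n using Nat.strong_induction_on with
    | _ n ih =>
      intro q hqq hq hn
      by_cases hq0 : q = 0
      · rw [hq0, mul_zero, map_zero]
      -- an irreducible subspace of the range
      let S : Set (Submodule ℂ V) := {W | W ≤ LinearMap.range q ∧ W ≠ ⊥ ∧ Stable G W}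
      have hS : S.Nonempty := by
        refine ⟨LinearMap.range q, le_rfl, fun h0 => hq0 (LinearMap.range_eq_bot.1 h0), ?_⟩
        rintro e he _ ⟨v, rfl⟩
        exact ⟨e v, by rw [← Module.End.mul_apply, ← hq e he, Module.End.mul_apply]⟩
      obtain ⟨W, ⟨hW1, hW2, hW3⟩, hmin⟩ :=
        (wellFounded_lt (α := Submodule ℂ V)).has_min S hS
      have hW : Irreducible G W := by
        refine ⟨hW3, hW2, fun U' hst hU' => ?_⟩
        by_contra hc
        rw [not_or] at hc
        exact hmin U' ⟨hU'.trans hW1, hc.1, hst⟩ (lt_of_le_of_ne hU' hc.2)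
      obtain ⟨π, hπ, hπe⟩ := exists_proj hss hW3
      let P : End ℂ V := W.subtype ∘ₗ π
      have hPe : ∀ e ∈ G, e * P = P * e := by
        intro e he
        refine LinearMap.ext fun v => ?_
        exact (hπe e he v).symm
      have hPW : ∀ w ∈ W, P w = w := fun w hw => congrArg Subtype.val (hπ ⟨w, hw⟩)
      have hPm : ∀ v, P v ∈ W := fun v => (π v).2
      have hqW : ∀ w ∈ W, q w = w := by
        intro w hw
        obtain ⟨v, rfl⟩ := hW1 hw
        rw [← Module.End.mul_apply, hqq]
      have hqP : q * P = P := LinearMap.ext fun v => hqW _ (hPm v)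
      have hPP : P * P = P := LinearMap.ext fun v => hPW _ (hPm v)
      have e1 : q * (P * q) = P * q := by rw [← mul_assoc, hqP]
      have e2 : P * q * q = P * q := by rw [mul_assoc, hqq]
      have e3 : P * q * (P * q) = P * q := by
        rw [mul_assoc, ← mul_assoc q, hqP, ← mul_assoc, hPP]
      have h1 : (q - P * q) * (q - P * q) = q - P * q := by
        rw [mul_sub, sub_mul, sub_mul, hqq, e2, e1, e3]
        abel
      have h2 : ∀ e ∈ G, e * (q - P * q) = (q - P * q) * e := by
        intro e he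
        rw [mul_sub, sub_mul, hq e he, ← mul_assoc, hPe e he, mul_assoc, hq e he, mul_assoc]
      have hle : LinearMap.range (q - P * q) ≤ LinearMap.range q := by
        rintro _ ⟨v, rfl⟩
        refine ⟨(q - P * q) v, ?_⟩
        rw [← Module.End.mul_apply, mul_sub, hqq, e1]
      have hlt : LinearMap.range (q - P * q) < LinearMap.range q := by
        refine lt_of_le_of_ne hle fun heq => hW2 ?_
        rw [eq_bot_iff]
        intro w hw
        have h3 := hW1 hw
        rw [← heq] at h3
        obtain ⟨v, hv⟩ := h3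
        have h4 : (P * q) w = w := by rw [Module.End.mul_apply, hqW w hw, hPW w hw]
        rw [← hv, ← Module.End.mul_apply, mul_sub, e2, e3, sub_self, LinearMap.zero_apply] at h4
        rw [Submodule.mem_bot, ← hv]
        exact h4.symm
      have h3 := ih _ (by rw [← hn]; exact Submodule.finrank_lt_finrank_of_lt hlt) _ h1 h2 rfl
      have h4 : LinearMap.trace ℂ V (X * (P * q)) = 0 := by
        have hst := stable_of_comm hss hX hW3
        let A : End ℂ W := X.restrict hst
        have hA : LinearMap.trace ℂ W A = 0 := h W hW A fun w => rfl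
        have h5 : X * (P * q) = W.subtype ∘ₗ (A ∘ₗ (π ∘ₗ q)) := LinearMap.ext fun v => rfl
        rw [h5, LinearMap.trace_comp_comm', ← hA]
        congr 1
        refine LinearMap.ext fun w => ?_
        change A (π (q w)) = A w
        rw [hqW w w.2, hπ w]
      have h5 : X * q = X * (q - P * q) + X * (P * q) := by rw [← mul_add, sub_add_cancel]
      rw [h5, map_add, h3, h4, add_zero]
  have h1 := key _ 1 (one_mul 1) (fun e _ => by rw [mul_one, one_mul]) rfl
  rwa [mul_one] at h1

/-- An element of `g` which is orthogonal to the centre is a sum of commutators. -/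
theorem mem_comm_of_orth (hlie : ∀ x ∈ g, ∀ y ∈ g, x * y - y * x ∈ g)
    (nd : ∀ x ∈ g, (∀ y ∈ g, LinearMap.trace ℂ V (x * y) = 0) → x = 0) {D : End ℂ V}
    (hD : D ∈ g) (hz : ∀ z ∈ g, (∀ x ∈ g, x * z = z * x) → LinearMap.trace ℂ V (z * D) = 0) :
    D ∈ Submodule.span ℂ {z | ∃ a ∈ g, ∃ b ∈ g, z = a * b - b * a} := by
  by_contra hcon
  obtain ⟨f, hf, hle⟩ := Submodule.exists_le_ker_of_notMem hcon
  let T : g →ₗ[ℂ] Module.Dual ℂ g :=
    LinearMap.mk₂ ℂ (fun x y : g => LinearMap.trace ℂ V ((x : End ℂ V) * y))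
      (fun x x' y => by rw [Submodule.coe_add, add_mul, map_add])
      (fun a x y => by rw [Submodule.coe_smul, smul_mul_assoc, map_smul])
      (fun x y y' => by rw [Submodule.coe_add, mul_add, map_add])
      (fun a x y => by rw [Submodule.coe_smul, mul_smul_comm, map_smul])
  have hT : ∀ x y : g, T x y = LinearMap.trace ℂ V ((x : End ℂ V) * y) := fun _ _ => rfl
  have hinj : Function.Injective T := by
    rw [injective_iff_map_eq_zero]
    intro x hx
    refine Subtype.ext (nd x x.2 fun y hy => ?_)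
    have h1 := hT x ⟨y, hy⟩
    rw [hx, LinearMap.zero_apply] at h1
    exact h1.symm
  have hsurj : Function.Surjective T :=
    (LinearMap.injective_iff_surjective_of_finrank_eq_finrank
      (Subspace.dual_finrank_eq (K := ℂ) (V := g)).symm).1 hinj
  obtain ⟨z, hzf⟩ := hsurj (f ∘ₗ g.subtype)
  have h1 : ∀ y ∈ g, LinearMap.trace ℂ V ((z : End ℂ V) * y) = f y := by
    intro y hy
    have h2 := hT z ⟨y, hy⟩
    rw [hzf] at h2
    exact h2.symm
  have h2 : ∀ x ∈ g, x * (z : End ℂ V) = z * x := by
    intro x hx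
    have h3 : (z : End ℂ V) * x - x * z = 0 := by
      refine nd _ (hlie _ z.2 _ hx) fun y hy => ?_
      have h4 : f (x * y - y * x) = 0 := LinearMap.mem_ker.1
        (hle (Submodule.subset_span ⟨x, hx, y, hy, rfl⟩))
      rw [← h1 _ (hlie x hx y hy), mul_sub, map_sub] at h4
      rw [sub_mul, map_sub, ← h4]
      have h5 : LinearMap.trace ℂ V (x * z * y) = LinearMap.trace ℂ V (z * (y * x)) := by
        rw [mul_assoc, LinearMap.trace_mul_comm, mul_assoc]
      rw [h5, mul_assoc]
    exact (sub_eq_zero.1 h3).symm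
  have h3 := hz z z.2 h2
  rw [h1 D hD] at h3
  exact hf h3

/-- The idempotents of multiplier one span `g`. -/
theorem le_span_gs (C : Cartan g t)
    (hsim : ∀ x ∈ g, ∃ κ : ℂ, ∀ u v, B (x u) v + B u (x v) = κ * B u v)
    (ht : t ≤ Submodule.span ℂ {e | e ∈ t ∧ e * e = e ∧ ∀ x y, B (e x) y + B x (e y) = B x y}) :
    g ≤ Submodule.span ℂ (Gs B g) := by
  have ht' : t ≤ Submodule.span ℂ (Gs B g) :=
    ht.trans (Submodule.span_mono fun e he => ⟨C.le he.1, he.2.1, he.2.2⟩)
  intro x hx
  have h1 := mem_span_roots C hx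
  refine (Submodule.span_le.2 ?_) h1
  rintro z ⟨α, hz⟩
  by_cases hz0 : z = 0
  · rw [hz0]
    exact Submodule.zero_mem _
  by_cases hα : ∃ e ∈ t, e * e = e ∧ (∀ x y, B (e x) y + B x (e y) = B x y) ∧ α e ≠ 0
  · obtain ⟨e, he, hee, hm, hne⟩ := hα
    have heG : e ∈ Gs B g := ⟨C.le he, hee, hm⟩
    have h2 := root_diff heG hz.mem (hsim z hz.mem) hne hz0 (hz.root e he)
    have h3 := Submodule.sub_mem _ (Submodule.subset_span (R := ℂ) h2)
      (Submodule.subset_span (R := ℂ) heG)
    rwa [add_sub_cancel_left] at h3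
  · push Not at hα
    refine ht' (C.cent z hz.mem fun τ hτ => ?_)
    have h4 := ht hτ
    clear hτ
    induction h4 using Submodule.span_induction with
    | mem e he =>
      have h5 := hz.root e he.1
      rw [hα e he.1 he.2.1 he.2.2, zero_smul, sub_eq_zero] at h5
      exact h5.symm
    | zero => rw [mul_zero, zero_mul]
    | add a b _ _ ha hb => rw [mul_add, add_mul, ha, hb]
    | smul c a _ ha => rw [mul_smul_comm, smul_mul_assoc, ha]

section Su

open Pool.Agent.OddRank (Stable Irreducible Semisimple FormOn exists_proj lieSpan subset_lieSpan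
  lieSpan_lie lieSpan_le stable_of_comm stable_span comm_span)
open Pool.Agent.TateOdd (Su Paired Inv2 Adm)
open Pool.Agent.TypeIV (derivedSpan)

/-- The assumptions on the torus. -/
structure Tc (B : V →ₗ[ℂ] V →ₗ[ℂ] ℂ) (g t : Submodule ℂ (End ℂ V)) : Prop where
  car : Cartan g t
  sim : ∀ x ∈ g, ∃ κ : ℂ, ∀ u v, B (x u) v + B u (x v) = κ * B u v
  sp : t ≤ Submodule.span ℂ {e | e ∈ t ∧ e * e = e ∧ ∀ x y, B (e x) y + B x (e y) = B x y}

theorem Tc.le_lieSpan (C : Tc B g t) : g ≤ lieSpan (Gs B g) :=
  (le_span_gs C.car C.sim C.sp).trans (Submodule.span_le.2 fun e he => subset_lieSpan e he)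

theorem Tc.lieSpan_eq (C : Tc B g t) : lieSpan (Gs B g) = g :=
  le_antisymm (lieSpan_le (fun _ he => he.1) C.car.lie) C.le_lieSpan

theorem Tc.stable_iff (C : Tc B g t) {U : Submodule ℂ V} :
    Stable (Gs B g) U ↔ ∀ x ∈ g, ∀ u ∈ U, x u ∈ U :=
  ⟨fun h x hx => stable_span h x (C.le_lieSpan hx), fun h e he => h e he.1⟩

theorem Tc.irr_iff (C : Tc B g t) {W : Submodule ℂ V} :
    Irreducible (Gs B g) W ↔ (∀ x ∈ g, ∀ w ∈ W, x w ∈ W) ∧ W ≠ ⊥ ∧
      ∀ U ≤ W, (∀ x ∈ g, ∀ u ∈ U, x u ∈ U) → U = ⊥ ∨ U = W := by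
  constructor
  · rintro ⟨h1, h2, h3⟩
    exact ⟨C.stable_iff.1 h1, h2, fun U hU hst => h3 U (C.stable_iff.2 hst) hU⟩
  · rintro ⟨h1, h2, h3⟩
    exact ⟨C.stable_iff.2 h1, h2, fun U hst hU => h3 U hU (C.stable_iff.1 hst)⟩

theorem Tc.comm (C : Tc B g t) {T : End ℂ V} (hT : ∀ e ∈ Gs B g, e * T = T * e) :
    ∀ x ∈ g, x * T = T * x := fun x hx => comm_span hT x (C.le_lieSpan hx)

/-- Two forms on subspaces with the multiplier one for the idempotents have the same
multipliers on `g`. -/
theorem Tc.mult (C : Tc B g t) {φ : V →ₗ[ℂ] V →ₗ[ℂ] ℂ} {W W' : Submodule ℂ V}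
    (hW : Stable (Gs B g) W) (hW' : Stable (Gs B g) W') (hφ : Inv2 (Gs B g) W W' φ) :
    ∀ x ∈ g, ∀ κ : ℂ, (∀ u v, B (x u) v + B u (x v) = κ * B u v) → (∃ u v, B u v ≠ 0) →
      ∀ u ∈ W, ∀ v ∈ W', φ (x u) v + φ u (x v) = κ * φ u v := by
  intro x hx κ hκ ⟨a, b, hab⟩
  have h1 : ∃ κ' : ℂ, (∀ u v, B (x u) v + B u (x v) = κ' * B u v) ∧
      ∀ u ∈ W, ∀ v ∈ W', φ (x u) v + φ u (x v) = κ' * φ u v := by
    have h2 := le_span_gs C.car C.sim C.sp hx
    clear hκ hx
    induction h2 using Submodule.span_induction with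
    | mem e he =>
      refine ⟨1, fun u v => ?_, fun u hu v hv => ?_⟩
      · rw [one_mul]
        exact he.2.2 u v
      · rw [one_mul]
        exact hφ e he u hu v hv
    | zero =>
      refine ⟨0, fun u v => ?_, fun u _ v _ => ?_⟩
      · simp
      · simp
    | add x y _ _ hx hy =>
      obtain ⟨k1, h3, h4⟩ := hx
      obtain ⟨k2, h5, h6⟩ := hy
      refine ⟨k1 + k2, fun u v => ?_, fun u hu v hv => ?_⟩
      · simp only [LinearMap.add_apply, map_add]
        linear_combination h3 u v + h5 u v
      · simp only [LinearMap.add_apply, map_add]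
        linear_combination h4 u hu v hv + h6 u hu v hv
    | smul c x _ hx =>
      obtain ⟨k1, h3, h4⟩ := hx
      refine ⟨c * k1, fun u v => ?_, fun u hu v hv => ?_⟩
      · simp only [LinearMap.smul_apply, map_smul, smul_eq_mul]
        linear_combination c * h3 u v
      · simp only [LinearMap.smul_apply, map_smul, smul_eq_mul]
        linear_combination c * h4 u hu v hv
  obtain ⟨κ', h3, h4⟩ := h1
  have h5 : κ' = κ := by
    have h6 := (h3 a b).symm.trans (hκ a b)
    exact mul_right_cancel₀ hab h6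
  rw [← h5]
  exact h4

/-- **The assumptions of the theorem on Tate classes.** -/
theorem Tc.su (C : Tc B g t) (halt : ∀ x, B x x = 0) (hnd : ∀ x, (∀ y, B x y = 0) → x = 0)
    (hone : (1 : End ℂ V) ∈ g)
    (hss : ∀ W : Submodule ℂ V, (∀ x ∈ g, ∀ w ∈ W, x w ∈ W) →
      ∃ W' : Submodule ℂ V, IsCompl W W' ∧ ∀ x ∈ g, ∀ w ∈ W', x w ∈ W')
    (hsd : ∀ W, Irreducible (Gs B g) W → Paired (Gs B g) W W → ∃ φ, FormOn (Gs B g) W φ)
    (hmem : ∀ D : End ℂ V, (∀ x y, B (D x) y + B x (D y) = 0) →
      (∀ T : End ℂ V, (∀ x ∈ g, x * T = T * x) → D * T = T * D) →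
      (∀ W, Irreducible (Gs B g) W → ∀ A : End ℂ W, (∀ w, (A w : V) = D w) →
        LinearMap.trace ℂ W A = 0) → D ∈ g) : Su B (Gs B g) := by
  have hS : Semisimple (Gs B g) := by
    intro U hU
    obtain ⟨W', h1, h2⟩ := hss U (C.stable_iff.1 hU)
    exact ⟨W', C.stable_iff.2 h2, h1⟩
  refine ⟨halt, hnd, ?_, fun e he => he.2.1, fun e he => he.2.2, hS, hsd, ?_⟩
  · rcases subsingleton_or_nontrivial V with hV | hV
    · exact ⟨0, g.zero_mem, by rw [mul_zero], fun x y => by
        rw [Subsingleton.elim x 0, map_zero, LinearMap.zero_apply]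
        simp⟩
    · by_contra hemp
      rw [Set.not_nonempty_iff_eq_empty] at hemp
      have h1 := le_span_gs C.car C.sim C.sp hone
      rw [hemp, Submodule.span_empty, Submodule.mem_bot] at h1
      exact one_ne_zero h1
  · rintro D ⟨h1, h2, h3⟩
    have h2' : ∀ T : End ℂ V, (∀ x ∈ g, x * T = T * x) → D * T = T * D :=
      fun T hT => h2 T fun e he => hT e he.1
    have hDg := hmem D h1 h2' h3
    rw [derivedSpan, C.lieSpan_eq]
    refine mem_comm_of_orth C.car.lie C.car.nd hDg fun z hz hzc => ?_
    refine trace_zero_of_irr hS (fun T hT => ?_) fun W hW A hA => ?_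
    · rw [mul_assoc, h2 T hT, ← mul_assoc, C.comm hT z hz, mul_assoc]
    · -- `z` is a scalar on `W`
      have hzW := C.stable_iff.1 hW.1 z hz
      have hDW := C.stable_iff.1 hW.1 D hDg
      have hnt : Nontrivial W := (Submodule.nontrivial_iff_ne_bot).2 hW.2.1
      obtain ⟨s, hs⟩ := Module.End.exists_eigenvalue (z.restrict hzW)
      obtain ⟨w₀, hw₀, hne⟩ := hs.exists_hasEigenvector
      have h4 : ∀ w ∈ W, z w = s • w := by
        let U : Submodule ℂ V := W ⊓ Module.End.eigenspace z s
        have hU : Stable (Gs B g) U := by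
          rintro e he u ⟨hu, hu'⟩
          refine ⟨hW.1 e he u hu, ?_⟩
          rw [SetLike.mem_coe, Module.End.mem_eigenspace_iff] at hu' ⊢
          rw [← Module.End.mul_apply, ← hzc e he.1, Module.End.mul_apply, hu', map_smul]
        have hw1 : (w₀ : V) ∈ U := by
          refine ⟨w₀.2, ?_⟩
          rw [SetLike.mem_coe, Module.End.mem_eigenspace_iff]
          have := Module.End.mem_eigenspace_iff.1 hw₀
          exact congrArg Subtype.val this
        rcases hW.2.2 U hU inf_le_left with h5 | h5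
        · exfalso
          rw [h5, Submodule.mem_bot] at hw1
          exact hne (Subtype.ext hw1)
        · intro w hw
          rw [← h5] at hw
          exact Module.End.mem_eigenspace_iff.1 hw.2
      have h5 : A = s • D.restrict hDW := by
        refine LinearMap.ext fun w => Subtype.ext ?_
        rw [hA, Module.End.mul_apply, h4 _ (hDW w w.2)]
        rfl
      rw [h5, map_smul, h3 W hW (D.restrict hDW) fun w => rfl, smul_zero]

end Su

end Pool.Agent.FQV
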