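import Pool.Agent.FQV.TateA
import Pool.Agent.FQV.Final

/-!
# The Tate classes: from matrices to operators
-/

set_option autoImplicit false
set_option linter.unusedSectionVars false

namespace Pool.Agent.FQV

open Module
open Pool.Agent.CoprimeSig (ratM endo mem_endo)
open Pool.Agent.OddRank (Stable Irreducible Semisimple FormOn)
open Pool.Agent.TateOdd (Su Paired Inv2 Adm)

variable {ι : Type} [Fintype ι] [DecidableEq ι] {E : Type} [CommRing E]
  {R : E →+* Matrix ι ι ℚ} {Φ : Matrix ι ι ℚ} {σ : E →+* ℂ} {c : E → E}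
  {g : Submodule ℂ (Matrix ι ι ℂ)} {ψ : Matrix ι ι ℂ} {r : (E →+* ℂ) → ℕ}

/-- The bilinear form of a matrix. -/
noncomputable def bil (ψ : Matrix ι ι ℂ) : (ι → ℂ) →ₗ[ℂ] (ι → ℂ) →ₗ[ℂ] ℂ := Matrix.toBilin' ψ

theorem bil_apply (x y : ι → ℂ) : bil ψ x y = x ⬝ᵥ ψ.mulVec y := Matrix.toBilin'_apply' ψ x y

/-- Two forms are equal if their matrices are. -/
theorem bil_inj {A A' : Matrix ι ι ℂ} (h : ∀ u v, bil A u v = bil A' u v) : A = A' :=
  (Matrix.toBilin' (R₁ := ℂ)).injective (LinearMap.ext fun u => LinearMap.ext fun v => h u v)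

theorem bil_sim {x : Matrix ι ι ℂ} {κ : ℂ} : x.transpose * ψ + ψ * x = κ • ψ ↔
    ∀ u v, bil ψ (Matrix.toLin' x u) v + bil ψ u (Matrix.toLin' x v) = κ * bil ψ u v := by
  have h1 : ∀ u v, bil ψ (Matrix.toLin' x u) v + bil ψ u (Matrix.toLin' x v) =
      bil (x.transpose * ψ + ψ * x) u v := by
    intro u v
    rw [bil_apply, bil_apply, bil_apply, Matrix.toLin'_apply, Matrix.toLin'_apply,
      Matrix.add_mulVec, dotProduct_add, ← Matrix.mulVec_mulVec, ← Matrix.mulVec_mulVec,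
      Matrix.dotProduct_mulVec u x.transpose, Matrix.vecMul_transpose]
  have h2 : ∀ u v, κ * bil ψ u v = bil (κ • ψ) u v := by
    intro u v
    rw [bil_apply, bil_apply, Matrix.smul_mulVec, dotProduct_smul, smul_eq_mul]
  constructor
  · intro h u v
    rw [h1, h2, h]
  · intro h
    refine bil_inj fun u v => ?_
    rw [← h1, ← h2, h]

theorem bil_alt (h : ψ.transpose = -ψ) (x : ι → ℂ) : bil ψ x x = 0 := by
  have h1 : bil ψ x x = -bil ψ x x := by
    conv_lhs => rw [bil_apply, Matrix.dotProduct_mulVec, ← Matrix.mulVec_transpose, h,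
      Matrix.neg_mulVec, neg_dotProduct, dotProduct_comm]
    rw [bil_apply]
  exact self_eq_neg.1 h1

theorem bil_nd (h : IsUnit ψ) (x : ι → ℂ) (hx : ∀ y, bil ψ x y = 0) : x = 0 := by
  obtain ⟨w, hw⟩ := h
  refine dotProduct_eq_zero _ fun z => ?_
  have h3 := hx (((w⁻¹ : (Matrix ι ι ℂ)ˣ) : Matrix ι ι ℂ).mulVec z)
  rwa [bil_apply, Matrix.mulVec_mulVec, ← hw, w.mul_inv, Matrix.one_mulVec] at h3

/-- The idempotents of multiplier one. -/
def Gm (g : Submodule ℂ (Matrix ι ι ℂ)) (ψ : Matrix ι ι ℂ) : Set (End ℂ (ι → ℂ)) :=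
  Gs (bil ψ) (endo g)

theorem mem_gm {x : Matrix ι ι ℂ} : Matrix.toLin' x ∈ Gm g ψ ↔
    x ∈ g ∧ x * x = x ∧ x.transpose * ψ + ψ * x = ψ := by
  have h1 : (x.transpose * ψ + ψ * x = ψ) ↔ ∀ u v, bil ψ (Matrix.toLin' x u) v +
      bil ψ u (Matrix.toLin' x v) = bil ψ u v := by
    have h2 := bil_sim (ψ := ψ) (x := x) (κ := 1)
    simpa using h2
  have h3 : Matrix.toLin' x * Matrix.toLin' x = Matrix.toLin' x ↔ x * x = x := by
    have h4 : Matrix.toLin' x * Matrix.toLin' x = Matrix.toLin' (x * x) :=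
      (Matrix.toLin'_mul x x).symm
    rw [h4]
    exact (Matrix.toLin' (R := ℂ)).injective.eq_iff
  unfold Gm Gs
  rw [Set.mem_setOf_eq, mem_endo, h3, h1]

theorem tc_of_mono (M : Mono R c Φ g ψ) (H : IsFrob R Φ) (hR : Rk R Φ r) :
    Tc (bil ψ) (endo g) (endo (tor Φ)) := by
  refine ⟨cartan M H, ?_, ?_⟩
  · rintro _ ⟨x, hx, rfl⟩
    obtain ⟨κ, hκ⟩ := M.sim x hx
    exact ⟨κ, bil_sim.1 hκ⟩
  · rintro _ ⟨x, hx, rfl⟩
    rcases isEmpty_or_nonempty ι with hι | hι
    · have h1 : x = 0 := Matrix.ext fun i => (hι.false i).elim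
      rw [h1]
      have h2 : (Matrix.toLin' : Matrix ι ι ℂ ≃ₗ[ℂ] _).toLinearMap (0 : Matrix ι ι ℂ) = 0 :=
        map_zero _
      rw [h2]
      exact Submodule.zero_mem _
    · have h1 := hR.span hx
      clear hx
      induction h1 using Submodule.span_induction with
      | mem e he =>
        obtain ⟨he, hee, htr, -⟩ := he
        refine Submodule.subset_span ⟨⟨e, he, rfl⟩, ?_, ?_⟩
        · change Matrix.toLin' e * Matrix.toLin' e = Matrix.toLin' e
          have h4 : Matrix.toLin' e * Matrix.toLin' e = Matrix.toLin' (e * e) :=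
            (Matrix.toLin'_mul e e).symm
          rw [h4, hee]
        · have h2 := mult_of_trace M (M.le he) htr
          have h3 := (bil_sim (ψ := ψ) (x := e) (κ := 1)).1 (by rw [h2, one_smul])
          intro u v
          have h4 := h3 u v
          rwa [one_mul] at h4
      | zero =>
        have h2 : (Matrix.toLin' : Matrix ι ι ℂ ≃ₗ[ℂ] _).toLinearMap (0 : Matrix ι ι ℂ) = 0 :=
          map_zero _
        rw [h2]
        exact Submodule.zero_mem _
      | add a b _ _ ha hb =>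
        rw [map_add]
        exact Submodule.add_mem _ ha hb
      | smul s a _ ha =>
        rw [map_smul]
        exact Submodule.smul_mem _ s ha

theorem irr_iff {W : Submodule ℂ (ι → ℂ)} (M : Mono R c Φ g ψ) (H : IsFrob R Φ) (hR : Rk R Φ r) :
    Irreducible (Gm g ψ) W ↔ Irr g W := by
  have h0 : ∀ U : Submodule ℂ (ι → ℂ), (∀ x ∈ endo g, ∀ u ∈ U, x u ∈ U) ↔
      ∀ x ∈ g, ∀ u ∈ U, x.mulVec u ∈ U := by
    intro U
    constructor
    · intro h x hx u hu
      have := h _ (mem_endo.2 hx) u hu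
      rwa [Matrix.toLin'_apply] at this
    · rintro h _ ⟨x, hx, rfl⟩ u hu
      change Matrix.toLin' x u ∈ U
      rw [Matrix.toLin'_apply]
      exact h x hx u hu
  unfold Gm
  rw [(tc_of_mono M H hR).irr_iff, h0, Irr]
  refine and_congr Iff.rfl (and_congr Iff.rfl (forall_congr' fun U => forall_congr' fun _ => ?_))
  rw [h0]

end Pool.Agent.FQV
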