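import Pool.Agent.FQV.TateB

/-!
# The Tate classes: the theorem for the monodromy algebra
-/

set_option autoImplicit false
set_option linter.unusedSectionVars false

namespace Pool.Agent.FQV

open Module
open Pool.Agent.CoprimeSig (ratM endo mem_endo)
open Pool.Agent.OddRank (Stable Irreducible Semisimple FormOn)
open Pool.Agent.TateOdd (Su Paired Inv2 Adm)

variable {ι : Type} [Fintype ι] [DecidableEq ι] {E : Type} [CommRing E]
  {R : E →+* Matrix ι ι ℚ} {Φ : Matrix ι ι ℚ} {σ : E →+* ℂ} {c : E → E}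
  {g : Submodule ℂ (Matrix ι ι ℂ)} {ψ : Matrix ι ι ℂ} {r : (E →+* ℂ) → ℕ}

theorem bil_ne [Nonempty ι] (h : IsUnit ψ) : ∃ u v, bil ψ u v ≠ 0 := by
  by_contra hcon
  push Not at hcon
  obtain ⟨i⟩ := (inferInstance : Nonempty ι)
  have h1 : (Pi.single i 1 : ι → ℂ) = 0 := bil_nd h _ fun y => hcon _ y
  have h2 := congrFun h1 i
  rw [Pi.single_eq_same, Pi.zero_apply] at h2
  exact one_ne_zero h2

/-- The multipliers of a pairing of two stable subspaces. -/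
theorem pair_mult (M : Mono R c Φ g ψ) (H : IsFrob R Φ) (hR : Rk R Φ r)
    {W W' : Submodule ℂ (ι → ℂ)} (hW : Stable (Gm g ψ) W) (hW' : Stable (Gm g ψ) W')
    {φ : (ι → ℂ) →ₗ[ℂ] (ι → ℂ) →ₗ[ℂ] ℂ} (hφ : Inv2 (Gm g ψ) W W' φ) :
    ∀ x ∈ g, ∀ κ : ℂ, x.transpose * ψ + ψ * x = κ • ψ →
      ∀ u ∈ W, ∀ v ∈ W', φ (x.mulVec u) v + φ u (x.mulVec v) = κ * φ u v := by
  intro x hx κ hκ u hu v hv
  rcases isEmpty_or_nonempty ι with hι | hι
  · have h1 : ∀ w : ι → ℂ, w = 0 := fun w => Subsingleton.elim _ _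
    rw [h1 u, h1 v]
    simp
  · have h1 := (tc_of_mono M H hR).mult hW hW' hφ (Matrix.toLin' x) (mem_endo.2 hx) κ
      (bil_sim.1 hκ) (bil_ne M.unit) u hu v hv
    rwa [Matrix.toLin'_apply, Matrix.toLin'_apply] at h1

/-- A pairing of two irreducible subspaces is given by an element of the commutant. -/
theorem rep2 (M : Mono R c Φ g ψ) {W W' : Submodule ℂ (ι → ℂ)}
    (hW : ∀ x ∈ g, ∀ w ∈ W, x.mulVec w ∈ W) (hW' : ∀ x ∈ g, ∀ w ∈ W', x.mulVec w ∈ W')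
    {φ : (ι → ℂ) →ₗ[ℂ] (ι → ℂ) →ₗ[ℂ] ℂ}
    (hφ : ∀ x ∈ g, ∀ κ : ℂ, x.transpose * ψ + ψ * x = κ • ψ →
      ∀ u ∈ W, ∀ v ∈ W', φ (x.mulVec u) v + φ u (x.mulVec v) = κ * φ u v) :
    ∃ Z : Matrix ι ι ℂ, (∀ x ∈ g, x * Z = Z * x) ∧
      ∀ u ∈ W, ∀ v ∈ W', φ u v = bil (ψ * Z) u v := by
  obtain ⟨p, P⟩ := exists_prj M hW
  obtain ⟨p', P'⟩ := exists_prj M hW'
  let θ : (ι → ℂ) →ₗ[ℂ] (ι → ℂ) →ₗ[ℂ] ℂ := φ.compl₁₂ (W.subtype ∘ₗ p) (W'.subtype ∘ₗ p')
  have hθ : ∀ u v, θ u v = φ (p u) (p' v) := fun u v => rfl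
  let A : Matrix ι ι ℂ := (Matrix.toBilin' (R₁ := ℂ)).symm θ
  have hA : ∀ u v, bil A u v = θ u v := fun u v =>
    LinearMap.congr_fun (LinearMap.congr_fun ((Matrix.toBilin' (R₁ := ℂ)).apply_symm_apply θ) u) v
  obtain ⟨w, hw⟩ := M.unit
  have hinv : ψ * ((w⁻¹ : (Matrix ι ι ℂ)ˣ) : Matrix ι ι ℂ) = 1 := by
    rw [← hw]
    exact w.mul_inv
  have hinv' : ((w⁻¹ : (Matrix ι ι ℂ)ˣ) : Matrix ι ι ℂ) * ψ = 1 := by
    rw [← hw]
    exact w.inv_mul
  refine ⟨((w⁻¹ : (Matrix ι ι ℂ)ˣ) : Matrix ι ι ℂ) * A, fun x hx => ?_, fun u hu v hv => ?_⟩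
  · obtain ⟨κ, hκ⟩ := M.sim x hx
    have h1 : x.transpose * A + A * x = κ • A := by
      refine bil_inj fun u v => ?_
      have h2 : bil (x.transpose * A + A * x) u v = bil A (x.mulVec u) v + bil A u (x.mulVec v) := by
        rw [bil_apply, bil_apply, bil_apply, Matrix.add_mulVec, dotProduct_add,
          ← Matrix.mulVec_mulVec, ← Matrix.mulVec_mulVec,
          Matrix.dotProduct_mulVec u x.transpose, Matrix.vecMul_transpose]
      have h3 : bil (κ • A) u v = κ * bil A u v := by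
        rw [bil_apply, bil_apply, Matrix.smul_mulVec, dotProduct_smul, smul_eq_mul]
      rw [h2, h3, hA, hA, hA, hθ, hθ, hθ, P.eq x hx, P'.eq x hx]
      exact hφ x hx κ hκ _ (p u).2 _ (p' v).2
    have h2 : x.transpose * ψ = κ • ψ - ψ * x := eq_sub_of_add_eq hκ
    have h3 : A = ψ * (((w⁻¹ : (Matrix ι ι ℂ)ˣ) : Matrix ι ι ℂ) * A) := by
      rw [← mul_assoc, hinv, one_mul]
    have h4 : ψ * (x * (((w⁻¹ : (Matrix ι ι ℂ)ˣ) : Matrix ι ι ℂ) * A)) = A * x := by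
      have h5 : x.transpose * A = κ • A - A * x := eq_sub_of_add_eq h1
      have h6 : x.transpose * A = κ • A -
          ψ * (x * (((w⁻¹ : (Matrix ι ι ℂ)ˣ) : Matrix ι ι ℂ) * A)) := by
        conv_lhs => rw [h3]
        rw [← mul_assoc, h2, sub_mul, smul_mul_assoc, ← h3, mul_assoc]
      rw [h5] at h6
      exact (sub_right_injective h6).symm
    have h5 := congrArg (fun y => ((w⁻¹ : (Matrix ι ι ℂ)ˣ) : Matrix ι ι ℂ) * y) h4
    simp only [← mul_assoc] at h5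
    rw [hinv', one_mul] at h5
    rw [← mul_assoc]
    exact h5
  · have h1 := hA u v
    rw [hθ] at h1
    have h2 : (p u : ι → ℂ) = u := congrArg Subtype.val (P.id ⟨u, hu⟩)
    have h3 : (p' v : ι → ℂ) = v := congrArg Subtype.val (P'.id ⟨v, hv⟩)
    rw [h2, h3] at h1
    rw [← mul_assoc, hinv, one_mul, h1]

/-- Dual irreducible subspaces belong to conjugate homomorphisms. -/
theorem conj_of_paired (M : Mono R c Φ g ψ) (H : IsFrob R Φ) (hR : Rk R Φ r)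
    (hc : ∀ (σ : E →+* ℂ) a, σ (c a) = starRingEnd ℂ (σ a)) {W W' : Submodule ℂ (ι → ℂ)}
    (hW : Irr g W) (hW' : Irr g W') {σ σ' : E →+* ℂ} (hσ : W ≤ HS R σ) (hσ' : W' ≤ HS R σ')
    (h : Paired (Gm g ψ) W W') : σ = cp starRingAut σ' := by
  obtain ⟨φ, hφ, u, hu, v, hv, h0⟩ := h
  have hm := pair_mult M H hR ((irr_iff M H hR).2 hW).1 ((irr_iff M H hR).2 hW').1 hφ
  obtain ⟨Z, hZ, hrep⟩ := rep2 M hW.1 hW'.1 hm
  rw [hrep u hu v hv, bil_apply] at h0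
  ext a
  have h2 : σ a * (u ⬝ᵥ (ψ * Z).mulVec v) = σ' (c a) * (u ⬝ᵥ (ψ * Z).mulVec v) := by
    calc σ a * (u ⬝ᵥ (ψ * Z).mulVec v) = (σ a • u) ⬝ᵥ (ψ * Z).mulVec v := by
          rw [smul_dotProduct, smul_eq_mul]
      _ = ((ratM (R a)).mulVec u) ⬝ᵥ (ψ * Z).mulVec v := by rw [mem_HS.1 (hσ hu) a]
      _ = u ⬝ᵥ ((ratM (R a)).transpose * (ψ * Z)).mulVec v := by
          rw [← Matrix.mulVec_mulVec v (ratM (R a)).transpose (ψ * Z),
            Matrix.dotProduct_mulVec u (ratM (R a)).transpose, Matrix.vecMul_transpose]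
      _ = u ⬝ᵥ (ψ * Z * ratM (R (c a))).mulVec v := by
          rw [← mul_assoc, M.ros, mul_assoc, ← M.center Z hZ, ← mul_assoc]
      _ = u ⬝ᵥ (ψ * Z).mulVec (σ' (c a) • v) := by
          rw [← Matrix.mulVec_mulVec, mem_HS.1 (hσ' hv) (c a)]
      _ = σ' (c a) * (u ⬝ᵥ (ψ * Z).mulVec v) := by
          rw [Matrix.mulVec_smul, dotProduct_smul, smul_eq_mul]
  have h3 := mul_right_cancel₀ h0 h2
  rw [h3, hc]
  rfl

/-- The eigenspace is generated by an irreducible subspace and the commutant. -/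
theorem HS_le_span (M : Mono R c Φ g ψ) {W : Submodule ℂ (ι → ℂ)} (hW : Irr g W)
    {σ : E →+* ℂ} (hσ : W ≤ HS R σ) : HS R σ ≤ Submodule.span ℂ {u | ∃ Z : Matrix ι ι ℂ,
      (∀ x ∈ g, x * Z = Z * x) ∧ ∃ w ∈ W, u = Z.mulVec w} := by
  let S : Submodule ℂ (ι → ℂ) := Submodule.span ℂ {u | ∃ Z : Matrix ι ι ℂ,
    (∀ x ∈ g, x * Z = Z * x) ∧ ∃ w ∈ W, u = Z.mulVec w}
  have hst : ∀ (X : Matrix ι ι ℂ), (∀ Z : Matrix ι ι ℂ, (∀ x ∈ g, x * Z = Z * x) →
      ∀ w ∈ W, X.mulVec (Z.mulVec w) ∈ S) → ∀ u ∈ S, X.mulVec u ∈ S := by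
    intro X hX u hu
    have h1 : S ≤ S.comap (Matrix.toLin' X) := by
      refine Submodule.span_le.2 ?_
      rintro _ ⟨Z, hZ, w, hw, rfl⟩
      change Matrix.toLin' X (Z.mulVec w) ∈ S
      rw [Matrix.toLin'_apply]
      exact hX Z hZ w hw
    have h2 := h1 hu
    rwa [Submodule.mem_comap, Matrix.toLin'_apply] at h2
  have hle : S ≤ HS R σ := by
    refine Submodule.span_le.2 ?_
    rintro _ ⟨Z, hZ, w, hw, rfl⟩
    intro a
    rw [Matrix.mulVec_mulVec, ← M.center Z hZ a, ← Matrix.mulVec_mulVec, hσ hw a,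
      Matrix.mulVec_smul]
  have hWS : W ≤ S := fun w hw => Submodule.subset_span
    ⟨1, fun x _ => by rw [mul_one, one_mul], w, hw, by rw [Matrix.one_mulVec]⟩
  have h1 : S = ⊥ ∨ S = HS R σ := by
    refine M.iso σ S hle (fun x hx => hst x ?_) (fun Z' hZ' _ => hst Z' ?_)
    · intro Z hZ w hw
      refine Submodule.subset_span ⟨Z, hZ, x.mulVec w, hW.1 x hx w hw, ?_⟩
      rw [Matrix.mulVec_mulVec, Matrix.mulVec_mulVec, hZ x hx]
    · intro Z hZ w hw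
      refine Submodule.subset_span ⟨Z' * Z, fun x hx => ?_, w, hw, ?_⟩
      · rw [← mul_assoc, hZ' x hx, mul_assoc, hZ x hx, mul_assoc]
      · rw [Matrix.mulVec_mulVec]
  rcases h1 with h1 | h1
  · exfalso
    apply hW.2.1
    rw [eq_bot_iff, ← h1]
    exact hWS
  · exact h1.ge

/-- Irreducible subspaces for conjugate homomorphisms are dual. -/
theorem paired_of_conj (M : Mono R c Φ g ψ)
    (hc : ∀ (σ : E →+* ℂ) a, σ (c a) = starRingEnd ℂ (σ a)) {W W' : Submodule ℂ (ι → ℂ)}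
    (hW : Irr g W) (hW' : Irr g W') {σ : E →+* ℂ} (hσ : W ≤ HS R σ)
    (hσ' : W' ≤ HS R (cp starRingAut σ)) : Paired (Gm g ψ) W W' := by
  obtain ⟨u, hu, hu0⟩ := (Submodule.ne_bot_iff W).1 hW.2.1
  -- `u` pairs with the eigenspace for the conjugate
  have h1 : ∃ v ∈ HS R (cp starRingAut σ), bil ψ u v ≠ 0 := by
    by_contra hcon
    push Not at hcon
    apply hu0
    refine bil_nd M.unit u fun y => ?_
    have h2 : (⊤ : Submodule ℂ (ι → ℂ)) ≤ LinearMap.ker (bil ψ u) := by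
      rw [← iSup_HS M]
      refine iSup_le fun σ' w hw => ?_
      rw [LinearMap.mem_ker]
      by_cases hs : σ' = cp starRingAut σ
      · subst hs
        exact hcon w hw
      · by_contra hne
        apply hs
        ext a
        rw [bil_apply] at hne
        have e1 : (ratM (R a)).mulVec u ⬝ᵥ ψ.mulVec w =
            u ⬝ᵥ ψ.mulVec ((ratM (R (c a))).mulVec w) := by
          rw [← Matrix.vecMul_transpose, ← Matrix.dotProduct_mulVec, Matrix.mulVec_mulVec,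
            Matrix.mulVec_mulVec, M.ros]
        rw [hσ hu a, hw (c a), Matrix.mulVec_smul, smul_dotProduct, dotProduct_smul, smul_eq_mul,
          smul_eq_mul, hc] at e1
        have e2 := mul_right_cancel₀ hne e1
        change σ' a = starRingEnd ℂ (σ a)
        rw [e2, Complex.conj_conj]
    exact LinearMap.mem_ker.1 (h2 Submodule.mem_top)
  obtain ⟨v, hv, hne⟩ := h1
  -- an element of the commutant
  obtain ⟨Z, hZ, w, hw, h2⟩ : ∃ Z : Matrix ι ι ℂ, (∀ x ∈ g, x * Z = Z * x) ∧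
      ∃ w ∈ W', bil ψ u (Z.mulVec w) ≠ 0 := by
    by_contra hcon
    push Not at hcon
    apply hne
    have h3 : Submodule.span ℂ {u | ∃ Z : Matrix ι ι ℂ,
        (∀ x ∈ g, x * Z = Z * x) ∧ ∃ w ∈ W', u = Z.mulVec w} ≤ LinearMap.ker (bil ψ u) := by
      refine Submodule.span_le.2 ?_
      rintro _ ⟨Z, hZ, w, hw, rfl⟩
      rw [SetLike.mem_coe, LinearMap.mem_ker]
      exact hcon Z hZ w hw
    exact LinearMap.mem_ker.1 (h3 (HS_le_span M hW' hσ' hv))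
  refine ⟨(bil ψ).compl₁₂ LinearMap.id (Matrix.toLin' Z), ?_, u, hu, w, hw, ?_⟩
  · rintro _ ⟨⟨e, he, rfl⟩, hee, hm⟩ x _ y _
    simp only [LinearMap.compl₁₂_apply, LinearMap.id_apply]
    have h3 := hm x (Matrix.toLin' Z y)
    have h4 : Matrix.toLin' Z (Matrix.toLin' e y) = Matrix.toLin' e (Matrix.toLin' Z y) := by
      rw [Matrix.toLin'_apply, Matrix.toLin'_apply, Matrix.toLin'_apply, Matrix.toLin'_apply,
        Matrix.mulVec_mulVec, Matrix.mulVec_mulVec, hZ e he]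
    change bil ψ (Matrix.toLin' e x) (Matrix.toLin' Z y) +
      bil ψ x (Matrix.toLin' Z (Matrix.toLin' e y)) = bil ψ x (Matrix.toLin' Z y)
    rw [h4]
    exact h3
  · rw [LinearMap.compl₁₂_apply, LinearMap.id_apply, Matrix.toLin'_apply]
    exact h2

end Pool.Agent.FQV
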