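import Pool.Agent.FQV.TateC

/-!
# The Tate classes: the assumptions and the criterion
-/

set_option autoImplicit false
set_option linter.unusedSectionVars false

namespace Pool.Agent.FQV

open Module
open Pool.Agent.CoprimeSig (ratM endo mem_endo)
open Pool.Agent.OddRank (Stable Irreducible Semisimple FormOn)
open Pool.Agent.TateOdd (Su Paired Inv2 Adm NoRel)

variable {ι : Type} [Fintype ι] [DecidableEq ι] {E : Type} [CommRing E]
  {R : E →+* Matrix ι ι ℚ} {Φ : Matrix ι ι ℚ} {σ : E →+* ℂ} {c : E → E}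
  {g : Submodule ℂ (Matrix ι ι ℂ)} {ψ : Matrix ι ι ℂ} {r : (E →+* ℂ) → ℕ}

/-- **The assumptions of the theorem on Tate classes are satisfied.** -/
theorem su_mono (M : Mono R c Φ g ψ) (H : IsFrob R Φ) (hR : Rk R Φ r)
    (hc : ∀ (σ : E →+* ℂ) a, σ (c a) = starRingEnd ℂ (σ a))
    (hsp : ∀ σ : E →+* ℂ, (∀ a, starRingEnd ℂ (σ a) = σ a) → ∀ W ≤ HS R σ, Irr g W →
      SympOn g ψ W)
    (hmem : ∀ N : Matrix ι ι ℂ, (∀ Z : Matrix ι ι ℂ, (∀ x ∈ g, x * Z = Z * x) → N * Z = Z * N) →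
      TrC R r g ψ N 0 → N ∈ g) : Su (bil ψ) (Gm g ψ) := by
  refine (tc_of_mono M H hR).su (bil_alt M.alt) (fun x hx => bil_nd M.unit x hx) ?_ ?_ ?_ ?_
  · have h1 := mem_endo.2 M.one
    rwa [Matrix.toLin'_one] at h1
  · intro W hW
    obtain ⟨W', h1, h2⟩ := M.ss W fun x hx w hw => by
      have := hW _ (mem_endo.2 hx) w hw
      rwa [Matrix.toLin'_apply] at this
    refine ⟨W', h1, ?_⟩
    rintro _ ⟨x, hx, rfl⟩ w hw
    change Matrix.toLin' x w ∈ W'
    rw [Matrix.toLin'_apply]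
    exact h2 x hx w hw
  · intro W hW hp
    have hWi := (irr_iff M H hR).1 hW
    obtain ⟨σ, hσ⟩ := exists_sig M hWi
    have h1 := conj_of_paired M H hR hc hWi hWi hσ hσ hp
    have hr : ∀ a, starRingEnd ℂ (σ a) = σ a := by
      intro a
      conv_rhs => rw [h1]
      rfl
    obtain ⟨φ, h2, h3, h4⟩ := hsp σ hr W hσ hWi
    refine ⟨φ, h2, h3, ?_⟩
    rintro _ ⟨⟨e, he, rfl⟩, hee, hm⟩ x hx y hy
    have h5 : e.transpose * ψ + ψ * e = (1 : ℂ) • ψ := bil_sim.2 fun u v => by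
      rw [one_mul]
      exact hm u v
    have h6 := h4 e he 1 h5 x hx y hy
    rw [one_mul] at h6
    change φ (Matrix.toLin' e x) y + φ x (Matrix.toLin' e y) = φ x y
    rw [Matrix.toLin'_apply, Matrix.toLin'_apply]
    exact h6
  · intro D hD1 hD2 hD3
    let N : Matrix ι ι ℂ := LinearMap.toMatrix' D
    have hN : Matrix.toLin' N = D := Matrix.toLin'_toMatrix' D
    have hND : ∀ v, N.mulVec v = D v := fun v => by rw [← Matrix.toLin'_apply, hN]
    have h1 : N ∈ g := by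
      refine hmem N (fun Z hZ => ?_) ⟨?_, fun σ W hσ hW A hA => ?_⟩
      · apply (Matrix.toLin' (R := ℂ)).injective
        rw [Matrix.toLin'_mul, Matrix.toLin'_mul, hN]
        refine hD2 (Matrix.toLin' Z) ?_
        rintro _ ⟨x, hx, rfl⟩
        change Matrix.toLin' x * Matrix.toLin' Z = Matrix.toLin' Z * Matrix.toLin' x
        have h2 := congrArg Matrix.toLin' (hZ x hx)
        rwa [Matrix.toLin'_mul, Matrix.toLin'_mul] at h2
      · rw [Finsupp.sum_zero_index]
        refine bil_sim.2 fun u v => ?_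
        rw [hN, zero_mul]
        exact hD1 u v
      · rw [Finsupp.sum_zero_index]
        exact hD3 W ((irr_iff M H hR).2 hW) A fun w => by rw [hA, hND]
    rw [← hN]
    exact mem_endo.2 h1

/-- The rank of an idempotent on a stable subspace. -/
theorem rank_map {W : Submodule ℂ (ι → ℂ)} {x : Matrix ι ι ℂ} (hxx : x * x = x)
    (hst : ∀ w ∈ W, x.mulVec w ∈ W) (A : End ℂ W) (hA : ∀ w, (A w : ι → ℂ) = x.mulVec w) :
    ((finrank ℂ (W.map (Matrix.toLin' x)) : ℕ) : ℂ) = LinearMap.trace ℂ W A := by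
  have h1 : A * A = A := by
    refine LinearMap.ext fun w => Subtype.ext ?_
    rw [Module.End.mul_apply, hA, hA, Matrix.mulVec_mulVec, hxx]
  rw [Pool.Agent.SmallRank.trace_idem h1]
  congr 1
  have h3 : W.map (Matrix.toLin' x) = (LinearMap.range A).map W.subtype := by
    ext v
    constructor
    · rintro ⟨w, hw, rfl⟩
      refine ⟨A ⟨w, hw⟩, ⟨⟨w, hw⟩, rfl⟩, ?_⟩
      rw [Submodule.subtype_apply, hA, Matrix.toLin'_apply]
    · rintro ⟨_, ⟨w, rfl⟩, rfl⟩
      refine ⟨w, w.2, ?_⟩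
      rw [Submodule.subtype_apply, hA, Matrix.toLin'_apply]
  rw [h3]
  exact (LinearEquiv.finrank_eq (Submodule.equivMapOfInjective _ W.injective_subtype _)).symm

/-- The sums of ranks. -/
def BalS (n r : (E →+* ℂ) → ℕ) {m : ℕ} (s : Fin m → (E →+* ℂ)) : Prop :=
  (∀ a b, s a ≠ cp starRingAut (s b)) ∧ ∀ γ : ℂ ≃+* ℂ, 2 * ∑ a, r (cp γ (s a)) = ∑ a, n (s a)

/-- The criterion for the mean ranks. -/
theorem bal_iff (M : Mono R c Φ g ψ) (H : IsFrob R Φ) (hR : Rk R Φ r)
    {n : (E →+* ℂ) → ℕ} (hn : ∀ (σ : E →+* ℂ), ∀ W ≤ HS R σ, Irr g W → finrank ℂ W = n σ)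
    {m : ℕ} (W : Fin m → Submodule ℂ (ι → ℂ)) (hW : ∀ a, Irr g (W a))
    {s : Fin m → (E →+* ℂ)} (hs : ∀ a, W a ≤ HS R (s a)) :
    (∀ e ∈ Gm g ψ, 2 * ∑ a, finrank ℂ ((W a).map e) = ∑ a, finrank ℂ (W a)) ↔
      ∀ γ : ℂ ≃+* ℂ, 2 * ∑ a, r (cp γ (s a)) = ∑ a, n (s a) := by
  have hdim : ∑ a, finrank ℂ (W a) = ∑ a, n (s a) :=
    Finset.sum_congr rfl fun a _ => hn _ _ (hs a) (hW a)
  rw [hdim]
  constructor
  · intro h γ
    rcases isEmpty_or_nonempty ι with hι | hι
    · have hm : IsEmpty (Fin m) := ⟨fun a => (hW a).2.1 (by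
        rw [eq_bot_iff]
        intro w _
        rw [Submodule.mem_bot]
        exact Subsingleton.elim _ _)⟩
      simp
    · obtain ⟨e, he, hee, htr, hsm⟩ := hR.ex γ
      have h1 : Matrix.toLin' e ∈ Gm g ψ :=
        mem_gm.2 ⟨M.le he, hee, mult_of_trace M (M.le he) htr⟩
      have h2 := h _ h1
      have h3 : ∀ a, finrank ℂ ((W a).map (Matrix.toLin' e)) = r (cp γ (s a)) := by
        intro a
        have hst := (hW a).1 e (M.le he)
        obtain ⟨q, P⟩ := exists_prj M (hW a).1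
        have h4 := rank_map hee hst (rm q e) fun w => rm_apply P hst w
        obtain ⟨v, F⟩ := exists_basis M H hR.tr.idem (hW a) P (hs a)
        rw [trace_rm F M he hee, hsm] at h4
        exact_mod_cast h4
      rw [Finset.sum_congr rfl fun a _ => h3 a] at h2
      exact h2
  · rintro h _ ⟨⟨e, he, rfl⟩, hee, hm⟩
    have hee' : e * e = e := by
      apply (Matrix.toLin' (R := ℂ)).injective
      rw [Matrix.toLin'_mul]
      exact hee
    have h5 : e.transpose * ψ + ψ * e = (1 : ℂ) • ψ := bil_sim.2 fun u v => by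
      rw [one_mul]
      exact hm u v
    obtain ⟨a, ha1, ha2⟩ := exists_trc M H hR he
    rcases isEmpty_or_nonempty ι with hι | hι
    · have hm : IsEmpty (Fin m) := ⟨fun a => (hW a).2.1 (by
        rw [eq_bot_iff]
        intro w _
        rw [Submodule.mem_bot]
        exact Subsingleton.elim _ _)⟩
      simp
    have hsum : (a.sum fun _ z => z) = 1 := by
      obtain ⟨u, v, huv⟩ := bil_ne M.unit
      have h6 := bil_sim.1 ha1 u v
      have h7 := bil_sim.1 h5 u v
      rw [h6] at h7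
      exact mul_right_cancel₀ huv h7
    have h3 : ∀ b, ((finrank ℂ ((W b).map (Matrix.toLin' e)) : ℕ) : ℂ) =
        a.sum fun γ z => z * (r (cp γ (s b)) : ℂ) := by
      intro b
      have hst := (hW b).1 e he
      obtain ⟨q, P⟩ := exists_prj M (hW b).1
      rw [rank_map hee' hst (rm q e) fun w => rm_apply P hst w]
      exact ha2 (s b) (W b) (hs b) (hW b) (rm q e) fun w => rm_apply P hst w
    have h4 : (2 : ℂ) * ∑ b, ((finrank ℂ ((W b).map (Matrix.toLin' e)) : ℕ) : ℂ) =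
        ∑ b, (n (s b) : ℂ) := by
      rw [Finset.sum_congr rfl fun b _ => h3 b]
      have h6 : ∑ b, (a.sum fun γ z => z * (r (cp γ (s b)) : ℂ)) =
          a.sum fun γ z => z * ∑ b, (r (cp γ (s b)) : ℂ) := by
        simp only [Finsupp.sum]
        rw [Finset.sum_comm]
        exact Finset.sum_congr rfl fun γ _ => by rw [Finset.mul_sum]
      rw [h6, Finsupp.sum, Finset.mul_sum]
      have h7 : ∀ γ ∈ a.support, (2 : ℂ) * (a γ * ∑ b, (r (cp γ (s b)) : ℂ)) =
          a γ * ∑ b, (n (s b) : ℂ) := by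
        intro γ _
        have h8 : (2 : ℂ) * ∑ b, (r (cp γ (s b)) : ℂ) = ∑ b, (n (s b) : ℂ) := by
          exact_mod_cast h γ
        rw [← h8]
        ring
      rw [Finset.sum_congr rfl h7, ← Finset.sum_mul]
      have h9 : ∑ γ ∈ a.support, a γ = 1 := hsum
      rw [h9, one_mul]
    exact_mod_cast h4

end Pool.Agent.FQV
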