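import Pool.Agent.FQV.TateD

/-!
# The structure of the Tate classes
-/

set_option autoImplicit false
set_option linter.unusedSectionVars false

namespace Pool.Agent.FQV

open Module
open Pool.Agent.CoprimeSig (ratM endo mem_endo)
open Pool.Agent.OddRank (Stable Irreducible Semisimple FormOn)
open Pool.Agent.TateOdd (Su Paired Inv2 Adm NoRel Div prods WeilTerm dg)
open Pool.Agent.GHCFull (AForm der der_apply)

variable {ι : Type} [Fintype ι] [DecidableEq ι] {E : Type} [CommRing E]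
  {R : E →+* Matrix ι ι ℚ} {Φ : Matrix ι ι ℚ} {σ : E →+* ℂ} {c : E → E}
  {g : Submodule ℂ (Matrix ι ι ℂ)} {ψ : Matrix ι ι ℂ} {n r : (E →+* ℂ) → ℕ}

/-- Tate classes of degree `2 j` on the `N`-th power: alternating forms `f` on `V ^ N` with `2 j`
arguments such that every `x` in `g` acts as `j` times its multiplier. -/
def IsTate (g : Submodule ℂ (Matrix ι ι ℂ)) (ψ : Matrix ι ι ℂ) (N j : ℕ)
    (f : (Fin N → ι → ℂ) [⋀^Fin (2 * j)]→ₗ[ℂ] ℂ) : Prop :=
  ∀ x ∈ g, ∀ κ : ℂ, x.transpose * ψ + ψ * x = κ • ψ → ∀ w : Fin (2 * j) → Fin N → ι → ℂ,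
    ∑ i, f (Function.update w i fun a => x.mulVec (w i a)) = j * κ * f w

/-- Tate classes of degree two on the `N`-th power, as alternating bilinear forms on `V ^ N`. -/
def IsDivisor (g : Submodule ℂ (Matrix ι ι ℂ)) (ψ : Matrix ι ι ℂ) (N : ℕ)
    (ω : (Fin N → ι → ℂ) →ₗ[ℂ] (Fin N → ι → ℂ) →ₗ[ℂ] ℂ) : Prop :=
  (∀ v, ω v v = 0) ∧ ∀ x ∈ g, ∀ κ : ℂ, x.transpose * ψ + ψ * x = κ • ψ → ∀ u v,
    ω (fun a => x.mulVec (u a)) v + ω u (fun a => x.mulVec (v a)) = κ * ω u v

/-- The linear combinations of products of `j` Tate classes of degree two, in the space of all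
alternating forms with `2 j` arguments on the `N`-th power. -/
def products (g : Submodule ℂ (Matrix ι ι ℂ)) (ψ : Matrix ι ι ℂ) (N j : ℕ) :
    Submodule ℂ ((Fin N → ι → ℂ) [⋀^Fin (2 * j)]→ₗ[ℂ] ℂ) :=
  Submodule.span ℂ {η | ∃ ω : Fin j → (Fin N → ι → ℂ) →ₗ[ℂ] (Fin N → ι → ℂ) →ₗ[ℂ] ℂ,
    (∀ i, IsDivisor g ψ N (ω i)) ∧ ∀ w : Fin (2 * j) → Fin N → ι → ℂ,
      η w = ∑ σ : Equiv.Perm (Fin (2 * j)), ((Equiv.Perm.sign σ : ℤ) : ℂ) *
        ∏ i : Fin j, ω i (w (σ ⟨2 * i, by omega⟩)) (w (σ ⟨2 * i + 1, by omega⟩))}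

/-- `s 1, ..., s m` are homomorphisms, no two of them conjugate and none of them real, such that
all conjugates of the multiplicities have the mean value. -/
def Balanced (n r : (E →+* ℂ) → ℕ) (m : ℕ) (s : Fin m → (E →+* ℂ)) : Prop :=
  (∀ a b, ∃ t, s a t ≠ starRingEnd ℂ (s b t)) ∧
    ∀ γ : ℂ ≃+* ℂ, 2 * ∑ a, r ((γ : ℂ →+* ℂ).comp (s a)) = ∑ a, n (s a)

/-- Weil classes of degree `d` on the `N`-th power: pullbacks of alternating forms of degree
`d = dim (W 1 ⊕ ... ⊕ W m)` by `g`-equivariant linear maps `h : V ^ N → W 1 ⊕ ... ⊕ W m ⊆ V ^ m`,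
where `W a` is an irreducible subspace of the eigenspace for `s a` and `s` is balanced. -/
def IsWeil (R : E →+* Matrix ι ι ℚ) (n r : (E →+* ℂ) → ℕ) (g : Submodule ℂ (Matrix ι ι ℂ))
    (N d : ℕ) (θ : (Fin N → ι → ℂ) [⋀^Fin d]→ₗ[ℂ] ℂ) : Prop :=
  ∃ (m : ℕ) (s : Fin m → (E →+* ℂ)) (W : Fin m → Submodule ℂ (ι → ℂ))
    (h : (Fin N → ι → ℂ) →ₗ[ℂ] (Fin m → ι → ℂ)) (vol : (Fin m → ι → ℂ) [⋀^Fin d]→ₗ[ℂ] ℂ),
    Balanced n r m s ∧ d = ∑ a, n (s a) ∧ (∀ a, W a ≤ HS R (s a) ∧ Irr g (W a)) ∧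
      (∀ w a, h w a ∈ W a) ∧
      (∀ x ∈ g, ∀ w a, h (fun b => x.mulVec (w b)) a = x.mulVec (h w a)) ∧
      θ = vol.compLinearMap h

/-- The linear combinations of products of some Tate classes of degree two and one Weil class, in
the space of all alternating forms with `2 j` arguments on the `N`-th power. -/
def weilProducts (R : E →+* Matrix ι ι ℚ) (n r : (E →+* ℂ) → ℕ)
    (g : Submodule ℂ (Matrix ι ι ℂ)) (ψ : Matrix ι ι ℂ) (N j : ℕ) :
    Submodule ℂ ((Fin N → ι → ℂ) [⋀^Fin (2 * j)]→ₗ[ℂ] ℂ) :=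
  Submodule.span ℂ {η | ∃ (l d : ℕ) (_ : 2 * l + d = 2 * j)
    (ω : Fin l → (Fin N → ι → ℂ) →ₗ[ℂ] (Fin N → ι → ℂ) →ₗ[ℂ] ℂ)
    (θ : (Fin N → ι → ℂ) [⋀^Fin d]→ₗ[ℂ] ℂ),
    (∀ i, IsDivisor g ψ N (ω i)) ∧ IsWeil R n r g N d θ ∧
      ∀ w : Fin (2 * j) → Fin N → ι → ℂ,
      η w = ∑ σ : Equiv.Perm (Fin (2 * j)), ((Equiv.Perm.sign σ : ℤ) : ℂ) *
        ((∏ i : Fin l, ω i (w (σ ⟨2 * i, by omega⟩)) (w (σ ⟨2 * i + 1, by omega⟩))) *
          θ fun i : Fin d => w (σ ⟨2 * l + i, by omega⟩))}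

/-- Conditions linear in the element of `g` and its multiplier need only be checked for the
idempotents. -/
theorem mult_ext (M : Mono R c Φ g ψ) (H : IsFrob R Φ) (hR : Rk R Φ r) [Nonempty ι]
    {Y : Type} [AddCommGroup Y] [Module ℂ Y] (T : Matrix ι ι ℂ →ₗ[ℂ] Y) (y : Y)
    (h : ∀ x ∈ g, x * x = x → x.transpose * ψ + ψ * x = ψ → T x = y) :
    ∀ x ∈ g, ∀ κ : ℂ, x.transpose * ψ + ψ * x = κ • ψ → T x = κ • y := by
  intro x hx κ hκ
  have h1 : ∃ κ' : ℂ, x.transpose * ψ + ψ * x = κ' • ψ ∧ T x = κ' • y := by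
    have C := tc_of_mono M H hR
    have h2 := le_span_gs C.car C.sim C.sp (mem_endo.2 hx)
    have h3 : ∀ z ∈ Submodule.span ℂ (Gs (bil ψ) (endo g)), ∀ x : Matrix ι ι ℂ,
        Matrix.toLin' x = z → ∃ κ' : ℂ, x.transpose * ψ + ψ * x = κ' • ψ ∧ T x = κ' • y := by
      intro z hz
      induction hz using Submodule.span_induction with
      | mem e he =>
        rintro x rfl
        obtain ⟨h4, h5, h6⟩ := mem_gm.1 he
        exact ⟨1, by rw [one_smul]; exact h6, by rw [one_smul]; exact h x h4 h5 h6⟩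
      | zero =>
        intro x hx
        have h4 : x = 0 := (Matrix.toLin' (R := ℂ)).injective (hx.trans (map_zero _).symm)
        refine ⟨0, ?_, ?_⟩
        · rw [h4, Matrix.transpose_zero, zero_mul, mul_zero, add_zero, zero_smul]
        · rw [h4, map_zero, zero_smul]
      | add a b _ _ ha hb =>
        intro x hx
        obtain ⟨k1, h4, h5⟩ := ha (LinearMap.toMatrix' a) (Matrix.toLin'_toMatrix' a)
        obtain ⟨k2, h6, h7⟩ := hb (LinearMap.toMatrix' b) (Matrix.toLin'_toMatrix' b)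
        have h8 : x = LinearMap.toMatrix' a + LinearMap.toMatrix' b := by
          rw [← map_add, ← hx, LinearMap.toMatrix'_toLin']
        refine ⟨k1 + k2, ?_, ?_⟩
        · rw [h8, Matrix.transpose_add, add_mul, mul_add, add_smul, ← h4, ← h6]
          abel
        · rw [h8, map_add, h5, h7, add_smul]
      | smul s a _ ha =>
        intro x hx
        obtain ⟨k1, h4, h5⟩ := ha (LinearMap.toMatrix' a) (Matrix.toLin'_toMatrix' a)
        have h8 : x = s • LinearMap.toMatrix' a := by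
          rw [← map_smul, ← hx, LinearMap.toMatrix'_toLin']
        refine ⟨s * k1, ?_, ?_⟩
        · rw [h8, Matrix.transpose_smul, smul_mul_assoc, mul_smul_comm, ← smul_add, h4, smul_smul]
        · rw [h8, map_smul, h5, smul_smul]
    exact h3 _ h2 x rfl
  obtain ⟨κ', h2, h3⟩ := h1
  obtain ⟨u, v, huv⟩ := bil_ne M.unit
  have h4 : κ' = κ := by
    have h5 := (bil_sim.1 h2 u v).symm.trans (bil_sim.1 hκ u v)
    exact mul_right_cancel₀ huv h5
  rw [h3, h4]

theorem isTate_iff (M : Mono R c Φ g ψ) (H : IsFrob R Φ) (hR : Rk R Φ r) {N j : ℕ}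
    {f : (Fin N → ι → ℂ) [⋀^Fin (2 * j)]→ₗ[ℂ] ℂ} : IsTate g ψ N j f ↔
      ∀ e ∈ Gm g ψ, der (dg N e) (2 * j) f = (j : ℂ) • f := by
  constructor
  · rintro h _ ⟨⟨x, hx, rfl⟩, hee, hm⟩
    ext w
    rw [der_apply, AlternatingMap.smul_apply, smul_eq_mul]
    have h5 : x.transpose * ψ + ψ * x = (1 : ℂ) • ψ := bil_sim.2 fun u v => by
      rw [one_mul]
      exact hm u v
    have h6 := h x hx 1 h5 w
    rw [mul_one] at h6
    rw [← h6]
    refine Finset.sum_congr rfl fun i _ => ?_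
    congr 2
  · intro h x hx κ hκ w
    rcases isEmpty_or_nonempty ι with hι | hι
    · rcases Nat.eq_zero_or_pos j with hj | hj
      · subst hj
        simp
      · have h1 : ∀ w' : Fin (2 * j) → Fin N → ι → ℂ, f w' = 0 := fun w' =>
          f.map_coord_zero ⟨0, by omega⟩ (funext fun a => Subsingleton.elim _ _)
        rw [h1, mul_zero]
        exact Finset.sum_eq_zero fun i _ => h1 _
    · let T : Matrix ι ι ℂ →ₗ[ℂ] ℂ :=
        { toFun := fun x => ∑ i, f (Function.update w i fun a => x.mulVec (w i a))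
          map_add' := fun x y => by
            rw [← Finset.sum_add_distrib]
            refine Finset.sum_congr rfl fun i _ => ?_
            rw [← AlternatingMap.map_update_add]
            congr 2
            funext a
            exact Matrix.add_mulVec x y _
          map_smul' := fun s x => by
            rw [RingHom.id_apply, smul_eq_mul, Finset.mul_sum]
            refine Finset.sum_congr rfl fun i _ => ?_
            have e1 : (fun a => (s • x).mulVec (w i a)) = s • fun a => x.mulVec (w i a) :=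
              funext fun a => Matrix.smul_mulVec s x _
            rw [e1]
            exact f.map_update_smul w i s _ }
      have h1 := mult_ext M H hR T ((j : ℂ) * f w) (fun x hx hxx hm => by
        have h2 := h _ (mem_gm.2 ⟨hx, hxx, hm⟩)
        have h3 := DFunLike.congr_fun h2 w
        rw [der_apply, AlternatingMap.smul_apply, smul_eq_mul] at h3
        rw [← h3]
        change ∑ i, f (Function.update w i fun a => x.mulVec (w i a)) = _
        refine Finset.sum_congr rfl fun i _ => ?_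
        congr 2) x hx κ hκ
      have h4 : T x = ∑ i, f (Function.update w i fun a => x.mulVec (w i a)) := rfl
      rw [← h4, h1, smul_eq_mul]
      ring

theorem isDivisor_iff (M : Mono R c Φ g ψ) (H : IsFrob R Φ) (hR : Rk R Φ r) {N : ℕ}
    {ω : (Fin N → ι → ℂ) →ₗ[ℂ] (Fin N → ι → ℂ) →ₗ[ℂ] ℂ} :
    Div (dg N '' Gm g ψ) ω ↔ IsDivisor g ψ N ω := by
  constructor
  · rintro ⟨h1, h2⟩
    refine ⟨h1, fun x hx κ hκ u v => ?_⟩
    rcases isEmpty_or_nonempty ι with hι | hι
    · have e1 : ∀ z : Fin N → ι → ℂ, z = 0 := fun z => funext fun a => Subsingleton.elim _ _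
      rw [e1 u, e1 v, e1 (fun a => x.mulVec ((0 : Fin N → ι → ℂ) a))]
      simp
    · let T : Matrix ι ι ℂ →ₗ[ℂ] ℂ :=
        { toFun := fun x => ω (fun a => x.mulVec (u a)) v + ω u (fun a => x.mulVec (v a))
          map_add' := fun x y => by
            have e1 : ∀ z : Fin N → ι → ℂ, (fun a => (x + y).mulVec (z a)) =
                (fun a => x.mulVec (z a)) + fun a => y.mulVec (z a) := fun z =>
              funext fun a => Matrix.add_mulVec x y _
            rw [e1, e1, map_add, map_add, LinearMap.add_apply]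
            ring
          map_smul' := fun s x => by
            have e1 : ∀ z : Fin N → ι → ℂ, (fun a => (s • x).mulVec (z a)) =
                s • fun a => x.mulVec (z a) := fun z =>
              funext fun a => Matrix.smul_mulVec s x _
            rw [e1, e1, map_smul, map_smul, LinearMap.smul_apply, RingHom.id_apply, smul_eq_mul,
              smul_eq_mul, smul_eq_mul]
            ring }
      have h3 := mult_ext M H hR T (ω u v) (fun x hx hxx hm => by
        have h4 := h2 _ ⟨_, mem_gm.2 ⟨hx, hxx, hm⟩, rfl⟩ u v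
        rw [← h4]
        have e1 : ∀ z : Fin N → ι → ℂ, (fun a => x.mulVec (z a)) =
            dg N (Matrix.toLin' x) z := fun z => funext fun a => (Matrix.toLin'_apply x _).symm
        change ω (fun a => x.mulVec (u a)) v + ω u (fun a => x.mulVec (v a)) = _
        rw [e1, e1]) x hx κ hκ
      exact h3
  · rintro ⟨h1, h2⟩
    refine ⟨h1, ?_⟩
    rintro _ ⟨_, ⟨⟨x, hx, rfl⟩, hee, hm⟩, rfl⟩ u v
    have h5 : x.transpose * ψ + ψ * x = (1 : ℂ) • ψ := bil_sim.2 fun u v => by
      rw [one_mul]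
      exact hm u v
    have h6 := h2 x hx 1 h5 u v
    rw [one_mul] at h6
    rw [← h6]
    have e1 : ∀ z : Fin N → ι → ℂ, (fun a => x.mulVec (z a)) =
        dg N (Matrix.toLin' x) z := fun z => funext fun a => (Matrix.toLin'_apply x _).symm
    rw [e1, e1]
    rfl

/-- The equivariant maps. -/
theorem equi_iff (M : Mono R c Φ g ψ) (H : IsFrob R Φ) (hR : Rk R Φ r) {N m : ℕ}
    {h : (Fin N → ι → ℂ) →ₗ[ℂ] (Fin m → ι → ℂ)} :
    (∀ e ∈ Gm g ψ, ∀ w, h (dg N e w) = dg m e (h w)) ↔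
      ∀ x ∈ g, ∀ w a, h (fun b => x.mulVec (w b)) a = x.mulVec (h w a) := by
  have e1 : ∀ (x : Matrix ι ι ℂ) (k : ℕ) (z : Fin k → ι → ℂ), (fun a => x.mulVec (z a)) =
      dg k (Matrix.toLin' x) z := fun x k z => funext fun a => (Matrix.toLin'_apply x _).symm
  constructor
  · intro h1 x hx w a
    have C := tc_of_mono M H hR
    have h2 := le_span_gs C.car C.sim C.sp (mem_endo.2 hx)
    have h3 : ∀ z ∈ Submodule.span ℂ (Gs (bil ψ) (endo g)), h (dg N z w) = dg m z (h w) := by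
      intro z hz
      induction hz using Submodule.span_induction with
      | mem e he => exact h1 e he w
      | zero => rw [map_zero, map_zero, LinearMap.zero_apply, LinearMap.zero_apply, map_zero]
      | add a b _ _ ha hb =>
        rw [map_add, map_add, LinearMap.add_apply, LinearMap.add_apply, map_add, ha, hb]
      | smul s a _ ha =>
        rw [map_smul, map_smul, LinearMap.smul_apply, LinearMap.smul_apply, map_smul, ha]
    have h4 := congrFun (h3 _ h2) a
    rw [← e1, ← e1] at h4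
    exact h4
  · rintro h1 _ ⟨⟨x, hx, rfl⟩, hee, hm⟩ w
    funext a
    have h4 := h1 x hx w a
    have h5 : (fun b => x.mulVec (w b)) = dg N (Matrix.toLin' x) w := e1 x N w
    rw [h5] at h4
    refine h4.trans ?_
    exact (Matrix.toLin'_apply x _).symm

end Pool.Agent.FQV
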