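import Pool.Agent.FQV.TateE

/-!
# The structure of the Tate classes: the theorem
-/

set_option autoImplicit false
set_option linter.unusedSectionVars false

namespace Pool.Agent.FQV

open Module
open Pool.Agent.CoprimeSig (ratM endo mem_endo)
open Pool.Agent.OddRank (Stable Irreducible Semisimple FormOn)
open Pool.Agent.TateOdd (Su Paired Inv2 Adm NoRel Div prods WeilTerm dg)
open Pool.Agent.GHCFull (AForm der der_apply)

variable {ι : Type} [Fintype ι] [DecidableEq ι] {E : Type} [CommRing E]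
  {R : E →+* Matrix ι ι ℚ} {Φ : Matrix ι ι ℚ} {σ : E →+* ℂ} {c : E → E}
  {g : Submodule ℂ (Matrix ι ι ℂ)} {ψ : Matrix ι ι ℂ} {n r : (E →+* ℂ) → ℕ}

private theorem ne_conj {σ σ' : E →+* ℂ} :
    (∃ t, σ t ≠ starRingEnd ℂ (σ' t)) ↔ σ ≠ cp starRingAut σ' := by
  constructor
  · rintro ⟨t, ht⟩ h
    apply ht
    rw [h]
    rfl
  · intro h
    by_contra hcon
    push Not at hcon
    exact h (RingHom.ext hcon)

/-- Families of irreducible subspaces and of homomorphisms. -/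
theorem fam_iff (M : Mono R c Φ g ψ) (H : IsFrob R Φ) (hR : Rk R Φ r)
    (hc : ∀ (σ : E →+* ℂ) a, σ (c a) = starRingEnd ℂ (σ a))
    (hn : ∀ (σ : E →+* ℂ), ∀ W ≤ HS R σ, Irr g W → finrank ℂ W = n σ)
    {m : ℕ} {W : Fin m → Submodule ℂ (ι → ℂ)} {s : Fin m → (E →+* ℂ)}
    (hW : ∀ a, W a ≤ HS R (s a) ∧ Irr g (W a)) :
    ((∀ a b, ¬ Paired (Gm g ψ) (W a) (W b)) ∧
      ∀ e ∈ Gm g ψ, 2 * ∑ a, finrank ℂ ((W a).map e) = ∑ a, finrank ℂ (W a)) ↔
      Balanced n r m s := by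
  unfold Balanced
  refine and_congr ?_ (bal_iff M H hR hn W (fun a => (hW a).2) fun a => (hW a).1)
  refine ⟨fun h a b => ne_conj.2 fun h1 => ?_, fun h a b h1 => ?_⟩
  · refine h b a (paired_of_conj M hc (hW b).2 (hW a).2 (hW b).1 ?_)
    rw [← h1]
    exact (hW a).1
  · exact ne_conj.1 (h a b)
      (conj_of_paired M H hR hc (hW a).2 (hW b).2 (hW a).1 (hW b).1 h1)

/-- **The structure of the Tate classes.** -/
theorem tate_structure [Algebra ℚ E] [Module.Finite ℚ E] [IsReduced E] (M : Mono R c Φ g ψ)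
    (H : IsFrob R Φ) (hR : Rk R Φ r) (hc : ∀ (σ : E →+* ℂ) a, σ (c a) = starRingEnd ℂ (σ a))
    (hn : ∀ (σ : E →+* ℂ), ∀ W ≤ HS R σ, Irr g W → finrank ℂ W = n σ)
    (hsp : ∀ σ : E →+* ℂ, (∀ a, starRingEnd ℂ (σ a) = σ a) → ∀ W ≤ HS R σ, Irr g W →
      SympOn g ψ W)
    (hmem : ∀ N : Matrix ι ι ℂ, (∀ Z : Matrix ι ι ℂ, (∀ x ∈ g, x * Z = Z * x) → N * Z = Z * N) →
      TrC R r g ψ N 0 → N ∈ g) :
    (∀ N j f, IsTate g ψ N j f ↔ f ∈ weilProducts R n r g ψ N j) ∧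
      ((∀ N j f, IsTate g ψ N j f → f ∈ products g ψ N j) ↔
        ¬ ∃ (m : ℕ) (s : Fin m → (E →+* ℂ)), 0 < m ∧ Balanced n r m s) := by
  have U := su_mono M H hR hc hsp hmem
  refine ⟨fun N j f => ?_, ?_⟩
  · rw [isTate_iff M H hR, U.tate_iff N j f]
    have h1 : {η | WeilTerm (Gm g ψ) N (2 * j) η} =
        {η : (Fin N → ι → ℂ) [⋀^Fin (2 * j)]→ₗ[ℂ] ℂ | ∃ (l d : ℕ) (_ : 2 * l + d = 2 * j)
        (ω : Fin l → (Fin N → ι → ℂ) →ₗ[ℂ] (Fin N → ι → ℂ) →ₗ[ℂ] ℂ)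
        (θ : (Fin N → ι → ℂ) [⋀^Fin d]→ₗ[ℂ] ℂ),
        (∀ i, IsDivisor g ψ N (ω i)) ∧ IsWeil R n r g N d θ ∧
        ∀ w : Fin (2 * j) → Fin N → ι → ℂ,
        η w = ∑ σ : Equiv.Perm (Fin (2 * j)), ((Equiv.Perm.sign σ : ℤ) : ℂ) *
          ((∏ i : Fin l, ω i (w (σ ⟨2 * i, by omega⟩)) (w (σ ⟨2 * i + 1, by omega⟩))) *
            θ fun i : Fin d => w (σ ⟨2 * l + i, by omega⟩))} := by
      ext η
      constructor
      · rintro ⟨l, m, d, hk, ω, W, h, vol, h1, h2, h3, h4, h5, h6, h7, h8⟩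
        have h2' : ∀ a, Irr g (W a) := fun a => (irr_iff M H hR).1 (h2 a)
        choose s hs using fun a => exists_sig M (h2' a)
        refine ⟨l, d, hk, ω, vol.compLinearMap h, fun i => (isDivisor_iff M H hR).1 (h1 i),
          ⟨m, s, W, h, vol, (fam_iff M H hR hc hn fun a => ⟨hs a, h2' a⟩).1 ⟨h3, h5⟩, ?_,
            fun a => ⟨hs a, h2' a⟩, h6, (equi_iff M H hR).1 h7, rfl⟩, h8⟩
        rw [h4]
        exact Finset.sum_congr rfl fun a _ => hn _ _ (hs a) (h2' a)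
      · rintro ⟨l, d, hk, ω, θ, h1, ⟨m, s, W, h, vol, h2, h3, h4, h5, h6, rfl⟩, h8⟩
        obtain ⟨e1, e2⟩ := (fam_iff M H hR hc hn h4).2 h2
        refine ⟨l, m, d, hk, ω, W, h, vol, fun i => (isDivisor_iff M H hR).2 (h1 i),
          fun a => (irr_iff M H hR).2 (h4 a).2, e1, ?_, e2, h5, (equi_iff M H hR).2 h6, h8⟩
        rw [h3]
        exact Finset.sum_congr rfl fun a _ => (hn _ _ (h4 a).1 (h4 a).2).symm
    rw [h1]
    rfl
  · have h2 := U.criterion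
    have h3 : (∀ N j f, IsTate g ψ N j f → f ∈ products g ψ N j) ↔
        ∀ (N j : ℕ) (f : AForm (Fin N → ι → ℂ) (2 * j)),
          (∀ e ∈ Gm g ψ, der (dg N e) (2 * j) f = (j : ℂ) • f) →
          f ∈ prods (Div (dg N '' Gm g ψ)) j := by
      refine forall_congr' fun N => forall_congr' fun j => forall_congr' fun f => ?_
      rw [isTate_iff M H hR]
      have h4 : products g ψ N j = prods (Div (dg N '' Gm g ψ)) j := by
        unfold products prods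
        congr 1
        ext η
        constructor
        · rintro ⟨ω, hω, hη⟩
          exact ⟨ω, fun i => (isDivisor_iff M H hR).2 (hω i), hη⟩
        · rintro ⟨ω, hω, hη⟩
          exact ⟨ω, fun i => (isDivisor_iff M H hR).1 (hω i), hη⟩
      rw [h4]
    rw [h3, h2]
    constructor
    · rintro hno ⟨m, s, hm, hb⟩
      have h4 : ∀ a, ∃ W ≤ HS R (s a), Irr g W := by
        intro a
        obtain ⟨W, p, v, F⟩ := exists_frame M H hR.tr.idem (s a)
        exact ⟨W, F.le, F.irr⟩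
      choose W hW1 hW2 using h4
      obtain ⟨e1, e2⟩ := (fam_iff M H hR hc hn fun a => ⟨hW1 a, hW2 a⟩).2 hb
      exact hno m W hm (fun a => (irr_iff M H hR).2 (hW2 a)) e1 e2
    · intro hno m W hm h4 h5 h6
      have h2' : ∀ a, Irr g (W a) := fun a => (irr_iff M H hR).1 (h4 a)
      choose s hs using fun a => exists_sig M (h2' a)
      exact hno ⟨m, s, hm, (fam_iff M H hR hc hn fun a => ⟨hs a, h2' a⟩).1 ⟨h5, h6⟩⟩

end Pool.Agent.FQV
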