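import Pool.Agent.FQV.PowK2
import Pool.Agent.FQV.Star
import Pool.Agent.FQ.Index
import Pool.Agent.FQGrp.Fib
import Pool.Agent.FQGrp.Fib2

/-!
# All roots for an embedding are connected (PACKAGE FV8)

The model is `all_cn` in `Pool/Agent/FQU/TransK.lean`, which is proved (the case of a real field `K`, powers of `τ₀` transitive, balanced ranks); take its
proof and change the following.

(1) Instead of `Γ = ℂ ≃+* ℂ` use the group `G = (ℂ ≃+* ℂ) × Subgroup.zpowers (starRingAut : ℂ ≃+* ℂ)`, which acts on `X` (`XX R Φ σ`) and `B` (`BB σ`) by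
`(γ, δ) • x = γ • (δ • x)`. This is an action because the actions of `γ` and of `starRingAut` commute on `B` (`cp_star hc`) and on `X` (`cp_star`, and
`mv_star H`: the elements of a component are roots, `Rts`); for `δ = starRingAut ^ k` by induction, or because `starRingAut * starRingAut = 1` and so every element of
`zpowers` is `1` or `starRingAut`. (Another way to organise this: `MulAction` of `G` from the two commuting homomorphisms to `Equiv.Perm`: `MonoidHom.noncommCoprod`,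
or directly.) The subgroup is `A = (fixG K).prod ⊤`, `A.index = (fixG K).index * 1` (`Subgroup.index_prod`), `Pool.Agent.FQ.index_fixG`.

(2) `x₀ b = (b, tch R Φ b (ev Φ e₀))`: `Ns R Φ e₀ b` for all `b ∈ B` by `ns_of_r M₀ H hI C₀ (hpos b _)`. `(τ₀, 1) • x₀ b = x₀ (τ₀ • b)` by `coch_tch`,
`(1, starRingAut) • x₀ b = x₀ (starRingAut • b)` by `tch_star` (`trace_of_mult M₀ C₀.mult`). `Cyc τ₀ σ` now says that for `b, b' ∈ B` there is `k` with `b' = τ₀ ^ k • b` or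
`b' = starRingAut • τ₀ ^ k • b`; so there is `a ∈ A` with `a • b = b'` and `a • x₀ b = x₀ b'` (`a = (τ₀ ^ k, 1)` or `(τ₀ ^ k, starRingAut)`). `comp_orbit` needs `Ns R Φ e₀ σ'` for
all `σ'` with `SK _ σ'` (from `hpos`; `SK` is an equivalence relation). So `G` is transitive on `X` (`hA`, `htr` in the model).

(3) `hcop`: as in the model, but with `card_pow2` instead of `card_pow` (`htr'`: the elements of `G` in the proof of transitivity must be in `ℂ ≃+* ℂ`; but for two components `c₁`, `c₂` for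
the same `b ∈ B` there are `γ, γ'` and `b₁, b₂` with `x_i = γ_i • x₀ b_i`, and `a ∈ A` with `a • x₀ b₁ = x₀ b₂`, where `a = τ₀ ^ k` or `starRingAut * τ₀ ^ k` as an
automorphism of `ℂ`; so already `ℂ ≃+* ℂ` alone is transitive on `X`). So `Fintype.card (Om R Φ b) = m ^ k'` and, with `e = e₀`, `sm R Φ b (ev Φ e₀) = m ^ (k' - 1) * s`, which is `r b`
(`sm_coch M₀ H hI C₀ b`), so `m ^ (k' - 1) ∣ r b`. `r b = r σ` or `r b + r σ = card = m ^ k'` (`r_cyc M₀ H hI C₀ hcyc`), so `m ^ (k' - 1) ∣ r σ` in both cases (`SK.card`). So `hnum` applies if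
`k' ≥ 2`.

(4) `fib_transitive` for `G`, `A`; `hA` of it from (2).

(5) the sections for `(γ, δ) ∈ A`: from `hHT γ` we get `τ, g, ψ, e, M, C` as in the model; `Ns R Φ e b` for all `b ∈ B` by `ns_of_r M H hI C (hpos b _)`. `s b = (b, tch R Φ b (ev Φ e))`;
`γ • s b = s (γ • b)` as in the model and `starRingAut • s b = s (starRingAut • b)` by `tch_star` (`trace_of_mult M C.mult`), so it holds for `(γ, δ)`.

(6) `jordan_fib` and the conclusion as in the model. -/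

set_option autoImplicit false
set_option linter.unusedSectionVars false

namespace Pool.Agent.FQV

open Module
open Pool.Agent.CoprimeSig (ratM)
open Pool.Agent.FQA (TD Cn)
open Pool.Agent.PrimePow.CC (Rf Rt Lat)
open Pool.Agent.FQ (expG fixG)

variable {ι : Type} [Fintype ι] [DecidableEq ι] {E : Type} [CommRing E]
  {R : E →+* Matrix ι ι ℚ} {Φ : Matrix ι ι ℚ} {c : E → E} {r : (E →+* ℂ) → ℕ}

/-- Homomorphisms with the same kernel as `σ`. -/
private def BB (σ : E →+* ℂ) : Type := {σ' : E →+* ℂ // SK σ σ'}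

/-- Pairs whose first component has the same kernel as `σ`. -/
private def XX (R : E →+* Matrix ι ι ℚ) (Φ : Matrix ι ι ℚ) (σ : E →+* ℂ) : Type :=
  {q : Prs R Φ // SK σ q.1.1}

private theorem ker_cp {σ σ' : E →+* ℂ} (h : SK σ σ') (γ : ℂ ≃+* ℂ) : SK σ (cp γ σ') := fun a => by
  rw [cp_apply, map_eq_zero_iff γ γ.injective]
  exact h a

@[reducible] private def actX (hΦ : ⨆ μ, Module.End.eigenspace (Matrix.toLin' (ratM Φ)) μ = ⊤)
    (σ : E →+* ℂ) : MulAction (ℂ ≃+* ℂ) (XX R Φ σ) where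
  smul γ q := ⟨⟨(cp γ q.1.1.1, mv γ '' q.1.1.2), isCmp_mv hΦ γ q.1.2⟩, ker_cp q.2 γ⟩
  one_smul q := Subtype.ext (Subtype.ext (Prod.ext rfl
    ((Set.image_congr fun F _ => (mv_one : mv 1 F = F)).trans (Set.image_id' _))))
  mul_smul γ γ' q := Subtype.ext (Subtype.ext (Prod.ext rfl (by
    change mv (γ * γ') '' q.1.1.2 = mv γ '' (mv γ' '' q.1.1.2)
    rw [Set.image_image]
    rfl)))

@[reducible] private def actB (σ : E →+* ℂ) : MulAction (ℂ ≃+* ℂ) (BB σ) where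
  smul γ b := ⟨cp γ b.1, ker_cp b.2 γ⟩
  one_smul _ := rfl
  mul_smul _ _ _ := rfl

private theorem iter_pow (τ₀ : ℂ ≃+* ℂ) : ∀ (k : ℕ) (z : ℂ), (τ₀ ^ k) z = (τ₀ ^[k]) z := by
  intro k
  induction k with
  | zero =>
    intro z
    rfl
  | succ k ih =>
    intro z
    rw [pow_succ, Function.iterate_succ_apply, ← ih]
    rfl

/-- The action of the product with an infinite cyclic group, given by an element whose action
commutes with the action of the group. -/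
@[reducible] private def actZ {Γ X : Type*} [Group Γ] [MulAction Γ X] (s : Γ)
    (hs : ∀ (γ : Γ) (x : X), s • γ • x = γ • s • x) : MulAction (Γ × Multiplicative ℤ) X :=
  MulAction.compHom X (MonoidHom.noncommCoprod (MulAction.toPermHom Γ X)
    (zpowersHom _ (MulAction.toPermHom Γ X s)) fun γ n => by
      have h : Commute (MulAction.toPermHom Γ X γ) (MulAction.toPermHom Γ X s) :=
        Equiv.ext fun x => (hs γ x).symm
      exact h.zpow_right _)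

private theorem actZ_smul {Γ X : Type*} [Group Γ] [MulAction Γ X] (s : Γ)
    (hs : ∀ (γ : Γ) (x : X), s • γ • x = γ • s • x) (γ : Γ) (n : Multiplicative ℤ) (x : X) :
    (actZ s hs).toSMul.smul (γ, n) x = γ • (s ^ n.toAdd) • x := by
  change γ • ((MulAction.toPermHom Γ X s) ^ n.toAdd) x = _
  rw [← map_zpow]
  rfl

/-- Jordan's theorem for fibrations and a subgroup, with an additional element. -/
private theorem jordan_star {Γ X B : Type*} [Group Γ] [MulAction Γ X] [MulAction Γ B] [Finite X]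
    (π : X → B) (hπ : ∀ (γ : Γ) (x : X), π (γ • x) = γ • π x) (s : Γ)
    (hsX : ∀ (γ : Γ) (x : X), s • γ • x = γ • s • x)
    (hsB : ∀ (γ : Γ) (b : B), s • γ • b = γ • s • b)
    (htr : ∀ x y : X, ∃ γ : Γ, γ • x = y) (A : Subgroup Γ) (h0 : A.index ≠ 0)
    (hA : ∀ x y : X, ∃ a ∈ A, ∃ k : ℤ, a • (s ^ k) • π x = π y)
    (hcop : ∀ x : X, A.index.Coprime (Nat.card {y : X // π y = π x}))
    (hsec : ∀ γ ∈ A, ∃ f : B → X, (∀ b, π (f b) = b) ∧ (∀ b, γ • f b = f (γ • b)) ∧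
      ∀ b, s • f b = f (s • b)) : Function.Injective π := by
  let iX : MulAction (Γ × Multiplicative ℤ) X := actZ s hsX
  let iB : MulAction (Γ × Multiplicative ℤ) B := actZ s hsB
  have eX : ∀ (γ : Γ) (n : Multiplicative ℤ) (x : X),
      ((γ, n) : Γ × Multiplicative ℤ) • x = γ • (s ^ n.toAdd) • x := actZ_smul s hsX
  have eB : ∀ (γ : Γ) (n : Multiplicative ℤ) (x : B),
      ((γ, n) : Γ × Multiplicative ℤ) • x = γ • (s ^ n.toAdd) • x := actZ_smul s hsB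
  have hπ' : ∀ (a : Γ × Multiplicative ℤ) (x : X), π (a • x) = a • π x := by
    rintro ⟨γ, n⟩ x
    rw [eX, eB, hπ, hπ]
  have hidx : (A.prod (⊤ : Subgroup (Multiplicative ℤ))).index = A.index := by
    rw [Subgroup.index_prod, Subgroup.index_top, mul_one]
  have hAtr := Pool.Agent.FQGrp.fib_transitive (Γ := Γ × Multiplicative ℤ) (X := X) (B := B)
    π hπ' (fun x y => by
      obtain ⟨γ, hγ⟩ := htr x y
      refine ⟨(γ, 1), ?_⟩
      rw [eX, toAdd_one, zpow_zero, one_smul, hγ]) (A.prod ⊤) (by rwa [hidx]) (fun x y => by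
      obtain ⟨a, ha, k, hk⟩ := hA x y
      refine ⟨(a, Multiplicative.ofAdd k), ⟨ha, Subgroup.mem_top _⟩, ?_⟩
      rw [eB, toAdd_ofAdd, hk]) (by rwa [hidx])
  refine Pool.Agent.FQGrp.jordan_fib (Γ := A.prod (⊤ : Subgroup (Multiplicative ℤ))) (X := X)
    (B := B) π (fun a x => hπ' a x) (fun x y => by
      obtain ⟨a, ha, h1⟩ := hAtr x y
      exact ⟨⟨a, ha⟩, h1⟩) ?_
  rintro ⟨⟨γ, n⟩, hγ⟩
  obtain ⟨f, hf1, hf2, hf3⟩ := hsec γ hγ.1
  let S : Subgroup Γ :=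
    { carrier := {δ | ∀ b, δ • f b = f (δ • b)}
      mul_mem' := fun {a b} ha hb x => by rw [mul_smul, mul_smul, hb, ha]
      one_mem' := fun x => by rw [one_smul, one_smul]
      inv_mem' := fun {a} ha x => by
        rw [inv_smul_eq_iff, ha, smul_inv_smul] }
  have hS : ∀ (m : ℤ) (b : B), (s ^ m) • f b = f ((s ^ m) • b) := fun m =>
    S.zpow_mem (show s ∈ S from hf3) m
  refine ⟨f, hf1, fun b => ?_⟩
  change ((γ, n) : Γ × Multiplicative ℤ) • f b = f (((γ, n) : Γ × Multiplicative ℤ) • b)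
  rw [eX, eB, hS, hf2]

/-- **All roots for an embedding are connected.** -/
theorem all_cn [Algebra ℚ E] [Module.Finite ℚ E] [IsReduced E] (H : IsFrob R Φ) (hI : Idem Φ)
    (hc : ∀ (σ : E →+* ℂ) a, σ (c a) = starRingEnd ℂ (σ a))
    (K : Subfield ℂ) [FiniteDimensional ℚ K]
    (hHT : ∀ γ ∈ fixG K, ∀ S : Finset ℂ, (∀ x ∈ S, IsAlgebraic ℚ x) →
      ∃ τ : ℂ ≃+* ℂ, (∀ x ∈ S, τ x = γ x) ∧ ∃ (g : Submodule ℂ (Matrix ι ι ℂ))
        (ψ e : Matrix ι ι ℂ), Mono R c Φ g ψ ∧ Coch R Φ r g ψ τ e)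
    {τ₀ : ℂ ≃+* ℂ} (hτ₀ : τ₀ ∈ fixG K) {g₀ : Submodule ℂ (Matrix ι ι ℂ)} {ψ₀ e₀ : Matrix ι ι ℂ}
    (M₀ : Mono R c Φ g₀ ψ₀) (C₀ : Coch R Φ r g₀ ψ₀ τ₀ e₀)
    (hspan : tor Φ ≤ Submodule.span ℂ (orbit Φ g₀ e₀)) (σ : E →+* ℂ) (hcyc : Cyc τ₀ σ)
    (hpos : ∀ σ' : E →+* ℂ, SK σ σ' → 0 < r σ' ∧ r σ' < Fintype.card (Om R Φ σ'))
    (hnum : ∀ m k : ℕ, 2 ≤ k → Fintype.card (Om R Φ σ) = m ^ k → m ^ (k - 1) ∣ r σ →
      Nat.Coprime (finrank ℚ K) k)
    (h h' : Om R Φ σ → ℚ) (hh : Rt (Ls R Φ σ) h) (hh' : Rt (Ls R Φ σ) h') :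
    Cn (Ls R Φ σ) h h' := by
  classical
  have hns₀ : ∀ σ' : E →+* ℂ, SK σ σ' → Ns R Φ e₀ σ' := fun σ' h1 =>
    ns_of_r M₀ H hI C₀ (hpos σ' h1)
  -- the actions
  let iX : MulAction (ℂ ≃+* ℂ) (XX R Φ σ) := actX H.diag σ
  let iB : MulAction (ℂ ≃+* ℂ) (BB σ) := actB σ
  have : Finite (Prs R Φ) := finite_prs R Φ
  have : Finite (XX R Φ σ) := Subtype.finite
  have hsX : ∀ (γ : ℂ ≃+* ℂ) (x : XX R Φ σ),
      (starRingAut : ℂ ≃+* ℂ) • γ • x = γ • (starRingAut : ℂ ≃+* ℂ) • x := by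
    rintro γ ⟨⟨⟨σ₁, c₁⟩, hc₁⟩, hσ₁⟩
    refine Subtype.ext (Subtype.ext (Prod.ext (cp_star hc γ σ₁).symm ?_))
    change mv starRingAut '' (mv γ '' c₁) = mv γ '' (mv starRingAut '' c₁)
    rw [Set.image_image, Set.image_image]
    obtain ⟨F₀, -, h2⟩ := hc₁
    refine Set.image_congr fun F hF => (mv_star (σ := σ₁) H γ ?_).symm
    have h3 : F ∈ cmp R Φ σ₁ F₀ := by
      rw [← h2]
      exact hF
    exact h3.1
  have hsB : ∀ (γ : ℂ ≃+* ℂ) (b : BB σ),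
      (starRingAut : ℂ ≃+* ℂ) • γ • b = γ • (starRingAut : ℂ ≃+* ℂ) • b := fun γ b =>
    Subtype.ext (cp_star hc γ b.1).symm
  -- the base points
  let x₀ : BB σ → XX R Φ σ := fun b =>
    ⟨⟨(b.1, tch R Φ b.1 (ev Φ e₀)), tch_isCmp M₀ H hI C₀.mem C₀.idem (hns₀ b.1 b.2)⟩, b.2⟩
  have hx₀ : ∀ b, τ₀ • x₀ b = x₀ (τ₀ • b) := fun b =>
    Subtype.ext (Subtype.ext (Prod.ext rfl
      (coch_tch M₀ H hI C₀ (hns₀ _ (ker_cp b.2 τ₀)))))
  have hs₀ : ∀ b, (starRingAut : ℂ ≃+* ℂ) • x₀ b = x₀ ((starRingAut : ℂ ≃+* ℂ) • b) := fun b =>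
    Subtype.ext (Subtype.ext (Prod.ext rfl
      (tch_star H C₀.mem C₀.idem (trace_of_mult M₀ C₀.mult) b.1)))
  have hpow : ∀ (k : ℕ) (b : BB σ), (τ₀ ^ k) • x₀ b = x₀ ((τ₀ ^ k) • b) := by
    intro k
    induction k with
    | zero =>
      intro b
      rw [pow_zero, one_smul, one_smul]
    | succ k ih =>
      intro b
      rw [pow_succ, mul_smul, hx₀, ih, mul_smul]
  have hcycB : ∀ b b' : BB σ, ∃ k : ℕ, (τ₀ ^ k) • b = b' ∨
      (starRingAut : ℂ ≃+* ℂ) • (τ₀ ^ k) • b = b' := by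
    intro b b'
    obtain ⟨k, hk | hk⟩ := hcyc b.1 b'.1 b.2 b'.2
    · refine ⟨k, Or.inl (Subtype.ext ?_)⟩
      ext a
      rw [hk a, ← iter_pow]
      rfl
    · refine ⟨k, Or.inr (Subtype.ext ?_)⟩
      ext a
      rw [hk a, ← iter_pow]
      rfl
  have hA : ∀ x : XX R Φ σ, ∃ (γ : ℂ ≃+* ℂ) (b : BB σ), x = γ • x₀ b := by
    rintro ⟨⟨⟨σ₁, c₁⟩, hc₁⟩, hσ₁⟩
    have hσ₁' : SK σ σ₁ := hσ₁
    obtain ⟨γ, σ', h1, h2⟩ := comp_orbit (σ := σ₁) M₀ H hI C₀.mem C₀.idem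
      (fun σ' h3 => hns₀ σ' fun a => (h3 a).trans (hσ₁' a)) hspan hc₁
    have h1' : σ₁ = cp γ σ' := h1
    have h3 : SK σ σ' := by
      intro a
      rw [← hσ₁' a, h1', cp_apply, map_eq_zero_iff γ γ.injective]
    exact ⟨γ, ⟨σ', h3⟩, Subtype.ext (Subtype.ext (Prod.ext h1 h2))⟩
  have htr : ∀ x y : XX R Φ σ, ∃ γ : ℂ ≃+* ℂ, γ • x = y := by
    intro x y
    obtain ⟨γ, b₁, rfl⟩ := hA x
    obtain ⟨γ', b₂, rfl⟩ := hA y
    obtain ⟨k, hk | hk⟩ := hcycB b₁ b₂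
    · refine ⟨γ' * τ₀ ^ k * γ⁻¹, ?_⟩
      rw [mul_smul, mul_smul, inv_smul_smul, hpow, hk]
    · refine ⟨γ' * (starRingAut * τ₀ ^ k) * γ⁻¹, ?_⟩
      rw [mul_smul, mul_smul, inv_smul_smul, mul_smul, hpow, hs₀, hk]
  -- the projection
  let π : XX R Φ σ → BB σ := fun x => ⟨x.1.1.1, x.2⟩
  have hπ : ∀ (γ : ℂ ≃+* ℂ) (x : XX R Φ σ), π (γ • x) = γ • π x := fun _ _ => rfl
  -- the cardinality of the fibres
  have hcop : ∀ x : XX R Φ σ, (fixG K).index.Coprime (Nat.card {y : XX R Φ σ // π y = π x}) := by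
    intro x
    rw [Pool.Agent.FQ.index_fixG]
    obtain ⟨b, hb⟩ : ∃ b, b = π x := ⟨_, rfl⟩
    have e1 : Nat.card {y : XX R Φ σ // π y = π x} =
        Nat.card {c : Set (ℂ → ℚ) // IsCmp R Φ b.1 c} := by
      rw [← hb]
      refine Nat.card_congr
        { toFun := fun y => ⟨y.1.1.1.2, ?_⟩
          invFun := fun c => ⟨⟨⟨(b.1, c.1), c.2⟩, b.2⟩, rfl⟩
          left_inv := ?_
          right_inv := fun c => rfl }
      · have h1 : y.1.1.1.1 = b.1 := congrArg Subtype.val y.2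
        have h2 := y.1.1.2
        rwa [h1] at h2
      · rintro ⟨⟨⟨⟨σ', c'⟩, h1⟩, h2⟩, h3⟩
        have h4 : σ' = b.1 := congrArg Subtype.val h3
        exact Subtype.ext (Subtype.ext (Subtype.ext (Prod.ext h4.symm rfl)))
    have hfin : Finite {y : XX R Φ σ // π y = π x} := Subtype.finite
    have hne : Nat.card {y : XX R Φ σ // π y = π x} ≠ 0 := by
      have : Nonempty {y : XX R Φ σ // π y = π x} := ⟨⟨x, rfl⟩⟩
      exact Nat.card_pos.ne'
    rw [e1] at hne ⊢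
    have htr' : ∀ c c' : Set (ℂ → ℚ), IsCmp R Φ b.1 c → IsCmp R Φ b.1 c' →
        ∃ γ : ℂ ≃+* ℂ, cp γ b.1 = b.1 ∧ mv γ '' c = c' := by
      intro c₁ c₂ h1 h2
      obtain ⟨γ, hγ⟩ := htr ⟨⟨(b.1, c₁), h1⟩, b.2⟩ ⟨⟨(b.1, c₂), h2⟩, b.2⟩
      have h3 : ((cp γ b.1, mv γ '' c₁) : (E →+* ℂ) × Set (ℂ → ℚ)) = (b.1, c₂) :=
        congrArg (fun y : XX R Φ σ => y.1.1) hγ
      exact ⟨γ, congrArg Prod.fst h3, congrArg Prod.snd h3⟩
    obtain ⟨m, hm, hm2⟩ := card_pow2 M₀ H hI b.1 htr'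
    have h5 : Fintype.card (Om R Φ σ) = Fintype.card (Om R Φ b.1) := (SK.card b.2).symm
    rcases Nat.lt_or_ge (Nat.card {c : Set (ℂ → ℚ) // IsCmp R Φ b.1 c}) 2 with h6 | h6
    · have h7 : Nat.card {c : Set (ℂ → ℚ) // IsCmp R Φ b.1 c} = 1 := by omega
      rw [h7]
      exact Nat.coprime_one_right _
    · refine hnum m _ h6 (h5.trans hm) ?_
      obtain ⟨s, hs⟩ := hm2 e₀ C₀.mem C₀.idem (hns₀ b.1 b.2)
      rw [sm_coch M₀ H hI C₀] at hs
      have h8 : m ^ (Nat.card {c : Set (ℂ → ℚ) // IsCmp R Φ b.1 c} - 1) ∣ r b.1 :=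
        ⟨s, by exact_mod_cast hs⟩
      rcases r_cyc M₀ H hI C₀ hcyc b.2 with h9 | h9
      · rwa [h9] at h8
      · refine (Nat.dvd_add_right h8).1 ?_
        rw [h9, h5, hm]
        exact pow_dvd_pow _ (Nat.sub_le _ _)
  have hfr : (fixG K).index ≠ 0 := by
    rw [Pool.Agent.FQ.index_fixG]
    exact Module.finrank_pos.ne'
  -- the sections
  have hsec : ∀ γ ∈ fixG K, ∃ s : BB σ → XX R Φ σ, (∀ b, π (s b) = b) ∧
      (∀ b, γ • s b = s (γ • b)) ∧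
      ∀ b, (starRingAut : ℂ ≃+* ℂ) • s b = s ((starRingAut : ℂ ≃+* ℂ) • b) := by
    intro γ hγ
    let b := Module.finBasis ℚ E
    have hfin : (⋃ σ : E →+* ℂ, (Om R Φ σ ∪ Set.range fun i => σ (b i))).Finite :=
      Set.finite_iUnion fun σ => (finite_Om R Φ σ).union (Set.finite_range _)
    obtain ⟨τ, hτ, g, ψ, e, M, C⟩ := hHT γ hγ hfin.toFinset (by
      intro x hx
      rw [Set.Finite.mem_toFinset, Set.mem_iUnion] at hx
      obtain ⟨σ, hx | ⟨i, rfl⟩⟩ := hx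
      · exact eig_alg hx
      · have h1 : IsAlgebraic ℚ (b i) := Algebra.IsAlgebraic.isAlgebraic _
        exact h1.algHom σ.toRatAlgHom)
    have hS1 : ∀ (σ : E →+* ℂ), ∀ μ ∈ Om R Φ σ, τ μ = γ μ := fun σ μ hμ =>
      hτ μ (by
        rw [Set.Finite.mem_toFinset, Set.mem_iUnion]
        exact ⟨σ, Or.inl hμ⟩)
    have hS2 : ∀ σ : E →+* ℂ, cp γ σ = cp τ σ := by
      intro σ
      have h1 : (cp γ σ).toRatAlgHom.toLinearMap = (cp τ σ).toRatAlgHom.toLinearMap := by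
        refine b.ext fun i => ?_
        change γ (σ (b i)) = τ (σ (b i))
        refine (hτ _ ?_).symm
        rw [Set.Finite.mem_toFinset, Set.mem_iUnion]
        exact ⟨σ, Or.inr ⟨i, rfl⟩⟩
      ext a
      exact LinearMap.congr_fun h1 a
    have hnse : ∀ σ' : E →+* ℂ, SK σ σ' → Ns R Φ e σ' := fun σ' h1 =>
      ns_of_r M H hI C (hpos σ' h1)
    refine ⟨fun b => ⟨⟨(b.1, tch R Φ b.1 (ev Φ e)),
      tch_isCmp M H hI C.mem C.idem (hnse b.1 b.2)⟩, b.2⟩, fun _ => rfl,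
      fun b => Subtype.ext (Subtype.ext (Prod.ext rfl ?_)),
      fun b => Subtype.ext (Subtype.ext (Prod.ext rfl
        (tch_star H C.mem C.idem (trace_of_mult M C.mult) b.1)))⟩
    change mv γ '' tch R Φ b.1 (ev Φ e) = tch R Φ (cp γ b.1) (ev Φ e)
    rw [hS2 b.1, ← coch_tch M H hI C (hnse _ (ker_cp b.2 τ))]
    exact Set.image_congr fun F hF => mv_congr (hS1 b.1) hF.1
  have hinj := jordan_star (Γ := ℂ ≃+* ℂ) (X := XX R Φ σ) (B := BB σ) π hπ starRingAut hsX hsB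
    htr (fixG K) hfr (fun x y => by
      obtain ⟨k, hk | hk⟩ := hcycB (π x) (π y)
      · exact ⟨τ₀ ^ k, pow_mem hτ₀ k, 0, by rw [zpow_zero, one_smul, hk]⟩
      · exact ⟨τ₀ ^ k, pow_mem hτ₀ k, 1, by rw [zpow_one, ← hsB, hk]⟩) hcop hsec
  -- the conclusion
  obtain ⟨F, hF, rfl⟩ := exists_rts hh
  obtain ⟨F', hF', rfl⟩ := exists_rts hh'
  have h1 : (⟨⟨(σ, cmp R Φ σ F), F, hF, rfl⟩, fun _ => Iff.rfl⟩ : XX R Φ σ) =
      ⟨⟨(σ, cmp R Φ σ F'), F', hF', rfl⟩, fun _ => Iff.rfl⟩ := hinj rfl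
  have h2 : cmp R Φ σ F = cmp R Φ σ F' := congrArg (fun q : XX R Φ σ => q.1.1.2) h1
  have h3 : F' ∈ cmp R Φ σ F := by
    rw [h2]
    exact ⟨hF', Cns.refl⟩
  exact h3.2

end Pool.Agent.FQV
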